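import Pool.Agent.PQ.Defs

/-!
# PQ / LNF: basic facts on linear forms and substitutions
-/

namespace Pool.Agent.PQ

open MvPolynomial Matrix

section

variable {R : Type*} [CommRing R]

theorem eval_lin (v p : Fin 3 → R) : eval p (lin v) = v ⬝ᵥ p := by
  simp [lin, dotProduct]

theorem lin_hom (v : Fin 3 → R) : (lin v).IsHomogeneous 1 := by
  refine IsHomogeneous.sum _ _ _ fun i _ => ?_
  simpa using (isHomogeneous_C (Fin 3) (v i)).mul (isHomogeneous_X R i)

theorem lin_add (v w : Fin 3 → R) : lin (v + w) = lin v + lin w := by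
  simp [lin, add_mul, Finset.sum_add_distrib]

theorem lin_smul (c : R) (v : Fin 3 → R) : lin (c • v) = C c * lin v := by
  simp [lin, Finset.mul_sum, mul_assoc]

theorem lin_neg (v : Fin 3 → R) : lin (-v) = -lin v := by
  simp [lin, Finset.sum_neg_distrib]

theorem lin_zero : lin (0 : Fin 3 → R) = 0 := by
  simp [lin]

theorem lin_single (i : Fin 3) : lin (Pi.single i (1 : R)) = X i := by
  simp [lin, Pi.single_apply]

theorem map_lin {S : Type*} [CommRing S] (φ : R →+* S) (v : Fin 3 → R) :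
    map φ (lin v) = lin fun i => φ (v i) := by
  simp [lin]

theorem sb_X (g : Matrix (Fin 3) (Fin 3) R) (i : Fin 3) : sb g (X i) = lin (g i) := by
  simp [sb]

theorem sb_C (g : Matrix (Fin 3) (Fin 3) R) (c : R) : sb g (C c) = C c := by
  simp [sb]

theorem sb_lin (g : Matrix (Fin 3) (Fin 3) R) (v : Fin 3 → R) : sb g (lin v) = lin (v ᵥ* g) := by
  simp only [lin, map_sum, map_mul, sb_C, sb_X, vecMul, dotProduct, Finset.mul_sum]
  rw [Finset.sum_comm]
  refine Finset.sum_congr rfl fun j _ => ?_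
  rw [Finset.sum_mul]
  refine Finset.sum_congr rfl fun i _ => ?_
  rw [mul_assoc]

theorem sb_sb (g h : Matrix (Fin 3) (Fin 3) R) (F : P3 R) : sb g (sb h F) = sb (h * g) F := by
  have : (sb g).comp (sb h) = sb (h * g) := by
    refine algHom_ext fun i => ?_
    rw [AlgHom.comp_apply, sb_X, sb_lin, sb_X]
    rfl
  rw [← this, AlgHom.comp_apply]

theorem sb_one (F : P3 R) : sb (1 : Matrix (Fin 3) (Fin 3) R) F = F := by
  have : sb (1 : Matrix (Fin 3) (Fin 3) R) = AlgHom.id R (P3 R) := by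
    refine algHom_ext fun i => ?_
    rw [sb_X, AlgHom.id_apply]
    have : (1 : Matrix (Fin 3) (Fin 3) R) i = Pi.single i 1 := by
      ext j
      simp [Matrix.one_apply, Pi.single_apply, eq_comm]
    rw [this, lin_single]
  rw [this, AlgHom.id_apply]

theorem sb_inv {k : Type*} [Field k] (g : Matrix (Fin 3) (Fin 3) k) (hg : g.det ≠ 0) (F : P3 k) :
    sb g⁻¹ (sb g F) = F := by
  rw [sb_sb, Matrix.mul_nonsing_inv _ (isUnit_iff_ne_zero.2 hg), sb_one]

theorem sb_inv' {k : Type*} [Field k] (g : Matrix (Fin 3) (Fin 3) k) (hg : g.det ≠ 0) (F : P3 k) :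
    sb g (sb g⁻¹ F) = F := by
  rw [sb_sb, Matrix.nonsing_inv_mul _ (isUnit_iff_ne_zero.2 hg), sb_one]

theorem eval_sb (g : Matrix (Fin 3) (Fin 3) R) (F : P3 R) (p : Fin 3 → R) :
    eval p (sb g F) = eval (g *ᵥ p) F := by
  have : (eval p).comp (sb g : P3 R →+* P3 R) = eval (g *ᵥ p) := by
    refine ringHom_ext (fun r => ?_) fun i => ?_
    · simp
    · rw [RingHom.comp_apply]
      change eval p (sb g (X i)) = _
      rw [sb_X, eval_lin, eval_X]
      rfl
  rw [← this, RingHom.comp_apply]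
  rfl

theorem map_sb {S : Type*} [CommRing S] (φ : R →+* S) (g : Matrix (Fin 3) (Fin 3) R) (F : P3 R) :
    map φ (sb g F) = sb (g.map φ) (map φ F) := by
  have : (map φ).comp (sb g : P3 R →+* P3 R) = (sb (g.map φ) : P3 S →+* P3 S).comp (map φ) := by
    refine ringHom_ext (fun r => ?_) fun i => ?_
    · simp only [RingHom.comp_apply, RingHom.coe_coe, sb_C, map_C]
    · simp only [RingHom.comp_apply, RingHom.coe_coe, sb_X, map_lin, map_X]
      rfl
  exact congrArg (fun f => f F) this

theorem sb_hom (g : Matrix (Fin 3) (Fin 3) R) {F : P3 R} {n : ℕ} (hF : F.IsHomogeneous n) :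
    (sb g F).IsHomogeneous n := by
  have h := hF.aeval (fun i => lin (g i)) (n := 1) fun i => lin_hom (g i)
  rwa [one_mul] at h

/-- chain rule -/
theorem pderiv_sb (g : Matrix (Fin 3) (Fin 3) R) (F : P3 R) (j : Fin 3) :
    pderiv j (sb g F) = ∑ i, C (g i j) * sb g (pderiv i F) := by
  induction F using MvPolynomial.induction_on with
  | C a => simp [sb_C]
  | add p q hp hq => simp [hp, hq, mul_add, Finset.sum_add_distrib]
  | mul_X p i hp =>
    have h1 : pderiv j (lin (g i)) = C (g i j) := by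
      simp [lin, pderiv_X, Pi.single_apply]
    rw [map_mul, sb_X, Derivation.leibniz, hp, h1, smul_eq_mul, smul_eq_mul]
    have h2 : ∀ i', sb g (pderiv i' (p * X i)) =
        (if i' = i then sb g p else 0) + sb g (pderiv i' p) * lin (g i) := by
      intro i'
      rw [Derivation.leibniz, smul_eq_mul, smul_eq_mul, pderiv_X, map_add, map_mul, map_mul, sb_X]
      by_cases h : i' = i
      · subst h
        simp
        ring
      · rw [if_neg h, Pi.single_eq_of_ne (Ne.symm h)]
        simp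
        ring
    simp only [h2, mul_add, Finset.sum_add_distrib]
    congr 1
    · simp [mul_comm]
    · rw [Finset.mul_sum]
      refine Finset.sum_congr rfl fun i' _ => ?_
      ring

theorem map_hom {S : Type*} [CommRing S] (φ : R →+* S) {F : P3 R} {n : ℕ} (hF : F.IsHomogeneous n) :
    (map φ F).IsHomogeneous n := hF.map φ

theorem pderiv_map' {S : Type*} [CommRing S] (φ : R →+* S) (F : P3 R) (j : Fin 3) :
    pderiv j (map φ F) = map φ (pderiv j F) := pderiv_map

/-- Euler: a homogeneous form is determined at scaled points -/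
theorem eval_smul_hom {F : P3 R} {n : ℕ} (hF : F.IsHomogeneous n) (c : R) (p : Fin 3 → R) :
    eval (c • p) F = c ^ n * eval p F := by
  rw [eval_eq, eval_eq, Finset.mul_sum]
  refine Finset.sum_congr rfl fun d hd => ?_
  have hd' : ∑ i, d i = n := by
    have := hF (mem_support_iff.1 hd)
    rw [← this, Finsupp.weight_apply, Finsupp.sum_fintype]
    · simp
    · simp
  have h2 : ∏ i, (c • p) i ^ d i = c ^ n * ∏ i, p i ^ d i := by
    simp only [Pi.smul_apply, smul_eq_mul, mul_pow, Finset.prod_mul_distrib]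
    rw [Finset.prod_pow_eq_pow_sum, hd']
  have h3 : ∏ i ∈ d.support, (c • p) i ^ d i = ∏ i, (c • p) i ^ d i := by
    refine Finset.prod_subset (Finset.subset_univ _) fun i _ hi => ?_
    rw [Finsupp.notMem_support_iff.1 hi, pow_zero]
  have h4 : ∏ i ∈ d.support, p i ^ d i = ∏ i, p i ^ d i := by
    refine Finset.prod_subset (Finset.subset_univ _) fun i _ hi => ?_
    rw [Finsupp.notMem_support_iff.1 hi, pow_zero]
  rw [h3, h4, h2]
  ring

/-! ### smoothness -/

theorem SF.map {S : Type*} [CommRing S] (φ : R →+* S) {F : P3 R} (h : SF F) : SF (map φ F) := by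
  obtain ⟨N, hN⟩ := h
  refine ⟨N, fun i => ?_⟩
  have h1 := Ideal.mem_map_of_mem (MvPolynomial.map φ) (hN i)
  rw [Ideal.map_span, map_pow, map_X] at h1
  refine Ideal.span_mono ?_ h1
  rintro _ ⟨x, hx | ⟨j, rfl⟩, rfl⟩
  · rw [Set.mem_singleton_iff.1 hx]
    exact Or.inl rfl
  · exact Or.inr ⟨j, pderiv_map⟩

theorem SF.ns {k : Type*} [Field k] {F : P3 k} (h : SF F) : NS F := by
  obtain ⟨N, hN⟩ := h
  intro p hp hF
  by_contra hc
  push Not at hc
  apply hp
  ext i
  have h1 : Ideal.span ({F} ∪ Set.range fun j : Fin 3 => pderiv j F) ≤ RingHom.ker (eval p) := by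
    rw [Ideal.span_le]
    rintro x (hx | ⟨j, rfl⟩)
    · rw [Set.mem_singleton_iff.1 hx]
      exact hF
    · exact hc j
  have h2 := h1 (hN i)
  rw [RingHom.mem_ker, map_pow, eval_X] at h2
  exact eq_zero_of_pow_eq_zero h2

theorem ns_sb {k : Type*} [Field k] {g : Matrix (Fin 3) (Fin 3) k} (hg : g.det ≠ 0) {F : P3 k}
    (h : NS F) : NS (sb g F) := by
  intro p hp hF
  have hq : g *ᵥ p ≠ 0 := by
    intro h0
    apply hp
    have := congrArg (fun q => g⁻¹ *ᵥ q) h0
    simpa [Matrix.mulVec_mulVec, Matrix.nonsing_inv_mul _ (isUnit_iff_ne_zero.2 hg)] using this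
  rw [eval_sb] at hF
  obtain ⟨i, hi⟩ := h _ hq hF
  by_contra hc
  push Not at hc
  apply hi
  have h1 : (fun j => eval (g *ᵥ p) (pderiv j F)) ᵥ* g = 0 := by
    ext j
    have := hc j
    rw [pderiv_sb, map_sum] at this
    simp only [map_mul, eval_C, eval_sb] at this
    simp only [vecMul, dotProduct, Pi.zero_apply]
    rw [← this]
    exact Finset.sum_congr rfl fun i _ => mul_comm _ _
  have h2 := congrArg (fun q => q ᵥ* g⁻¹) h1
  simp only [Matrix.vecMul_vecMul, Matrix.mul_nonsing_inv _ (isUnit_iff_ne_zero.2 hg), Matrix.vecMul_one,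
    Matrix.zero_vecMul] at h2
  exact congrFun h2 i

/-! ### bitangents -/

theorem Bit.map {S : Type*} [CommRing S] (φ : R →+* S) {F : P3 R} {v : Fin 3 → R} {Q : P3 R}
    (h : Bit F v Q) : Bit (MvPolynomial.map φ F) (fun i => φ (v i)) (MvPolynomial.map φ Q) := by
  obtain ⟨h1, T, hT, hF⟩ := h
  refine ⟨h1.map φ, MvPolynomial.map φ T, hT.map φ, ?_⟩
  rw [hF, map_add, map_mul, map_pow, map_lin]

theorem map_cross {S : Type*} [CommRing S] (φ : R →+* S) (v w : Fin 3 → R) :
    crossProduct (fun i => φ (v i)) (fun i => φ (w i)) = fun i => φ (crossProduct v w i) := by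
  ext i
  fin_cases i <;> simp [crossProduct]

theorem Opp.map {S : Type*} [CommRing S] (φ : R →+* S) {v v' : Fin 3 → R} {Q Q' : P3 R}
    (h : Opp v Q v' Q') :
    Opp (fun i => φ (v i)) (MvPolynomial.map φ Q) (fun i => φ (v' i)) (MvPolynomial.map φ Q') := by
  rw [Opp, map_cross]
  have h1 : ∀ P : P3 R, eval (fun i => φ (crossProduct v v' i)) (MvPolynomial.map φ P) =
      φ (eval (crossProduct v v') P) := fun P => by
    rw [eval_map]
    exact (eval₂_comp φ (crossProduct v v') P).symm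
  rw [h1, h1, h, map_neg]

/-- the form and its gradient at a point of the bitangent -/
theorem Bit.eval {F : P3 R} {v : Fin 3 → R} {Q S : P3 R} (h : F = Q ^ 2 + lin v * S) (p : Fin 3 → R)
    (hp : v ⬝ᵥ p = 0) : MvPolynomial.eval p F = MvPolynomial.eval p Q ^ 2 := by
  rw [h, map_add, map_mul, map_pow, eval_lin, hp, zero_mul, add_zero]

theorem Bit.grad {F : P3 R} {v : Fin 3 → R} {Q S : P3 R} (h : F = Q ^ 2 + lin v * S) (p : Fin 3 → R)
    (hp : v ⬝ᵥ p = 0) (hQ : MvPolynomial.eval p Q = 0) (i : Fin 3) :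
    MvPolynomial.eval p (pderiv i F) = v i * MvPolynomial.eval p S := by
  have h1 : pderiv i (lin v) = C (v i) := by
    simp [lin, pderiv_X, Pi.single_apply]
  rw [h, map_add, Derivation.leibniz, Derivation.leibniz_pow, h1]
  simp [eval_lin, hp, hQ]
  ring

/-- at the zeros of `Q` on the bitangent the cofactor does not vanish -/
theorem bns {k : Type*} [Field k] {F : P3 k} (hNS : NS F) {v : Fin 3 → k} {Q S : P3 k}
    (h : F = Q ^ 2 + lin v * S) (p : Fin 3 → k) (hp0 : p ≠ 0) (hp : v ⬝ᵥ p = 0)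
    (hQ : MvPolynomial.eval p Q = 0) : MvPolynomial.eval p S ≠ 0 := by
  intro hS
  obtain ⟨i, hi⟩ := hNS p hp0 (by rw [Bit.eval h p hp, hQ, zero_pow two_ne_zero])
  exact hi (by rw [Bit.grad h p hp hQ, hS, mul_zero])

end

end Pool.Agent.PQ
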