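import Pool.Agent.PQ.LNF
import Pool.Agent.Helper11.DerExt

/-!
# PQ / DVE

Derivations.  `dva`: `A = k[X]`, `Algebra A M` by `X ↦ a` (injective since `a` is transcendental), `d = derivative` followed by the
algebra map; `Pool.Agent.Helper11.exists_derivation_extend`.
`cfd D Q`: apply `D` to the coefficients.  `dve`: induction on `Q` (`induction_on`: constants, sums, products with `X i`; `cfd` is
additive, `cfd (C a * monomial) ...`).  `dva_map`: for a form with coefficients in `k` the first term vanishes.
-/

namespace Pool.Agent.PQ

open MvPolynomial Matrix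

/-- apply `D` to the coefficients -/
noncomputable def cfd {k M : Type*} [Field k] [Field M] [Algebra k M] (D : Derivation k M M) (Q : P3 M) : P3 M :=
  ∑ m ∈ Q.support, monomial m (D (coeff m Q))

theorem dva {k M : Type*} [Field k] [CharZero k] [Field M] [Algebra k M] (a : M) (ha : Transcendental k a) :
    ∃ D : Derivation k M M, D a = 1 := by
  let _ : Algebra (Polynomial k) M := (Polynomial.aeval a).toRingHom.toAlgebra
  have halg : ∀ f : Polynomial k, algebraMap (Polynomial k) M f = Polynomial.aeval a f := fun _ => rfl
  have hst : IsScalarTower k (Polynomial k) M := by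
    apply IsScalarTower.of_algebraMap_eq
    intro c
    rw [halg, Polynomial.algebraMap_eq, Polynomial.aeval_C]
  have hinj : Function.Injective (algebraMap (Polynomial k) M) := transcendental_iff_injective.mp ha
  have hf : FaithfulSMul (Polynomial k) M := (faithfulSMul_iff_algebraMap_injective _ _).mpr hinj
  let d : Derivation k (Polynomial k) M :=
    (Algebra.linearMap (Polynomial k) M).compDer Polynomial.derivative'
  obtain ⟨D, hD⟩ := Pool.Agent.Helper11.exists_derivation_extend (k := k) (A := Polynomial k)
    (E := M) d
  refine ⟨D, ?_⟩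
  have h1 := hD Polynomial.X
  rw [halg, Polynomial.aeval_X] at h1
  rw [h1]
  show algebraMap (Polynomial k) M (Polynomial.derivative Polynomial.X) = 1
  rw [Polynomial.derivative_X, map_one]

private theorem DVE_coeff {k M : Type*} [Field k] [Field M] [Algebra k M] (D : Derivation k M M)
    (Q : P3 M) (m : Fin 3 →₀ ℕ) : coeff m (cfd D Q) = D (coeff m Q) := by
  classical
  rw [cfd, coeff_sum]
  simp only [coeff_monomial]
  rw [Finset.sum_ite_eq']
  split_ifs with h
  · rfl
  · rw [notMem_support_iff.mp h, map_zero]

theorem cfd_hom {k M : Type*} [Field k] [Field M] [Algebra k M] (D : Derivation k M M) {Q : P3 M} {n : ℕ}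
    (hQ : Q.IsHomogeneous n) : (cfd D Q).IsHomogeneous n := by
  intro m hm
  apply hQ
  intro h0
  apply hm
  rw [DVE_coeff, h0, map_zero]

private theorem DVE_add {k M : Type*} [Field k] [Field M] [Algebra k M] (D : Derivation k M M)
    (P Q : P3 M) : cfd D (P + Q) = cfd D P + cfd D Q := by
  ext m
  rw [coeff_add, DVE_coeff, DVE_coeff, DVE_coeff, coeff_add, map_add]

private theorem DVE_C {k M : Type*} [Field k] [Field M] [Algebra k M] (D : Derivation k M M)
    (a : M) : cfd D (C a : P3 M) = C (D a) := by
  classical
  ext m
  rw [DVE_coeff, coeff_C, coeff_C]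
  split_ifs
  · rfl
  · exact map_zero D

private theorem DVE_X {k M : Type*} [Field k] [Field M] [Algebra k M] (D : Derivation k M M)
    (Q : P3 M) (i : Fin 3) : cfd D (Q * X i) = cfd D Q * X i := by
  classical
  ext m
  rw [DVE_coeff, coeff_mul_X', coeff_mul_X']
  split_ifs
  · rw [DVE_coeff]
  · exact map_zero D

theorem dve {k M : Type*} [Field k] [Field M] [Algebra k M] (D : Derivation k M M) (Q : P3 M)
    (p : Fin 3 → M) : D (eval p Q) = eval p (cfd D Q) + ∑ i, eval p (pderiv i Q) * D (p i) := by
  induction Q using MvPolynomial.induction_on with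
  | C a =>
    rw [DVE_C]
    simp
  | add P Q hP hQ =>
    rw [DVE_add]
    simp only [map_add, hP, hQ, add_mul, Finset.sum_add_distrib]
    ring
  | mul_X Q j hQ =>
    rw [DVE_X, map_mul, eval_X, Derivation.leibniz, hQ]
    have h1 : ∀ i, eval p (pderiv i (Q * X j)) * D (p i) =
        p j * (eval p (pderiv i Q) * D (p i)) + (if i = j then eval p Q * D (p i) else 0) := by
      intro i
      rw [Derivation.leibniz, pderiv_X]
      by_cases h : i = j
      · subst h
        simp
        ring
      · rw [if_neg h, Pi.single_eq_of_ne (Ne.symm h)]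
        simp
        ring
    simp only [h1]
    rw [Finset.sum_add_distrib, ← Finset.mul_sum, Finset.sum_ite_eq', if_pos (Finset.mem_univ _),
      map_mul, eval_X]
    simp only [smul_eq_mul]
    ring

theorem dve_map {k M : Type*} [Field k] [Field M] [Algebra k M] (D : Derivation k M M) (F : P3 k)
    (p : Fin 3 → M) : D (eval p (map (algebraMap k M) F)) =
      ∑ i, eval p (pderiv i (map (algebraMap k M) F)) * D (p i) := by
  rw [dve]
  have h : cfd D (map (algebraMap k M) F) = 0 := by
    ext m
    rw [DVE_coeff, coeff_map, Derivation.map_algebraMap, coeff_zero]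
  rw [h, map_zero, zero_add]

end Pool.Agent.PQ
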