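import Pool.Agent.PQ.MPB

/-!
# PQ / OPX

Signs for the bitangents `X r`, `y r`.  At a point `p` with `p r = 0` (or `(y r) ⬝ p = 0`) `Ay y r` vanishes.  `{r, t, u} = {0, 1, 2}`: at the
intersection of two lines with indices `r ≠ t` both `Ay y r`, `Ay y t` vanish and `QX y r`, `QX y t` are `± Ay y u` with opposite signs:
`QX y 0 = A₁ - A₂`, `QX y 1 = A₂ - A₀`, `QX y 2 = A₀ - A₁`.
(`v × v'` is orthogonal to `v` and `v'`: `dot_self_cross`, `dot_cross_self` in Mathlib.)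
-/

namespace Pool.Agent.PQ

open MvPolynomial Matrix

private theorem OPX_eval {R : Type*} [CommRing R] (y : Fin 3 → Fin 3 → R) (r : Fin 3)
    (p : Fin 3 → R) : eval p (Ay y r) = p r * (y r ⬝ᵥ p) := by
  rw [Ay, map_mul, eval_X, eval_lin]

private theorem OPX_key {R : Type*} [CommRing R] (y : Fin 3 → Fin 3 → R) (r t : Fin 3) (h : r ≠ t)
    (p : Fin 3 → R) (hr : eval p (Ay y r) = 0) (ht : eval p (Ay y t) = 0) :
    eval p (QX y r) = -eval p (QX y t) := by
  have e : ∀ r, eval p (QX y r) = eval p (Ay y (r + 1)) - eval p (Ay y (r + 2)) := fun r => by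
    rw [QX, map_sub]
  have e0 : eval p (QX y 0) = eval p (Ay y 1) - eval p (Ay y 2) := e 0
  have e1 : eval p (QX y 1) = eval p (Ay y 2) - eval p (Ay y 0) := e 1
  have e2 : eval p (QX y 2) = eval p (Ay y 0) - eval p (Ay y 1) := e 2
  have hf : ∀ r : Fin 3, r = 0 ∨ r = 1 ∨ r = 2 := by decide
  rcases hf r with rfl | rfl | rfl <;> rcases hf t with rfl | rfl | rfl <;>
    first
    | exact absurd rfl h
    | simp only [e0, e1, e2, hr, ht, sub_zero, zero_sub, neg_neg, neg_sub]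

private theorem OPX_x {R : Type*} [CommRing R] (y : Fin 3 → Fin 3 → R) (r : Fin 3)
    (p : Fin 3 → R) (h : Pi.single r 1 ⬝ᵥ p = 0) : eval p (Ay y r) = 0 := by
  rw [single_dotProduct, one_mul] at h
  rw [OPX_eval, h, zero_mul]

private theorem OPX_y {R : Type*} [CommRing R] (y : Fin 3 → Fin 3 → R) (r : Fin 3)
    (p : Fin 3 → R) (h : y r ⬝ᵥ p = 0) : eval p (Ay y r) = 0 := by
  rw [OPX_eval, h, mul_zero]

theorem opp_xx {R : Type*} [CommRing R] (y : Fin 3 → Fin 3 → R) (r t : Fin 3) (h : r ≠ t) :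
    Opp (Pi.single r 1) (QX y r) (Pi.single t 1) (QX y t) :=
  OPX_key y r t h _ (OPX_x y r _ (dot_self_cross _ _)) (OPX_x y t _ (dot_cross_self _ _))

theorem opp_xy {R : Type*} [CommRing R] (y : Fin 3 → Fin 3 → R) (r t : Fin 3) (h : r ≠ t) :
    Opp (Pi.single r 1) (QX y r) (y t) (QX y t) :=
  OPX_key y r t h _ (OPX_x y r _ (dot_self_cross _ _)) (OPX_y y t _ (dot_cross_self _ _))

theorem opp_yy {R : Type*} [CommRing R] (y : Fin 3 → Fin 3 → R) (r t : Fin 3) (h : r ≠ t) :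
    Opp (y r) (QX y r) (y t) (QX y t) :=
  OPX_key y r t h _ (OPX_y y r _ (dot_self_cross _ _)) (OPX_y y t _ (dot_cross_self _ _))

end Pool.Agent.PQ
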