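import Pool.Agent.PQ.LNF

/-!
# PQ / BIN

Binary forms on a line.

`bin_zero`: let `e, f` be independent in `{p | v ⬝ p = 0}` (dimension at least 2).  If `Q e = 0` take `e`.  Otherwise `s ↦ Q (s e + f)` is a
polynomial of degree `n` in `s` with leading coefficient `Q e` (`Q` homogeneous), it has a root `s` (`IsAlgClosed`), take `s e + f`.
`bin`: suppose `a` is not a multiple of `v`.  Let `e ≠ 0` on the line with `Q e = 0` (`bin_zero`); by `h1`, `h2` `a ⬝ e = 0`; let
`f` complete `e` to a basis of the line; `a ⬝ f ≠ 0` (otherwise `a` vanishes on the line, so it is a multiple of `v`).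
`Q (s e + t f) = t (α s + β t)`.  `h1`: `t (α s + β t) E(s e + t f) = t (a ⬝ f) S(s e + t f)` for all `s, t`; for `t ≠ 0` cancel `t`;
with `s = 1` both sides are polynomials in `t` equal for all `t ≠ 0`, so also at `t = 0` (`k` infinite):
`α E e = (a ⬝ f) S e ≠ 0`, so `α ≠ 0`.  At `p = - β e + α f ≠ 0`: `Q p = 0`, `0 = (a ⬝ f) S p`, contradiction to `h2`.
(Polynomials in `t`: compose with `Polynomial.aeval`/`MvPolynomial.aeval (fun i => C (e i) + C (f i) * X)`.)
-/

namespace Pool.Agent.PQ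

open MvPolynomial Matrix

section tools

variable {k : Type*} [Field k]

/-- the restriction of a form to the affine line `e + t f` -/
noncomputable def binRest (e f : Fin 3 → k) (P : P3 k) : Polynomial k :=
  aeval (fun i => Polynomial.C (e i) + Polynomial.C (f i) * Polynomial.X) P

theorem binRest_eval (e f : Fin 3 → k) (P : P3 k) (t : k) :
    (binRest e f P).eval t = eval (e + t • f) P := by
  have h : (Polynomial.evalRingHom t).comp
      ((aeval (fun i => Polynomial.C (e i) + Polynomial.C (f i) * Polynomial.X) :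
        P3 k →ₐ[k] Polynomial k) : P3 k →+* Polynomial k) = eval (e + t • f) := by
    refine ringHom_ext (fun r => ?_) fun i => ?_
    · simp
    · rw [RingHom.comp_apply]
      change Polynomial.eval t (aeval _ (X i)) = _
      rw [aeval_X, eval_X, Polynomial.eval_add, Polynomial.eval_mul, Polynomial.eval_C,
        Polynomial.eval_C, Polynomial.eval_X, Pi.add_apply, Pi.smul_apply, smul_eq_mul,
        mul_comm]
  rw [← h]
  rfl

/-- two forms which agree on `e + t f` for all `t ≠ 0` agree at `e` -/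
theorem bin_cont [Infinite k] (e f : Fin 3 → k) (P R : P3 k)
    (h : ∀ t : k, t ≠ 0 → eval (e + t • f) P = eval (e + t • f) R) : eval e P = eval e R := by
  have h1 : binRest e f P = binRest e f R := by
    refine Polynomial.eq_of_infinite_eval_eq _ _ ?_
    refine ((Set.finite_singleton (0 : k)).infinite_compl).mono fun t ht => ?_
    change (binRest e f P).eval t = (binRest e f R).eval t
    rw [binRest_eval, binRest_eval]
    exact h t ht
  have h2 := congrArg (Polynomial.eval 0) h1
  rwa [binRest_eval, binRest_eval, zero_smul, add_zero] at h2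

/-- cancelling a linear form which is not constant along `f` -/
theorem bin_cancel [Infinite k] (u : Fin 3 → k) (e f : Fin 3 → k) (P : P3 k) (hu : u ⬝ᵥ f ≠ 0)
    (h : ∀ t : k, (u ⬝ᵥ (e + t • f)) * eval (e + t • f) P = 0) : eval e P = 0 := by
  have h1 : binRest e f P = 0 := by
    refine Polynomial.eq_of_infinite_eval_eq _ _ ?_
    refine ((Set.finite_singleton (-(u ⬝ᵥ e) / (u ⬝ᵥ f))).infinite_compl).mono fun t ht => ?_
    change (binRest e f P).eval t = (0 : Polynomial k).eval t
    rw [binRest_eval, Polynomial.eval_zero]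
    refine (mul_eq_zero.1 (h t)).resolve_left fun h0 => ht ?_
    rw [dotProduct_add, dotProduct_smul, smul_eq_mul] at h0
    rw [Set.mem_singleton_iff, eq_div_iff hu]
    linear_combination h0
  have h2 := congrArg (Polynomial.eval 0) h1
  rwa [binRest_eval, zero_smul, add_zero, Polynomial.eval_zero] at h2

/-- a quadratic form on a combination of two vectors -/
theorem bin_quad (Q : P3 k) (hQ : Q.IsHomogeneous 2) (e f : Fin 3 → k) (s t : k) :
    eval (s • e + t • f) Q = s ^ 2 * eval e Q +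
      s * t * (eval (e + f) Q - eval e Q - eval f Q) + t ^ 2 * eval f Q := by
  simp only [eval_eq', Finset.mul_sum, ← Finset.sum_sub_distrib, ← Finset.sum_add_distrib]
  refine Finset.sum_congr rfl fun d hd => ?_
  have h1 : d 0 + d 1 + d 2 = 2 := by
    have h2 := hQ (mem_support_iff.1 hd)
    rw [Finsupp.weight_apply, Finsupp.sum_fintype _ _ (by simp)] at h2
    simpa [Fin.sum_univ_three] using h2
  simp only [Fin.prod_univ_three, Pi.add_apply, Pi.smul_apply, smul_eq_mul]
  have h2 : d 0 ≤ 2 := by omega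
  have h3 : d 1 ≤ 2 := by omega
  obtain ⟨a, ha⟩ : ∃ a, a = d 0 := ⟨_, rfl⟩
  obtain ⟨b, hb⟩ : ∃ b, b = d 1 := ⟨_, rfl⟩
  obtain ⟨c, hc⟩ : ∃ c, c = d 2 := ⟨_, rfl⟩
  rw [← ha, ← hb, ← hc] at h1 ⊢
  rw [← ha] at h2
  rw [← hb] at h3
  interval_cases a <;> interval_cases b <;> first
    | (exfalso; omega)
    | (have hc' : c = 0 := by omega
       subst hc'
       ring)
    | (have hc' : c = 1 := by omega
       subst hc'
       ring)
    | (have hc' : c = 2 := by omega
       subst hc'
       ring)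

/-- a linear form vanishing on the line `v` is a multiple of `v` -/
theorem bin_mult (v a : Fin 3 → k) (hv : v ≠ 0) (h : ∀ p, v ⬝ᵥ p = 0 → a ⬝ᵥ p = 0) :
    ∃ c : k, a = c • v := by
  obtain ⟨j, hj⟩ := Function.ne_iff.1 hv
  rw [Pi.zero_apply] at hj
  refine ⟨a j / v j, ?_⟩
  ext i
  have h1 : v ⬝ᵥ (Pi.single i 1 - (v i / v j) • Pi.single j 1 : Fin 3 → k) = 0 := by
    rw [dotProduct_sub, dotProduct_smul, dotProduct_single, dotProduct_single, smul_eq_mul,
      mul_one, mul_one, div_mul_cancel₀ _ hj, sub_self]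
  have h2 := h _ h1
  rw [dotProduct_sub, dotProduct_smul, dotProduct_single, dotProduct_single, smul_eq_mul,
    mul_one, mul_one, sub_eq_zero] at h2
  rw [h2, Pi.smul_apply, smul_eq_mul]
  ring

/-- bases of a line -/
theorem bin_ext (v e : Fin 3 → k) (hv : v ≠ 0) (he : e ≠ 0) (hve : v ⬝ᵥ e = 0) :
    ∃ f : Fin 3 → k, v ⬝ᵥ f = 0 ∧ (∀ s t : k, s • e + t • f = 0 → s = 0 ∧ t = 0) ∧
      ∀ p, v ⬝ᵥ p = 0 → ∃ s t : k, p = s • e + t • f := by
  obtain ⟨φ, hφ⟩ : ∃ φ : (Fin 3 → k) →ₗ[k] k, ∀ p, φ p = v ⬝ᵥ p :=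
    ⟨{ toFun := fun p => v ⬝ᵥ p
       map_add' := fun p q => dotProduct_add _ _ _
       map_smul' := fun c p => by simp [dotProduct_smul] }, fun p => rfl⟩
  have hφs : Function.Surjective φ := by
    obtain ⟨j, hj⟩ := Function.ne_iff.1 hv
    rw [Pi.zero_apply] at hj
    intro y
    refine ⟨Pi.single j (y / v j), ?_⟩
    rw [hφ, dotProduct_single, mul_div_cancel₀ _ hj]
  have h2 : Module.finrank k (LinearMap.ker φ) = 2 := by
    have h3 := LinearMap.finrank_range_add_finrank_ker φ
    rw [LinearMap.range_eq_top.2 hφs, finrank_top, Module.finrank_self,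
      Module.finrank_fin_fun] at h3
    omega
  have h3 : ∃ f ∈ LinearMap.ker φ, f ∉ Submodule.span k {e} := by
    by_contra hc
    push Not at hc
    have h4 := Submodule.finrank_mono (show LinearMap.ker φ ≤ Submodule.span k {e} from hc)
    have h5 := finrank_span_singleton (K := k) he
    omega
  obtain ⟨f, hf, hfe⟩ := h3
  rw [LinearMap.mem_ker, hφ] at hf
  have hind : ∀ s t : k, s • e + t • f = 0 → s = 0 ∧ t = 0 := by
    intro s t h
    have ht : t = 0 := by
      by_contra ht
      apply hfe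
      rw [Submodule.mem_span_singleton]
      refine ⟨-(s / t), ?_⟩
      have h6 : t • f = -(s • e) := by
        rw [eq_neg_iff_add_eq_zero, add_comm]
        exact h
      have h7 : f = t⁻¹ • (t • f) := by
        rw [smul_smul, inv_mul_cancel₀ ht, one_smul]
      rw [h7, h6, neg_smul, smul_neg, smul_smul]
      congr 2
      ring
    refine ⟨?_, ht⟩
    rw [ht, zero_smul, add_zero] at h
    exact (smul_eq_zero.1 h).resolve_right he
  refine ⟨f, hf, hind, ?_⟩
  have hli : LinearIndependent k ![(⟨e, by rw [LinearMap.mem_ker, hφ]; exact hve⟩ :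
      LinearMap.ker φ), (⟨f, by rw [LinearMap.mem_ker, hφ]; exact hf⟩ : LinearMap.ker φ)] := by
    rw [LinearIndependent.pair_iff]
    intro s t h
    exact hind s t (congrArg Subtype.val h)
  have hsp := hli.span_eq_top_of_card_eq_finrank (by rw [Fintype.card_fin, h2])
  intro p hp
  have hmem : (⟨p, by rw [LinearMap.mem_ker, hφ]; exact hp⟩ : LinearMap.ker φ) ∈
      Submodule.span k (Set.range ![(⟨e, by rw [LinearMap.mem_ker, hφ]; exact hve⟩ :
      LinearMap.ker φ), (⟨f, by rw [LinearMap.mem_ker, hφ]; exact hf⟩ : LinearMap.ker φ)]) := by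
    rw [hsp]
    exact Submodule.mem_top
  rw [Matrix.range_cons, Matrix.range_cons, Matrix.range_empty, Set.union_empty,
    Set.singleton_union, Submodule.mem_span_pair] at hmem
  obtain ⟨s, t, hst⟩ := hmem
  exact ⟨s, t, (congrArg Subtype.val hst).symm⟩

theorem bin_nz (v : Fin 3 → k) (hv : v ≠ 0) : ∃ e : Fin 3 → k, e ≠ 0 ∧ v ⬝ᵥ e = 0 := by
  obtain ⟨j, hj⟩ := Function.ne_iff.1 hv
  rw [Pi.zero_apply] at hj
  obtain ⟨i, hi⟩ : ∃ i : Fin 3, i ≠ j := exists_ne j
  refine ⟨Pi.single i 1 - (v i / v j) • Pi.single j 1, ?_, ?_⟩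
  · intro h
    have h1 := congrFun h i
    simp [Pi.single_eq_of_ne hi] at h1
  · rw [dotProduct_sub, dotProduct_smul, dotProduct_single, dotProduct_single, smul_eq_mul,
      mul_one, mul_one, div_mul_cancel₀ _ hj, sub_self]

end tools

theorem bin_zero {k : Type*} [Field k] [IsAlgClosed k] (v : Fin 3 → k) (Q : P3 k) (n : ℕ) (hn : 0 < n)
    (hQ : Q.IsHomogeneous n) : ∃ p : Fin 3 → k, p ≠ 0 ∧ v ⬝ᵥ p = 0 ∧ eval p Q = 0 := by
  have key : ∀ v : Fin 3 → k, v ≠ 0 → ∃ p : Fin 3 → k, p ≠ 0 ∧ v ⬝ᵥ p = 0 ∧ eval p Q = 0 := by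
    intro v hv
    obtain ⟨e, he, hve⟩ := bin_nz v hv
    obtain ⟨f, hf, hind, -⟩ := bin_ext v e hv he hve
    by_cases h0 : eval e Q = 0
    · exact ⟨e, he, hve, h0⟩
    have hdeg : (binRest f e Q).degree ≠ 0 := by
      intro hd
      obtain ⟨c, hc⟩ : ∃ c, binRest f e Q = Polynomial.C c :=
        ⟨_, Polynomial.eq_C_of_degree_eq_zero hd⟩
      have h1 : ∀ s : k, eval (f + s • e) Q = c := by
        intro s
        rw [← binRest_eval, hc, Polynomial.eval_C]
      have h2 : binRest e f Q = Polynomial.C c * Polynomial.X ^ n := by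
        refine Polynomial.eq_of_infinite_eval_eq _ _ ?_
        refine ((Set.finite_singleton (0 : k)).infinite_compl).mono fun t ht => ?_
        have ht' : t ≠ 0 := ht
        change (binRest e f Q).eval t = (Polynomial.C c * Polynomial.X ^ n).eval t
        rw [binRest_eval, Polynomial.eval_mul, Polynomial.eval_C, Polynomial.eval_pow,
          Polynomial.eval_X]
        have h3 : e + t • f = t • (f + t⁻¹ • e) := by
          rw [smul_add, smul_smul, mul_inv_cancel₀ ht', one_smul, add_comm]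
        rw [h3, eval_smul_hom hQ, h1, mul_comm]
      have h3 := congrArg (Polynomial.eval 0) h2
      rw [binRest_eval, zero_smul, add_zero, Polynomial.eval_mul, Polynomial.eval_pow,
        Polynomial.eval_X, zero_pow hn.ne', mul_zero] at h3
      exact h0 h3
    obtain ⟨s, hs⟩ := IsAlgClosed.exists_root _ hdeg
    rw [Polynomial.IsRoot.def, binRest_eval] at hs
    refine ⟨f + s • e, ?_, ?_, hs⟩
    · intro h
      have h4 := (hind s 1 (by rw [one_smul, add_comm]; exact h)).2
      exact one_ne_zero h4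
    · rw [dotProduct_add, dotProduct_smul, hf, hve, smul_zero, add_zero]
  by_cases hv : v = 0
  · obtain ⟨p, hp, -, hp2⟩ := key (Pi.single 0 1) (by
      intro h
      have := congrFun h 0
      simp at this)
    exact ⟨p, hp, by rw [hv, zero_dotProduct], hp2⟩
  · exact key v hv

theorem bin {k : Type*} [Field k] [IsAlgClosed k] (v a : Fin 3 → k) (hv : v ≠ 0) (Q E S : P3 k)
    (hQ : Q.IsHomogeneous 2) (hE : E.IsHomogeneous 2) (hS : S.IsHomogeneous 3)
    (h1 : ∀ p, v ⬝ᵥ p = 0 → eval p Q * eval p E = (a ⬝ᵥ p) * eval p S)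
    (h2 : ∀ p, p ≠ 0 → v ⬝ᵥ p = 0 → eval p Q = 0 → eval p S ≠ 0) : ∃ c : k, a = c • v := by
  have hinf : Infinite k := IsAlgClosed.instInfinite
  obtain ⟨e, he, hve, hQe⟩ := bin_zero v Q 2 two_pos hQ
  have hae : a ⬝ᵥ e = 0 := by
    have h3 := h1 e hve
    rw [hQe, zero_mul] at h3
    exact (mul_eq_zero.1 h3.symm).resolve_right (h2 e he hve hQe)
  obtain ⟨f, hf, hind, hspan⟩ := bin_ext v e hv he hve
  by_cases haf : a ⬝ᵥ f = 0
  · refine bin_mult v a hv fun p hp => ?_
    obtain ⟨s, t, rfl⟩ := hspan p hp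
    rw [dotProduct_add, dotProduct_smul, dotProduct_smul, hae, haf, smul_zero, smul_zero, add_zero]
  exfalso
  obtain ⟨α, hα⟩ : ∃ α, α = eval (e + f) Q - eval e Q - eval f Q := ⟨_, rfl⟩
  obtain ⟨β, hβ⟩ : ∃ β, β = eval f Q := ⟨_, rfl⟩
  have hquad : ∀ s t : k, eval (s • e + t • f) Q = t * (s * α + t * β) := by
    intro s t
    rw [bin_quad Q hQ e f s t, hα, hβ, hQe]
    ring
  -- `(α + β t) E = (a ⬝ f) S` at `e + t f`
  obtain ⟨w, hw⟩ : ∃ w : Fin 3 → k, w ⬝ᵥ e = 0 ∧ w ⬝ᵥ f = 1 :=
    ⟨(a ⬝ᵥ f)⁻¹ • a, by rw [smul_dotProduct, hae, smul_zero], by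
      rw [smul_dotProduct, smul_eq_mul, inv_mul_cancel₀ haf]⟩
  have h3 : eval e ((C α + C β * lin w) * E) = eval e (C (a ⬝ᵥ f) * S) := by
    refine bin_cont e f _ _ fun t ht => ?_
    have h4 : v ⬝ᵥ (e + t • f) = 0 := by
      rw [dotProduct_add, dotProduct_smul, hve, hf, smul_zero, add_zero]
    have h5 := h1 _ h4
    have h6 := hquad 1 t
    rw [one_smul] at h6
    rw [h6, dotProduct_add, dotProduct_smul, hae, smul_eq_mul, zero_add] at h5
    simp only [map_mul, map_add, eval_C, eval_lin, dotProduct_add, dotProduct_smul, hw.1, hw.2,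
      smul_eq_mul]
    apply mul_left_cancel₀ ht
    linear_combination h5
  simp only [map_mul, map_add, eval_C, eval_lin, hw.1, mul_zero, add_zero] at h3
  have hα0 : α ≠ 0 := by
    intro h0
    rw [h0, zero_mul] at h3
    exact (mul_ne_zero haf (h2 e he hve hQe)) h3.symm
  have hp0 : -β • e + α • f ≠ 0 := fun h => hα0 (hind _ _ h).2
  have hvp : v ⬝ᵥ (-β • e + α • f) = 0 := by
    rw [dotProduct_add, dotProduct_smul, dotProduct_smul, hve, hf, smul_zero, smul_zero, add_zero]
  have hQp : eval (-β • e + α • f) Q = 0 := by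
    rw [hquad]
    ring
  have h7 := h1 _ hvp
  rw [hQp, zero_mul, dotProduct_add, dotProduct_smul, dotProduct_smul, hae, smul_zero, zero_add,
    smul_eq_mul] at h7
  exact (mul_ne_zero (mul_ne_zero hα0 haf) (h2 _ hp0 hvp hQp)) h7.symm

end Pool.Agent.PQ
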