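import Pool.Agent.PQ.BTX
import Pool.Agent.PQ.BIN

/-!
# PQ / PRX

`prx_same`: if `y r = c • e_r`, the cofactor of `bit_x`, `lin (y r) * (Ay r - 2 Ay (r+1) - 2 Ay (r+2))`, vanishes on the line `X r = 0`; at a zero of
`QX y r` on this line (`bin_zero`) `bns` fails.  (The identity `RQ y = (QX y r)² + X r * (lin (y r) * (...))` by `ring`.)
`prx_diag`: if `y r r = 0` all three forms `Ay y s` vanish at the coordinate point `e_r`, which lies on the line `X (r+1) = 0`; so
`QX y (r+1)` and the cofactor vanish there and `bns` fails.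
`prx_diff`: if `y r = c • e_t` with `t ≠ r` then `y r r = 0`, contradiction to `prx_diag`.
-/

namespace Pool.Agent.PQ

open MvPolynomial Matrix

private theorem PRX_RQ {R : Type*} [CommRing R] (y : Fin 3 → Fin 3 → R) (r : Fin 3) :
    RQ y = (QX y r) ^ 2 + lin (Pi.single r 1) * (lin (y r) *
      (Ay y r - 2 * Ay y (r + 1) - 2 * Ay y (r + 2))) := by
  have h : lin (Pi.single r (1 : R)) * lin (y r) = Ay y r := by
    rw [lin_single]; rfl
  rw [← mul_assoc, h]
  unfold RQ QX
  fin_cases r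
  · change _ = (Ay y 1 - Ay y 2) ^ 2 + Ay y 0 * (Ay y 0 - 2 * Ay y 1 - 2 * Ay y 2)
    ring
  · change _ = (Ay y 2 - Ay y 0) ^ 2 + Ay y 1 * (Ay y 1 - 2 * Ay y 2 - 2 * Ay y 0)
    ring
  · change _ = (Ay y 0 - Ay y 1) ^ 2 + Ay y 2 * (Ay y 2 - 2 * Ay y 0 - 2 * Ay y 1)
    ring

private theorem PRX_cross {R : Type*} [CommRing R] (r : Fin 3) (w : Fin 3 → R)
    (h : crossProduct (Pi.single r 1) w = 0) : ∀ j, j ≠ r → w j = 0 := by
  have h0 := congrFun h 0
  have h1 := congrFun h 1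
  have h2 := congrFun h 2
  intro j hj
  fin_cases r <;> fin_cases j <;> simp_all [crossProduct]

private theorem PRX_dot {R : Type*} [CommRing R] (r : Fin 3) (p : Fin 3 → R)
    (h : (Pi.single r (1 : R) : Fin 3 → R) ⬝ᵥ p = 0) : p r = 0 := by
  simpa using h

private theorem PRX_ne {R : Type*} [CommRing R] [Nontrivial R] (r : Fin 3) :
    (Pi.single r (1 : R) : Fin 3 → R) ≠ 0 := by
  intro h
  have := congrFun h r
  simp at this

/-- the coordinate points are not on the curve -/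
theorem prx_diag {k : Type*} [Field k] [IsAlgClosed k] (y : Fin 3 → Fin 3 → k) (hNS : NS (RQ y)) (r : Fin 3) :
    y r r ≠ 0 := by
  intro hr
  have hA : ∀ s, eval (Pi.single r (1 : k)) (Ay y s) = 0 := by
    intro s
    unfold Ay
    rw [map_mul, eval_X, eval_lin]
    by_cases hs : s = r
    · subst hs
      simp [hr]
    · simp [Pi.single_apply, hs]
  have hne : r + 1 ≠ r := by fin_cases r <;> decide
  have hv : (Pi.single (r + 1) (1 : k) : Fin 3 → k) ⬝ᵥ Pi.single r 1 = 0 := by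
    simp [Pi.single_apply, hne]
  refine bns hNS (PRX_RQ y (r + 1)) (Pi.single r 1) (PRX_ne r) hv ?_ ?_
  · unfold QX
    rw [map_sub, hA, hA, sub_zero]
  · simp only [map_mul, map_sub, hA, mul_zero, sub_zero]

theorem prx_same {k : Type*} [Field k] [IsAlgClosed k] (y : Fin 3 → Fin 3 → k) (hNS : NS (RQ y)) (r : Fin 3) :
    crossProduct (Pi.single r 1) (y r) ≠ 0 := by
  intro h
  obtain ⟨p, hp0, hp, hQ⟩ := bin_zero (Pi.single r (1 : k)) (QX y r) 2 (by norm_num) (QX_hom y r)
  refine bns hNS (PRX_RQ y r) p hp0 hp hQ ?_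
  rw [map_mul, eval_lin]
  have h1 : y r ⬝ᵥ p = 0 := by
    unfold dotProduct
    refine Finset.sum_eq_zero fun j _ => ?_
    by_cases hj : j = r
    · subst hj
      rw [PRX_dot _ p hp, mul_zero]
    · rw [PRX_cross r (y r) h j hj, zero_mul]
  rw [h1, zero_mul]

theorem prx_diff {k : Type*} [Field k] [IsAlgClosed k] (y : Fin 3 → Fin 3 → k) (hNS : NS (RQ y)) (r t : Fin 3)
    (h : r ≠ t) : crossProduct (Pi.single t 1) (y r) ≠ 0 := fun h0 =>
  prx_diag y hNS r (PRX_cross t (y r) h0 r h)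

end Pool.Agent.PQ
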