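import Pool.Agent.PQ.LNF

/-!
# PQ / REL

The relations of the Riemann model (commutative ring `R`).

`m3_zero`: `∑ i, m3 b i * b i j = 0`: expansion of the 4 × 4 determinant with columns `b · j, b · 0, b · 1, b · 2` (two equal columns);
or expand everything and `ring` for each `j` (12 variables, cubic: fine).
`rel` for `i = s.succ`: `∑ r, aa b s.succ r * adj r s' = (det) δ_{s s'} = la b 0 δ` (`Matrix.mul_adjugate`; `la b 0` is the determinant
of the rows `aa b s.succ`, sign `+`).  For `i = 0`: multiply by `la b 0` -- better: from `m3_zero` for `aa b`: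
`la b 0 * aa b 0 r = - ∑ s, la b s.succ * aa b s.succ r`, so (with `adj` cancelled as above, before multiplying by `la b 0`) use
`aa b 0 = - ∑ s (la b s.succ) * (aa b s.succ) / la b 0` in the form: `∑ r, aa b 0 r * adj r s = - la b s.succ` (Cramer: this is the
determinant of the rows `aa b t.succ` with row `s` replaced by `aa b 0`; equal to `- la b s.succ` up to the order of the rows: verify by
`ring` in 12 variables, degree 3 in the `aa`; generalise `aa b` to an arbitrary `4 × 3` matrix).  Then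
`∑ r, aa b 0 r * yy b r j = ∑ s, la b s.succ * mu b s.succ * (∏ l ≠ s.succ, la b l) * b s.succ j = (∏ l, la b l) ∑ s, mu b s.succ * b s.succ j
= - (∏ l, la b l) mu b 0 * b 0 j = - ka b 0 * b 0 j` (`m3_zero` for `b`).
`ydt`: `(aa rows ≠ i) * yy = - diag (ka) * (b rows ≠ i)` by `rel`, take determinants (`det` of `-D * B`, size 3).
`rel_field`: divide `rel` by `b i 0 * b i 1 * b i 2`.
-/

namespace Pool.Agent.PQ

open MvPolynomial Matrix

private theorem REL_m0 {R : Type*} [CommRing R] (b : Fin 4 → Fin 3 → R) :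
    m3 b 0 = b 1 0 * b 2 1 * b 3 2 - b 1 0 * b 2 2 * b 3 1 - b 1 1 * b 2 0 * b 3 2 +
      b 1 1 * b 2 2 * b 3 0 + b 1 2 * b 2 0 * b 3 1 - b 1 2 * b 2 1 * b 3 0 := by
  rw [m3, Matrix.det_fin_three]
  change (-1) ^ 0 * (b 1 0 * b 2 1 * b 3 2 - b 1 0 * b 2 2 * b 3 1 - b 1 1 * b 2 0 * b 3 2 +
      b 1 1 * b 2 2 * b 3 0 + b 1 2 * b 2 0 * b 3 1 - b 1 2 * b 2 1 * b 3 0) = _
  ring

private theorem REL_m1 {R : Type*} [CommRing R] (b : Fin 4 → Fin 3 → R) :
    m3 b 1 = -(b 0 0 * b 2 1 * b 3 2 - b 0 0 * b 2 2 * b 3 1 - b 0 1 * b 2 0 * b 3 2 +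
      b 0 1 * b 2 2 * b 3 0 + b 0 2 * b 2 0 * b 3 1 - b 0 2 * b 2 1 * b 3 0) := by
  rw [m3, Matrix.det_fin_three]
  change (-1) ^ 1 * (b 0 0 * b 2 1 * b 3 2 - b 0 0 * b 2 2 * b 3 1 - b 0 1 * b 2 0 * b 3 2 +
      b 0 1 * b 2 2 * b 3 0 + b 0 2 * b 2 0 * b 3 1 - b 0 2 * b 2 1 * b 3 0) = _
  ring

private theorem REL_m2 {R : Type*} [CommRing R] (b : Fin 4 → Fin 3 → R) :
    m3 b 2 = b 0 0 * b 1 1 * b 3 2 - b 0 0 * b 1 2 * b 3 1 - b 0 1 * b 1 0 * b 3 2 +
      b 0 1 * b 1 2 * b 3 0 + b 0 2 * b 1 0 * b 3 1 - b 0 2 * b 1 1 * b 3 0 := by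
  rw [m3, Matrix.det_fin_three]
  change (-1) ^ 2 * (b 0 0 * b 1 1 * b 3 2 - b 0 0 * b 1 2 * b 3 1 - b 0 1 * b 1 0 * b 3 2 +
      b 0 1 * b 1 2 * b 3 0 + b 0 2 * b 1 0 * b 3 1 - b 0 2 * b 1 1 * b 3 0) = _
  ring

private theorem REL_m3 {R : Type*} [CommRing R] (b : Fin 4 → Fin 3 → R) :
    m3 b 3 = -(b 0 0 * b 1 1 * b 2 2 - b 0 0 * b 1 2 * b 2 1 - b 0 1 * b 1 0 * b 2 2 +
      b 0 1 * b 1 2 * b 2 0 + b 0 2 * b 1 0 * b 2 1 - b 0 2 * b 1 1 * b 2 0) := by
  rw [m3, Matrix.det_fin_three]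
  change (-1) ^ 3 * (b 0 0 * b 1 1 * b 2 2 - b 0 0 * b 1 2 * b 2 1 - b 0 1 * b 1 0 * b 2 2 +
      b 0 1 * b 1 2 * b 2 0 + b 0 2 * b 1 0 * b 2 1 - b 0 2 * b 1 1 * b 2 0) = _
  ring

theorem m3_zero {R : Type*} [CommRing R] (b : Fin 4 → Fin 3 → R) (j : Fin 3) : ∑ i, m3 b i * b i j = 0 := by
  rw [Fin.sum_univ_four, REL_m0, REL_m1, REL_m2, REL_m3]
  have hf : ∀ r : Fin 3, r = 0 ∨ r = 1 ∨ r = 2 := by decide
  rcases hf j with rfl | rfl | rfl <;> ring

private theorem REL_adj {R : Type*} [CommRing R] (a : Fin 4 → Fin 3 → R) (s t : Fin 3) :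
    ∑ r, a s.succ r * (Matrix.adjugate (Matrix.of fun s : Fin 3 => a s.succ)) r t =
      if s = t then m3 a 0 else 0 := by
  have k1 := congrFun (congrFun (Matrix.mul_adjugate (Matrix.of fun s : Fin 3 => a s.succ)) s) t
  rw [Matrix.mul_apply] at k1
  have k2 : m3 a 0 = Matrix.det (Matrix.of fun s : Fin 3 => a s.succ) := by
    rw [m3]
    change (-1) ^ 0 * Matrix.det (Matrix.of fun s : Fin 3 => a s.succ) = _
    rw [pow_zero, one_mul]
  rw [k2]
  refine k1.trans ?_
  rw [Matrix.smul_apply, Matrix.one_apply, smul_eq_mul, mul_ite, mul_one, mul_zero]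

private theorem REL_adj0 {R : Type*} [CommRing R] (a : Fin 4 → Fin 3 → R) (t : Fin 3) :
    ∑ r, a 0 r * (Matrix.adjugate (Matrix.of fun s : Fin 3 => a s.succ)) r t = -m3 a t.succ := by
  rw [Matrix.adjugate_fin_three, Fin.sum_univ_three]
  have hf : ∀ r : Fin 3, r = 0 ∨ r = 1 ∨ r = 2 := by decide
  have e0 : (0 : Fin 3).succ = 1 := rfl
  have e1 : (1 : Fin 3).succ = 2 := rfl
  have e2 : (2 : Fin 3).succ = 3 := rfl
  rcases hf t with rfl | rfl | rfl
  · rw [e0, REL_m1]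
    simp only [Matrix.of_apply, Matrix.cons_val', Matrix.cons_val_zero, Matrix.cons_val_one,
      Matrix.cons_val, e0, e1, e2]
    ring
  · rw [e1, REL_m2]
    simp only [Matrix.of_apply, Matrix.cons_val', Matrix.cons_val_zero, Matrix.cons_val_one,
      Matrix.cons_val, e0, e1, e2]
    ring
  · rw [e2, REL_m3]
    simp only [Matrix.of_apply, Matrix.cons_val', Matrix.cons_val_zero, Matrix.cons_val_one,
      Matrix.cons_val, e0, e1, e2]
    ring

private theorem REL_ka {R : Type*} [CommRing R] (b : Fin 4 → Fin 3 → R) (i : Fin 4) :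
    ka b i = la b 0 * (mu b i * ∏ l ∈ Finset.univ.erase i, la b l) := rfl

theorem rel {R : Type*} [CommRing R] (b : Fin 4 → Fin 3 → R) (i : Fin 4) (j : Fin 3) :
    ∑ r, aa b i r * yy b r j = -ka b i * b i j := by
  have h1 : ∑ r, aa b i r * yy b r j = -∑ s : Fin 3,
      (∑ r, aa b i r * (Matrix.adjugate (Matrix.of fun s : Fin 3 => aa b s.succ)) r s) *
      (mu b s.succ * ∏ l ∈ Finset.univ.erase s.succ, la b l) * b s.succ j := by
    rw [← Finset.sum_neg_distrib]
    have : ∀ r, aa b i r * yy b r j = ∑ s : Fin 3,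
        -(aa b i r * (Matrix.adjugate (Matrix.of fun s : Fin 3 => aa b s.succ)) r s *
        (mu b s.succ * ∏ l ∈ Finset.univ.erase s.succ, la b l) * b s.succ j) := by
      intro r
      rw [yy, Finset.sum_neg_distrib, mul_neg, Finset.mul_sum]
      congr 1
      refine Finset.sum_congr rfl fun s _ => ?_
      ring
    rw [Finset.sum_congr rfl fun r _ => this r, Finset.sum_comm]
    refine Finset.sum_congr rfl fun s _ => ?_
    rw [Finset.sum_neg_distrib, Finset.sum_mul, Finset.sum_mul]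
  rw [h1]
  refine Fin.cases ?_ (fun t => ?_) i
  · rw [Finset.sum_congr rfl fun s _ => by rw [REL_adj0 (aa b) s]]
    have e : ∀ s : Fin 3, -m3 (aa b) s.succ * (mu b s.succ *
        ∏ l ∈ Finset.univ.erase s.succ, la b l) * b s.succ j =
        -((∏ l, la b l) * (m3 b s.succ * b s.succ j)) := by
      intro s
      rw [← Finset.mul_prod_erase Finset.univ (la b) (Finset.mem_univ s.succ)]
      change -la b s.succ * (mu b s.succ * _) * _ = -(la b s.succ * _ * (mu b s.succ * _))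
      ring
    rw [Finset.sum_congr rfl fun s _ => e s, Finset.sum_neg_distrib, neg_neg, ← Finset.mul_sum]
    have k := m3_zero b j
    rw [Fin.sum_univ_succ] at k
    have k2 : ∑ s : Fin 3, m3 b s.succ * b s.succ j = -(m3 b 0 * b 0 j) := by
      linear_combination k
    rw [k2, REL_ka, ← Finset.mul_prod_erase Finset.univ (la b) (Finset.mem_univ 0)]
    change _ * -(mu b 0 * _) = _
    ring
  · rw [Finset.sum_congr rfl fun s _ => by rw [REL_adj (aa b) t s]]
    rw [Finset.sum_eq_single t]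
    · rw [if_pos rfl, REL_ka]
      change -(la b 0 * _ * _) = _
      ring
    · intro s _ hs
      rw [if_neg (Ne.symm hs), zero_mul, zero_mul]
    · intro h
      exact absurd (Finset.mem_univ t) h

private theorem REL_prod {R : Type*} [CommRing R] (f : Fin 4 → R) (i : Fin 4) :
    ∏ l ∈ Finset.univ.erase i, f l = ∏ s : Fin 3, f (i.succAbove s) := by
  rw [← Finset.compl_singleton, ← Fin.image_succAbove_univ,
    Finset.prod_image fun _ _ _ _ h => Fin.succAbove_right_injective h]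

theorem ydt {R : Type*} [CommRing R] (b : Fin 4 → Fin 3 → R) (i : Fin 4) :
    la b i * Matrix.det (Matrix.of (yy b)) = -(∏ l ∈ Finset.univ.erase i, ka b l) * mu b i := by
  have h1 : (Matrix.of fun s : Fin 3 => aa b (i.succAbove s)) * Matrix.of (yy b) =
      Matrix.diagonal (fun s => -ka b (i.succAbove s)) *
        Matrix.of fun s : Fin 3 => b (i.succAbove s) := by
    ext s j
    rw [Matrix.mul_apply, Matrix.diagonal_mul]
    exact rel b (i.succAbove s) j
  have h2 := congrArg Matrix.det h1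
  rw [Matrix.det_mul, Matrix.det_mul, Matrix.det_diagonal] at h2
  rw [REL_prod, la, mu, m3, m3]
  have h3 : ∏ s : Fin 3, -ka b (i.succAbove s) = -∏ s : Fin 3, ka b (i.succAbove s) := by
    rw [Finset.prod_neg, Finset.card_univ, Fintype.card_fin]
    ring
  rw [h3] at h2
  linear_combination (-1) ^ (i : ℕ) * h2

theorem rel_field {k : Type*} [Field k] (b : Fin 4 → Fin 3 → k) (i : Fin 4) (hb : ∀ r, b i r ≠ 0) :
    Rel (b i) (yy b) (ka b i / (b i 0 * b i 1 * b i 2)) := by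
  intro j
  have k1 := rel b i j
  rw [Fin.sum_univ_three] at k1 ⊢
  change (b i 1 * b i 2) * yy b 0 j + (b i 2 * b i 0) * yy b 1 j + (b i 0 * b i 1) * yy b 2 j =
    _ at k1
  have h0 := hb 0
  have h1 := hb 1
  have h2 := hb 2
  have e : -(ka b i / (b i 0 * b i 1 * b i 2)) * b i j =
      (b i 0 * b i 1 * b i 2)⁻¹ * (-ka b i * b i j) := by
    rw [div_eq_mul_inv]
    ring
  rw [e, ← k1]
  field_simp

theorem det_yy {k : Type*} [Field k] (b : Fin 4 → Fin 3 → k) (hb : ND b) :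
    Matrix.det (Matrix.of (yy b)) ≠ 0 := by
  intro h
  have k1 := ydt b 0
  rw [h, mul_zero] at k1
  have k2 : ∀ l, ka b l ≠ 0 := fun l =>
    mul_ne_zero (hb.la 0) (mul_ne_zero (hb.mu l) (Finset.prod_ne_zero_iff.2 fun j _ => hb.la j))
  exact mul_ne_zero (neg_ne_zero.2 (Finset.prod_ne_zero_iff.2 fun j _ => k2 j)) (hb.mu 0) k1.symm

end Pool.Agent.PQ
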