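import Pool.Agent.PQ.CNT
import Pool.Agent.PQ.PRX
import Pool.Agent.PQ.REL
import Pool.Agent.PQ.OPX

/-!
# PQ / DGA

At most 42 bitangents.  `RB b` is `NS` (`SF.ns`, `ns_sb`, the constant `c`).  For `RB b` consider the bitangents `e_0` with `QX 0`, `yy b 0` with
`QX 0`, `e_1` with `- QX 1`: pairwise `Sam` (`opp_xx`, `opp_xy` and signs; the first pair trivially; both orders: `opp_symm`-like), pairwise independent
(`prx_same`, `prx_diff`).  `cnt` gives `S0` for `RB b`; `S` = image of `S0` under `w ↦ w ᵥ* h⁻¹`.  A bitangent `(w, Q)` of `F` gives the bitangent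
`w ᵥ* h` of `sb h F = C c * RB b`, hence of `RB b` (`scl_bit` with `e² = c⁻¹`).
-/

namespace Pool.Agent.PQ

open MvPolynomial Matrix

private theorem DGA_sam {R : Type*} [CommRing R] {v v' : Fin 3 → R} {Q Q' : P3 R}
    (h : Opp v Q v' Q') : Sam v Q v' (-Q') := by
  unfold Sam
  unfold Opp at h
  rw [h, map_neg]

private theorem DGA_symm {R : Type*} [CommRing R] {v v' : Fin 3 → R} {Q Q' : P3 R}
    (hQ : Q.IsHomogeneous 2) (hQ' : Q'.IsHomogeneous 2) (h : Sam v Q v' Q') : Sam v' Q' v Q := by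
  have h1 : Opp v Q v' (-Q') := by
    unfold Opp
    unfold Sam at h
    rw [h, map_neg, neg_neg]
  have h2 := opp_symm hQ hQ'.neg h1
  unfold Opp at h2
  unfold Sam
  rw [map_neg] at h2
  exact neg_injective h2

private theorem DGA_cross {R : Type*} [CommRing R] {v w : Fin 3 → R} (h : crossProduct v w ≠ 0) :
    crossProduct w v ≠ 0 := by
  intro h0
  apply h
  rw [← cross_anticomm, h0, neg_zero]

theorem dga {C : Type*} [Field C] [CharZero C] [IsAlgClosed C] (F : P3 C) (hF : F.IsHomogeneous 4)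
    (hS : SF F) (h : Matrix (Fin 3) (Fin 3) C) (hh : h.det ≠ 0) (c : C) (hc : c ≠ 0)
    (b : Fin 4 → Fin 3 → C) (hb : ND b) (hE : sb h F = MvPolynomial.C c * RB b) :
    ∃ S : Finset (Fin 3 → C), S.card ≤ 42 ∧ ∀ (w : Fin 3 → C) (Q : P3 C), w ≠ 0 → Bit F w Q →
      ∃ s ∈ S, ∃ c : C, c ≠ 0 ∧ w = c • s := by
  classical
  have hNS : NS (RQ (yy b)) := by
    have h1 : NS (sb h F) := ns_sb hh hS.ns
    rw [hE] at h1
    intro p hp h0
    obtain ⟨i, hi⟩ := h1 p hp (by
      rw [map_mul]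
      change _ * eval p (RQ (yy b)) = 0
      rw [h0, mul_zero])
    refine ⟨i, fun h2 => hi ?_⟩
    rw [pderiv_C_mul, map_mul]
    change _ * eval p (pderiv i (RQ (yy b))) = 0
    rw [h2, mul_zero]
  have hu : IsUnit h.det := isUnit_iff_ne_zero.2 hh
  obtain ⟨y, hy⟩ : ∃ y, y = yy b := ⟨_, rfl⟩
  rw [← hy] at hNS
  have hx01 := prx_same y hNS 0
  have hx12 := DGA_cross (prx_diff y hNS 0 1 (by decide))
  have hx02 : crossProduct (Pi.single 0 1 : Fin 3 → C) (Pi.single 1 1) ≠ 0 := by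
    intro h0
    have := congrFun h0 2
    simp [crossProduct] at this
  have hs01 : Sam (Pi.single 0 1) (QX y 0) (y 0) (QX y 0) := rfl
  have hs02 : Sam (Pi.single 0 1) (QX y 0) (Pi.single 1 1) (-QX y 1) :=
    DGA_sam (opp_xx y 0 1 (by decide))
  have hs12 : Sam (y 0) (QX y 0) (Pi.single 1 1) (-QX y 1) :=
    DGA_sam (opp_symm (QX_hom y 1) (QX_hom y 0) (opp_xy y 1 0 (by decide)))
  have hQ0 := QX_hom y 0
  have hQ1 := (QX_hom y 1).neg
  obtain ⟨S0, hS0, hS0'⟩ := cnt (RQ y) (RQ_hom y) hNS ![Pi.single 0 1, y 0, Pi.single 1 1]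
    ![QX y 0, QX y 0, -QX y 1] (by
      intro i
      fin_cases i
      · exact bit_x y 0
      · exact bit_y y 0
      · exact bit_neg (bit_x y 1)) (by
      intro i j hij
      fin_cases i <;> fin_cases j
      · exact absurd rfl hij
      · exact hx01
      · exact hx02
      · exact DGA_cross hx01
      · exact absurd rfl hij
      · exact hx12
      · exact DGA_cross hx02
      · exact DGA_cross hx12
      · exact absurd rfl hij) (by
      intro i j hij
      fin_cases i <;> fin_cases j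
      · exact absurd rfl hij
      · exact hs01
      · exact hs02
      · exact DGA_symm hQ0 hQ0 hs01
      · exact absurd rfl hij
      · exact hs12
      · exact DGA_symm hQ0 hQ1 hs02
      · exact DGA_symm hQ0 hQ1 hs12
      · exact absurd rfl hij)
  refine ⟨S0.image fun s => s ᵥ* h⁻¹, le_trans Finset.card_image_le hS0, fun w Q hw hbit => ?_⟩
  have h1 := trf_bit h hbit
  rw [hE] at h1
  obtain ⟨e, he⟩ := IsAlgClosed.exists_pow_nat_eq c⁻¹ (n := 2) (by norm_num)
  have h2 := scl_bit h1 1 e one_ne_zero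
  rw [he, ← mul_assoc, ← C_mul, inv_mul_cancel₀ hc, C_1, one_mul, one_smul] at h2
  have hw' : w ᵥ* h ≠ 0 := by
    intro h0
    apply hw
    have h3 := congrArg (fun u => u ᵥ* h⁻¹) h0
    simpa [Matrix.vecMul_vecMul, Matrix.mul_nonsing_inv _ hu] using h3
  have h2' : Bit (RQ y) (w ᵥ* h) (MvPolynomial.C e * sb h Q) := by
    rw [hy]
    exact h2
  obtain ⟨s, hs, c', hc', hws⟩ := hS0' _ _ hw' h2'
  refine ⟨s ᵥ* h⁻¹, Finset.mem_image_of_mem _ hs, c', hc', ?_⟩
  have h3 := congrArg (fun u => u ᵥ* h⁻¹) hws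
  simp only [Matrix.vecMul_vecMul, Matrix.mul_nonsing_inv _ hu, Matrix.vecMul_one,
    Matrix.smul_vecMul] at h3
  exact h3

end Pool.Agent.PQ
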