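import Pool.Agent.PQ.LNF

/-!
# PQ / NSX

`hmn`: `A = Algebra.adjoin k s` is a finitely generated `k`-algebra, a non-zero ring; a maximal ideal `m`, `A / m` is a field of
finite type over `k`, so finite over `k` (`finite_of_finite_type_of_isJacobsonRing`), so equal to `k` (`k` algebraically closed).
`nsx`: let `p ≠ 0` be a singular point over `M`, `p i ≠ 0`.  Apply `hmn` to `s = {p 0, p 1, p 2, (p i)⁻¹}`: `φ : A → k`; `q j = φ (p j)`;
`q i * φ((p i)⁻¹) = 1`, so `q ≠ 0`; `eval q F = φ (eval p F) = 0`, same for the derivatives.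
-/

namespace Pool.Agent.PQ

open MvPolynomial Matrix

theorem hmn {k M : Type*} [Field k] [IsAlgClosed k] [Field M] [Algebra k M] (s : Finset M) :
    Nonempty (Algebra.adjoin k (s : Set M) →ₐ[k] k) := by
  have hft : Algebra.FiniteType k (Algebra.adjoin k (s : Set M)) :=
    (Subalgebra.fg_iff_finiteType _).1 (Subalgebra.fg_adjoin_finset s)
  obtain ⟨m, hm⟩ := Ideal.exists_maximal (Algebra.adjoin k (s : Set M))
  let _ : Field (Algebra.adjoin k (s : Set M) ⧸ m) := Ideal.Quotient.field m
  have hft2 : Algebra.FiniteType k (Algebra.adjoin k (s : Set M) ⧸ m) :=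
    hft.of_surjective (Ideal.Quotient.mkₐ k m) (Ideal.Quotient.mkₐ_surjective k m)
  have hfin : Module.Finite k (Algebra.adjoin k (s : Set M) ⧸ m) :=
    finite_of_finite_type_of_isJacobsonRing k _
  have hb : Function.Bijective (algebraMap k (Algebra.adjoin k (s : Set M) ⧸ m)) :=
    IsAlgClosed.algebraMap_bijective_of_isIntegral
  exact ⟨((AlgEquiv.ofBijective (Algebra.ofId k _) hb).symm.toAlgHom).comp (Ideal.Quotient.mkₐ k m)⟩

theorem nsx {k M : Type*} [Field k] [IsAlgClosed k] [Field M] [Algebra k M] (F : P3 k) (hNS : NS F) :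
    NS (map (algebraMap k M) F) := by
  classical
  intro p hp hF
  by_contra hc
  push Not at hc
  obtain ⟨i, hi⟩ : ∃ i, p i ≠ 0 := by
    by_contra h
    push Not at h
    exact hp (funext h)
  set s : Finset M := insert (p i)⁻¹ (Finset.univ.image p) with hs
  obtain ⟨φ⟩ := hmn (k := k) s
  have hmem : ∀ j, p j ∈ Algebra.adjoin k (s : Set M) := fun j =>
    Algebra.subset_adjoin (by simp [hs])
  have hmemi : (p i)⁻¹ ∈ Algebra.adjoin k (s : Set M) := Algebra.subset_adjoin (by simp [hs])
  set P : Fin 3 → Algebra.adjoin k (s : Set M) := fun j => ⟨p j, hmem j⟩ with hP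
  have hev : ∀ G : P3 k, eval p (map (algebraMap k M) G) = 0 → eval (fun j => φ (P j)) G = 0 := by
    intro G hG
    have h1 : ((aeval P G : Algebra.adjoin k (s : Set M)) : M) = aeval p G := by
      exact (aeval_algebraMap_apply M P G).symm
    have h2 : aeval P G = 0 := by
      apply Subtype.ext
      rw [h1]
      rw [eval_map] at hG
      exact hG
    have h3 : aeval (fun j => φ (P j)) G = φ (aeval P G) := (comp_aeval_apply P φ G).symm
    rw [h2, map_zero] at h3
    exact h3
  have hq : (fun j => φ (P j)) ≠ 0 := by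
    intro h0
    have h1 : P i * ⟨(p i)⁻¹, hmemi⟩ = 1 := Subtype.ext (mul_inv_cancel₀ hi)
    have h2 := congrArg φ h1
    rw [map_mul, map_one, show φ (P i) = 0 from congrFun h0 i, zero_mul] at h2
    exact zero_ne_one h2
  obtain ⟨j, hj⟩ := hNS _ hq (hev F hF)
  refine hj (hev _ ?_)
  rw [← pderiv_map']
  exact hc j

end Pool.Agent.PQ
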