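import Pool.Agent.PQ.MPB

/-!
# PQ / RNZ

`RQ y ≠ 0` if `det y ≠ 0` and `2 ≠ 0`.  Suppose `RQ y = 0`.  Values at the coordinate points (`eval_RQ_single`): `y r r = 0`.  At `(0, 1, c)`:
`(Ay 1 - Ay 2)² = (y 1 1 + c y 1 2 - c y 2 1 - c² y 2 2)²`, `c = 1`: `y 1 2 = y 2 1 =: α`; similarly `y 0 2 = y 2 0 =: β`, `y 0 1 = y 1 0 =: γ`.  Then
`RQ y = - 4 X 0 X 1 X 2 (γ α X 1 + γ β X 0 + α β X 2)` (check with `ring`), so at `(1,1,1)`, `(1,1,-1)`, `(1,-1,1)`, `(-1,1,1)` one gets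
`γ α = γ β = α β = 0`, and `det y = 2 α β γ = 0`, contradiction.
-/

namespace Pool.Agent.PQ

open MvPolynomial Matrix

private theorem RNZ_eval {k : Type*} [Field k] (y : Fin 3 → Fin 3 → k) (p q r : k) :
    eval ![p, q, r] (RQ y) =
      (p * (y 0 0 * p + y 0 1 * q + y 0 2 * r)) ^ 2 + (q * (y 1 0 * p + y 1 1 * q + y 1 2 * r)) ^ 2 +
      (r * (y 2 0 * p + y 2 1 * q + y 2 2 * r)) ^ 2 -
      2 * (p * (y 0 0 * p + y 0 1 * q + y 0 2 * r) * (q * (y 1 0 * p + y 1 1 * q + y 1 2 * r)) +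
        q * (y 1 0 * p + y 1 1 * q + y 1 2 * r) * (r * (y 2 0 * p + y 2 1 * q + y 2 2 * r)) +
        r * (y 2 0 * p + y 2 1 * q + y 2 2 * r) * (p * (y 0 0 * p + y 0 1 * q + y 0 2 * r))) := by
  have e : ∀ s, eval ![p, q, r] (Ay y s) = ![p, q, r] s * (y s 0 * p + y s 1 * q + y s 2 * r) := by
    intro s
    rw [Ay, map_mul, eval_X, eval_lin, dotProduct, Fin.sum_univ_three]
    rfl
  have e2 : eval ![p, q, r] (2 : P3 k) = 2 := map_ofNat _ 2
  unfold RQ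
  rw [map_sub, map_mul, map_add, map_add, map_add, map_add, map_pow, map_pow, map_pow, map_mul,
    map_mul, map_mul, e 0, e 1, e 2, e2]
  rfl

theorem rnz {k : Type*} [Field k] (h2 : (2 : k) ≠ 0) (y : Fin 3 → Fin 3 → k)
    (hy : Matrix.det (Matrix.of y) ≠ 0) : RQ y ≠ 0 := by
  intro h0
  have E : ∀ p q r : k,
      (p * (y 0 0 * p + y 0 1 * q + y 0 2 * r)) ^ 2 + (q * (y 1 0 * p + y 1 1 * q + y 1 2 * r)) ^ 2 +
      (r * (y 2 0 * p + y 2 1 * q + y 2 2 * r)) ^ 2 -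
      2 * (p * (y 0 0 * p + y 0 1 * q + y 0 2 * r) * (q * (y 1 0 * p + y 1 1 * q + y 1 2 * r)) +
        q * (y 1 0 * p + y 1 1 * q + y 1 2 * r) * (r * (y 2 0 * p + y 2 1 * q + y 2 2 * r)) +
        r * (y 2 0 * p + y 2 1 * q + y 2 2 * r) * (p * (y 0 0 * p + y 0 1 * q + y 0 2 * r))) =
        0 := by
    intro p q r
    rw [← RNZ_eval, h0, map_zero]
  have a0 : y 0 0 = 0 := pow_eq_zero_iff two_ne_zero |>.1 (by linear_combination E 1 0 0)
  have a1 : y 1 1 = 0 := pow_eq_zero_iff two_ne_zero |>.1 (by linear_combination E 0 1 0)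
  have a2 : y 2 2 = 0 := pow_eq_zero_iff two_ne_zero |>.1 (by linear_combination E 0 0 1)
  have b0 : y 1 2 = y 2 1 := by
    have k1 : (y 1 1 + y 1 2 - y 2 1 - y 2 2) ^ 2 = 0 := by linear_combination E 0 1 1
    have k2 := pow_eq_zero_iff two_ne_zero |>.1 k1
    linear_combination k2 - a1 + a2
  have b1 : y 0 2 = y 2 0 := by
    have k1 : (y 0 0 + y 0 2 - y 2 0 - y 2 2) ^ 2 = 0 := by linear_combination E 1 0 1
    have k2 := pow_eq_zero_iff two_ne_zero |>.1 k1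
    linear_combination k2 - a0 + a2
  have b2 : y 0 1 = y 1 0 := by
    have k1 : (y 0 0 + y 0 1 - y 1 0 - y 1 1) ^ 2 = 0 := by linear_combination E 1 1 0
    have k2 := pow_eq_zero_iff two_ne_zero |>.1 k1
    linear_combination k2 - a0 + a1
  have c1 := E 1 1 1
  have c2 := E 1 1 (-1)
  have c3 := E 1 (-1) 1
  rw [a0, a1, a2, b0, b1, b2] at c1 c2 c3
  have d1 : (2 * 2 * 2 : k) * (y 2 0 * y 2 1) = 0 := by linear_combination -c1 - c2
  have d2 : y 2 0 * y 2 1 = 0 := by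
    rcases mul_eq_zero.1 d1 with h | h
    · exact absurd h (mul_ne_zero (mul_ne_zero h2 h2) h2)
    · exact h
  apply hy
  rw [Matrix.det_fin_three]
  simp only [Matrix.of_apply]
  rw [a0, a1, a2, b0, b1, b2]
  linear_combination (2 * y 1 0) * d2

end Pool.Agent.PQ
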