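import Pool.Agent.PQ.UNB
import Pool.Agent.PQ.RNZ

/-!
# PQ / RED

Reduction of a Riemann model.  `una`, `unb`: `b i r ∈ V` are units, lift to `b' : Fin 4 → Fin 3 → V`; `b̄` its reduction; `h = η • h0`.
`sb h (map G) = C (η⁴) * map (sb h0 G)` (`sb (η • h0) = C (η^4) * sb h0` on forms of degree 4: `eval`/`funext` or `sb_sb` with the scalar matrix).  So
`map (sb h0 G) = C (c η⁻⁴) * map (RB b')` (`map_RB`).  Let `c' = c η⁻⁴`.  The reduction of `sb h0 G` is not `0` (otherwise the reduction of `G`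
would be `0`, `NS` fails: `0` has singular points), the reduction of `RB b'` is `RB b̄ ≠ 0` (`rnz`, `det_yy`; `ND b̄`: `mu`, `la` units,
`map_mu`, `map_la`).  If `c' ∉ V` then `c'⁻¹ * (sb h0 G) = RB b'` shows `RB b̄ = 0`; if `c'` is a non-unit, the reduction of `sb h0 G` is `0`.
So `c'` is a unit; reduce.  `b̄ i r ≠ 1` since `1 - b i r` is a unit.
-/

namespace Pool.Agent.PQ

open MvPolynomial Matrix

private theorem red_scale {M : Type*} [Field M] [IsAlgClosed M] (g : Matrix (Fin 3) (Fin 3) M) (η : M)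
    {F : P3 M} (hF : F.IsHomogeneous 4) (h : Matrix (Fin 3) (Fin 3) M) (hh : ∀ i j, h i j = η * g i j) :
    sb h F = C (η ^ 4) * sb g F := by
  have hinf : Infinite M := IsAlgClosed.instInfinite
  apply MvPolynomial.funext
  intro p
  rw [eval_sb, map_mul, eval_C, eval_sb]
  have h1 : h *ᵥ p = η • (g *ᵥ p) := by
    ext i
    simp only [mulVec, dotProduct, Pi.smul_apply, smul_eq_mul, Finset.mul_sum, hh]
    exact Finset.sum_congr rfl fun j _ => by ring
  rw [h1, eval_smul_hom hF]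

private theorem red_ns {k : Type*} [Field k] {F : P3 k} (h : NS F) : F ≠ 0 := by
  rintro rfl
  obtain ⟨i, hi⟩ := h (Pi.single 0 1) (by
    intro h0
    have := congrFun h0 0
    simp at this) (map_zero _)
  apply hi
  rw [map_zero, map_zero]

private theorem red_unit {M : Type*} [Field M] (V : ValuationSubring M) {x : V}
    (hx : V.valuation (x : M) = 1) : IsLocalRing.residue V x ≠ 0 := by
  rw [IsLocalRing.residue_ne_zero_iff_isUnit]
  exact (V.valuation_eq_one_iff x).mpr hx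

theorem red {M : Type*} [Field M] [IsAlgClosed M] (V : ValuationSubring M) (h2 : V.valuation (2 : M) = 1)
    (G : P3 V) (hG : G.IsHomogeneous 4) (hNS : NS (map (IsLocalRing.residue V) G))
    (h : Matrix (Fin 3) (Fin 3) M) (hh : h.det ≠ 0) (c : M) (hc : c ≠ 0) (b : Fin 4 → Fin 3 → M)
    (hb : ND b) (hE : sb h (map (algebraMap V M) G) = C c * RB b) :
    ∃ (h' : Matrix (Fin 3) (Fin 3) (IsLocalRing.ResidueField V)) (c' : IsLocalRing.ResidueField V)
      (b' : Fin 4 → Fin 3 → IsLocalRing.ResidueField V), h'.det ≠ 0 ∧ c' ≠ 0 ∧ ND b' ∧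
        sb h' (map (IsLocalRing.residue V) G) = C c' * RB b' := by
  obtain ⟨u1, u2, u3, η, h0, hη, hdet, hh0⟩ := una V h2 G hG hNS h hh c hc b hb hE
  have u4 := unb V h2 G hG hNS h hh c hc b hb hE
  have hmem : ∀ i r, b i r ∈ V := fun i r => (V.valuation_le_one_iff _).mp (u1 i r).le
  obtain ⟨b', hb'⟩ : ∃ b' : Fin 4 → Fin 3 → V, ∀ i r, ((b' i r : V) : M) = b i r :=
    ⟨fun i r => ⟨b i r, hmem i r⟩, fun i r => rfl⟩
  obtain ⟨φ, hφ⟩ : ∃ φ : V →+* M, φ = algebraMap V M := ⟨_, rfl⟩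
  obtain ⟨ρ, hρ⟩ : ∃ ρ : V →+* IsLocalRing.ResidueField V, ρ = IsLocalRing.residue V := ⟨_, rfl⟩
  have hφc : ∀ x : V, φ x = (x : M) := fun x => by rw [hφ]; rfl
  have hφi : Function.Injective φ := fun x y hxy => by
    rw [hφc, hφc] at hxy
    exact Subtype.ext hxy
  have hφb : (fun i r => φ (b' i r)) = b := by
    funext i r
    rw [hφc, hb']
  rw [← hφ] at hE
  rw [← hρ] at hNS
  rw [← hρ]
  have hunit : ∀ x : V, V.valuation (x : M) = 1 → ρ x ≠ 0 := fun x hx => hρ ▸ red_unit V hx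
  -- the reduced parameters
  have hND : ND fun i r => ρ (b' i r) := by
    refine ⟨?_, ?_, ?_, ?_, ?_, ?_⟩
    · intro r
      have : b' 0 r = 1 := Subtype.ext (by rw [hb', hb.zero]; rfl)
      rw [this, map_one]
    · intro i
      have : b' i 0 = 1 := Subtype.ext (by rw [hb', hb.col]; rfl)
      rw [this, map_one]
    · intro i r
      exact hunit _ (by rw [hb']; exact u1 i r)
    · intro i r hi hr h1
      have h3 : ρ (1 - b' i r) = 0 := by rw [map_sub, map_one, h1, sub_self]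
      refine hunit (1 - b' i r) ?_ h3
      have : (((1 - b' i r : V)) : M) = 1 - b i r := by
        rw [← hb' i r]
        rfl
      rw [this]
      exact u2 i r hi hr
    · intro i
      rw [← map_mu]
      refine hunit _ ?_
      rw [← hφc, map_mu, hφb]
      exact u3 i
    · intro i
      rw [← map_la]
      refine hunit _ ?_
      rw [← hφc, map_la, hφb]
      exact u4 i
  have h2' : (2 : IsLocalRing.ResidueField V) ≠ 0 := by
    have := hunit 2 (by
      have e : (((2 : V)) : M) = 2 := rfl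
      rw [e]
      exact h2)
    rwa [map_ofNat] at this
  have hRne : map ρ (RB b') ≠ 0 := by
    rw [map_RB]
    exact rnz h2' _ (det_yy _ hND)
  -- the equation over V
  have hGM : (map φ G).IsHomogeneous 4 := map_hom φ hG
  have hE1 : map φ (sb h0 G) = C (c * (η ^ 4)⁻¹) * map φ (RB b') := by
    rw [map_sb, map_RB, hφb]
    have h5 := red_scale (h0.map φ) η hGM h (fun i j => by rw [hh0, Matrix.map_apply, hφc])
    rw [h5] at hE
    have h6 : (C (η ^ 4)⁻¹ : P3 M) * C (η ^ 4) = 1 := by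
      rw [← C_mul, inv_mul_cancel₀ (pow_ne_zero 4 hη), C_1]
    calc sb (h0.map φ) (map φ G) = (C (η ^ 4)⁻¹ * C (η ^ 4)) * sb (h0.map φ) (map φ G) := by
          rw [h6, one_mul]
      _ = C (η ^ 4)⁻¹ * (C c * RB b) := by rw [mul_assoc, hE]
      _ = C (c * (η ^ 4)⁻¹) * RB b := by rw [C_mul]; ring
  obtain ⟨m, hm⟩ : ∃ m, ρ (coeff m (RB b')) ≠ 0 := by
    by_contra hcon
    push Not at hcon
    apply hRne
    ext m
    rw [coeff_map, hcon, coeff_zero]
  have hmu : IsUnit (coeff m (RB b')) := by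
    rw [hρ, IsLocalRing.residue_ne_zero_iff_isUnit] at hm
    exact hm
  obtain ⟨w, hw⟩ := hmu
  obtain ⟨c'', hc''⟩ : ∃ c'' : V, φ c'' = c * (η ^ 4)⁻¹ := by
    refine ⟨coeff m (sb h0 G) * ((w⁻¹ : Vˣ) : V), ?_⟩
    have h7 := congrArg (coeff m) hE1
    rw [coeff_map, coeff_C_mul, coeff_map, ← hw] at h7
    have h8 : φ (w : V) * φ ((w⁻¹ : Vˣ) : V) = 1 := by
      rw [← map_mul, Units.mul_inv, map_one]
    rw [map_mul, h7, mul_assoc, h8, mul_one]
  have hE2 : sb h0 G = C c'' * RB b' := by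
    apply MvPolynomial.map_injective φ hφi
    have h12 : map φ (C c'' * RB b') = C (φ c'') * map φ (RB b') := by
      rw [map_mul, map_C]
    rw [hE1, h12, hc'']
  have hE3 : sb (h0.map ρ) (map ρ G) = C (ρ c'') * RB fun i r => ρ (b' i r) := by
    rw [← map_sb, hE2, map_mul, map_C, map_RB]
  have hdet' : (h0.map ρ).det ≠ 0 := by
    have h9 : (h0.map ρ).det = ρ h0.det := by
      rw [RingHom.map_det]
      rfl
    rw [h9]
    exact hunit _ hdet
  refine ⟨h0.map ρ, ρ c'', fun i r => ρ (b' i r), hdet', ?_, hND, hE3⟩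
  intro h10
  rw [h10, C_0, zero_mul] at hE3
  have h11 := sb_inv _ hdet' (map ρ G)
  rw [hE3, map_zero] at h11
  exact red_ns hNS h11.symm

end Pool.Agent.PQ
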