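import Pool.Agent.PQ.IND
import Pool.Agent.PQ.RED
import Pool.Agent.PQ.NSX

/-!
# PQ / EXI

Every smooth plane quartic over an algebraically closed field `C` of characteristic zero has a Riemann model.
`M` = algebraic closure of the fraction field of `MvPolynomial (Fin 3 × Fin 2 ⊕ Fin 3 × Fin 3) C`; `t`, `g` = the variables.  `Fg := sb g (RB (bg t))`.
`ind` and `spz` (`R = C`, `φ` = evaluation at the coefficients of `F`): `V` contains `C` and the coefficients `γ e` of `Fg`, and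
`γ e - coeff e F ∈ V.nonunits`.  So `Fg = map (algebraMap V M) G`, `G : P3 V` homogeneous of degree 4, and `map (residue V) G = map ψ F`, where
`ψ : C → κ`, `κ` the residue field.  It is `NS` by `SF.map`, `SF.ns`.  `V.valuation 2 = 1` (`C` is a field in `V`).  `red` with `h = g⁻¹`, `c = 1`:
`h', c', b'` over `κ`, `sb h' (map ψ F) = C c' * RB b'`.
Descend to `C` (`Algebra C κ` by `ψ`): `hmn` for the finite set of all entries of `h'`, `(det h')⁻¹`, `c'`, `c'⁻¹`, all `b' i r`, `(b' i r)⁻¹`,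
`(b' i r - 1)⁻¹`, `(mu b' i)⁻¹`, `(la b' i)⁻¹`: apply `φ : A → C` to the equation (write it over `A`, `map_RB`, `map_sb`).
-/

namespace Pool.Agent.PQ

open MvPolynomial Matrix

/-- descent of a Riemann model from an extension field -/
theorem exi_desc {C κ : Type*} [Field C] [IsAlgClosed C] [Field κ] [Algebra C κ] (F : P3 C)
    (h' : Matrix (Fin 3) (Fin 3) κ) (c' : κ) (b' : Fin 4 → Fin 3 → κ) (hh : h'.det ≠ 0)
    (hc : c' ≠ 0) (hb : ND b') (hE : sb h' (map (algebraMap C κ) F) = MvPolynomial.C c' * RB b') :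
    ∃ (h : Matrix (Fin 3) (Fin 3) C) (c : C) (b : Fin 4 → Fin 3 → C),
      h.det ≠ 0 ∧ c ≠ 0 ∧ ND b ∧ sb h F = MvPolynomial.C c * RB b := by
  let S : Set κ := Set.range (fun p : Fin 3 × Fin 3 => h' p.1 p.2) ∪
    (Set.range (fun p : Fin 4 × Fin 3 => b' p.1 p.2) ∪
    (Set.range (fun p : Fin 4 × Fin 3 => (b' p.1 p.2)⁻¹) ∪
    (Set.range (fun p : Fin 4 × Fin 3 => (b' p.1 p.2 - 1)⁻¹) ∪
    (Set.range (fun i : Fin 4 => (mu b' i)⁻¹) ∪
    (Set.range (fun i : Fin 4 => (la b' i)⁻¹) ∪ {(h'.det)⁻¹, c', c'⁻¹})))))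
  have hS : S.Finite := Set.toFinite _
  obtain ⟨φ⟩ := hmn (k := C) hS.toFinset
  have hsub : ∀ y ∈ S, y ∈ Algebra.adjoin C ((hS.toFinset : Finset κ) : Set κ) := by
    intro y hy
    apply Algebra.subset_adjoin
    rw [Set.Finite.coe_toFinset]
    exact hy
  generalize Algebra.adjoin C ((hS.toFinset : Finset κ) : Set κ) = A at φ hsub
  have m1 : ∀ i j, h' i j ∈ A := fun i j => hsub _ (Or.inl ⟨(i, j), rfl⟩)
  have m2 : ∀ i j, b' i j ∈ A := fun i j => hsub _ (Or.inr (Or.inl ⟨(i, j), rfl⟩))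
  have m3' : ∀ i j, (b' i j)⁻¹ ∈ A := fun i j => hsub _ (Or.inr (Or.inr (Or.inl ⟨(i, j), rfl⟩)))
  have m4 : ∀ i j, (b' i j - 1)⁻¹ ∈ A := fun i j =>
    hsub _ (Or.inr (Or.inr (Or.inr (Or.inl ⟨(i, j), rfl⟩))))
  have m5 : ∀ i, (mu b' i)⁻¹ ∈ A := fun i =>
    hsub _ (Or.inr (Or.inr (Or.inr (Or.inr (Or.inl ⟨i, rfl⟩)))))
  have m6 : ∀ i, (la b' i)⁻¹ ∈ A := fun i =>
    hsub _ (Or.inr (Or.inr (Or.inr (Or.inr (Or.inr (Or.inl ⟨i, rfl⟩))))))
  have m7 : (h'.det)⁻¹ ∈ A :=
    hsub _ (Or.inr (Or.inr (Or.inr (Or.inr (Or.inr (Or.inr (Or.inl rfl)))))))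
  have m8 : c' ∈ A :=
    hsub _ (Or.inr (Or.inr (Or.inr (Or.inr (Or.inr (Or.inr (Or.inr (Or.inl rfl))))))))
  have m9 : c'⁻¹ ∈ A :=
    hsub _ (Or.inr (Or.inr (Or.inr (Or.inr (Or.inr (Or.inr (Or.inr (Or.inr rfl))))))))
  have inv : ∀ a : A, (a : κ) ≠ 0 → (a : κ)⁻¹ ∈ A → φ a ≠ 0 := by
    intro a h0 h1 h2
    have h3 : a * ⟨(a : κ)⁻¹, h1⟩ = 1 := Subtype.ext (mul_inv_cancel₀ h0)
    have h4 := congrArg φ h3
    rw [map_mul, h2, zero_mul, map_one] at h4
    exact zero_ne_one h4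
  let hA : Matrix (Fin 3) (Fin 3) A := Matrix.of fun i j => ⟨h' i j, m1 i j⟩
  let cA : A := ⟨c', m8⟩
  let bA : Fin 4 → Fin 3 → A := fun i j => ⟨b' i j, m2 i j⟩
  let ι : A →+* κ := A.val.toRingHom
  have hι : Function.Injective ι := Subtype.val_injective
  have hιφ : (ι.comp (algebraMap C A)) = algebraMap C κ := rfl
  have hEA : sb hA (map (algebraMap C A) F) = MvPolynomial.C cA * RB bA := by
    apply MvPolynomial.map_injective ι hι
    rw [map_sb, MvPolynomial.map_map, hιφ, map_mul, map_C, map_RB]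
    exact hE
  have hEC := congrArg (map φ.toRingHom) hEA
  rw [map_sb, MvPolynomial.map_map, map_mul, map_C, map_RB] at hEC
  have hid : (φ.toRingHom.comp (algebraMap C A)) = RingHom.id C := by
    ext y
    exact φ.commutes y
  rw [hid, MvPolynomial.map_id] at hEC
  refine ⟨hA.map φ, φ cA, fun i r => φ (bA i r), ?_, ?_, ⟨?_, ?_, ?_, ?_, ?_, ?_⟩, hEC⟩
  · have e1 : (hA.map φ).det = φ hA.det := by
      rw [AlgHom.map_det]
      rfl
    have e2 : ((hA.det : A) : κ) = h'.det := by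
      change ι hA.det = _
      rw [RingHom.map_det]
      rfl
    rw [e1]
    refine inv _ (by rw [e2]; exact hh) (by rw [e2]; exact m7)
  · exact inv cA hc m9
  · intro r
    have : bA 0 r = 1 := Subtype.ext (hb.zero r)
    rw [this, map_one]
  · intro i
    have : bA i 0 = 1 := Subtype.ext (hb.col i)
    rw [this, map_one]
  · intro i r
    exact inv (bA i r) (hb.ne i r) (m3' i r)
  · intro i r hi hr
    have h1 := inv (bA i r - 1) (sub_ne_zero.2 (hb.one i r hi hr)) (m4 i r)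
    rw [map_sub, map_one] at h1
    exact sub_ne_zero.1 h1
  · intro i
    have e1 : mu (fun i r => φ (bA i r)) i = φ (mu bA i) := (map_mu φ.toRingHom bA i).symm
    have e2 : ((mu bA i : A) : κ) = mu b' i := map_mu ι bA i
    rw [e1]
    exact inv _ (by rw [e2]; exact hb.mu i) (by rw [e2]; exact m5 i)
  · intro i
    have e1 : la (fun i r => φ (bA i r)) i = φ (la bA i) := (map_la φ.toRingHom bA i).symm
    have e2 : ((la bA i : A) : κ) = la b' i := map_la ι bA i
    rw [e1]
    exact inv _ (by rw [e2]; exact hb.la i) (by rw [e2]; exact m6 i)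

theorem exi_aux {C M : Type*} [Field C] [CharZero C] [IsAlgClosed C] [Field M] [IsAlgClosed M]
    [Algebra C M] (t : Fin 3 → Fin 2 → M) (g : Fin 3 → Fin 3 → M)
    (h : IsTranscendenceBasis C (Sum.elim (fun x : Fin 3 × Fin 2 => t x.1 x.2)
      fun x : Fin 3 × Fin 3 => g x.1 x.2)) (F : P3 C) (hF : F.IsHomogeneous 4)
    (hS : SF F) : ∃ (h : Matrix (Fin 3) (Fin 3) C) (c : C) (b : Fin 4 → Fin 3 → C),
      h.det ≠ 0 ∧ c ≠ 0 ∧ ND b ∧ sb h F = MvPolynomial.C c * RB b := by
  have htC : AlgebraicIndependent C fun x : Fin 3 × Fin 2 => t x.1 x.2 :=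
    h.1.comp Sum.inl Sum.inl_injective
  have hgC : AlgebraicIndependent C fun x : Fin 3 × Fin 3 => g x.1 x.2 :=
    h.1.comp Sum.inr Sum.inr_injective
  have htZ : AlgebraicIndependent ℤ fun x : Fin 3 × Fin 2 => t x.1 x.2 :=
    htC.restrictScalars (by
      intro a b hab
      simpa using hab)
  have hdet : (Matrix.of g).det ≠ 0 := by
    intro h0
    apply Matrix.det_mvPolynomialX_ne_zero (Fin 3) C
    apply hgC
    rw [map_zero]
    have h1 := Matrix.mvPolynomialX_mapMatrix_aeval C (Matrix.of g)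
    have h2 := congrArg Matrix.det h1
    rw [← AlgHom.map_det] at h2
    rw [h0] at h2
    exact h2
  obtain ⟨V, h1, h2⟩ := spz _ (ind t g h)
    (eval fun e : {e : Fin 3 →₀ ℕ // e.degree = 4} => coeff e.1 F)
  set x : {e : Fin 3 →₀ ℕ // e.degree = 4} → M := fun e => coeff e.1 (sb (Matrix.of g) (RB (bg t)))
    with hx
  have hCV : ∀ c : C, algebraMap C M c ∈ V := by
    intro c
    have := h1 (MvPolynomial.C c)
    rwa [aeval_C] at this
  let cV : C →+* V := (algebraMap C M).codRestrict V hCV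
  let ψ : C →+* IsLocalRing.ResidueField V := (IsLocalRing.residue V).comp cV
  have hhom : (sb (Matrix.of g) (RB (bg t))).IsHomogeneous 4 := sb_hom _ (RQ_hom (yy (bg t)))
  have hz : ∀ e : Fin 3 →₀ ℕ, e.degree ≠ 4 → coeff e (sb (Matrix.of g) (RB (bg t))) = 0 := by
    intro e he
    by_contra hne
    apply he
    have := hhom hne
    rw [Finsupp.degree_eq_weight_one]
    exact this
  have hzF : ∀ e : Fin 3 →₀ ℕ, e.degree ≠ 4 → coeff e F = 0 := by
    intro e he
    by_contra hne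
    apply he
    have := hF hne
    rw [Finsupp.degree_eq_weight_one]
    exact this
  have hcoef : ∀ e : Fin 3 →₀ ℕ, coeff e (sb (Matrix.of g) (RB (bg t))) ∈ V := by
    intro e
    by_cases he : e.degree = 4
    · have := h1 (X ⟨e, he⟩)
      rwa [aeval_X] at this
    · rw [hz e he]
      exact zero_mem _
  obtain ⟨G, hG⟩ : sb (Matrix.of g) (RB (bg t)) ∈ Set.range (MvPolynomial.map (algebraMap V M)) := by
    rw [mem_range_map_iff_coeffs_subset]
    intro y hy
    obtain ⟨e, -, he⟩ := mem_coeffs_iff.1 hy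
    rw [he]
    exact ⟨⟨_, hcoef e⟩, rfl⟩
  have hGc : ∀ e, ((coeff e G : V) : M) = coeff e (sb (Matrix.of g) (RB (bg t))) := by
    intro e
    rw [← hG, coeff_map]
    rfl
  have hGhom : G.IsHomogeneous 4 := by
    intro d hd
    apply hhom
    rw [← hGc]
    intro h0
    exact hd (Subtype.ext h0)
  have hred : MvPolynomial.map (IsLocalRing.residue V) G = MvPolynomial.map ψ F := by
    ext e
    rw [coeff_map, coeff_map]
    by_cases he : e.degree = 4
    · have h3 := h2 (X ⟨e, he⟩ - MvPolynomial.C (coeff e F)) (by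
        rw [map_sub, eval_X, eval_C, sub_self])
      have h4 : aeval x (X ⟨e, he⟩ - MvPolynomial.C (coeff e F)) =
          ((coeff e G - cV (coeff e F) : V) : M) := by
        rw [map_sub, aeval_X, aeval_C]
        change _ = ((coeff e G : V) : M) - algebraMap C M (coeff e F)
        rw [hGc]
      rw [h4, ValuationSubring.mem_nonunits_iff_exists_mem_maximalIdeal] at h3
      obtain ⟨_, h5⟩ := h3
      have h6 := (IsLocalRing.residue_eq_zero_iff (coeff e G - cV (coeff e F))).2 h5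
      rw [map_sub, sub_eq_zero] at h6
      exact h6
    · have h3 : coeff e G = 0 := Subtype.ext (by rw [hGc, hz e he]; rfl)
      rw [h3, hzF e he, map_zero, map_zero]
  have hNS : NS (MvPolynomial.map (IsLocalRing.residue V) G) := by
    rw [hred]
    exact (hS.map ψ).ns
  have hv2 : V.valuation (2 : M) = 1 := by
    have h3 : IsUnit (2 : V) := by
      have h4 : IsUnit (cV 2) := (isUnit_iff_ne_zero.2 (two_ne_zero : (2 : C) ≠ 0)).map cV
      rwa [map_ofNat] at h4
    have h5 := (V.valuation_eq_one_iff 2).1 h3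
    exact h5
  have hinv : ((Matrix.of g)⁻¹).det ≠ 0 := by
    have h3 : IsUnit (Matrix.of g).det := isUnit_iff_ne_zero.2 hdet
    rw [Matrix.det_nonsing_inv]
    exact (isUnit_ringInverse.2 h3).ne_zero
  obtain ⟨h', c', b', q1, q2, q3, q4⟩ := red V hv2 G hGhom hNS ((Matrix.of g)⁻¹) hinv 1 one_ne_zero
    (bg t) (gnd t htZ) (by
      have e1 : MvPolynomial.map (algebraMap V M) G = sb (Matrix.of g) (RB (bg t)) := hG
      rw [e1, sb_inv _ hdet, map_one, one_mul])
  rw [hred] at q4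
  let _ : Algebra C (IsLocalRing.ResidueField V) := ψ.toAlgebra
  exact exi_desc F h' c' b' q1 q2 q3 q4

theorem exi {C : Type*} [Field C] [CharZero C] [IsAlgClosed C] (F : P3 C) (hF : F.IsHomogeneous 4)
    (hS : SF F) : ∃ (h : Matrix (Fin 3) (Fin 3) C) (c : C) (b : Fin 4 → Fin 3 → C),
      h.det ≠ 0 ∧ c ≠ 0 ∧ ND b ∧ sb h F = MvPolynomial.C c * RB b := by
  let P := MvPolynomial (Fin 3 × Fin 2 ⊕ Fin 3 × Fin 3) C
  let M := AlgebraicClosure (FractionRing P)
  have h0 : IsTranscendenceBasis C (X : Fin 3 × Fin 2 ⊕ Fin 3 × Fin 3 → P) :=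
    IsTranscendenceBasis.mvPolynomial _ C
  have hal : Algebra.IsAlgebraic P (FractionRing P) :=
    IsLocalization.isAlgebraic (FractionRing P) (nonZeroDivisors P)
  have h1 : IsTranscendenceBasis C (algebraMap P (FractionRing P) ∘ X) := h0.algebraMap_comp
  have h2 := h1.algebraMap_comp (A := M)
  refine exi_aux (M := M)
    (fun i j => algebraMap (FractionRing P) M (algebraMap P (FractionRing P) (X (Sum.inl (i, j)))))
    (fun i j => algebraMap (FractionRing P) M (algebraMap P (FractionRing P) (X (Sum.inr (i, j)))))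
    ?_ F hF hS
  have e : (Sum.elim
      (fun x : Fin 3 × Fin 2 => algebraMap (FractionRing P) M (algebraMap P (FractionRing P)
        (X (Sum.inl (x.1, x.2)))))
      (fun x : Fin 3 × Fin 3 => algebraMap (FractionRing P) M (algebraMap P (FractionRing P)
        (X (Sum.inr (x.1, x.2)))))) =
      (algebraMap (FractionRing P) M ∘ algebraMap P (FractionRing P) ∘ X) := by
    funext i
    rcases i with ⟨i, j⟩ | ⟨i, j⟩ <;> rfl
  rw [e]
  exact h2

end Pool.Agent.PQ
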