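import Pool.Agent.PQ.LNF

/-!
# PQ / DVL

Divisibility by linear forms.

`dvl_unit`: `E` = matrix with rows `E i = e_i` (`i ≠ j`) and `E j = - (v j)⁻¹ • (v with j-th entry 0)`; then `lin v ∣ P - sb E P` for all
`P` (induction on `P`: true for constants and for the variables, since `X j - lin (E j) = (v j)⁻¹ lin v`; products:
`pq - p'q' = (p - p') q + p' (q - q')`), so it suffices that `sb E P = 0`.
`dvl_line`: field `k` infinite, `v j ≠ 0`: `sb E P` vanishes at all points `p` (`eval_sb`, `v ⬝ (E p) = 0`), so it is `0`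
(`MvPolynomial.funext`).
`dvl_hom`: if `P = lin v * T` is homogeneous of degree `n + 1` take for `S` the homogeneous component of degree `n` of `T`
(`P = homogeneousComponent (n+1) (lin v * T) = lin v * homogeneousComponent n T`: write `T` as the sum of its components).
-/

namespace Pool.Agent.PQ

open MvPolynomial Matrix

/-- the projection to the line `v` along the coordinate `j` -/
noncomputable def prj {R : Type*} [CommRing R] (v : Fin 3 → R) (j : Fin 3) (u : R) : Matrix (Fin 3) (Fin 3) R :=
  Matrix.of fun i => if i = j then (fun l => if l = j then 0 else -(u * v l)) else Pi.single i 1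

private theorem DVL_row {R : Type*} [CommRing R] (v : Fin 3 → R) (j : Fin 3) (u : R)
    (hu : u * v j = 1) : prj v j u j = Pi.single j 1 - u • v := by
  funext l
  by_cases h : l = j
  · subst h
    simp [prj, hu]
  · simp [prj, h]

private theorem DVL_row' {R : Type*} [CommRing R] (v : Fin 3 → R) (j : Fin 3) (u : R) {i : Fin 3}
    (hi : i ≠ j) : prj v j u i = Pi.single i 1 := by
  funext l
  simp [prj, hi]

private theorem DVL_sub {R : Type*} [CommRing R] (v w : Fin 3 → R) :
    lin (v - w) = lin v - lin w := by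
  rw [sub_eq_add_neg, lin_add, lin_neg, sub_eq_add_neg]

theorem dvl_unit {R : Type*} [CommRing R] (v : Fin 3 → R) (j : Fin 3) (u : R) (hu : u * v j = 1) (P : P3 R) :
    lin v ∣ P - sb (prj v j u) P := by
  induction P using MvPolynomial.induction_on with
  | C a =>
    rw [sb_C, sub_self]
    exact dvd_zero _
  | add p q hp hq =>
    rw [map_add, add_sub_add_comm]
    exact dvd_add hp hq
  | mul_X p i hp =>
    rw [map_mul, sb_X]
    have h1 : p * X i - sb (prj v j u) p * lin (prj v j u i) =
        (p - sb (prj v j u) p) * X i + sb (prj v j u) p * (X i - lin (prj v j u i)) := by ring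
    rw [h1]
    refine dvd_add (dvd_mul_of_dvd_left hp _) (dvd_mul_of_dvd_right ?_ _)
    by_cases hi : i = j
    · subst hi
      rw [DVL_row v i u hu, DVL_sub, lin_single, lin_smul, sub_sub_cancel]
      exact dvd_mul_left _ _
    · rw [DVL_row' v j u hi, lin_single, sub_self]
      exact dvd_zero _

private theorem DVL_mulVec {R : Type*} [CommRing R] (v : Fin 3 → R) (j : Fin 3) (u : R)
    (hu : u * v j = 1) (p : Fin 3 → R) :
    prj v j u *ᵥ p = p - (u * (v ⬝ᵥ p)) • (Pi.single j 1 : Fin 3 → R) := by
  funext i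
  show (prj v j u i) ⬝ᵥ p = _
  by_cases hi : i = j
  · subst hi
    rw [DVL_row v i u hu, sub_dotProduct, smul_dotProduct, single_one_dotProduct]
    simp
  · rw [DVL_row' v j u hi, single_one_dotProduct]
    simp [hi]

theorem prj_line {R : Type*} [CommRing R] (v : Fin 3 → R) (j : Fin 3) (u : R) (hu : u * v j = 1)
    (p : Fin 3 → R) : v ⬝ᵥ (prj v j u *ᵥ p) = 0 := by
  rw [DVL_mulVec v j u hu, dotProduct_sub, dotProduct_smul, dotProduct_single_one, smul_eq_mul]
  linear_combination -(v ⬝ᵥ p) * hu

theorem prj_fix {R : Type*} [CommRing R] (v : Fin 3 → R) (j : Fin 3) (u : R) (hu : u * v j = 1)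
    (p : Fin 3 → R) (hp : v ⬝ᵥ p = 0) : prj v j u *ᵥ p = p := by
  rw [DVL_mulVec v j u hu, hp, mul_zero, zero_smul, sub_zero]

theorem dvl_line {k : Type*} [Field k] [Infinite k] (v : Fin 3 → k) (hv : v ≠ 0) (P : P3 k)
    (h : ∀ p, v ⬝ᵥ p = 0 → eval p P = 0) : lin v ∣ P := by
  obtain ⟨j, hj⟩ := Function.ne_iff.mp hv
  have hu : (v j)⁻¹ * v j = 1 := inv_mul_cancel₀ hj
  have h1 := dvl_unit v j (v j)⁻¹ hu P
  have h2 : sb (prj v j (v j)⁻¹) P = 0 := by
    apply MvPolynomial.funext
    intro p
    rw [eval_sb, map_zero]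
    exact h _ (prj_line v j _ hu p)
  rwa [h2, sub_zero] at h1

theorem dvl_hom {R : Type*} [CommRing R] (v : Fin 3 → R) (P : P3 R) (n : ℕ) (hP : P.IsHomogeneous (n + 1))
    (hd : lin v ∣ P) : ∃ S : P3 R, S.IsHomogeneous n ∧ P = lin v * S := by
  obtain ⟨T, hT⟩ := hd
  refine ⟨homogeneousComponent n T, homogeneousComponent_isHomogeneous n T, ?_⟩
  have h1 : homogeneousComponent (n + 1) P = P := by
    rw [homogeneousComponent_of_mem ((mem_homogeneousSubmodule _ _).mpr hP), if_pos rfl]
  have h2 : lin v * T = ∑ k ∈ Finset.range (T.totalDegree + 1),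
      lin v * homogeneousComponent k T := by
    rw [← Finset.mul_sum, sum_homogeneousComponent]
  have h3 : ∀ k, homogeneousComponent (n + 1) (lin v * homogeneousComponent k T) =
      if n = k then lin v * homogeneousComponent k T else 0 := by
    intro k
    have h4 : (lin v * homogeneousComponent k T).IsHomogeneous (1 + k) :=
      (lin_hom v).mul (homogeneousComponent_isHomogeneous k T)
    rw [homogeneousComponent_of_mem ((mem_homogeneousSubmodule _ _).mpr h4)]
    by_cases h5 : n = k
    · rw [if_pos (by omega), if_pos h5]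
    · rw [if_neg (by omega), if_neg h5]
  rw [← h1, hT, h2, map_sum]
  simp only [h3]
  rw [Finset.sum_ite_eq]
  split_ifs with h6
  · rfl
  · rw [homogeneousComponent_eq_zero]
    · rw [mul_zero]
    · rw [Finset.mem_range] at h6
      omega

end Pool.Agent.PQ
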