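import Pool.Agent.PQ.LNF

/-!
# PQ / TRF

Transformation rules.  `cross_vecMul`: `h *ᵥ ((v ᵥ* h) × (w ᵥ* h)) = det h • (v × w)` (identity in 15 variables, `ring` after
`Fin` case distinction).  `trf_opp` from it, `eval_sb` and `eval_smul_hom`.
-/

namespace Pool.Agent.PQ

open MvPolynomial Matrix

theorem cross_vecMul {R : Type*} [CommRing R] (h : Matrix (Fin 3) (Fin 3) R) (v w : Fin 3 → R) :
    h *ᵥ (crossProduct (v ᵥ* h) (w ᵥ* h)) = h.det • crossProduct v w := by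
  ext i
  rw [Pi.smul_apply, smul_eq_mul, Matrix.det_fin_three]
  fin_cases i
  · simp [cross_apply, mulVec, vecMul, dotProduct, Fin.sum_univ_three]
    ring
  · simp [cross_apply, mulVec, vecMul, dotProduct, Fin.sum_univ_three]
    ring
  · simp [cross_apply, mulVec, vecMul, dotProduct, Fin.sum_univ_three]
    ring

theorem cross_ne {k : Type*} [Field k] {h : Matrix (Fin 3) (Fin 3) k} (hh : h.det ≠ 0) {v w : Fin 3 → k}
    (hx : crossProduct v w ≠ 0) : crossProduct (v ᵥ* h) (w ᵥ* h) ≠ 0 := by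
  intro h0
  have h1 := cross_vecMul h v w
  rw [h0, mulVec_zero] at h1
  exact (smul_ne_zero hh hx) h1.symm

theorem trf_bit {R : Type*} [CommRing R] (h : Matrix (Fin 3) (Fin 3) R) {F : P3 R} {v : Fin 3 → R}
    {Q : P3 R} (hb : Bit F v Q) : Bit (sb h F) (v ᵥ* h) (sb h Q) := by
  obtain ⟨h1, S, hS, hF⟩ := hb
  refine ⟨sb_hom h h1, sb h S, sb_hom h hS, ?_⟩
  rw [hF, map_add, map_mul, map_pow, sb_lin]

theorem trf_opp {R : Type*} [CommRing R] (h : Matrix (Fin 3) (Fin 3) R) {v v' : Fin 3 → R}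
    {Q Q' : P3 R} (hQ : Q.IsHomogeneous 2) (hQ' : Q'.IsHomogeneous 2) (ho : Opp v Q v' Q') :
    Opp (v ᵥ* h) (sb h Q) (v' ᵥ* h) (sb h Q') := by
  unfold Opp at ho ⊢
  rw [eval_sb, eval_sb, cross_vecMul, eval_smul_hom hQ, eval_smul_hom hQ', ho]
  ring

theorem scl_bit {k : Type*} [Field k] {F : P3 k} {v : Fin 3 → k} {Q : P3 k} (hb : Bit F v Q) (c e : k)
    (hc : c ≠ 0) : Bit (C (e ^ 2) * F) (c • v) (C e * Q) := by
  obtain ⟨h1, S, hS, hF⟩ := hb
  refine ⟨?_, C (e ^ 2 * c⁻¹) * S, ?_, ?_⟩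
  · have := (isHomogeneous_C (Fin 3) e).mul h1
    rwa [zero_add] at this
  · have := (isHomogeneous_C (Fin 3) (e ^ 2 * c⁻¹)).mul hS
    rwa [zero_add] at this
  · have h2 : (C c * C (e ^ 2 * c⁻¹) : P3 k) = C (e ^ 2) := by
      rw [← C_mul, mul_comm c, mul_assoc, inv_mul_cancel₀ hc, mul_one]
    have h3 : lin (c • v) * (C (e ^ 2 * c⁻¹) * S) = (C c * C (e ^ 2 * c⁻¹)) * (lin v * S) := by
      rw [lin_smul]
      ring
    rw [h3, h2, hF, C_pow]
    ring

theorem scl_opp {k : Type*} [Field k] {v v' : Fin 3 → k} {Q Q' : P3 k} (hQ : Q.IsHomogeneous 2)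
    (hQ' : Q'.IsHomogeneous 2) (ho : Opp v Q v' Q') (c c' e : k) :
    Opp (c • v) (C e * Q) (c' • v') (C e * Q') := by
  unfold Opp at ho ⊢
  have h1 : crossProduct (c • v) (c' • v') = (c * c') • crossProduct v v' := by
    rw [LinearMap.map_smul₂, map_smul, smul_smul]
  rw [h1, map_mul, map_mul, eval_smul_hom hQ, eval_smul_hom hQ', ho]
  ring

theorem opp_symm {R : Type*} [CommRing R] {v v' : Fin 3 → R} {Q Q' : P3 R} (hQ : Q.IsHomogeneous 2)
    (hQ' : Q'.IsHomogeneous 2) (ho : Opp v Q v' Q') : Opp v' Q' v Q := by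
  unfold Opp at ho ⊢
  have h1 : crossProduct v' v = (-1 : R) • crossProduct v v' := by
    rw [neg_one_smul]
    exact (cross_anticomm v v').symm
  rw [h1, eval_smul_hom hQ, eval_smul_hom hQ', ho]
  ring

theorem bit_neg {R : Type*} [CommRing R] {F : P3 R} {v : Fin 3 → R} {Q : P3 R} (hb : Bit F v Q) :
    Bit F v (-Q) := by
  obtain ⟨h1, S, hS, hF⟩ := hb
  refine ⟨?_, S, hS, ?_⟩
  · exact h1.neg
  · rw [hF]
    ring

end Pool.Agent.PQ
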