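import Pool.Agent.PQ.MPB

/-!
# PQ / BTX

The ten bitangents.  `bit_x`: `RQ y = (QX y r)² + X r * lin (y r) * (Ay y r - 2 Ay y (r+1) - 2 Ay y (r+2))` (case distinction on
`r`, `ring`); the same identity gives `bit_y`.
`bit_s`: let `x' r = β r X r`, `y' r = (β r)⁻¹ lin (y r)`, so `x' r * y' r = Ay y r`, `∑ x' r = lin β =: s`, `∑ y' r = - κ s` (`Rel`, as forms).
With `x' 2 = s - x' 0 - x' 1`, `y' 2 = - κ s - y' 0 - y' 1`:
`x' 2 * y' 2 = (x' 0 + x' 1)(y' 0 + y' 1) + s * T`, `T = κ (x' 0 + x' 1) - (y' 0 + y' 1) - κ s`, and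
`RQ y = (x' 0 y' 1 - x' 1 y' 0)² + s * T * (2 ((x' 0 + x' 1)(y' 0 + y' 1)) + s T - 2 (Ay 0 + Ay 1))`.
-/

namespace Pool.Agent.PQ

open MvPolynomial Matrix

private theorem BTX_RQ {R : Type*} [CommRing R] (y : Fin 3 → Fin 3 → R) (r : Fin 3) :
    RQ y = (Ay y (r + 1) - Ay y (r + 2)) ^ 2 +
      Ay y r * (Ay y r - (Ay y (r + 1) + Ay y (r + 1)) - (Ay y (r + 2) + Ay y (r + 2))) := by
  unfold RQ
  fin_cases r
  · change _ = (Ay y 1 - Ay y 2) ^ 2 +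
      Ay y 0 * (Ay y 0 - (Ay y 1 + Ay y 1) - (Ay y 2 + Ay y 2))
    ring
  · change _ = (Ay y 2 - Ay y 0) ^ 2 +
      Ay y 1 * (Ay y 1 - (Ay y 2 + Ay y 2) - (Ay y 0 + Ay y 0))
    ring
  · change _ = (Ay y 0 - Ay y 1) ^ 2 +
      Ay y 2 * (Ay y 2 - (Ay y 0 + Ay y 0) - (Ay y 1 + Ay y 1))
    ring

private theorem BTX_Ay {R : Type*} [CommRing R] (y : Fin 3 → Fin 3 → R) (r : Fin 3) :
    (Ay y r).IsHomogeneous 2 := (isHomogeneous_X R r).mul (lin_hom (y r))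

private theorem BTX_W {R : Type*} [CommRing R] (y : Fin 3 → Fin 3 → R) (r : Fin 3) :
    (Ay y r - (Ay y (r + 1) + Ay y (r + 1)) - (Ay y (r + 2) + Ay y (r + 2))).IsHomogeneous 2 :=
  ((BTX_Ay y r).sub ((BTX_Ay y _).add (BTX_Ay y _))).sub ((BTX_Ay y _).add (BTX_Ay y _))

theorem bit_x {R : Type*} [CommRing R] (y : Fin 3 → Fin 3 → R) (r : Fin 3) :
    Bit (RQ y) (Pi.single r 1) (QX y r) := by
  refine ⟨QX_hom y r, lin (y r) *
    (Ay y r - (Ay y (r + 1) + Ay y (r + 1)) - (Ay y (r + 2) + Ay y (r + 2))),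
    (lin_hom (y r)).mul (BTX_W y r), ?_⟩
  rw [lin_single, BTX_RQ y r, QX, ← mul_assoc]
  rfl

theorem bit_y {R : Type*} [CommRing R] (y : Fin 3 → Fin 3 → R) (r : Fin 3) :
    Bit (RQ y) (y r) (QX y r) := by
  refine ⟨QX_hom y r, X r *
    (Ay y r - (Ay y (r + 1) + Ay y (r + 1)) - (Ay y (r + 2) + Ay y (r + 2))),
    (isHomogeneous_X R r).mul (BTX_W y r), ?_⟩
  rw [BTX_RQ y r, QX, ← mul_assoc, mul_comm (lin (y r)) (X r)]
  rfl

private theorem BTX_key {A : Type*} [CommRing A] (x0 x1 x2 y0 y1 y2 s κ : A)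
    (h1 : x0 + x1 + x2 = s) (h2 : y0 + y1 + y2 = -κ * s) :
    (x0 * y0) ^ 2 + (x1 * y1) ^ 2 + (x2 * y2) ^ 2 -
      2 * (x0 * y0 * (x1 * y1) + x1 * y1 * (x2 * y2) + x2 * y2 * (x0 * y0)) =
    (x0 * y1 - x1 * y0) ^ 2 + s * ((κ * (x0 + x1) - (y0 + y1) - κ * s) *
      ((x0 * y1 + x1 * y0) + (x0 * y1 + x1 * y0) + s * (κ * (x0 + x1) - (y0 + y1) - κ * s))) := by
  have e1 : x2 = s - x0 - x1 := by linear_combination h1
  have e2 : y2 = -κ * s - y0 - y1 := by linear_combination h2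
  rw [e1, e2]
  ring

theorem bit_s {k : Type*} [Field k] (β : Fin 3 → k) (hβ : ∀ r, β r ≠ 0) (y : Fin 3 → Fin 3 → k) (κ : k)
    (h : Rel β y κ) : Bit (RQ y) β (QS β y) := by
  have hA : ∀ r, Ay y r = (C (β r) * X r) * (C (β r)⁻¹ * lin (y r)) := by
    intro r
    have k1 : (C (β r) : P3 k) * C (β r)⁻¹ = 1 := by
      rw [← C_mul, mul_inv_cancel₀ (hβ r), C_1]
    unfold Ay
    linear_combination (-(X r * lin (y r))) * k1
  have h1 : (C (β 0) * X 0 : P3 k) + C (β 1) * X 1 + C (β 2) * X 2 = lin β := by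
    rw [lin, Fin.sum_univ_three]
  have h2 : (C (β 0)⁻¹ * lin (y 0) : P3 k) + C (β 1)⁻¹ * lin (y 1) + C (β 2)⁻¹ * lin (y 2) =
      -C κ * lin β := by
    rw [← lin_smul, ← lin_smul, ← lin_smul, ← lin_add, ← lin_add, ← C_neg, ← lin_smul]
    congr 1
    funext j
    have k1 := h j
    rw [Fin.sum_univ_three] at k1
    exact k1
  have hx : ∀ r, (C (β r) * X r : P3 k).IsHomogeneous 1 := fun r => by
    have := (isHomogeneous_C (Fin 3) (β r)).mul (isHomogeneous_X k r)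
    rwa [zero_add] at this
  have hc : ∀ (c : k) {n : ℕ} {F : P3 k}, F.IsHomogeneous n → (C c * F : P3 k).IsHomogeneous n :=
    fun c n F hF => by
      have := (isHomogeneous_C (Fin 3) c).mul hF
      rwa [zero_add] at this
  have hT : (C κ * (C (β 0) * X 0 + C (β 1) * X 1) -
      (C (β 0)⁻¹ * lin (y 0) + C (β 1)⁻¹ * lin (y 1)) - C κ * lin β : P3 k).IsHomogeneous 1 :=
    ((hc κ ((hx 0).add (hx 1))).sub ((hc _ (lin_hom _)).add (hc _ (lin_hom _)))).sub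
      (hc _ (lin_hom _))
  have hP : ((C (β 0) * X 0) * (C (β 1)⁻¹ * lin (y 1)) +
      (C (β 1) * X 1) * (C (β 0)⁻¹ * lin (y 0)) : P3 k).IsHomogeneous 2 :=
    ((hx 0).mul (hc _ (lin_hom _))).add ((hx 1).mul (hc _ (lin_hom _)))
  refine ⟨QS_hom β y, _, hT.mul ((hP.add hP).add ((lin_hom β).mul hT)), ?_⟩
  have k1 := BTX_key _ _ _ _ _ _ _ _ h1 h2
  rw [← hA 0, ← hA 1, ← hA 2] at k1
  unfold RQ
  rw [k1]
  congr 2
  unfold QS
  rw [C_mul, C_mul]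
  ring

end Pool.Agent.PQ
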