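import Pool.Agent.PQ.LNF

/-!
# PQ / MPB

Everything is compatible with ring homomorphisms (definitions unfold to sums and products; `RingHom.map_det`, `RingHom.map_adjugate`).
`RQ_hom`: homogeneous of degree 4.  `RQ_smul`: `RQ (c • y) = C (c²) * RQ y`.
-/

namespace Pool.Agent.PQ

open MvPolynomial Matrix

private theorem MPB_m3 {R S : Type*} [CommRing R] [CommRing S] (φ : R →+* S) (b : Fin 4 → Fin 3 → R)
    (i : Fin 4) : φ (m3 b i) = m3 (fun i r => φ (b i r)) i := by
  rw [m3, m3, map_mul, map_pow, map_neg, map_one, RingHom.map_det]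
  rfl

theorem map_mu {R S : Type*} [CommRing R] [CommRing S] (φ : R →+* S) (b : Fin 4 → Fin 3 → R) (i : Fin 4) :
    φ (mu b i) = mu (fun i r => φ (b i r)) i := MPB_m3 φ b i

private theorem MPB_aa {R S : Type*} [CommRing R] [CommRing S] (φ : R →+* S) (b : Fin 4 → Fin 3 → R) :
    (fun i r => φ (aa b i r)) = aa (fun i r => φ (b i r)) := by
  funext i r
  rw [aa, aa, map_mul]

theorem map_la {R S : Type*} [CommRing R] [CommRing S] (φ : R →+* S) (b : Fin 4 → Fin 3 → R) (i : Fin 4) :
    φ (la b i) = la (fun i r => φ (b i r)) i := by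
  rw [la, la, MPB_m3, MPB_aa]

theorem map_yy {R S : Type*} [CommRing R] [CommRing S] (φ : R →+* S) (b : Fin 4 → Fin 3 → R) (r j : Fin 3) :
    φ (yy b r j) = yy (fun i r => φ (b i r)) r j := by
  have hadj : ∀ i, φ ((Matrix.adjugate (Matrix.of fun s : Fin 3 => aa b s.succ)) r i) =
      (Matrix.adjugate (Matrix.of fun s : Fin 3 => aa (fun i r => φ (b i r)) s.succ)) r i := by
    intro i
    have k1 := RingHom.map_adjugate φ (Matrix.of fun s : Fin 3 => aa b s.succ)
    have k2 : φ.mapMatrix (Matrix.of fun s : Fin 3 => aa b s.succ) =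
        Matrix.of fun s : Fin 3 => aa (fun i r => φ (b i r)) s.succ := by
      rw [← MPB_aa]
      rfl
    rw [k2] at k1
    rw [← k1]
    rfl
  rw [yy, yy, map_neg, map_sum]
  congr 1
  refine Finset.sum_congr rfl fun i _ => ?_
  rw [map_mul, map_mul, map_mul, map_prod, map_mu, hadj]
  congr 3
  refine Finset.prod_congr rfl fun l _ => ?_
  rw [map_la]

private theorem MPB_Ay {R S : Type*} [CommRing R] [CommRing S] (φ : R →+* S) (y : Fin 3 → Fin 3 → R)
    (r : Fin 3) : map φ (Ay y r) = Ay (fun r j => φ (y r j)) r := by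
  rw [Ay, Ay, map_mul, map_X, map_lin]

theorem map_RB {R S : Type*} [CommRing R] [CommRing S] (φ : R →+* S) (b : Fin 4 → Fin 3 → R) :
    map φ (RB b) = RB fun i r => φ (b i r) := by
  have e : (fun r j => φ (yy b r j)) = yy (fun i r => φ (b i r)) := by
    funext r j
    exact map_yy φ b r j
  have e2 : map φ (2 : P3 R) = 2 := map_ofNat _ 2
  rw [RB, RB, RQ, RQ]
  simp only [map_sub, map_mul, map_add, map_pow, MPB_Ay, e, e2]

private theorem MPB_hom {R : Type*} [CommRing R] (y : Fin 3 → Fin 3 → R) (r : Fin 3) :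
    (Ay y r).IsHomogeneous 2 := (isHomogeneous_X R r).mul (lin_hom (y r))

theorem RQ_hom {R : Type*} [CommRing R] (y : Fin 3 → Fin 3 → R) : (RQ y).IsHomogeneous 4 := by
  have h2 : ∀ {F : P3 R}, F.IsHomogeneous 4 → (2 * F).IsHomogeneous 4 := fun {F} hF => by
    rw [two_mul]
    exact hF.add hF
  have h3 : ∀ r s, (Ay y r * Ay y s).IsHomogeneous 4 := fun r s => (MPB_hom y r).mul (MPB_hom y s)
  have h4 : ∀ r, (Ay y r ^ 2).IsHomogeneous 4 := fun r => (MPB_hom y r).pow 2
  exact (((h4 0).add (h4 1)).add (h4 2)).sub (h2 (((h3 0 1).add (h3 1 2)).add (h3 2 0)))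

theorem QX_hom {R : Type*} [CommRing R] (y : Fin 3 → Fin 3 → R) (r : Fin 3) : (QX y r).IsHomogeneous 2 :=
  (MPB_hom y _).sub (MPB_hom y _)

theorem QS_hom {k : Type*} [Field k] (β : Fin 3 → k) (y : Fin 3 → Fin 3 → k) :
    (QS β y).IsHomogeneous 2 := by
  have h1 : ∀ (c : k) (r s : Fin 3), (C c * (X r * lin (y s)) : P3 k).IsHomogeneous 2 := by
    intro c r s
    have := (isHomogeneous_C (Fin 3) c).mul ((isHomogeneous_X k r).mul (lin_hom (y s)))
    rwa [zero_add] at this
  exact (h1 _ _ _).sub (h1 _ _ _)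

/-- the value at the coordinate points -/
theorem eval_RQ_single {R : Type*} [CommRing R] (y : Fin 3 → Fin 3 → R) (r : Fin 3) :
    eval (Pi.single r 1) (RQ y) = y r r ^ 2 := by
  have e : ∀ s, eval (Pi.single r 1) (Ay y s) = if s = r then y r r else 0 := by
    intro s
    rw [Ay, map_mul, eval_X, eval_lin, dotProduct_single, mul_one, Pi.single_apply]
    split_ifs with h
    · rw [h, one_mul]
    · rw [zero_mul]
  rw [RQ]
  simp only [map_sub, map_mul, map_add, map_pow, e]
  have hf : ∀ r : Fin 3, r = 0 ∨ r = 1 ∨ r = 2 := by decide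
  rcases hf r with rfl | rfl | rfl <;> simp

end Pool.Agent.PQ
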