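import Pool.Agent.PQ.LNF
import Pool.Agent.PQ.MPB

/-!
# PQ / SPZ

`spz`: `A = (aeval t).range` (as a subring of `M`), isomorphic to `MvPolynomial ι R` (`ht` injective); `I` = image of `ker φ`, a proper
ideal of `A` (`φ 1 = 1 ≠ 0`).  `Ideal.image_subset_nonunits_valuationSubring` (Mathlib, `RingTheory/Valuation/LocalSubring`).
-/

namespace Pool.Agent.PQ

open MvPolynomial Matrix

/-- the parameters with the normalised row and column -/
def bg {R : Type*} [CommRing R] (t : Fin 3 → Fin 2 → R) : Fin 4 → Fin 3 → R :=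
  Fin.cons (fun _ => 1) fun i => Fin.cons 1 (t i)

theorem map_bg {R S : Type*} [CommRing R] [CommRing S] (φ : R →+* S) (t : Fin 3 → Fin 2 → R) :
    (fun i r => φ (bg t i r)) = bg fun i r => φ (t i r) := by
  funext i r
  refine Fin.cases ?_ (fun i => ?_) i
  · exact map_one φ
  · refine Fin.cases ?_ (fun r => ?_) r
    · exact map_one φ
    · rfl

theorem spz {R M ι k : Type*} [CommRing R] [Field M] [Algebra R M] [Field k] (t : ι → M)
    (ht : AlgebraicIndependent R t) (φ : MvPolynomial ι R →+* k) :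
    ∃ V : ValuationSubring M, (∀ p : MvPolynomial ι R, aeval t p ∈ V) ∧
      ∀ p : MvPolynomial ι R, φ p = 0 → aeval t p ∈ V.nonunits := by
  let f : MvPolynomial ι R →+* (aeval t : MvPolynomial ι R →ₐ[R] M).range.toSubring :=
    (aeval t : MvPolynomial ι R →ₐ[R] M).toRingHom.codRestrict _ fun p => ⟨p, rfl⟩
  have hf : Function.Surjective f := by
    rintro ⟨x, p, hp⟩
    exact ⟨p, Subtype.ext hp⟩
  have hI : Ideal.map f (RingHom.ker φ) ≠ ⊤ := by
    intro h
    rw [Ideal.eq_top_iff_one] at h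
    obtain ⟨p, hp, h1⟩ := (Ideal.mem_map_iff_of_surjective f hf).mp h
    have h2 : aeval t p = aeval t (1 : MvPolynomial ι R) := by
      rw [map_one]
      exact congrArg Subtype.val h1
    have h3 : p = 1 := ht h2
    rw [RingHom.mem_ker, h3, map_one] at hp
    exact one_ne_zero hp
  obtain ⟨V, hV1, hV2⟩ := Ideal.image_subset_nonunits_valuationSubring _ hI
  refine ⟨V, fun p => hV1 ⟨p, rfl⟩, fun p hp => hV2 ⟨f p, Ideal.mem_map_of_mem f hp, rfl⟩⟩

end Pool.Agent.PQ
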