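import Pool.Agent.PQ.MPB

/-!
# PQ / OPS

Signs for the bitangents `β`.  Let `x' r = β r * p r`, `y' r = (β r)⁻¹ * (y r ⬝ p)`; if `β ⬝ p = 0` then `∑ x' r = 0`, `∑ y' r = 0` (`Rel`),
`Ay y r` has the value `x' r * y' r` and `QS β y` the value `x' 0 y' 1 - x' 1 y' 0` at `p`.
`opp_xs`: in addition `x' r = 0`; e.g. `r = 0`: `QS = - x' 1 y' 0`, `QX y 0 = x' 1 y' 1 - x' 2 y' 2 = x' 1 (y' 1 + y' 2) = - x' 1 y' 0`; so the values are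
equal, `Opp` with `- QS`.  `r = 1`: `QS = x' 0 y' 1`, `QX y 1 = x' 2 y' 2 - x' 0 y' 0 = - x' 0 (y' 2 + y' 0) = x' 0 y' 1`.  `r = 2`: `x' 1 = - x' 0`:
`QS = x' 0 (y' 1 + y' 0)`, `QX y 2 = x' 0 y' 0 - x' 1 y' 1 = x' 0 (y' 0 + y' 1)`.
`opp_ys`: `y' r = 0`; `r = 0`: `y' 2 = - y' 1`: `QS = x' 0 y' 1`, `QX y 0 = x' 1 y' 1 - x' 2 y' 2 = y' 1 (x' 1 + x' 2) = - x' 0 y' 1`; similarly `r = 1, 2`.
`opp_ss`: `p = β × β'`, `β r, β' r ≠ 0`.  From `∑ (β r)⁻¹ Y r = 0 = ∑ (β' r)⁻¹ Y r` (`Y r = y r ⬝ p`) eliminate `Y 2`: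
`p 1 * Y 0 * (β 1 * β' 1) = p 0 * Y 1 * (β 0 * β' 0)` (multiply out; `p 0 = β 1 β' 2 - β 2 β' 1`, `p 1 = β 2 β' 0 - β 0 β' 2`), and
`QS β y + QS β' y = p 0 Y 1 (β 0/β 1 + β' 0/β' 1) - p 1 Y 0 (β 1/β 0 + β' 1/β' 0) = 0`.
-/

namespace Pool.Agent.PQ

open MvPolynomial Matrix

private theorem OPS_A {k : Type*} [Field k] (y : Fin 3 → Fin 3 → k) (r : Fin 3)
    (p : Fin 3 → k) : eval p (Ay y r) = p r * (y r ⬝ᵥ p) := by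
  rw [Ay, map_mul, eval_X, eval_lin]

private theorem OPS_S {k : Type*} [Field k] (β : Fin 3 → k) (y : Fin 3 → Fin 3 → k)
    (p : Fin 3 → k) : eval p (QS β y) =
      (β 0 * p 0) * ((β 1)⁻¹ * (y 1 ⬝ᵥ p)) - (β 1 * p 1) * ((β 0)⁻¹ * (y 0 ⬝ᵥ p)) := by
  simp only [QS, map_sub, map_mul, eval_C, eval_X, eval_lin]
  ring

private theorem OPS_rel {k : Type*} [Field k] {β : Fin 3 → k} {y : Fin 3 → Fin 3 → k} {κ : k}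
    (h : Rel β y κ) {p : Fin 3 → k} (hp : β ⬝ᵥ p = 0) :
    (β 0 * p 0 + β 1 * p 1 + β 2 * p 2 = 0) ∧
    ((β 0)⁻¹ * (y 0 ⬝ᵥ p) + (β 1)⁻¹ * (y 1 ⬝ᵥ p) + (β 2)⁻¹ * (y 2 ⬝ᵥ p) = 0) := by
  rw [dotProduct, Fin.sum_univ_three] at hp
  refine ⟨hp, ?_⟩
  have k0 := h 0
  have k1 := h 1
  have k2 := h 2
  rw [Fin.sum_univ_three] at k0 k1 k2
  rw [dotProduct, dotProduct, dotProduct, Fin.sum_univ_three, Fin.sum_univ_three,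
    Fin.sum_univ_three]
  linear_combination p 0 * k0 + p 1 * k1 + p 2 * k2 - κ * hp

private theorem OPS_X {k : Type*} [Field k] {β : Fin 3 → k} (hβ : ∀ r, β r ≠ 0)
    (y : Fin 3 → Fin 3 → k) (p : Fin 3 → k) :
    (eval p (QX y 0) = (β 1 * p 1) * ((β 1)⁻¹ * (y 1 ⬝ᵥ p)) -
      (β 2 * p 2) * ((β 2)⁻¹ * (y 2 ⬝ᵥ p))) ∧
    (eval p (QX y 1) = (β 2 * p 2) * ((β 2)⁻¹ * (y 2 ⬝ᵥ p)) -
      (β 0 * p 0) * ((β 0)⁻¹ * (y 0 ⬝ᵥ p))) ∧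
    (eval p (QX y 2) = (β 0 * p 0) * ((β 0)⁻¹ * (y 0 ⬝ᵥ p)) -
      (β 1 * p 1) * ((β 1)⁻¹ * (y 1 ⬝ᵥ p))) := by
  have e : ∀ r, (β r * p r) * ((β r)⁻¹ * (y r ⬝ᵥ p)) = p r * (y r ⬝ᵥ p) := by
    intro r
    have := mul_inv_cancel₀ (hβ r)
    linear_combination (p r * (y r ⬝ᵥ p)) * this
  rw [e, e, e]
  refine ⟨?_, ?_, ?_⟩
  · rw [← OPS_A, ← OPS_A, ← map_sub]
    rfl
  · rw [← OPS_A, ← OPS_A, ← map_sub]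
    rfl
  · rw [← OPS_A, ← OPS_A, ← map_sub]
    rfl

theorem opp_xs {k : Type*} [Field k] (β : Fin 3 → k) (hβ : ∀ r, β r ≠ 0) (y : Fin 3 → Fin 3 → k) (κ : k)
    (h : Rel β y κ) (r : Fin 3) : Opp (Pi.single r 1) (QX y r) β (-QS β y) := by
  have hp := dot_cross_self (Pi.single r (1 : k)) β
  have hq := dot_self_cross (Pi.single r (1 : k)) β
  rw [Opp, map_neg, neg_neg, OPS_S]
  obtain ⟨p, hpp⟩ : ∃ p, p = crossProduct (Pi.single r (1 : k)) β := ⟨_, rfl⟩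
  rw [← hpp] at hp hq ⊢
  obtain ⟨hx, hy⟩ := OPS_rel h hp
  obtain ⟨h0, h1, h2⟩ := OPS_X hβ y p
  rw [single_dotProduct, one_mul] at hq
  have hf : ∀ r : Fin 3, r = 0 ∨ r = 1 ∨ r = 2 := by decide
  rcases hf r with rfl | rfl | rfl
  · rw [h0]
    have e : β 0 * p 0 = 0 := by rw [hq, mul_zero]
    linear_combination (β 1 * p 1) * hy - ((β 2)⁻¹ * (y 2 ⬝ᵥ p)) * hx +
      ((β 2)⁻¹ * (y 2 ⬝ᵥ p) - (β 1)⁻¹ * (y 1 ⬝ᵥ p)) * e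
  · rw [h1]
    have e : β 1 * p 1 = 0 := by rw [hq, mul_zero]
    linear_combination -(β 0 * p 0) * hy + ((β 2)⁻¹ * (y 2 ⬝ᵥ p)) * hx +
      ((β 0)⁻¹ * (y 0 ⬝ᵥ p) - (β 2)⁻¹ * (y 2 ⬝ᵥ p)) * e
  · rw [h2]
    have e : β 2 * p 2 = 0 := by rw [hq, mul_zero]
    linear_combination ((β 0)⁻¹ * (y 0 ⬝ᵥ p) - (β 1)⁻¹ * (y 1 ⬝ᵥ p)) * hx -
      ((β 0)⁻¹ * (y 0 ⬝ᵥ p) - (β 1)⁻¹ * (y 1 ⬝ᵥ p)) * e

theorem opp_ys {k : Type*} [Field k] (β : Fin 3 → k) (hβ : ∀ r, β r ≠ 0) (y : Fin 3 → Fin 3 → k) (κ : k)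
    (h : Rel β y κ) (r : Fin 3) : Opp (y r) (QX y r) β (QS β y) := by
  have hp := dot_cross_self (y r) β
  have hq := dot_self_cross (y r) β
  rw [Opp, OPS_S]
  obtain ⟨p, hpp⟩ : ∃ p, p = crossProduct (y r) β := ⟨_, rfl⟩
  rw [← hpp] at hp hq ⊢
  obtain ⟨hx, hy⟩ := OPS_rel h hp
  obtain ⟨h0, h1, h2⟩ := OPS_X hβ y p
  have hf : ∀ r : Fin 3, r = 0 ∨ r = 1 ∨ r = 2 := by decide
  rcases hf r with rfl | rfl | rfl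
  · rw [h0]
    have e : (β 0)⁻¹ * (y 0 ⬝ᵥ p) = 0 := by rw [hq, mul_zero]
    linear_combination ((β 1)⁻¹ * (y 1 ⬝ᵥ p)) * hx - (β 2 * p 2) * hy +
      (β 2 * p 2 - β 1 * p 1) * e
  · rw [h1]
    have e : (β 1)⁻¹ * (y 1 ⬝ᵥ p) = 0 := by rw [hq, mul_zero]
    linear_combination -((β 0)⁻¹ * (y 0 ⬝ᵥ p)) * hx + (β 2 * p 2) * hy +
      (β 0 * p 0 - β 2 * p 2) * e
  · rw [h2]
    have e : (β 2)⁻¹ * (y 2 ⬝ᵥ p) = 0 := by rw [hq, mul_zero]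
    linear_combination (β 0 * p 0 - β 1 * p 1) * hy - (β 0 * p 0 - β 1 * p 1) * e

private theorem OPS_ss {k : Type*} [Field k] {b0 b1 b2 d0 d1 d2 p0 p1 Y0 Y1 Y2 : k}
    (hb0 : b0 ≠ 0) (hb1 : b1 ≠ 0) (hb2 : b2 ≠ 0) (hd0 : d0 ≠ 0) (hd1 : d1 ≠ 0) (hd2 : d2 ≠ 0)
    (hp0 : p0 = b1 * d2 - b2 * d1) (hp1 : p1 = b2 * d0 - b0 * d2)
    (h : b0⁻¹ * Y0 + b1⁻¹ * Y1 + b2⁻¹ * Y2 = 0) (h' : d0⁻¹ * Y0 + d1⁻¹ * Y1 + d2⁻¹ * Y2 = 0) :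
    (b0 * p0) * (b1⁻¹ * Y1) - (b1 * p1) * (b0⁻¹ * Y0) =
      -((d0 * p0) * (d1⁻¹ * Y1) - (d1 * p1) * (d0⁻¹ * Y0)) := by
  have e : b1 * b2 * Y0 + b0 * b2 * Y1 + b0 * b1 * Y2 = 0 := by
    have : b0 * b1 * b2 * (b0⁻¹ * Y0 + b1⁻¹ * Y1 + b2⁻¹ * Y2) = 0 := by rw [h, mul_zero]
    rw [← this]
    field_simp
  have e' : d1 * d2 * Y0 + d0 * d2 * Y1 + d0 * d1 * Y2 = 0 := by
    have : d0 * d1 * d2 * (d0⁻¹ * Y0 + d1⁻¹ * Y1 + d2⁻¹ * Y2) = 0 := by rw [h', mul_zero]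
    rw [← this]
    field_simp
  have e2 : p1 * Y0 * (b1 * d1) = p0 * Y1 * (b0 * d0) := by
    rw [hp0, hp1]
    linear_combination (d0 * d1) * e - (b0 * b1) * e'
  have e3 : p0 * Y1 * (b1 * d1)⁻¹ = p1 * Y0 * (b0 * d0)⁻¹ := by
    field_simp
    linear_combination -e2
  have f1 : (b0 * p0) * (b1⁻¹ * Y1) = (b0 * d1) * (p0 * Y1 * (b1 * d1)⁻¹) := by
    field_simp
  have f2 : (b1 * p1) * (b0⁻¹ * Y0) = (b1 * d0) * (p1 * Y0 * (b0 * d0)⁻¹) := by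
    field_simp
  have f3 : (d0 * p0) * (d1⁻¹ * Y1) = (d0 * b1) * (p0 * Y1 * (b1 * d1)⁻¹) := by
    field_simp
  have f4 : (d1 * p1) * (d0⁻¹ * Y0) = (d1 * b0) * (p1 * Y0 * (b0 * d0)⁻¹) := by
    field_simp
  rw [f1, f2, f3, f4, e3]
  ring

theorem opp_ss {k : Type*} [Field k] (β β' : Fin 3 → k) (hβ : ∀ r, β r ≠ 0) (hβ' : ∀ r, β' r ≠ 0)
    (y : Fin 3 → Fin 3 → k) (κ κ' : k) (h : Rel β y κ) (h' : Rel β' y κ') :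
    Opp β (QS β y) β' (QS β' y) := by
  have hp := dot_cross_self β β'
  have hq := dot_self_cross β β'
  rw [Opp, OPS_S, OPS_S]
  exact OPS_ss (hβ 0) (hβ 1) (hβ 2) (hβ' 0) (hβ' 1) (hβ' 2) (by simp [crossProduct])
    (by simp [crossProduct]) (OPS_rel h hq).2 (OPS_rel h' hp).2

end Pool.Agent.PQ
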