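import Pool.Agent.PQ.SYS
import Pool.Agent.PQ.REL
import Pool.Agent.PQ.BTX
import Pool.Agent.PQ.OPX
import Pool.Agent.PQ.OPS

/-!
# PQ / UNA

The parameters are exceptional units.  Lines `e_r` (with `QX`) and `b i` (with `- QS`), seven bitangents of `RB b`, pairwise `Opp`
(`opp_xx`, `opp_xs`, `opp_ss` and signs) and with non-zero cross products (`e_r × b i`: all `b i r ≠ 0`; `b i × b j`: choose
`l ≠ i, j`, `mu b l ≠ 0`).  For each of them `prv` applied to `w ᵥ* h⁻¹` gives `η`, `L`.  Write `|·|` for `V.valuation`, `η_r` for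
`e_r`, `η'_i` for `b i`.  `sys`:
(1) triple `e_0, e_1, e_2`: `1 = |h| |η_0 η_1 η_2|`;
(2) `b i` and the two `e_r` with `r ≠ u` (determinant `± b i u`): `|b i u| = |h| |η'_i| ∏_{r ≠ u} |η_r|`, so `|b i u| |η_u| = |η'_i|`.
`i = 0`: `|η_u| = |η'_0|` for all `u`; `b i 0 = 1`: `|η'_i| = |η_0|`.  So all are equal to `|η_0|`, `|b i u| = 1`, `|h| = |η_0|⁻³`.
(3) `b i, b 0, e_r` (`i ≠ 0`; `r = 2, 1`; determinant `± (1 - b i 1)`, `± (1 - b i 2)`): `|1 - b i r| = |h| |η_0|³ = 1`.
(4) the three `b j`, `j ≠ i`: `|mu b i| = 1`.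
`h⁻¹` has rows `e_r ᵥ* h⁻¹ = η_r • L_r = η_0 • (unit L_r)`, so `η_0⁻¹ • h⁻¹` has entries in `V` and determinant a unit, hence so has its
inverse `η_0 • h =: h0`, `h = η_0⁻¹ • h0`.
-/

namespace Pool.Agent.PQ

open MvPolynomial Matrix

theorem una_cross_of_det {M : Type*} [Field M] {w : Fin 3 → Fin 3 → M}
    (hd : Matrix.det (Matrix.of w) ≠ 0) {i j : Fin 3} (hij : i ≠ j) :
    crossProduct (w i) (w j) ≠ 0 := by
  have hli : LinearIndependent M (Matrix.of w).row :=
    Matrix.linearIndependent_rows_of_det_ne_zero hd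
  rw [crossProduct_ne_zero_iff_linearIndependent]
  have hinj : Function.Injective ![i, j] := by
    intro a b hab
    fin_cases a <;> fin_cases b
    · rfl
    · exact absurd hab hij
    · exact absurd hab hij.symm
    · rfl
  have h1 := hli.comp ![i, j] hinj
  have h2 : (Matrix.of w).row ∘ ![i, j] = ![w i, w j] := by
    funext a
    fin_cases a <;> rfl
  rwa [h2] at h1

private theorem una_qx_hom {M : Type*} [Field M] (y : Fin 3 → Fin 3 → M) (r : Fin 3) :
    (QX y r).IsHomogeneous 2 := (bit_x y r).hom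

/-- the seven lines -/
noncomputable def unaW {M : Type*} [Field M] (b : Fin 4 → Fin 3 → M) : Fin 3 ⊕ Fin 4 → Fin 3 → M :=
  Sum.elim (fun r => Pi.single r 1) b

/-- the seven quadratic forms -/
noncomputable def unaQ {M : Type*} [Field M] (b : Fin 4 → Fin 3 → M) : Fin 3 ⊕ Fin 4 → P3 M :=
  Sum.elim (fun r => QX (yy b) r) (fun i => -QS (b i) (yy b))

private theorem una_bit {M : Type*} [Field M] {b : Fin 4 → Fin 3 → M} (hb : ND b)
    (s : Fin 3 ⊕ Fin 4) : Bit (RB b) (unaW b s) (unaQ b s) := by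
  rcases s with r | i
  · exact bit_x _ r
  · exact bit_neg (bit_s (b i) (hb.ne i) _ _ (rel_field b i (hb.ne i)))

private theorem una_opp {M : Type*} [Field M] {b : Fin 4 → Fin 3 → M} (hb : ND b)
    (s t : Fin 3 ⊕ Fin 4) (hst : s ≠ t) : Opp (unaW b s) (unaQ b s) (unaW b t) (unaQ b t) := by
  rcases s with r | i <;> rcases t with t | j
  · exact opp_xx _ r t fun h => hst (by rw [h])
  · exact opp_xs (b j) (hb.ne j) _ _ (rel_field b j (hb.ne j)) r
  · exact opp_symm (una_bit hb (Sum.inl t)).hom (una_bit hb (Sum.inr i)).hom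
      (opp_xs (b i) (hb.ne i) _ _ (rel_field b i (hb.ne i)) t)
  · have h := opp_ss (b i) (b j) (hb.ne i) (hb.ne j) _ _ _ (rel_field b i (hb.ne i))
      (rel_field b j (hb.ne j))
    unfold Opp at h ⊢
    simp only [unaW, unaQ, Sum.elim_inr, map_neg, h]

theorem una {M : Type*} [Field M] [IsAlgClosed M] (V : ValuationSubring M) (h2 : V.valuation (2 : M) = 1)
    (G : P3 V) (hG : G.IsHomogeneous 4) (hNS : NS (map (IsLocalRing.residue V) G))
    (h : Matrix (Fin 3) (Fin 3) M) (hh : h.det ≠ 0) (c : M) (hc : c ≠ 0) (b : Fin 4 → Fin 3 → M)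
    (hb : ND b) (hE : sb h (map (algebraMap V M) G) = C c * RB b) :
    (∀ i r, V.valuation (b i r) = 1) ∧ (∀ i r, i ≠ 0 → r ≠ 0 → V.valuation (1 - b i r) = 1) ∧
      (∀ i, V.valuation (mu b i) = 1) ∧
      ∃ (η : M) (h0 : Matrix (Fin 3) (Fin 3) V), η ≠ 0 ∧ V.valuation (h0.det : M) = 1 ∧
        ∀ i j, h i j = η * (h0 i j : M) := by
  have hu : IsUnit h.det := isUnit_iff_ne_zero.2 hh
  have hW0 : ∀ s, unaW b s ≠ 0 := by
    rintro (r | i)
    · intro h0
      have := congrFun h0 r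
      simp [unaW] at this
    · intro h0
      have := congrFun h0 0
      simp [unaW, hb.col] at this
  have hWh : ∀ s, unaW b s ᵥ* h⁻¹ ≠ 0 := by
    intro s h0
    apply hW0 s
    have := congrArg (fun q => q ᵥ* h) h0
    simpa [Matrix.vecMul_vecMul, Matrix.nonsing_inv_mul _ hu] using this
  choose η L hη hηL hL using fun s => prv V (unaW b s ᵥ* h⁻¹) (hWh s)
  have hηL' : ∀ s, unaW b s ᵥ* h⁻¹ = η s • (fun j => (L s j : M)) := by
    intro s
    funext j
    exact hηL s j
  have hwL : ∀ s, unaW b s = η s • ((fun j => (L s j : M)) ᵥ* h) := by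
    intro s
    rw [← Matrix.smul_vecMul, ← hηL' s, Matrix.vecMul_vecMul, Matrix.nonsing_inv_mul _ hu,
      Matrix.vecMul_one]
  -- the main identity for triples
  have tri : ∀ σ : Fin 3 → Fin 3 ⊕ Fin 4, Matrix.det (Matrix.of fun i => unaW b (σ i)) ≠ 0 →
      V.valuation (Matrix.det (Matrix.of fun i => unaW b (σ i))) =
        V.valuation h.det * ∏ i, V.valuation (η (σ i)) := by
    intro σ hσ
    refine sys V h2 G hG hNS (RB b) h hh c hc hE (fun i => unaW b (σ i)) (fun i => unaQ b (σ i))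
      (fun i => una_bit hb _) (fun i j hij => una_cross_of_det hσ hij) ?_ (fun i => η (σ i))
      (fun i => hη _) (fun i => L (σ i)) (fun i => hL _) (fun i => hwL _)
    intro i j hij
    refine una_opp hb _ _ fun h0 => hσ ?_
    refine Matrix.det_zero_of_row_eq hij ?_
    change unaW b (σ i) = unaW b (σ j)
    rw [h0]
  set v := V.valuation with hv
  have hvh : v h.det ≠ 0 := (v.ne_zero_iff).2 hh
  have hvη : ∀ s, v (η s) ≠ 0 := fun s => (v.ne_zero_iff).2 (hη s)
  -- (1)
  have e1 : v h.det * (v (η (Sum.inl 0)) * v (η (Sum.inl 1)) * v (η (Sum.inl 2))) = 1 := by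
    have hd : Matrix.det (Matrix.of fun i => unaW b (Sum.inl i)) = 1 := by
      rw [Matrix.det_fin_three]
      simp [unaW]
    have h3 := tri (fun i => Sum.inl i) (by rw [hd]; exact one_ne_zero)
    rw [hd, map_one, Fin.prod_univ_three] at h3
    exact h3.symm
  -- (2)
  have e2 : ∀ (i : Fin 4) (u : Fin 3), v (b i u) * v (η (Sum.inl u)) = v (η (Sum.inr i)) := by
    intro i u
    have hd : Matrix.det (Matrix.of fun j => unaW b
        ((![Sum.inr i, Sum.inl (u + 1), Sum.inl (u + 2)] : Fin 3 → Fin 3 ⊕ Fin 4) j)) =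
        b i u := by
      rw [Matrix.det_fin_three]
      fin_cases u <;> simp [unaW]
    have h3 := tri ![Sum.inr i, Sum.inl (u + 1), Sum.inl (u + 2)] (by rw [hd]; exact hb.ne i u)
    rw [hd, Fin.prod_univ_three] at h3
    have h4 : v (η (Sum.inl (u + 1))) * v (η (Sum.inl (u + 2))) * v (η (Sum.inl u)) =
        v (η (Sum.inl 0)) * v (η (Sum.inl 1)) * v (η (Sum.inl 2)) := by
      fin_cases u
      · change v (η (Sum.inl 1)) * v (η (Sum.inl 2)) * v (η (Sum.inl 0)) = _
        ac_rfl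
      · change v (η (Sum.inl 2)) * v (η (Sum.inl 0)) * v (η (Sum.inl 1)) = _
        ac_rfl
      · change v (η (Sum.inl 0)) * v (η (Sum.inl 1)) * v (η (Sum.inl 2)) = _
        rfl
    rw [h3]
    change v h.det * (v (η (Sum.inr i)) * v (η (Sum.inl (u + 1))) * v (η (Sum.inl (u + 2)))) *
      v (η (Sum.inl u)) = _
    calc _ = v (η (Sum.inr i)) * (v h.det * (v (η (Sum.inl (u + 1))) *
          v (η (Sum.inl (u + 2))) * v (η (Sum.inl u)))) := by ac_rfl
      _ = _ := by rw [h4, e1, mul_one]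
  have e3 : ∀ u, v (η (Sum.inl u)) = v (η (Sum.inl 0)) := by
    intro u
    have h3 := e2 0 u
    have h4 := e2 0 0
    rw [hb.zero, map_one, one_mul] at h3 h4
    rw [h3, h4]
  have e4 : ∀ i, v (η (Sum.inr i)) = v (η (Sum.inl 0)) := by
    intro i
    have h3 := e2 i 0
    rw [hb.col, map_one, one_mul] at h3
    exact h3.symm
  have e5 : ∀ i u, v (b i u) = 1 := by
    intro i u
    have h3 := e2 i u
    rw [e3, e4] at h3
    exact (mul_eq_right₀ (hvη _)).1 h3
  have e6 : v h.det * (v (η (Sum.inl 0)) * v (η (Sum.inl 0)) * v (η (Sum.inl 0))) = 1 := by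
    have := e1
    rwa [e3 1, e3 2] at this
  have eall : ∀ s, v (η s) = v (η (Sum.inl 0)) := by
    rintro (u | i)
    · exact e3 u
    · exact e4 i
  have tri1 : ∀ σ : Fin 3 → Fin 3 ⊕ Fin 4, Matrix.det (Matrix.of fun i => unaW b (σ i)) ≠ 0 →
      v (Matrix.det (Matrix.of fun i => unaW b (σ i))) = 1 := by
    intro σ hσ
    rw [tri σ hσ, Fin.prod_univ_three, eall, eall (σ 1), eall (σ 2), e6]
  refine ⟨e5, ?_, ?_, ?_⟩
  · intro i r hi hr
    have hr' : r = 1 ∨ r = 2 := by
      fin_cases r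
      · exact absurd rfl hr
      · exact Or.inl rfl
      · exact Or.inr rfl
    rcases hr' with rfl | rfl
    · have hd : Matrix.det (Matrix.of fun j => unaW b
          ((![Sum.inr i, Sum.inr 0, Sum.inl 2] : Fin 3 → Fin 3 ⊕ Fin 4) j)) = 1 - b i 1 := by
        rw [Matrix.det_fin_three]
        simp [unaW, hb.zero, hb.col]
      have h3 := tri1 ![Sum.inr i, Sum.inr 0, Sum.inl 2]
        (by rw [hd]; exact sub_ne_zero.2 (hb.one i 1 hi hr).symm)
      rwa [hd] at h3
    · have hd : Matrix.det (Matrix.of fun j => unaW b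
          ((![Sum.inr i, Sum.inr 0, Sum.inl 1] : Fin 3 → Fin 3 ⊕ Fin 4) j)) = -(1 - b i 2) := by
        rw [Matrix.det_fin_three]
        simp [unaW, hb.zero, hb.col]
        try ring
      have h3 := tri1 ![Sum.inr i, Sum.inr 0, Sum.inl 1]
        (by rw [hd]; exact neg_ne_zero.2 (sub_ne_zero.2 (hb.one i 2 hi hr).symm))
      rwa [hd, Valuation.map_neg] at h3
  · intro i
    have hd : mu b i = (-1) ^ (i : ℕ) * Matrix.det (Matrix.of fun j : Fin 3 =>
        unaW b (Sum.inr (i.succAbove j))) := rfl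
    have h3 : Matrix.det (Matrix.of fun j : Fin 3 => unaW b (Sum.inr (i.succAbove j))) ≠ 0 := by
      intro h0
      apply hb.mu i
      rw [hd, h0, mul_zero]
    rw [hd, map_mul, map_pow, Valuation.map_neg, map_one, one_pow, one_mul]
    exact tri1 (fun j => Sum.inr (i.succAbove j)) h3
  · -- the matrix
    have hrow : ∀ r j, h⁻¹ r j = η (Sum.inl r) * (L (Sum.inl r) j : M) := by
      intro r j
      have h3 := hηL (Sum.inl r) j
      rw [← h3]
      simp [unaW]
    have hmem : ∀ r j, (η (Sum.inl 0))⁻¹ * h⁻¹ r j ∈ V := by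
      intro r j
      rw [← V.valuation_le_one_iff, hrow, ← mul_assoc, map_mul, map_mul, map_inv₀]
      change (v _)⁻¹ * v _ * v _ ≤ 1
      rw [e3 r, inv_mul_cancel₀ (hvη _), one_mul]
      exact V.valuation_le_one _
    let K : Matrix (Fin 3) (Fin 3) V := Matrix.of fun r j => ⟨_, hmem r j⟩
    have hK : K.map (algebraMap V M) = (η (Sum.inl 0))⁻¹ • h⁻¹ := by
      ext r j
      rfl
    have hKd : V.valuation ((K.det : V) : M) = 1 := by
      have h3 : ((K.det : V) : M) = ((η (Sum.inl 0))⁻¹) ^ 3 * (h.det)⁻¹ := by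
        have h4 : ((K.det : V) : M) = (K.map (algebraMap V M)).det :=
          RingHom.map_det (algebraMap V M) K
        rw [h4, hK, Matrix.det_smul, Matrix.det_nonsing_inv, Ring.inverse_eq_inv']
        simp
      rw [h3, map_mul, map_pow, map_inv₀, map_inv₀]
      change (v _)⁻¹ ^ 3 * (v _)⁻¹ = 1
      rw [inv_pow, ← mul_inv, inv_eq_one, ← e6, pow_succ, pow_two, mul_comm]
    have hKu : IsUnit K.det := (V.valuation_eq_one_iff _).2 hKd
    refine ⟨(η (Sum.inl 0))⁻¹, K⁻¹, inv_ne_zero (hη _), ?_, ?_⟩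
    · have h3 : IsUnit (K⁻¹).det := by
        rw [Matrix.det_nonsing_inv]
        exact hKu.ringInverse
      exact (V.valuation_eq_one_iff _).1 h3
    · have h3 : K.map (algebraMap V M) * (K⁻¹).map (algebraMap V M) = 1 := by
        rw [← Matrix.map_mul, Matrix.mul_nonsing_inv _ hKu]
        exact Matrix.map_one _ (map_zero _) (map_one _)
      rw [hK] at h3
      have h4 : (K⁻¹).map (algebraMap V M) = η (Sum.inl 0) • h := by
        have h5 : (η (Sum.inl 0) • h) * ((η (Sum.inl 0))⁻¹ • h⁻¹) = 1 := by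
          rw [Matrix.smul_mul, Matrix.mul_smul, smul_smul, mul_inv_cancel₀ (hη _), one_smul,
            Matrix.mul_nonsing_inv _ hu]
        calc (K⁻¹).map (algebraMap V M) = ((η (Sum.inl 0) • h) * ((η (Sum.inl 0))⁻¹ • h⁻¹)) *
              (K⁻¹).map (algebraMap V M) := by rw [h5, one_mul]
          _ = _ := by rw [mul_assoc, h3, mul_one]
      intro i j
      have h5 := congrFun (congrFun h4 i) j
      change ((K⁻¹ i j : V) : M) = η (Sum.inl 0) * h i j at h5
      rw [h5, ← mul_assoc, inv_mul_cancel₀ (hη _), one_mul]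

end Pool.Agent.PQ
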