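import Pool.Agent.PQ.UNA

/-!
# PQ / UNB

`|la b i| = 1`.  Notation as in UNA: all bitangents `e_r`, `b i` have `|η| =: ε`, `|h| = ε⁻³`, `|b i r| = 1`, `|mu b i| = 1` (`una`; replacing `h` by
`h0` and `c` by `c η⁴`... one can assume `ε = 1`, `|h| = 1`: then for `w = b i, e_r` the vector `w ᵥ* h⁻¹` is itself primitive in `V`, since it has
entries in `V` and `w = (w ᵥ* h⁻¹) ᵥ* h` is primitive).  For the lines `yy b r` let `ζ_r` be the scaling factor (`prv`).
Second system: `yy b r` (with `QX`), `b i` (with `QS`), pairwise `Opp` (`opp_yy`, `opp_ys`, `opp_ss`), independent because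
`det (yy b) ≠ 0` (`det_yy`), `mu ≠ 0` and `det (b i, y_r, y_t) = ± (ka i / n_i)⁻¹ (b i u)⁻¹ det y ≠ 0` by `rel_field`.
`sys`: `|det y| = |ζ_0 ζ_1 ζ_2|`; `|det (b i, y_r, y_t)| = |ζ_r ζ_t|`, so `|ζ_u| = |ka b i|` for all `u`, `i`: all `|ka b i|` are equal to some
`τ`, and `|det y| = τ³`.  `ka b i * la b i = la b 0 * mu b i * ∏ l, la b l` so all `|la b i|` are equal to some `λ` (`|mu| = 1`).
`ydt`: `λ |det y| = τ³ |mu b i|`, so `λ = 1`.
-/

namespace Pool.Agent.PQ

open MvPolynomial Matrix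

/-- the second system of seven lines -/
noncomputable def unbW {M : Type*} [Field M] (b : Fin 4 → Fin 3 → M) : Fin 3 ⊕ Fin 4 → Fin 3 → M :=
  Sum.elim (yy b) b

/-- the second system of quadratic forms -/
noncomputable def unbQ {M : Type*} [Field M] (b : Fin 4 → Fin 3 → M) : Fin 3 ⊕ Fin 4 → P3 M :=
  Sum.elim (fun r => QX (yy b) r) (fun i => QS (b i) (yy b))

private theorem unb_bit {M : Type*} [Field M] {b : Fin 4 → Fin 3 → M} (hb : ND b)
    (s : Fin 3 ⊕ Fin 4) : Bit (RB b) (unbW b s) (unbQ b s) := by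
  rcases s with r | i
  · exact bit_y _ r
  · exact bit_s (b i) (hb.ne i) _ _ (rel_field b i (hb.ne i))

private theorem unb_opp {M : Type*} [Field M] {b : Fin 4 → Fin 3 → M} (hb : ND b)
    (s t : Fin 3 ⊕ Fin 4) (hst : s ≠ t) : Opp (unbW b s) (unbQ b s) (unbW b t) (unbQ b t) := by
  rcases s with r | i <;> rcases t with t | j <;>
    simp only [unbW, unbQ, Sum.elim_inl, Sum.elim_inr]
  · exact opp_yy _ r t fun h => hst (by rw [h])
  · exact opp_ys (b j) (hb.ne j) (yy b) _ (rel_field b j (hb.ne j)) r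
  · exact opp_symm (unb_bit hb (Sum.inl t)).hom (unb_bit hb (Sum.inr i)).hom
      (opp_ys (b i) (hb.ne i) (yy b) _ (rel_field b i (hb.ne i)) t)
  · exact opp_ss (b i) (b j) (hb.ne i) (hb.ne j) (yy b) _ _ (rel_field b i (hb.ne i))
      (rel_field b j (hb.ne j))

theorem unb {M : Type*} [Field M] [IsAlgClosed M] (V : ValuationSubring M) (h2 : V.valuation (2 : M) = 1)
    (G : P3 V) (hG : G.IsHomogeneous 4) (hNS : NS (map (IsLocalRing.residue V) G))
    (h : Matrix (Fin 3) (Fin 3) M) (hh : h.det ≠ 0) (c : M) (hc : c ≠ 0) (b : Fin 4 → Fin 3 → M)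
    (hb : ND b) (hE : sb h (map (algebraMap V M) G) = C c * RB b) (i : Fin 4) :
    V.valuation (la b i) = 1 := by
  obtain ⟨hbr, -, hmu, η, h0, hη, hd0, hh0⟩ := una V h2 G hG hNS h hh c hc b hb hE
  have hu : IsUnit h.det := isUnit_iff_ne_zero.2 hh
  set v := V.valuation with hv
  have hvη0 : v η ≠ 0 := (v.ne_zero_iff).2 hη
  have hh1 : h = η • h0.map (algebraMap V M) := by
    ext i j
    rw [hh0 i j]
    rfl
  have hvh : v h.det = v η ^ 3 := by
    have h3 : h.det = η ^ 3 * (h0.det : M) := by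
      rw [hh1, Matrix.det_smul]
      have h4 : ((h0.det : V) : M) = (h0.map (algebraMap V M)).det :=
        RingHom.map_det (algebraMap V M) h0
      rw [h4]
      simp
    rw [h3, map_mul, hd0, mul_one, map_pow]
  have hu0 : IsUnit h0.det := (V.valuation_eq_one_iff _).2 hd0
  -- the lines `b i` have entries in `V`
  have hbV : ∀ i r, b i r ∈ V := fun i r => by
    rw [← V.valuation_le_one_iff]
    exact (hbr i r).le
  let bV : Fin 4 → Fin 3 → V := fun i r => ⟨b i r, hbV i r⟩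
  -- their primitive multiples
  let LS : Fin 4 → Fin 3 → V := fun i => bV i ᵥ* h0⁻¹
  have hLS : ∀ i, LS i ᵥ* h0 = bV i := by
    intro i
    rw [Matrix.vecMul_vecMul, Matrix.nonsing_inv_mul _ hu0, Matrix.vecMul_one]
  have hLSb : ∀ i, b i = η⁻¹ • ((fun j => (LS i j : M)) ᵥ* h) := by
    intro i
    have h3 : (fun j => (LS i j : M)) ᵥ* (h0.map (algebraMap V M)) = b i := by
      funext j
      have h4 := congrArg (algebraMap V M) (congrFun (hLS i) j)
      have h5 : algebraMap V M (bV i j) = b i j := rfl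
      rw [h5] at h4
      rw [← h4]
      simp only [Matrix.vecMul, dotProduct, map_sum, map_mul]
      rfl
    rw [hh1, Matrix.vecMul_smul, smul_smul, inv_mul_cancel₀ hη, one_smul, h3]
  have hLS1 : ∀ i, ∃ j, v (LS i j : M) = 1 := by
    intro i
    by_contra hcon
    push Not at hcon
    have h3 : ∀ j, v (LS i j : M) < 1 := fun j =>
      lt_of_le_of_ne (V.valuation_le_one _) (hcon j)
    have h4 : v (b i 0) < 1 := by
      have h5 : b i 0 = ∑ j, (LS i j : M) * (h0 j 0 : M) := by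
        have h6 := congrArg (algebraMap V M) (congrFun (hLS i) 0)
        have h7 : algebraMap V M (bV i 0) = b i 0 := rfl
        rw [h7] at h6
        rw [← h6]
        simp only [Matrix.vecMul, dotProduct, map_sum, map_mul]
        rfl
      rw [h5]
      refine v.map_sum_lt one_ne_zero fun j _ => ?_
      rw [map_mul]
      exact mul_lt_one_of_lt_of_le (h3 j) (V.valuation_le_one _)
    exact absurd (hbr i 0) h4.ne
  -- the lines `yy b r`
  have hdy : Matrix.det (Matrix.of (yy b)) ≠ 0 := det_yy b hb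
  have hy0 : ∀ r, yy b r ≠ 0 := by
    intro r h3
    exact hdy (Matrix.det_eq_zero_of_row_eq_zero r fun j => congrFun h3 j)
  have hyh : ∀ r, yy b r ᵥ* h⁻¹ ≠ 0 := by
    intro r h3
    apply hy0 r
    have := congrArg (fun q => q ᵥ* h) h3
    simpa [Matrix.vecMul_vecMul, Matrix.nonsing_inv_mul _ hu] using this
  choose ζ L hζ hζL hL using fun r => prv V (yy b r ᵥ* h⁻¹) (hyh r)
  have hyL : ∀ r, yy b r = ζ r • ((fun j => (L r j : M)) ᵥ* h) := by
    intro r
    have h3 : yy b r ᵥ* h⁻¹ = ζ r • (fun j => (L r j : M)) := by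
      funext j
      exact hζL r j
    rw [← Matrix.smul_vecMul, ← h3, Matrix.vecMul_vecMul, Matrix.nonsing_inv_mul _ hu,
      Matrix.vecMul_one]
  have hvζ : ∀ r, v (ζ r) ≠ 0 := fun r => (v.ne_zero_iff).2 (hζ r)
  have tri : ∀ σ : Fin 3 → Fin 3 ⊕ Fin 4, Matrix.det (Matrix.of fun i => unbW b (σ i)) ≠ 0 →
      v (Matrix.det (Matrix.of fun i => unbW b (σ i))) =
        v h.det * ∏ i, v (Sum.elim ζ (fun _ => η⁻¹) (σ i)) := by
    intro σ hσ
    refine sys V h2 G hG hNS (RB b) h hh c hc hE (fun i => unbW b (σ i)) (fun i => unbQ b (σ i))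
      (fun i => unb_bit hb _) (fun i j hij => una_cross_of_det hσ hij) ?_
      (fun i => Sum.elim ζ (fun _ => η⁻¹) (σ i))
      (fun i => ?_) (fun i => Sum.elim L LS (σ i)) (fun i => ?_) (fun i => ?_)
    · intro i j hij
      refine unb_opp hb _ _ fun h0 => hσ ?_
      refine Matrix.det_zero_of_row_eq hij ?_
      change unbW b (σ i) = unbW b (σ j)
      rw [h0]
    · rcases σ i with r | l
      · exact hζ r
      · exact inv_ne_zero hη
    · rcases σ i with r | l
      · exact hL r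
      · exact hLS1 l
    · rcases σ i with r | l
      · exact hyL r
      · exact hLSb l
  -- the determinant of `y`
  have e1 : v (Matrix.det (Matrix.of (yy b))) = (v η * v (ζ 0)) * (v η * v (ζ 1)) *
      (v η * v (ζ 2)) := by
    have h3 := tri (fun i => Sum.inl i) hdy
    rw [Fin.prod_univ_three, hvh] at h3
    change v (Matrix.det (Matrix.of (yy b))) = v η ^ 3 * (v (ζ 0) * v (ζ 1) * v (ζ 2)) at h3
    rw [h3, pow_succ, pow_two]
    ac_rfl
  have hka : ∀ i, ka b i ≠ 0 := by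
    intro i
    unfold ka
    exact mul_ne_zero (hb.la 0) (mul_ne_zero (hb.mu i)
      (Finset.prod_ne_zero_iff.2 fun j _ => hb.la j))
  -- the mixed determinants
  have hmix : ∀ (i : Fin 4) (u : Fin 3), ka b i / (b i 0 * b i 1 * b i 2) *
      Matrix.det (Matrix.of fun j => unbW b
        ((![Sum.inr i, Sum.inl (u + 1), Sum.inl (u + 2)] : Fin 3 → Fin 3 ⊕ Fin 4) j)) =
      -((b i u)⁻¹ * Matrix.det (Matrix.of (yy b))) := by
    intro i u
    have hrel := rel_field b i (hb.ne i)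
    unfold Rel at hrel
    generalize ka b i / (b i 0 * b i 1 * b i 2) = κ at hrel ⊢
    have r0 := hrel 0
    have r1 := hrel 1
    have r2 := hrel 2
    rw [Fin.sum_univ_three] at r0 r1 r2
    rw [Matrix.det_fin_three, Matrix.det_fin_three]
    have key : ∀ (p q r x : Fin 3 → M) (k t0 t1 t2 : M), (∀ j, t0 * p j + t1 * q j + t2 * r j =
        -k * x j) → k * (x 0 * q 1 * r 2 - x 0 * q 2 * r 1 - x 1 * q 0 * r 2 + x 1 * q 2 * r 0 +
          x 2 * q 0 * r 1 - x 2 * q 1 * r 0) = -(t0 * (p 0 * q 1 * r 2 - p 0 * q 2 * r 1 -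
          p 1 * q 0 * r 2 + p 1 * q 2 * r 0 + p 2 * q 0 * r 1 - p 2 * q 1 * r 0)) := by
      intro p q r x k t0 t1 t2 hj
      linear_combination (q 1 * r 2 - q 2 * r 1) * hj 0 + (q 2 * r 0 - q 0 * r 2) * hj 1 +
        (q 0 * r 1 - q 1 * r 0) * hj 2
    have hj : ∀ j, (b i 0)⁻¹ * yy b 0 j + (b i 1)⁻¹ * yy b 1 j + (b i 2)⁻¹ * yy b 2 j = -κ * b i j := by
      intro j
      fin_cases j
      · exact r0
      · exact r1
      · exact r2
    fin_cases u
    · have := key (yy b 0) (yy b 1) (yy b 2) (b i) κ _ _ _ hj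
      exact this
    · have := key (yy b 1) (yy b 2) (yy b 0) (b i) κ (b i 1)⁻¹ (b i 2)⁻¹ (b i 0)⁻¹
        (fun j => by rw [← hj j]; ring)
      refine Eq.trans this ?_
      change _ = -((b i 1)⁻¹ * (yy b 0 0 * yy b 1 1 * yy b 2 2 - yy b 0 0 * yy b 1 2 * yy b 2 1 -
        yy b 0 1 * yy b 1 0 * yy b 2 2 + yy b 0 1 * yy b 1 2 * yy b 2 0 +
        yy b 0 2 * yy b 1 0 * yy b 2 1 - yy b 0 2 * yy b 1 1 * yy b 2 0))
      ring
    · have := key (yy b 2) (yy b 0) (yy b 1) (b i) κ (b i 2)⁻¹ (b i 0)⁻¹ (b i 1)⁻¹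
        (fun j => by rw [← hj j]; ring)
      refine Eq.trans this ?_
      change _ = -((b i 2)⁻¹ * (yy b 0 0 * yy b 1 1 * yy b 2 2 - yy b 0 0 * yy b 1 2 * yy b 2 1 -
        yy b 0 1 * yy b 1 0 * yy b 2 2 + yy b 0 1 * yy b 1 2 * yy b 2 0 +
        yy b 0 2 * yy b 1 0 * yy b 2 1 - yy b 0 2 * yy b 1 1 * yy b 2 0))
      ring
  have e2 : ∀ (i : Fin 4) (u : Fin 3), v (ka b i) = v η * v (ζ u) := by
    intro i u
    have h3 := hmix i u
    have hn : b i 0 * b i 1 * b i 2 ≠ 0 :=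
      mul_ne_zero (mul_ne_zero (hb.ne i 0) (hb.ne i 1)) (hb.ne i 2)
    have h4 : Matrix.det (Matrix.of fun j => unbW b
        ((![Sum.inr i, Sum.inl (u + 1), Sum.inl (u + 2)] : Fin 3 → Fin 3 ⊕ Fin 4) j)) ≠ 0 := by
      intro h5
      rw [h5, mul_zero] at h3
      exact (mul_ne_zero (inv_ne_zero (hb.ne i u)) hdy) (neg_eq_zero.1 h3.symm)
    have h5 := tri ![Sum.inr i, Sum.inl (u + 1), Sum.inl (u + 2)] h4
    rw [Fin.prod_univ_three, hvh] at h5
    change v _ = v η ^ 3 * (v (η⁻¹) * v (ζ (u + 1)) * v (ζ (u + 2))) at h5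
    have h6 := congrArg v h3
    rw [Valuation.map_neg, map_mul, map_mul, map_div₀, map_mul, map_mul, map_inv₀, hbr, hbr, hbr,
      hbr, h5, e1, map_inv₀] at h6
    simp only [mul_one, div_one, inv_one, one_mul] at h6
    have h7 : v η * v (ζ 0) * (v η * v (ζ 1)) * (v η * v (ζ 2)) =
        (v η * v (ζ u)) * ((v η * v (ζ (u + 1))) * (v η * v (ζ (u + 2)))) := by
      fin_cases u
      · change _ = (v η * v (ζ 0)) * ((v η * v (ζ 1)) * (v η * v (ζ 2)))
        ac_rfl
      · change _ = (v η * v (ζ 1)) * ((v η * v (ζ 2)) * (v η * v (ζ 0)))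
        ac_rfl
      · change _ = (v η * v (ζ 2)) * ((v η * v (ζ 0)) * (v η * v (ζ 1)))
        ac_rfl
    have h8 : v η ^ 3 * ((v η)⁻¹ * v (ζ (u + 1)) * v (ζ (u + 2))) =
        (v η * v (ζ (u + 1))) * (v η * v (ζ (u + 2))) := by
      calc v η ^ 3 * ((v η)⁻¹ * v (ζ (u + 1)) * v (ζ (u + 2)))
          = (v η * (v η)⁻¹) * ((v η * v (ζ (u + 1))) * (v η * v (ζ (u + 2)))) := by
            rw [pow_succ, pow_two]
            ac_rfl
        _ = _ := by rw [mul_inv_cancel₀ hvη0, one_mul]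
    rw [h7, h8] at h6
    exact mul_right_cancel₀ (mul_ne_zero (mul_ne_zero hvη0 (hvζ _))
      (mul_ne_zero hvη0 (hvζ _))) h6
  have hvka : ∀ i, v (ka b i) ≠ 0 := fun i => (v.ne_zero_iff).2 (hka i)
  have e3 : ∀ i, v (ka b i) = v (ka b 0) := fun i => by rw [e2 i 0, e2 0 0]
  have e4 : v (Matrix.det (Matrix.of (yy b))) = v (ka b 0) ^ 3 := by
    rw [e1, ← e2 0 0, ← e2 0 1, ← e2 0 2, pow_succ, pow_two]
  have e5 : v (la b i) * v (Matrix.det (Matrix.of (yy b))) = v (ka b 0) ^ 3 := by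
    have h3 := congrArg v (ydt b i)
    rw [map_mul, map_mul, Valuation.map_neg, hmu, mul_one, map_prod] at h3
    rw [h3, Finset.prod_congr rfl fun l _ => e3 l, Finset.prod_const]
    simp
  rw [e4] at e5
  exact (mul_eq_right₀ (pow_ne_zero 3 (hvka 0))).1 e5

end Pool.Agent.PQ
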