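import Pool.Agent.PQ.ELN
import Pool.Agent.ESH.TWA

/-!
# PQ / ELM

Elimination.  `θ : σ → C` roots of the integral polynomials `P i`, `D ∈ ℤ[σ][X]` with `D(θ; X) ≠ 0`.  Let `M ⊆ C` be the splitting field (normal
closure) of `ℚ(θ)` in `C`: a finite Galois extension of `ℚ`, degree `g ≤ (d ^ card σ)!` (or any bound of this kind: `ℚ(θ)` has degree `≤ d ^ card σ`).
Let `a = ∏ i, leadingCoeff (P i)`, `|a| ≤ A ^ card σ`; `a * θ i` is an algebraic integer (`isIntegral_leadingCoeff_smul`-like), so all coefficients of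
`D' := a ^ e * D(θ; X)` are algebraic integers.  `N := ∏ γ ∈ Gal(M/ℚ), γ D'` has coefficients fixed by `Gal`, so rational, and integral over `ℤ`, so
`N ∈ ℤ[X]`; `N ≠ 0`; `D(θ; X)` divides `N`.  Degree `≤ n * g`.  Coefficients: embed `M` in `ℂ`: `|θ i| ≤ A + 1` for all conjugates (roots of `P i`, Cauchy
bound, `|leadingCoeff| ≥ 1`), so every coefficient of a conjugate of `D'` has absolute value `≤ |a|^e * B * (A + 1) ^ e`, the sum of the absolute
values of its coefficients is `≤ (n + 1) * that`, so `|N.coeff j| ≤ ((n + 1) * A ^ (card σ * e) * B * (A + 1) ^ e) ^ g`.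
With all data `≤ tw c s`: `card σ * e ≤ tw (c+1) s`, `A ^ .. ≤ tw (c+3) s`, the product `≤ tw (c+6) s`, the power `≤ tw (c+9) s` (`g ≤ tw (c+4) s`).
-/

namespace Pool.Agent.PQ

open MvPolynomial Matrix

private theorem elm_root (P : Polynomial ℤ) (A : ℕ) (hP : P ≠ 0) (hPA : ∀ j, |P.coeff j| ≤ (A : ℤ))
    (z : ℂ) (hz : Polynomial.aeval z P = 0) : ‖z‖ ≤ A + 1 := by
  have hinj : Function.Injective (Int.castRingHom ℂ) := Int.cast_injective
  set p : Polynomial ℂ := P.map (Int.castRingHom ℂ) with hp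
  have hp0 : p ≠ 0 := (Polynomial.map_ne_zero_iff hinj).2 hP
  have hroot : p.IsRoot z := by
    rw [Polynomial.IsRoot.def, hp, Polynomial.eval_map]
    exact hz
  have h1 := Polynomial.IsRoot.norm_lt_cauchyBound hp0 hroot
  have h2 : Polynomial.cauchyBound p ≤ (A : NNReal) + 1 := by
    rw [Polynomial.cauchyBound]
    gcongr
    have hlc : (1 : NNReal) ≤ ‖p.leadingCoeff‖₊ := by
      rw [hp, Polynomial.leadingCoeff_map_of_injective hinj]
      have h3 : (1 : ℝ) ≤ ‖((P.leadingCoeff : ℤ) : ℂ)‖ := by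
        rw [Complex.norm_intCast]
        have h4 : (1 : ℤ) ≤ |P.leadingCoeff| := Int.one_le_abs (Polynomial.leadingCoeff_ne_zero.2 hP)
        exact_mod_cast h4
      exact NNReal.coe_le_coe.1 (by
        rw [coe_nnnorm, NNReal.coe_one]
        exact h3)
    calc Finset.sup (Finset.range p.natDegree) (fun x => ‖p.coeff x‖₊) / ‖p.leadingCoeff‖₊
        ≤ Finset.sup (Finset.range p.natDegree) (fun x => ‖p.coeff x‖₊) := div_le_self zero_le hlc
      _ ≤ A := by
        refine Finset.sup_le fun j _ => ?_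
        rw [hp, Polynomial.coeff_map]
        have h5 : ‖((P.coeff j : ℤ) : ℂ)‖ ≤ (A : ℝ) := by
          rw [Complex.norm_intCast]
          exact_mod_cast hPA j
        exact NNReal.coe_le_coe.1 (by
          rw [coe_nnnorm, NNReal.coe_natCast]
          exact h5)
  have h6 : ‖z‖₊ ≤ (A : NNReal) + 1 := h1.le.trans h2
  exact_mod_cast h6

private theorem elm_mul (p q : Polynomial ℂ) (n : ℕ) (M N : ℝ) (_hM : 0 ≤ M) (hN : 0 ≤ N) (hn : p.natDegree ≤ n)
    (hp : ∀ j, ‖p.coeff j‖ ≤ M) (hq : ∀ j, ‖q.coeff j‖ ≤ N) (j : ℕ) :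
    ‖(p * q).coeff j‖ ≤ (n + 1) * M * N := by
  rw [Polynomial.coeff_mul]
  refine (norm_sum_le _ _).trans ?_
  have h1 : ∀ x ∈ Finset.HasAntidiagonal.antidiagonal j, ‖p.coeff x.1 * q.coeff x.2‖ ≤ ‖p.coeff x.1‖ * N := by
    intro x _
    rw [norm_mul]
    exact mul_le_mul_of_nonneg_left (hq _) (norm_nonneg _)
  refine (Finset.sum_le_sum h1).trans ?_
  rw [← Finset.sum_mul]
  refine mul_le_mul_of_nonneg_right ?_ hN
  rw [Finset.Nat.sum_antidiagonal_eq_sum_range_succ (fun i _ => ‖p.coeff i‖) j]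
  have h2 : ∑ i ∈ Finset.range j.succ, ‖p.coeff i‖ ≤ ∑ i ∈ Finset.range (n + 1), ‖p.coeff i‖ := by
    have h3 : ∑ i ∈ Finset.range j.succ, ‖p.coeff i‖ =
        ∑ i ∈ (Finset.range j.succ).filter (fun i => i < n + 1), ‖p.coeff i‖ := by
      symm
      refine Finset.sum_subset (Finset.filter_subset _ _) fun i hi hi' => ?_
      rw [Finset.mem_filter, not_and] at hi'
      have h4 := hi' hi
      rw [Polynomial.coeff_eq_zero_of_natDegree_lt (by omega), norm_zero]
    rw [h3]
    refine Finset.sum_le_sum_of_subset_of_nonneg (fun i hi => ?_) fun _ _ _ => norm_nonneg _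
    rw [Finset.mem_filter] at hi
    exact Finset.mem_range.2 hi.2
  refine h2.trans ?_
  refine (Finset.sum_le_sum fun i _ => hp i).trans ?_
  rw [Finset.sum_const, Finset.card_range, nsmul_eq_mul]
  push_cast
  exact le_rfl

private theorem elm_prod {ι : Type*} (S : Finset ι) (f : ι → Polynomial ℂ) (n : ℕ) (M : ℝ) (hM : 0 ≤ M)
    (hn : ∀ i, (f i).natDegree ≤ n) (hc : ∀ i, ∀ j, ‖(f i).coeff j‖ ≤ M) (j : ℕ) :
    ‖(∏ i ∈ S, f i).coeff j‖ ≤ ((n + 1) * M) ^ S.card := by
  classical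
  induction S using Finset.induction_on generalizing j with
  | empty =>
    rw [Finset.prod_empty, Finset.card_empty, pow_zero, Polynomial.coeff_one]
    split_ifs
    · rw [norm_one]
    · rw [norm_zero]; exact zero_le_one
  | insert a S ha ih =>
    rw [Finset.prod_insert ha, Finset.card_insert_of_notMem ha, pow_succ']
    exact elm_mul (f a) _ n M _ hM (by positivity) (hn a) (hc a) ih j

private theorem elm_int {R : Type*} [CommRing R] {σ : Type*} (θ : σ → R) (a : ℤ)
    (ha : ∀ i, IsIntegral ℤ ((a : R) * θ i)) (p : MvPolynomial σ ℤ) (e : ℕ) (he : p.totalDegree ≤ e) :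
    IsIntegral ℤ ((a : R) ^ e * aeval θ p) := by
  rw [aeval_def, eval₂_eq, Finset.mul_sum]
  refine IsIntegral.sum _ fun m hm => ?_
  have h1 : ∑ i ∈ m.support, m i ≤ e := (le_totalDegree hm).trans he
  have h2 : (a : R) ^ e * ((algebraMap ℤ R) (coeff m p) * ∏ i ∈ m.support, θ i ^ m i) =
      (a : R) ^ (e - ∑ i ∈ m.support, m i) * ((algebraMap ℤ R) (coeff m p) * ∏ i ∈ m.support, ((a : R) * θ i) ^ m i) := by
    have h3 : (a : R) ^ e = (a : R) ^ (e - ∑ i ∈ m.support, m i) * ∏ i ∈ m.support, (a : R) ^ m i := by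
      rw [Finset.prod_pow_eq_pow_sum, ← pow_add, Nat.sub_add_cancel h1]
    rw [h3]
    simp only [mul_pow, Finset.prod_mul_distrib]
    ring
  rw [h2]
  have hint : ∀ b : ℤ, IsIntegral ℤ (b : R) := fun b => by
    have := isIntegral_algebraMap (R := ℤ) (A := R) (x := b)
    simpa using this
  refine ((hint a).pow _).mul (IsIntegral.mul ?_ (IsIntegral.prod _ fun i _ => (ha i).pow _))
  exact isIntegral_algebraMap

private theorem elm_bd {σ : Type*} (θ : σ → ℂ) (A : ℕ) (hθ : ∀ i, ‖θ i‖ ≤ A + 1) (p : MvPolynomial σ ℤ)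
    (e B : ℕ) (he : p.totalDegree ≤ e) (hB : l1 p ≤ B) : ‖aeval θ p‖ ≤ B * (A + 1 : ℝ) ^ e := by
  rw [aeval_def, eval₂_eq]
  refine (norm_sum_le _ _).trans ?_
  have h1 : ∀ m ∈ p.support, ‖(algebraMap ℤ ℂ) (coeff m p) * ∏ i ∈ m.support, θ i ^ m i‖ ≤
      ((p.coeff m).natAbs : ℝ) * (A + 1 : ℝ) ^ e := by
    intro m hm
    rw [norm_mul, norm_prod]
    have h2 : ‖(algebraMap ℤ ℂ) (coeff m p)‖ = ((p.coeff m).natAbs : ℝ) := by
      rw [eq_intCast, Complex.norm_intCast, Nat.cast_natAbs, Int.cast_abs]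
    rw [h2]
    refine mul_le_mul_of_nonneg_left ?_ (Nat.cast_nonneg _)
    have h3 : ∏ i ∈ m.support, ‖θ i ^ m i‖ ≤ ∏ i ∈ m.support, (A + 1 : ℝ) ^ m i := by
      refine Finset.prod_le_prod (fun i _ => norm_nonneg _) fun i _ => ?_
      rw [norm_pow]
      exact pow_le_pow_left₀ (norm_nonneg _) (hθ i) _
    refine h3.trans ?_
    rw [Finset.prod_pow_eq_pow_sum]
    exact pow_le_pow_right₀ (by linarith [(Nat.cast_nonneg A : (0 : ℝ) ≤ A)]) ((le_totalDegree hm).trans he)
  refine (Finset.sum_le_sum h1).trans ?_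
  rw [← Finset.sum_mul]
  refine mul_le_mul_of_nonneg_right ?_ (by positivity)
  have h4 : ((l1 p : ℕ) : ℝ) ≤ B := by exact_mod_cast hB
  rw [l1] at h4
  push_cast at h4
  push_cast
  exact h4

private theorem elm_core {L : Type*} [Field L] [CharZero L] [Algebra ℚ L] [IsGalois ℚ L]
    [FiniteDimensional ℚ L] {σ : Type} [Fintype σ] (θ : σ → L)
    (P : σ → Polynomial ℤ) (A n e B : ℕ)
    (hP : ∀ i, P i ≠ 0) (hPA : ∀ i j, |(P i).coeff j| ≤ (A : ℤ))
    (hr : ∀ i, Polynomial.aeval (θ i) (P i) = 0) (D : Polynomial (MvPolynomial σ ℤ))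
    (hDn : D.natDegree ≤ n) (hDe : ∀ j, (D.coeff j).totalDegree ≤ e) (hDB : ∀ j, l1 (D.coeff j) ≤ B)
    (hD : D.map (aeval θ : MvPolynomial σ ℤ →ₐ[ℤ] L).toRingHom ≠ 0) :
    ∃ N : Polynomial ℤ, N ≠ 0 ∧ N.natDegree ≤ Nat.card (L ≃ₐ[ℚ] L) * n ∧
      (∀ j, |N.coeff j| ≤
        ((((n + 1) * (A ^ (Fintype.card σ * e) * B * (A + 1) ^ e)) ^ Nat.card (L ≃ₐ[ℚ] L) : ℕ) : ℤ)) ∧
      D.map (aeval θ : MvPolynomial σ ℤ →ₐ[ℤ] L).toRingHom ∣ N.map (Int.castRingHom L) := by
  classical
  set a : ℤ := ∏ i, (P i).leadingCoeff with ha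
  have ha0 : a ≠ 0 := Finset.prod_ne_zero_iff.2 fun i _ => Polynomial.leadingCoeff_ne_zero.2 (hP i)
  have hint : ∀ b : ℤ, IsIntegral ℤ (b : L) := fun b => by
    have := isIntegral_algebraMap (R := ℤ) (A := L) (x := b)
    simpa using this
  have haθ : ∀ i, IsIntegral ℤ ((a : L) * θ i) := by
    intro i
    have h1 : IsIntegral ℤ (((P i).leadingCoeff : L) * θ i) := by
      have h2 := isIntegral_leadingCoeff_smul (P i) (θ i) (hr i)
      rwa [zsmul_eq_mul] at h2
    have h3 : (a : L) * θ i = ((∏ l ∈ Finset.univ.erase i, (P l).leadingCoeff : ℤ) : L) *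
        (((P i).leadingCoeff : L) * θ i) := by
      rw [ha, ← Finset.mul_prod_erase Finset.univ _ (Finset.mem_univ i)]
      push_cast
      ring
    rw [h3]
    exact (hint _).mul h1
  set Dθ : Polynomial L := D.map (aeval θ : MvPolynomial σ ℤ →ₐ[ℤ] L).toRingHom with hDθ
  set D' : Polynomial L := Polynomial.C ((a : L) ^ e) * Dθ with hD'
  have hae : ((a : L) ^ e) ≠ 0 := pow_ne_zero _ (Int.cast_ne_zero.2 ha0)
  have hD'0 : D' ≠ 0 := mul_ne_zero (Polynomial.C_ne_zero.2 hae) hD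
  have hD'c : ∀ j, D'.coeff j = (a : L) ^ e * aeval θ (D.coeff j) := by
    intro j
    rw [hD', Polynomial.coeff_C_mul, hDθ, Polynomial.coeff_map]
    rfl
  have hD'i : ∀ j, IsIntegral ℤ (D'.coeff j) := fun j => by
    rw [hD'c]
    exact elm_int θ a haθ _ e (hDe j)
  set G := L ≃ₐ[ℚ] L with hG
  let f : G → Polynomial L := fun γ => D'.map (γ : L →+* L)
  set N' : Polynomial L := ∏ γ : G, f γ with hN'
  have hfc : ∀ γ j, (f γ).coeff j = γ (D'.coeff j) := fun γ j => by
    change (D'.map (γ : L →+* L)).coeff j = _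
    rw [Polynomial.coeff_map]
    rfl
  have hfint : ∀ γ j, IsIntegral ℤ ((f γ).coeff j) := fun γ j => by
    rw [hfc]
    exact (hD'i j).map ((γ : L →+* L).toIntAlgHom)
  have hN'int : ∀ j, IsIntegral ℤ (N'.coeff j) := by
    have h1 : ∀ S : Finset G, ∀ j, IsIntegral ℤ ((∏ γ ∈ S, f γ).coeff j) := by
      intro S
      induction S using Finset.induction_on with
      | empty =>
        intro j
        rw [Finset.prod_empty, Polynomial.coeff_one]
        split_ifs
        · exact isIntegral_one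
        · exact isIntegral_zero
      | insert b S hb ih =>
        intro j
        rw [Finset.prod_insert hb, Polynomial.coeff_mul]
        exact IsIntegral.sum _ fun x _ => (hfint b x.1).mul (ih x.2)
    exact h1 Finset.univ
  have hN'fix : ∀ γ : G, N'.map (γ : L →+* L) = N' := by
    intro γ
    rw [hN', Polynomial.map_prod]
    refine Fintype.prod_equiv (Equiv.mulLeft γ) _ _ fun δ => ?_
    change (D'.map (δ : L →+* L)).map (γ : L →+* L) = D'.map ((γ * δ : G) : L →+* L)
    rw [Polynomial.map_map]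
    rfl
  have hN'Z : ∀ j, ∃ b : ℤ, (b : L) = N'.coeff j := by
    intro j
    have h1 : N'.coeff j ∈ Set.range (algebraMap ℚ L) := by
      rw [IsGalois.mem_range_algebraMap_iff_fixed]
      intro γ
      have h2 := congrArg (fun q => Polynomial.coeff q j) (hN'fix γ)
      simp only [Polynomial.coeff_map] at h2
      exact h2
    obtain ⟨q, hq⟩ := h1
    have h3 : IsIntegral ℤ q := by
      have h4 : IsIntegral ℤ ((algebraMap ℚ L) q) := by rw [hq]; exact hN'int j
      exact (isIntegral_algebraMap_iff (algebraMap ℚ L).injective).1 h4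
    obtain ⟨b, hb⟩ := (IsIntegrallyClosed.isIntegral_iff (R := ℤ) (K := ℚ)).1 h3
    refine ⟨b, ?_⟩
    rw [← hq, ← hb]
    simp
  have hinj : Function.Injective (Int.castRingHom L) := Int.cast_injective
  have hlift : N' ∈ Polynomial.lifts (Int.castRingHom L) := by
    rw [Polynomial.lifts_iff_coeff_lifts]
    intro j
    obtain ⟨b, hb⟩ := hN'Z j
    exact ⟨b, hb⟩
  obtain ⟨N, hN⟩ := (Polynomial.mem_lifts _).1 hlift
  have hN'0 : N' ≠ 0 := by
    rw [hN', Finset.prod_ne_zero_iff]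
    intro γ _
    exact (Polynomial.map_ne_zero_iff (γ : L →+* L).injective).2 hD'0
  have hfdeg : ∀ γ, (f γ).natDegree ≤ n := by
    intro γ
    refine Polynomial.natDegree_map_le.trans ?_
    rw [hD']
    refine (Polynomial.natDegree_C_mul_le _ _).trans ?_
    exact Polynomial.natDegree_map_le.trans hDn
  refine ⟨N, ?_, ?_, ?_, ?_⟩
  · rintro rfl
    rw [Polynomial.map_zero] at hN
    exact hN'0 hN.symm
  · rw [← Polynomial.natDegree_map_eq_of_injective hinj N, hN, hN']
    refine (Polynomial.natDegree_prod_le _ _).trans ?_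
    refine (Finset.sum_le_sum fun γ _ => hfdeg γ).trans ?_
    rw [Finset.sum_const, smul_eq_mul, Nat.card_eq_fintype_card, Finset.card_univ]
  · intro j
    let φ : L →ₐ[ℚ] ℂ := IsAlgClosed.lift
    have hφc : ∀ γ j, ‖φ ((f γ).coeff j)‖ ≤ (A : ℝ) ^ (Fintype.card σ * e) * B * (A + 1) ^ e := by
      intro γ j
      rw [hfc, hD'c]
      have h1 : φ (γ ((a : L) ^ e * aeval θ (D.coeff j))) =
          (a : ℂ) ^ e * aeval (fun i => φ (γ (θ i))) (D.coeff j) := by
        rw [map_mul, map_mul, map_pow, map_pow, map_intCast, map_intCast]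
        congr 1
        have h2 : φ (γ (aeval θ (D.coeff j))) =
            ((((φ : L →+* ℂ).comp (γ : L →+* L))).toIntAlgHom) (aeval θ (D.coeff j)) := rfl
        rw [h2, MvPolynomial.comp_aeval_apply]
        rfl
      rw [h1, norm_mul, norm_pow]
      have h3 : ‖(a : ℂ)‖ ≤ (A : ℝ) ^ Fintype.card σ := by
        rw [ha]
        push_cast
        rw [norm_prod]
        have h9 : ∏ i : σ, ‖((P i).leadingCoeff : ℂ)‖ ≤ ∏ _i : σ, (A : ℝ) := by
          refine Finset.prod_le_prod (fun i _ => norm_nonneg _) fun i _ => ?_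
          rw [Complex.norm_intCast]
          exact_mod_cast hPA i _
        rwa [Finset.prod_const, Finset.card_univ] at h9
      have h4 := elm_bd (fun i => φ (γ (θ i))) A (fun i => ?_) (D.coeff j) e B (hDe j) (hDB j)
      · rw [pow_mul, mul_assoc]
        exact mul_le_mul (pow_le_pow_left₀ (norm_nonneg _) h3 _) h4 (norm_nonneg _) (by positivity)
      · refine elm_root (P i) A (hP i) (hPA i) _ ?_
        have h5 : Polynomial.aeval (φ (γ (θ i))) (P i) =
            ((((φ : L →+* ℂ).comp (γ : L →+* L))).toIntAlgHom) (Polynomial.aeval (θ i) (P i)) := by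
          rw [← Polynomial.aeval_algHom_apply]
          rfl
        rw [h5, hr i, map_zero]
    have h6 := elm_prod Finset.univ (fun γ => (f γ).map (φ : L →+* ℂ)) n
      ((A : ℝ) ^ (Fintype.card σ * e) * B * (A + 1) ^ e) (by positivity)
      (fun γ => Polynomial.natDegree_map_le.trans (hfdeg γ))
      (fun γ j => by rw [Polynomial.coeff_map]; exact hφc γ j) j
    rw [← Polynomial.map_prod, ← hN', ← hN, Polynomial.map_map, Polynomial.coeff_map] at h6
    have h7 : ((φ : L →+* ℂ).comp (Int.castRingHom L)) (N.coeff j) = ((N.coeff j : ℤ) : ℂ) := by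
      simp
    rw [h7, Complex.norm_intCast, Finset.card_univ, ← Nat.card_eq_fintype_card (α := G)] at h6
    have h8 : ((|N.coeff j| : ℤ) : ℝ) ≤
        ((((n + 1) * (A ^ (Fintype.card σ * e) * B * (A + 1) ^ e)) ^ Nat.card G : ℕ) : ℝ) := by
      push_cast
      rw [← Int.cast_abs] at h6
      push_cast at h6
      exact h6
    exact_mod_cast h8
  · rw [hN, hN']
    have h1 : Dθ ∣ f 1 := by
      have h2 : f 1 = D' := by
        change D'.map ((1 : G) : L →+* L) = D'
        conv_rhs => rw [← Polynomial.map_id (p := D')]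
        rfl
      rw [h2, hD']
      exact Dvd.intro_left _ rfl
    exact h1.trans (Finset.dvd_prod_of_mem f (Finset.mem_univ 1))

private theorem elm_gal {F : Type} [Field F] [CharZero F] (p : Polynomial F) :
    ∃ (L : Type) (_ : Field L) (_ : CharZero L)
    (_ : Algebra F L), IsGalois F L ∧ FiniteDimensional F L ∧ (p.map (algebraMap F L)).Splits ∧
      Nat.card (L ≃ₐ[F] L) ≤ p.natDegree.factorial := by
  classical
  refine ⟨p.SplittingField, inferInstance,
    charZero_of_injective_algebraMap (algebraMap F p.SplittingField).injective, inferInstance, ?_, ?_, ?_, ?_⟩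
  · have hnorm : Normal F p.SplittingField := inferInstance
    exact ⟨⟩
  · infer_instance
  · exact Polynomial.SplittingField.splits p
  · have hfact : Fact ((p.map (algebraMap F p.SplittingField)).Splits) := ⟨Polynomial.SplittingField.splits p⟩
    have h2 := Nat.card_le_card_of_injective _ (Polynomial.Gal.galActionHom_injective p p.SplittingField)
    refine h2.trans ?_
    rw [Nat.card_perm]
    refine Nat.factorial_le ?_
    rw [Nat.card_coe_set_eq]
    exact Polynomial.ncard_rootSet_le p _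

theorem elm {C : Type*} [Field C] [CharZero C] [IsAlgClosed C] {σ : Type} [Fintype σ] (θ : σ → C)
    (P : σ → Polynomial ℤ) (s c d A n e B : ℕ) (hs : 16 ≤ s) (hd : d ≤ ESH.tw c s) (hA : A ≤ ESH.tw c s)
    (hn : n ≤ ESH.tw c s) (he : e ≤ ESH.tw c s) (hB : B ≤ ESH.tw c s) (hσ : Fintype.card σ ≤ ESH.tw c s)
    (hP : ∀ i, P i ≠ 0) (hPd : ∀ i, (P i).natDegree ≤ d) (hPA : ∀ i j, |(P i).coeff j| ≤ (A : ℤ))
    (hr : ∀ i, Polynomial.aeval (θ i) (P i) = 0) (D : Polynomial (MvPolynomial σ ℤ))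
    (hDn : D.natDegree ≤ n) (hDe : ∀ j, (D.coeff j).totalDegree ≤ e) (hDB : ∀ j, l1 (D.coeff j) ≤ B)
    (hD : D.map (aeval θ : MvPolynomial σ ℤ →ₐ[ℤ] C).toRingHom ≠ 0) :
    ∃ N : Polynomial ℤ, N ≠ 0 ∧ N.natDegree ≤ ESH.tw (c + 10) s ∧
      (∀ j, |N.coeff j| ≤ (ESH.tw (c + 10) s : ℤ)) ∧
      ∀ x : C, (D.map (aeval θ : MvPolynomial σ ℤ →ₐ[ℤ] C).toRingHom).eval x = 0 →
        Polynomial.aeval x N = 0 := by
  classical
  let p : Polynomial ℚ := ∏ i, (P i).map (Int.castRingHom ℚ)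
  have hp0 : p ≠ 0 := Finset.prod_ne_zero_iff.2 fun i _ =>
    (Polynomial.map_ne_zero_iff (Int.cast_injective)).2 (hP i)
  obtain ⟨L, hfield, hc0, halg, hgal, hfd, hsp, hcard⟩ := elm_gal p
  let ι : L →ₐ[ℚ] C := IsAlgClosed.lift
  have hθ : ∀ i, ∃ t : L, ι t = θ i := by
    intro i
    have h1 : θ i ∈ p.rootSet C := by
      rw [Polynomial.mem_rootSet]
      refine ⟨hp0, ?_⟩
      have h2 : (P i).map (Int.castRingHom ℚ) ∣ p := Finset.dvd_prod_of_mem _ (Finset.mem_univ i)
      obtain ⟨q, hq⟩ := h2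
      rw [hq, map_mul]
      have h3 : Polynomial.aeval (θ i) ((P i).map (Int.castRingHom ℚ)) = Polynomial.aeval (θ i) (P i) := by
        have := Polynomial.aeval_map_algebraMap ℚ (θ i) (P i)
        exact this
      rw [h3, hr i, zero_mul]
    rw [← hsp.image_rootSet ι] at h1
    obtain ⟨t, -, ht⟩ := h1
    exact ⟨t, ht⟩
  choose θ' hθ' using hθ
  have hcomp : ((ι : L →+* C)).comp (aeval θ' : MvPolynomial σ ℤ →ₐ[ℤ] L).toRingHom =
      (aeval θ : MvPolynomial σ ℤ →ₐ[ℤ] C).toRingHom := by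
    refine MvPolynomial.ringHom_ext (fun r => ?_) fun i => ?_
    · simp
    · simp [hθ']
  have hmap : (D.map (aeval θ' : MvPolynomial σ ℤ →ₐ[ℤ] L).toRingHom).map
      (ι : L →+* C) = D.map (aeval θ : MvPolynomial σ ℤ →ₐ[ℤ] C).toRingHom := by
    rw [Polynomial.map_map, hcomp]
  have hr' : ∀ i, Polynomial.aeval (θ' i) (P i) = 0 := by
    intro i
    have h1 : (((ι : L →+* C)).toIntAlgHom) (Polynomial.aeval (θ' i) (P i)) = 0 := by
      rw [← Polynomial.aeval_algHom_apply]
      have h2 : (((ι : L →+* C)).toIntAlgHom) (θ' i) = θ i := hθ' i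
      rw [h2, hr i]
    exact (map_eq_zero_iff _ ι.injective).1 h1
  obtain ⟨N, hN0, hNd, hNc, hNdvd⟩ := elm_core θ' P A n e B hP hPA hr' D hDn hDe hDB (by
    intro h0
    rw [h0, Polynomial.map_zero] at hmap
    exact hD hmap.symm)
  have hg : Nat.card (L ≃ₐ[ℚ] L) ≤ ESH.tw (c + 3) s := by
    have h1 : Nat.card (L ≃ₐ[ℚ] L) ≤ (Fintype.card σ * d).factorial := by
      refine hcard.trans (Nat.factorial_le ?_)
      refine (Polynomial.natDegree_prod_le _ _).trans ?_
      refine (Finset.sum_le_sum fun i _ => Polynomial.natDegree_map_le.trans (hPd i)).trans ?_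
      rw [Finset.sum_const, smul_eq_mul, Finset.card_univ]
    exact h1.trans (ESH.tw_fact hs (ESH.tw_mul hs hσ hd))
  refine ⟨N, hN0, ?_, ?_, ?_⟩
  · refine hNd.trans ?_
    exact (ESH.tw_mul hs hg (hn.trans (ESH.tw_mono (by omega) le_rfl))).trans (ESH.tw_mono (by omega) le_rfl)
  · intro j
    refine (hNc j).trans ?_
    have h16 : 16 ≤ ESH.tw c s := hs.trans (ESH.le_tw c s)
    have h1 : Fintype.card σ * e ≤ ESH.tw (c + 1) s := ESH.tw_mul hs hσ he
    have h2 : A ^ (Fintype.card σ * e) ≤ ESH.tw (c + 3) s :=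
      ESH.tw_pow hs (hA.trans (ESH.tw_mono (by omega) le_rfl)) h1
    have h3 : A + 1 ≤ ESH.tw (c + 1) s := ESH.tw_add hs hA (by omega)
    have h4 : (A + 1) ^ e ≤ ESH.tw (c + 3) s :=
      ESH.tw_pow hs h3 (he.trans (ESH.tw_mono (by omega) le_rfl))
    have h5 : n + 1 ≤ ESH.tw (c + 3) s :=
      (ESH.tw_add hs hn (by omega : 1 ≤ ESH.tw c s)).trans (ESH.tw_mono (by omega) le_rfl)
    have h6 : (n + 1) * (A ^ (Fintype.card σ * e) * B * (A + 1) ^ e) ≤ ESH.tw (c + 5) s := by
      have h7 := ESH.tw_poly hs h5 h2 (hB.trans (ESH.tw_mono (by omega : c ≤ c + 3) le_rfl)) h4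
      refine le_trans (le_of_eq ?_) h7
      ring
    have h8 := (ESH.tw_pow hs h6 (hg.trans (ESH.tw_mono (by omega : c + 3 ≤ c + 5) le_rfl))).trans
      (ESH.tw_mono (by omega : c + 5 + 2 ≤ c + 10) le_rfl)
    exact_mod_cast h8
  · intro x hx
    obtain ⟨q, hq⟩ := hNdvd
    have h1 := congrArg (fun r => (r.map (ι : L →+* C)).eval x) hq
    simp only [Polynomial.map_mul, hmap, Polynomial.eval_mul, hx, zero_mul, Polynomial.map_map] at h1
    rw [← h1, Polynomial.eval_map, Polynomial.aeval_def]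
    congr 1
    exact RingHom.ext_int _ _

end Pool.Agent.PQ
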