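import Pool.Agent.PQ.DHO
import Pool.Agent.ESH.DefsG
import Pool.Agent.Helper11.FunFieldBasic

/-!
# PQ / GNR

The generators.  `ζ = ξ` transformed: here `F` is already the final form.  If `ξ 2 = 0`: `F(ξ 0, ξ 1, 0) = 0` with the coefficient of `X 1 ^ 4` not zero
(`he`; it is `eval e_1 F`): if `ξ 0 = 0` then `ξ 1 = 0`, contradiction; otherwise `ξ 1 / ξ 0` is a root of a non-zero polynomial over `C`, hence in `C`;
all quotients are constants, `adjoin = ⊥ = ⊤`, contradicting `FunField` (`trdeg = 1`).  So `ξ 2 ≠ 0`; `x = ξ 0/ξ 2`, `y = ξ 1/ξ 2`; `F(x, y, 1) = 0`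
(homogeneous).  All quotients `ξ i / ξ j` are in `C(x, y)`.  `x` is transcendental: otherwise `x ∈ C`, `y` is a root of a non-zero polynomial over
`C`, `y ∈ C`.  `Φ = C(x)(y)` and `y` is a root of a polynomial of degree 4 over `C(x)`: `finrank ≤ 4`.
-/

namespace Pool.Agent.PQ

open MvPolynomial Matrix

section aux

variable {C Φ : Type*} [Field C] [Field Φ] [Algebra C Φ]

private theorem gnr_hsc (F : P3 C) (hF : F.IsHomogeneous 4) (c : Φ) (ξ : Fin 3 → Φ) :
    eval₂ (algebraMap C Φ) (c • ξ) F = c ^ 4 * eval₂ (algebraMap C Φ) ξ F := by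
  rw [← eval_map, ← eval_map]
  exact eval_smul_hom (map_hom (algebraMap C Φ) hF) c ξ

private theorem gnr_ev2 (F : P3 C) (x y : Φ) :
    Polynomial.eval₂ ((Polynomial.aeval x : Polynomial C →ₐ[C] Φ) : Polynomial C →+* Φ) y (dh F) =
      eval₂ (algebraMap C Φ) ![x, y, 1] F := by
  have h1 := dh_eval (map (algebraMap C Φ) F) x y
  rw [dh_map, Polynomial.eval_map, eval_map] at h1
  rw [← h1]
  have h2 : ∀ q : Polynomial Φ, Polynomial.eval x q = Polynomial.evalRingHom x q := fun _ => rfl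
  rw [h2, Polynomial.hom_eval₂]
  have h3 : (Polynomial.evalRingHom x) (Polynomial.C y) = y := by simp
  rw [h3]
  congr 1
  ext q
  · simp
  · simp

private theorem gnr_root [IsAlgClosed C] (F : P3 C) (hF : F.IsHomogeneous 4)
    (he : eval (Pi.single 1 1) F ≠ 0) (c : C) (y : Φ)
    (h : eval₂ (algebraMap C Φ) ![algebraMap C Φ c, y, 1] F = 0) : ∃ b : C, algebraMap C Φ b = y := by
  set P : Polynomial C := (dh F).map (Polynomial.evalRingHom c) with hP
  have h4 : P.coeff 4 = eval (Pi.single 1 1) F := by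
    rw [hP, Polynomial.coeff_map, dh_coeff F hF]
    simp
  have hP0 : P ≠ 0 := by
    intro h0
    rw [h0, Polynomial.coeff_zero] at h4
    exact he h4.symm
  have hy : Polynomial.aeval y P = 0 := by
    rw [Polynomial.aeval_def, hP, Polynomial.eval₂_map, ← h, ← gnr_ev2]
    congr 1
    ext q
    · simp
    · simp
  exact Helper11.mem_range_of_isAlgebraic ⟨P, hP0, hy⟩

private theorem gnr_quot (ξ : Fin 3 → Φ) (d : Φ) (a : Fin 3 → C)
    (h : ∀ i, ξ i = algebraMap C Φ (a i) * d) (z : Φ) (hz : ∃ i j, z = ξ i / ξ j) :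
    ∃ c : C, algebraMap C Φ c = z := by
  obtain ⟨i, j, rfl⟩ := hz
  by_cases hd : d = 0
  · exact ⟨0, by rw [h i, hd]; simp⟩
  · refine ⟨a i / a j, ?_⟩
    rw [h i, h j, map_div₀, mul_div_mul_right _ _ hd]

private theorem gnr_not [Helper11.FunField C Φ] (S : Set Φ)
    (hS : IntermediateField.adjoin C S = ⊤) (h : ∀ z ∈ S, ∃ c : C, algebraMap C Φ c = z) :
    False := by
  obtain ⟨t, ht⟩ := Helper11.FunField.exists_transcendental (k := C) (L := Φ)
  have hle : IntermediateField.adjoin C S ≤ ⊥ := by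
    refine IntermediateField.adjoin_le_iff.2 fun z hz => ?_
    obtain ⟨c, rfl⟩ := h z hz
    exact IntermediateField.algebraMap_mem ⊥ c
  have ht2 : t ∈ (⊥ : IntermediateField C Φ) := hle (by rw [hS]; exact IntermediateField.mem_top)
  obtain ⟨c, hc⟩ := IntermediateField.mem_bot.1 ht2
  apply ht
  rw [← hc]
  exact isAlgebraic_algebraMap c

end aux

theorem gnr {C Φ : Type*} [Field C] [Field Φ] [Algebra C Φ] [Helper11.FunField C Φ] [IsAlgClosed C]
    (F : P3 C) (hF : F.IsHomogeneous 4) (he : eval (Pi.single 1 1) F ≠ 0) (ξ : Fin 3 → Φ) (hξ : ξ ≠ 0)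
    (h0 : eval₂ (algebraMap C Φ) ξ F = 0)
    (hgen : IntermediateField.adjoin C {z : Φ | ∃ i j, z = ξ i / ξ j} = ⊤) :
    ξ 2 ≠ 0 ∧ eval₂ (algebraMap C Φ) ![ξ 0 / ξ 2, ξ 1 / ξ 2, 1] F = 0 ∧
      IntermediateField.adjoin C {ξ 0 / ξ 2, ξ 1 / ξ 2} = ⊤ ∧ Transcendental C (ξ 0 / ξ 2) ∧
      Module.finrank (IntermediateField.adjoin C {ξ 0 / ξ 2}) Φ ≤ 4 := by
  have h2 : ξ 2 ≠ 0 := by
    intro h2
    by_cases h00 : ξ 0 = 0
    · have e1 : ξ = (ξ 1) • (fun i => algebraMap C Φ ((Pi.single 1 1 : Fin 3 → C) i)) := by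
        ext i
        fin_cases i
        · simp [h00]
        · simp
        · simp [h2]
      rw [e1, gnr_hsc F hF] at h0
      have e2 : eval₂ (algebraMap C Φ)
          (fun i => algebraMap C Φ ((Pi.single 1 1 : Fin 3 → C) i)) F =
          algebraMap C Φ (eval (Pi.single 1 1) F) := (eval₂_comp (algebraMap C Φ) _ F).symm
      rw [e2] at h0
      have e3 : algebraMap C Φ (eval (Pi.single 1 1) F) ≠ 0 := by
        rw [Ne, map_eq_zero]
        exact he
      have e4 : ξ 1 = 0 := by
        rcases mul_eq_zero.1 h0 with h | h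
        · exact eq_zero_of_pow_eq_zero h
        · exact absurd h e3
      apply hξ
      ext i
      fin_cases i
      · exact h00
      · exact e4
      · exact h2
    · set t : Φ := ξ 1 / ξ 0 with ht
      have e1 : ξ = (ξ 0) • ![1, t, 0] := by
        ext i
        fin_cases i
        · simp
        · simp [ht, mul_div_cancel₀ _ h00]
        · simp [h2]
      have e2 : eval₂ (algebraMap C Φ) ![1, t, 0] F = 0 := by
        rw [e1, gnr_hsc F hF] at h0
        rcases mul_eq_zero.1 h0 with h | h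
        · exact absurd (eq_zero_of_pow_eq_zero h) h00
        · exact h
      set σ : Matrix (Fin 3) (Fin 3) C := !![0, 0, 1; 0, 1, 0; 1, 0, 0] with hσ
      have e3 : eval₂ (algebraMap C Φ) ![algebraMap C Φ 0, t, 1] (sb σ F) = 0 := by
        have e6 : σ.map (algebraMap C Φ) *ᵥ ![algebraMap C Φ 0, t, 1] = ![1, t, 0] := by
          ext i
          fin_cases i <;> simp [hσ, Matrix.mulVec, dotProduct, Fin.sum_univ_three]
        rw [← eval_map, map_sb, eval_sb, e6, eval_map]
        exact e2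
      have e4 : eval (Pi.single 1 1) (sb σ F) ≠ 0 := by
        rw [eval_sb]
        have e5 : σ *ᵥ (Pi.single 1 1) = Pi.single 1 1 := by
          ext i
          fin_cases i <;> simp [hσ, Matrix.mulVec, dotProduct, Fin.sum_univ_three]
        rw [e5]
        exact he
      obtain ⟨b, hb⟩ := gnr_root (sb σ F) (sb_hom σ hF) e4 0 t e3
      refine gnr_not _ hgen fun z hz => gnr_quot ξ (ξ 0) ![1, b, 0] ?_ z hz
      intro i
      fin_cases i
      · simp
      · simp [hb, ht, div_mul_cancel₀ _ h00]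
      · simp [h2]
  set x : Φ := ξ 0 / ξ 2 with hx
  set y : Φ := ξ 1 / ξ 2 with hy
  have eξ : ξ = (ξ 2) • ![x, y, 1] := by
    ext i
    fin_cases i
    · simp [hx, mul_div_cancel₀ _ h2]
    · simp [hy, mul_div_cancel₀ _ h2]
    · simp
  have hxy : eval₂ (algebraMap C Φ) ![x, y, 1] F = 0 := by
    rw [eξ, gnr_hsc F hF] at h0
    rcases mul_eq_zero.1 h0 with h | h
    · exact absurd (eq_zero_of_pow_eq_zero h) h2
    · exact h
  have hmem : ∀ i, ξ i / ξ 2 ∈ IntermediateField.adjoin C {x, y} := by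
    intro i
    fin_cases i
    · exact IntermediateField.subset_adjoin C _ (Or.inl rfl)
    · exact IntermediateField.subset_adjoin C _ (Or.inr rfl)
    · change ξ 2 / ξ 2 ∈ _
      rw [div_self h2]
      exact IntermediateField.one_mem _
  have hadj : IntermediateField.adjoin C {x, y} = ⊤ := by
    rw [eq_top_iff, ← hgen]
    refine IntermediateField.adjoin_le_iff.2 ?_
    rintro z ⟨i, j, rfl⟩
    have e1 : ξ i / ξ j = (ξ i / ξ 2) / (ξ j / ξ 2) := by
      rw [div_div_div_cancel_right₀ h2]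
    rw [e1]
    exact IntermediateField.div_mem _ (hmem i) (hmem j)
  have htr : Transcendental C x := by
    intro halg
    obtain ⟨a, ha⟩ := Helper11.mem_range_of_isAlgebraic halg
    rw [← ha] at hxy
    obtain ⟨b, hb⟩ := gnr_root F hF he a y hxy
    refine gnr_not _ hadj ?_
    rintro z (rfl | hz)
    · exact ⟨a, ha⟩
    · rw [Set.mem_singleton_iff.1 hz]
      exact ⟨b, hb⟩
  refine ⟨h2, hxy, hadj, htr, ?_⟩
  set E := IntermediateField.adjoin C {x} with hE
  set g : E := ⟨x, IntermediateField.subset_adjoin C _ rfl⟩ with hg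
  set P : Polynomial E := (dh F).map
    ((Polynomial.aeval g : Polynomial C →ₐ[C] E) : Polynomial C →+* E) with hP
  have h4 : P.coeff 4 = algebraMap C E (eval (Pi.single 1 1) F) := by
    rw [hP, Polynomial.coeff_map, dh_coeff F hF]
    simp
  have hP0 : P ≠ 0 := by
    intro h0
    rw [h0, Polynomial.coeff_zero] at h4
    exact he ((map_eq_zero _).1 h4.symm)
  have hdeg : P.natDegree ≤ 4 := Polynomial.natDegree_map_le.trans (dh_deg F hF)
  have hyP : Polynomial.aeval y P = 0 := by
    rw [Polynomial.aeval_def, hP, Polynomial.eval₂_map, ← hxy, ← gnr_ev2]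
    congr 1
    ext q
    · simp only [RingHom.comp_apply, RingHom.coe_coe, Polynomial.aeval_C]
      rw [← IsScalarTower.algebraMap_apply]
    · simp only [RingHom.comp_apply, RingHom.coe_coe, Polynomial.aeval_X]
      rfl
  have hal : IsAlgebraic E y := ⟨P, hP0, hyP⟩
  have hint : IsIntegral E y := hal.isIntegral
  have htop : IntermediateField.adjoin E {y} = ⊤ := by
    have e1 := IntermediateField.adjoin_simple_adjoin_simple C x y
    rw [hadj] at e1
    rw [eq_top_iff]
    intro z _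
    have e2 : z ∈ (IntermediateField.adjoin (IntermediateField.adjoin C {x}) {y}).restrictScalars C := by
      rw [e1]
      exact IntermediateField.mem_top
    exact e2
  have e1 := IntermediateField.adjoin.finrank hint
  rw [htop, IntermediateField.finrank_top'] at e1
  rw [e1]
  exact (Polynomial.natDegree_le_natDegree (minpoly.degree_le_of_ne_zero E y hP0 hyP)).trans hdeg

/-- change of coordinates for the generic point -/
theorem gnr_sb {C Φ : Type*} [Field C] [Field Φ] [Algebra C Φ] (F : P3 C)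
    (h : Matrix (Fin 3) (Fin 3) C) (hh : h.det ≠ 0) (ξ : Fin 3 → Φ) (hξ : ξ ≠ 0)
    (h0 : eval₂ (algebraMap C Φ) ξ F = 0)
    (hgen : IntermediateField.adjoin C {z : Φ | ∃ i j, z = ξ i / ξ j} = ⊤) :
    ∃ ζ : Fin 3 → Φ, ζ ≠ 0 ∧ eval₂ (algebraMap C Φ) ζ (sb h F) = 0 ∧
      IntermediateField.adjoin C {z : Φ | ∃ i j, z = ζ i / ζ j} = ⊤ := by
  set ζ : Fin 3 → Φ := (h⁻¹).map (algebraMap C Φ) *ᵥ ξ with hζ
  have e1 : h.map (algebraMap C Φ) *ᵥ ζ = ξ := by
    rw [hζ, Matrix.mulVec_mulVec]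
    have e2 : h.map (algebraMap C Φ) * (h⁻¹).map (algebraMap C Φ) = 1 := by
      have e3 := congrArg (fun M : Matrix (Fin 3) (Fin 3) C => M.map (algebraMap C Φ))
        (Matrix.mul_nonsing_inv h (isUnit_iff_ne_zero.2 hh))
      simp only [Matrix.map_mul, Matrix.map_one _ (map_zero (algebraMap C Φ)) (map_one _)] at e3
      exact e3
    rw [e2, Matrix.one_mulVec]
  have hζ0 : ζ ≠ 0 := by
    intro h1
    rw [h1, Matrix.mulVec_zero] at e1
    exact hξ e1.symm
  refine ⟨ζ, hζ0, ?_, ?_⟩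
  · rw [← eval_map, map_sb, eval_sb]
    have e2 : h.map (algebraMap C Φ) *ᵥ ζ = ξ := e1
    rw [e2, eval_map]
    exact h0
  · obtain ⟨j0, hj0⟩ := Function.ne_iff.1 hζ0
    have hj0' : ζ j0 ≠ 0 := hj0
    rw [eq_top_iff, ← hgen]
    refine IntermediateField.adjoin_le_iff.2 ?_
    rintro z ⟨i, j, rfl⟩
    have hm : ∀ i, ξ i / ζ j0 ∈
        IntermediateField.adjoin C {z : Φ | ∃ i j, z = ζ i / ζ j} := by
      intro i
      have e2 : ξ i = ∑ k, algebraMap C Φ (h i k) * ζ k := by
        rw [← e1]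
        rfl
      rw [e2, Finset.sum_div]
      refine sum_mem fun k _ => ?_
      rw [mul_div_assoc]
      exact mul_mem (IntermediateField.algebraMap_mem _ _)
        (IntermediateField.subset_adjoin C _ ⟨k, j0, rfl⟩)
    have e1 : ξ i / ξ j = (ξ i / ζ j0) / (ξ j / ζ j0) := by
      rw [div_div_div_cancel_right₀ hj0']
    rw [e1]
    exact IntermediateField.div_mem _ (hm i) (hm j)

end Pool.Agent.PQ
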