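import Pool.Agent.PQ.LNF

/-!
# PQ / CRO

Cross ratios.  `cro`: with `A` the matrix with rows `L r` (`e_r = η r • (L r ᵥ* h)`), `t ᵥ* h = η''⁻¹ b i`, ...: the determinant of `A` with row `r`
replaced by `t`, times `det h`, is the determinant of the matrix with rows `η s ⁻¹ e_s` (`s ≠ r`), `η''⁻¹ b` i.e. `b r / (η'' ∏_{s ≠ r} η s)`; same for `s`
(with `b 0 = (1,1,1)`) and for row `0`; the quotient is `b r / b 0 = b r`.
`cro_smul`: multilinearity of the determinant, numerator and denominator are scaled by the same factor.  `cro_map`: `RingHom.map_det`.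
-/

namespace Pool.Agent.PQ

open MvPolynomial Matrix

/-- cross ratio of the lines `L 0, L 1, L 2, s, t` -/
noncomputable def cr {k : Type*} [Field k] (L : Fin 3 → Fin 3 → k) (s t : Fin 3 → k) (r : Fin 3) : k :=
  Matrix.det (Matrix.updateRow (Matrix.of L) r t) * Matrix.det (Matrix.updateRow (Matrix.of L) 0 s) /
    (Matrix.det (Matrix.updateRow (Matrix.of L) 0 t) * Matrix.det (Matrix.updateRow (Matrix.of L) r s))

/-- determinant of `L` with row `r` replaced, in terms of the transformed data -/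
private theorem cro_det {k : Type*} [Field k] (h : Matrix (Fin 3) (Fin 3) k) (L : Fin 3 → Fin 3 → k)
    (t β : Fin 3 → k) (η : Fin 3 → k) (hη : ∀ r, η r ≠ 0) (η'' : k) (h'' : η'' ≠ 0)
    (hL : ∀ r, Pi.single r 1 = η r • (L r ᵥ* h)) (ht : β = η'' • (t ᵥ* h)) (r : Fin 3) :
    (η'' * (η 0 * η 1 * η 2)) * (Matrix.det (Matrix.updateRow (Matrix.of L) r t) * h.det) =
      η r * β r := by
  have e1 : (Matrix.updateRow (Matrix.of L) r t) * h =
      Matrix.of (fun i => if i = r then η''⁻¹ • β else (η i)⁻¹ • (Pi.single i (1 : k) : Fin 3 → k)) := by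
    ext i j
    rw [Matrix.mul_apply_eq_vecMul]
    by_cases hi : i = r
    · subst hi
      rw [Matrix.updateRow_self, Matrix.of_apply, if_pos rfl, ht, smul_smul, inv_mul_cancel₀ h'',
        one_smul]
    · rw [Matrix.updateRow_ne hi, Matrix.of_apply, if_neg hi, hL i, smul_smul,
        inv_mul_cancel₀ (hη i), one_smul]
      rfl
  rw [← Matrix.det_mul, e1, Matrix.det_fin_three]
  have h0 := hη 0
  have h1 := hη 1
  have h2 := hη 2
  fin_cases r <;> simp <;> field_simp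

theorem cro {k : Type*} [Field k] (h : Matrix (Fin 3) (Fin 3) k) (hh : h.det ≠ 0) (L : Fin 3 → Fin 3 → k)
    (s t β : Fin 3 → k) (hβ : β 0 = 1) (η : Fin 3 → k) (hη : ∀ r, η r ≠ 0) (η' η'' : k) (h' : η' ≠ 0)
    (h'' : η'' ≠ 0) (hL : ∀ r, Pi.single r 1 = η r • (L r ᵥ* h)) (hs : (fun _ => (1 : k)) = η' • (s ᵥ* h))
    (ht : β = η'' • (t ᵥ* h)) (r : Fin 3) : cr L s t r = β r := by
  have a1 := cro_det h L t β η hη η'' h'' hL ht r
  have a2 := cro_det h L t β η hη η'' h'' hL ht 0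
  have b1 := cro_det h L s (fun _ => 1) η hη η' h' hL hs r
  have b2 := cro_det h L s (fun _ => 1) η hη η' h' hL hs 0
  rw [hβ, mul_one] at a2
  rw [mul_one] at b1 b2
  have hP : η 0 * η 1 * η 2 ≠ 0 := mul_ne_zero (mul_ne_zero (hη 0) (hη 1)) (hη 2)
  unfold cr
  obtain ⟨A1, hA1⟩ : ∃ x, x = Matrix.det (Matrix.updateRow (Matrix.of L) r t) := ⟨_, rfl⟩
  obtain ⟨A2, hA2⟩ : ∃ x, x = Matrix.det (Matrix.updateRow (Matrix.of L) 0 t) := ⟨_, rfl⟩
  obtain ⟨B1, hB1⟩ : ∃ x, x = Matrix.det (Matrix.updateRow (Matrix.of L) r s) := ⟨_, rfl⟩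
  obtain ⟨B2, hB2⟩ : ∃ x, x = Matrix.det (Matrix.updateRow (Matrix.of L) 0 s) := ⟨_, rfl⟩
  rw [← hA1] at a1 ⊢
  rw [← hA2] at a2 ⊢
  rw [← hB1] at b1 ⊢
  rw [← hB2] at b2 ⊢
  have hA2' : A2 ≠ 0 := by
    rintro rfl
    rw [zero_mul, mul_zero] at a2
    exact hη 0 a2.symm
  have hB1' : B1 ≠ 0 := by
    rintro rfl
    rw [zero_mul, mul_zero] at b1
    exact hη r b1.symm
  rw [div_eq_iff (mul_ne_zero hA2' hB1')]
  obtain ⟨P, hPe⟩ : ∃ x, x = η 0 * η 1 * η 2 := ⟨_, rfl⟩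
  rw [← hPe] at a1 a2 b1 b2 hP
  obtain ⟨d, hd⟩ : ∃ x, x = h.det := ⟨_, rfl⟩
  rw [← hd] at a1 a2 b1 b2 hh
  have key : (η'' * P * d * η' * P * d) * (A1 * B2) =
      (η'' * P * d * η' * P * d) * (β r * (A2 * B1)) := by
    linear_combination (η' * P * d * B2) * a1 + (η r * β r) * b2 - (η' * P * d * B1 * β r) * a2 -
      (η 0 * β r) * b1
  exact mul_left_cancel₀ (mul_ne_zero (mul_ne_zero (mul_ne_zero (mul_ne_zero (mul_ne_zero h'' hP) hh)
    h') hP) hh) key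

private theorem cro_scale {k : Type*} [Field k] (L : Fin 3 → Fin 3 → k) (t : Fin 3 → k)
    (η : Fin 3 → k) (c : k) (r : Fin 3) :
    η r * Matrix.det (Matrix.updateRow (Matrix.of fun i => η i • L i) r (c • t)) =
      c * (η 0 * η 1 * η 2) * Matrix.det (Matrix.updateRow (Matrix.of L) r t) := by
  rw [Matrix.det_fin_three, Matrix.det_fin_three]
  fin_cases r <;> simp [Matrix.updateRow_apply] <;> ring

theorem cro_smul {k : Type*} [Field k] (L : Fin 3 → Fin 3 → k) (s t : Fin 3 → k) (η : Fin 3 → k)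
    (hη : ∀ r, η r ≠ 0) (η' η'' : k) (h' : η' ≠ 0) (h'' : η'' ≠ 0) (r : Fin 3) :
    cr (fun i => η i • L i) (η' • s) (η'' • t) r = cr L s t r := by
  have a1 := cro_scale L t η η'' r
  have a2 := cro_scale L t η η'' 0
  have b1 := cro_scale L s η η' r
  have b2 := cro_scale L s η η' 0
  have hP : η 0 * η 1 * η 2 ≠ 0 := mul_ne_zero (mul_ne_zero (hη 0) (hη 1)) (hη 2)
  have hr := hη r
  have h0 := hη 0
  unfold cr
  have c1 : Matrix.det (Matrix.updateRow (Matrix.of fun i => η i • L i) r (η'' • t)) =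
      (η r)⁻¹ * (η'' * (η 0 * η 1 * η 2)) * Matrix.det (Matrix.updateRow (Matrix.of L) r t) := by
    rw [mul_assoc, ← a1, ← mul_assoc, inv_mul_cancel₀ hr, one_mul]
  have c2 : Matrix.det (Matrix.updateRow (Matrix.of fun i => η i • L i) 0 (η'' • t)) =
      (η 0)⁻¹ * (η'' * (η 0 * η 1 * η 2)) * Matrix.det (Matrix.updateRow (Matrix.of L) 0 t) := by
    rw [mul_assoc, ← a2, ← mul_assoc, inv_mul_cancel₀ h0, one_mul]
  have d1 : Matrix.det (Matrix.updateRow (Matrix.of fun i => η i • L i) r (η' • s)) =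
      (η r)⁻¹ * (η' * (η 0 * η 1 * η 2)) * Matrix.det (Matrix.updateRow (Matrix.of L) r s) := by
    rw [mul_assoc, ← b1, ← mul_assoc, inv_mul_cancel₀ hr, one_mul]
  have d2 : Matrix.det (Matrix.updateRow (Matrix.of fun i => η i • L i) 0 (η' • s)) =
      (η 0)⁻¹ * (η' * (η 0 * η 1 * η 2)) * Matrix.det (Matrix.updateRow (Matrix.of L) 0 s) := by
    rw [mul_assoc, ← b2, ← mul_assoc, inv_mul_cancel₀ h0, one_mul]
  rw [c1, c2, d1, d2]
  obtain ⟨P, hPe⟩ : ∃ x, x = η 0 * η 1 * η 2 := ⟨_, rfl⟩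
  rw [← hPe] at hP ⊢
  obtain ⟨A1, hA1⟩ : ∃ x, x = Matrix.det (Matrix.updateRow (Matrix.of L) r t) := ⟨_, rfl⟩
  obtain ⟨A2, hA2⟩ : ∃ x, x = Matrix.det (Matrix.updateRow (Matrix.of L) 0 t) := ⟨_, rfl⟩
  obtain ⟨B1, hB1⟩ : ∃ x, x = Matrix.det (Matrix.updateRow (Matrix.of L) r s) := ⟨_, rfl⟩
  obtain ⟨B2, hB2⟩ : ∃ x, x = Matrix.det (Matrix.updateRow (Matrix.of L) 0 s) := ⟨_, rfl⟩
  rw [← hA1, ← hA2, ← hB1, ← hB2]
  have hq : (η r)⁻¹ * (η'' * P) * ((η 0)⁻¹ * (η' * P)) ≠ 0 := by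
    exact mul_ne_zero (mul_ne_zero (inv_ne_zero hr) (mul_ne_zero h'' hP))
      (mul_ne_zero (inv_ne_zero h0) (mul_ne_zero h' hP))
  calc (η r)⁻¹ * (η'' * P) * A1 * ((η 0)⁻¹ * (η' * P) * B2) /
        ((η 0)⁻¹ * (η'' * P) * A2 * ((η r)⁻¹ * (η' * P) * B1)) =
      ((η r)⁻¹ * (η'' * P) * ((η 0)⁻¹ * (η' * P)) * (A1 * B2)) /
        ((η r)⁻¹ * (η'' * P) * ((η 0)⁻¹ * (η' * P)) * (A2 * B1)) := by
        congr 1 <;> ring
    _ = A1 * B2 / (A2 * B1) := mul_div_mul_left _ _ hq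

theorem cro_map {k l : Type*} [Field k] [Field l] (φ : k →+* l) (L : Fin 3 → Fin 3 → k) (s t : Fin 3 → k)
    (r : Fin 3) : φ (cr L s t r) = cr (fun i j => φ (L i j)) (fun j => φ (s j)) (fun j => φ (t j)) r := by
  have key : ∀ (r : Fin 3) (t : Fin 3 → k), φ (Matrix.det (Matrix.updateRow (Matrix.of L) r t)) =
      Matrix.det (Matrix.updateRow (Matrix.of fun i j => φ (L i j)) r fun j => φ (t j)) := by
    intro r t
    rw [RingHom.map_det]
    congr 1
    ext i j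
    rw [RingHom.mapMatrix_apply, Matrix.map_apply]
    by_cases h : i = r
    · subst h
      rw [Matrix.updateRow_self, Matrix.updateRow_self]
    · rw [Matrix.updateRow_ne h, Matrix.updateRow_ne h]
      rfl
  unfold cr
  rw [map_div₀, map_mul, map_mul, key, key, key, key]

end Pool.Agent.PQ
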