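import Pool.Agent.PQ.DefsK
import Pool.Agent.PQ.DGA
import Pool.Agent.PQ.CRO
import Pool.Agent.PQ.BTX
import Pool.Agent.PQ.TRF

/-!
# PQ / DGR

`b i r` has degree at most `42^5` over `K`.  Lines of `F_C := map F`: `w ᵥ* h⁻¹` for `w = e_r, b i` (`bit_x`, `bit_s`, `rel_field`, `trf_bit`, `scl_bit`).
`dga`: `S`.  `cro` with `L r = e_r ᵥ* h⁻¹`, `s = b 0 ᵥ* h⁻¹`, `t = b i ᵥ* h⁻¹`, `η = 1`: `b i r = cr L s t r`.  For `τ : C ≃ₐ[K] C` the vectors `τ (w ᵥ* h⁻¹)` are
again bitangents of `F_C` (`F` over `K`), so by `cro_map`, `cro_smul` `τ (b i r)` is in the image of `S^5` under `cr`, a set with at most `42^5`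
elements.  The degree of the minimal polynomial is the number of its roots in `C` (separable), which are of the form `τ (b i r)`
(`minpoly.exists_algEquiv_of_root'`, as in ESH/HTL).
-/

namespace Pool.Agent.PQ

open MvPolynomial Matrix NumberField IsDedekindDomain

/-- bitangents of the model give bitangents of `F` -/
private theorem dgr_bit {C : Type*} [Field C] [IsAlgClosed C] (F : P3 C)
    (h : Matrix (Fin 3) (Fin 3) C) (hh : h.det ≠ 0) (c : C) (G : P3 C)
    (hE : sb h F = MvPolynomial.C c * G) (v : Fin 3 → C) (Q : P3 C) (hb : Bit G v Q) :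
    ∃ Q', Bit F (v ᵥ* h⁻¹) Q' := by
  obtain ⟨e, he⟩ := IsAlgClosed.exists_pow_nat_eq c (n := 2) (by norm_num)
  have h1 := scl_bit hb 1 e one_ne_zero
  rw [he, ← hE, one_smul] at h1
  have h2 := trf_bit h⁻¹ h1
  rw [sb_inv h hh] at h2
  exact ⟨_, h2⟩

private theorem dgr_conj {K C : Type*} [Field K] [Field C] [Algebra K C]
    (F : MvPolynomial (Fin 3) K) (S : Finset (Fin 3 → C))
    (hS : ∀ (w : Fin 3 → C) (Q : P3 C), w ≠ 0 → Bit (map (algebraMap K C) F) w Q →
      ∃ s ∈ S, ∃ c : C, c ≠ 0 ∧ w = c • s) (τ : C ≃ₐ[K] C) (v : Fin 3 → C) (hv : v ≠ 0) (Q : P3 C)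
    (hb : Bit (map (algebraMap K C) F) v Q) :
    ∃ s ∈ S, ∃ c : C, c ≠ 0 ∧ (fun j => τ (v j)) = c • s := by
  have h1 := hb.map (τ : C →+* C)
  rw [MvPolynomial.map_map] at h1
  have h2 : (τ : C →+* C).comp (algebraMap K C) = algebraMap K C := by
    ext z
    exact τ.commutes z
  rw [h2] at h1
  refine hS _ _ ?_ h1
  intro h0
  apply hv
  ext j
  have := congrFun h0 j
  simpa using this

theorem dgr {K C : Type*} [Field K] [NumberField K] [Field C] [Algebra K C] [Algebra.IsAlgebraic K C]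
    [IsAlgClosed C] (F : MvPolynomial (Fin 3) K) (hF : F.IsHomogeneous 4) (hS : SF F)
    (h : Matrix (Fin 3) (Fin 3) C) (hh : h.det ≠ 0) (c : C) (hc : c ≠ 0) (b : Fin 4 → Fin 3 → C)
    (hb : ND b) (hE : sb h (map (algebraMap K C) F) = MvPolynomial.C c * RB b) (i : Fin 4) (r : Fin 3) :
    (minpoly K (b i r)).natDegree ≤ 42 ^ 5 := by
  classical
  have hchar : CharZero C := charZero_of_injective_algebraMap (algebraMap K C).injective
  have hhi : h⁻¹ * h = 1 := Matrix.nonsing_inv_mul _ (isUnit_iff_ne_zero.2 hh)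
  have hih : h * h⁻¹ = 1 := Matrix.mul_nonsing_inv _ (isUnit_iff_ne_zero.2 hh)
  obtain ⟨S, hS1, hS2⟩ := dga (map (algebraMap K C) F) (hF.map _) (hS.map _) h hh c hc b hb hE
  have hback : ∀ v : Fin 3 → C, (v ᵥ* h⁻¹) ᵥ* h = v := by
    intro v
    rw [Matrix.vecMul_vecMul, hhi, Matrix.vecMul_one]
  have hne : ∀ v : Fin 3 → C, v ≠ 0 → v ᵥ* h⁻¹ ≠ 0 := by
    intro v hv h0
    apply hv
    rw [← hback v, h0, Matrix.zero_vecMul]
  -- the bitangents
  have hX : ∀ r : Fin 3, ∃ Q, Bit (map (algebraMap K C) F) ((Pi.single r 1 : Fin 3 → C) ᵥ* h⁻¹) Q :=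
    fun r => dgr_bit _ h hh c _ hE _ _ (bit_x (yy b) r)
  have hB : ∀ i : Fin 4, ∃ Q, Bit (map (algebraMap K C) F) (b i ᵥ* h⁻¹) Q :=
    fun i => dgr_bit _ h hh c _ hE _ _ (bit_s (b i) (hb.ne i) (yy b) _ (rel_field b i (hb.ne i)))
  have hX0 : ∀ r : Fin 3, (Pi.single r 1 : Fin 3 → C) ≠ 0 := by
    intro r h0
    have := congrFun h0 r
    rw [Pi.single_eq_same, Pi.zero_apply] at this
    exact one_ne_zero this
  have hB0 : ∀ i : Fin 4, b i ≠ 0 := by
    intro i h0
    exact hb.ne i 0 (congrFun h0 0)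
  set L : Fin 3 → Fin 3 → C := fun r => (Pi.single r 1 : Fin 3 → C) ᵥ* h⁻¹ with hL
  have hcr : cr L (b 0 ᵥ* h⁻¹) (b i ᵥ* h⁻¹) r = b i r := by
    refine cro h hh L _ _ (b i) (hb.col i) (fun _ => 1) (fun _ => one_ne_zero) 1 1 one_ne_zero
      one_ne_zero ?_ ?_ ?_ r
    · intro r
      rw [one_smul, hL]
      exact (hback _).symm
    · rw [one_smul, hback]
      ext r
      exact (hb.zero r).symm
    · rw [one_smul, hback]
  set T : Finset C := (Fintype.piFinset fun _ : Fin 5 => S).image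
    (fun f => cr (fun j : Fin 3 => f (Fin.castLE (by norm_num) j)) (f 3) (f 4) r) with hT
  have hTc : T.card ≤ 42 ^ 5 := by
    refine Finset.card_image_le.trans ?_
    rw [Fintype.card_piFinset_const]
    exact Nat.pow_le_pow_left hS1 5
  have hmem : ∀ τ : C ≃ₐ[K] C, τ (b i r) ∈ T := by
    intro τ
    choose QX' hQX' using hX
    choose QB' hQB' using hB
    have h1 : ∀ r : Fin 3, ∃ s ∈ S, ∃ c : C, c ≠ 0 ∧ (fun j => τ (L r j)) = c • s :=
      fun r => dgr_conj F S hS2 τ _ (hne _ (hX0 r)) _ (hQX' r)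
    have h2 : ∀ i : Fin 4, ∃ s ∈ S, ∃ c : C, c ≠ 0 ∧ (fun j => τ ((b i ᵥ* h⁻¹) j)) = c • s :=
      fun i => dgr_conj F S hS2 τ _ (hne _ (hB0 i)) _ (hQB' i)
    choose sL hsL cL hcL hEL using h1
    choose sB hsB cB hcB hEB using h2
    rw [hT, Finset.mem_image]
    refine ⟨![sL 0, sL 1, sL 2, sB 0, sB i], ?_, ?_⟩
    · rw [Fintype.mem_piFinset]
      intro j
      fin_cases j
      · exact hsL 0
      · exact hsL 1
      · exact hsL 2
      · exact hsB 0
      · exact hsB i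
    · have h3 : (fun j : Fin 3 => (![sL 0, sL 1, sL 2, sB 0, sB i] : Fin 5 → Fin 3 → C)
          (Fin.castLE (by norm_num) j)) = sL := by
        ext j
        fin_cases j <;> rfl
      rw [h3]
      change cr sL (sB 0) (sB i) r = τ (b i r)
      rw [← hcr]
      have h4 := cro_map (τ : C →+* C) L (b 0 ᵥ* h⁻¹) (b i ᵥ* h⁻¹) r
      have h5 : (fun i j => (τ : C →+* C) (L i j)) = fun i => cL i • sL i := by
        ext i j
        exact congrFun (hEL i) j
      have h6 : (fun j => (τ : C →+* C) ((b 0 ᵥ* h⁻¹) j)) = cB 0 • sB 0 := hEB 0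
      have h7 : (fun j => (τ : C →+* C) ((b i ᵥ* h⁻¹) j)) = cB i • sB i := hEB i
      rw [h5, h6, h7, cro_smul sL (sB 0) (sB i) cL hcL (cB 0) (cB i) (hcB 0) (hcB i)] at h4
      exact h4.symm
  have hx : IsAlgebraic K (b i r) := Algebra.IsAlgebraic.isAlgebraic _
  have hnorm : Normal K C :=
    { toIsAlgebraic := inferInstance
      splits' := fun _ => IsAlgClosed.splits _ }
  have hsep : (minpoly K (b i r)).Separable := (minpoly.irreducible hx.isIntegral).separable
  have hcard := Polynomial.card_rootSet_eq_natDegree hsep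
    (IsAlgClosed.splits ((minpoly K (b i r)).map (algebraMap K C)))
  rw [← hcard]
  have hsub : (minpoly K (b i r)).rootSet C ⊆ (T : Set C) := by
    intro y hy
    obtain ⟨τ, hτ⟩ := minpoly.exists_algEquiv_of_root' (K := K) (L := C) (x := y) (y := b i r)
      hx (Polynomial.mem_rootSet.mp hy).2
    rw [← hτ]
    exact hmem τ
  have h8 : Fintype.card ((minpoly K (b i r)).rootSet C) = ((minpoly K (b i r)).rootSet C).toFinset.card :=
    (Set.toFinset_card _).symm
  rw [h8]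
  refine (Finset.card_le_card ?_).trans hTc
  intro y hy
  exact hsub (Set.mem_toFinset.1 hy)

end Pool.Agent.PQ
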