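import Pool.Agent.PQ.UNK
import Pool.Agent.PQ.DGR
import Pool.Agent.ESH.HTL

/-!
# PQ / HTB

`ESH.htl` with `m = 2`, `D = 42 ^ 5`, `x = b i r` (`x ≠ 0, 1` by `ND`), `unk`, `dgr`.
-/

namespace Pool.Agent.PQ

open MvPolynomial Matrix NumberField IsDedekindDomain

theorem htb {K C : Type*} [Field K] [NumberField K] [Field C] [Algebra K C] [Algebra.IsAlgebraic K C]
    [IsAlgClosed C] (T : Finset (HeightOneSpectrum (𝓞 K))) (F : MvPolynomial (Fin 3) K)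
    (hF : F.IsHomogeneous 4) (hS : SF F) (hT : GoodOut T F) (h : Matrix (Fin 3) (Fin 3) C)
    (hh : h.det ≠ 0) (c : C) (hc : c ≠ 0) (b : Fin 4 → Fin 3 → C) (hb : ND b)
    (hE : sb h (map (algebraMap K C) F) = MvPolynomial.C c * RB b) (i : Fin 4) (r : Fin 3) (hi : i ≠ 0)
    (hr : r ≠ 0) : ∃ P : Polynomial ℤ, P ≠ 0 ∧
      P.natDegree ≤ ESH.tw 5 (ESH.szK K T + 2 + 42 ^ 5) ∧ Polynomial.aeval (b i r) P = 0 ∧
      ∀ j, |P.coeff j| ≤ (ESH.tw 90 (ESH.szK K T + 2 + 42 ^ 5) : ℤ) :=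
  ESH.htl T 2 (42 ^ 5) (b i r) (hb.ne i r) (hb.one i r hi hr)
    (dgr F hF hS h hh c hc b hb hE i r)
    (fun V hV => ⟨(unk T F hF hT h hh c hc b hb hE V hV).1 i r,
      (unk T F hF hT h hh c hc b hb hE V hV).2.1 i r hi hr⟩)
    (fun V hV σ hσ => (unk T F hF hT h hh c hc b hb hE V hV).2.2 σ hσ i r)

end Pool.Agent.PQ
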