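import Pool.Agent.PQ.DHO

/-!
# PQ / RSA

The resultant vanishes at common zeros: `Polynomial.exists_mul_add_mul_eq_C_resultant` (for sizes 4, 3: `natDegree (dh F) ≤ 4`, `natDegree` of the
derivative `≤ 3`): `ds F` (as constant in `y`) is a combination of `dh F` and its derivative; evaluate `y = y0`, then `x = c` (`dh_eval`, `dh_der`).
-/

namespace Pool.Agent.PQ

open MvPolynomial Matrix

theorem rsa {R : Type*} [CommRing R] (F : P3 R) (hF : F.IsHomogeneous 4) (c y0 : R)
    (h0 : eval ![c, y0, 1] F = 0) (h1 : eval ![c, y0, 1] (pderiv 1 F) = 0) : (ds F).eval c = 0 := by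
  have hd := dh_deg F hF
  obtain ⟨p, q, -, -, e⟩ := Polynomial.exists_mul_add_mul_eq_C_resultant (m := 4) (n := 3) (dh F)
    (Polynomial.derivative (dh F)) hd
    ((Polynomial.natDegree_derivative_le _).trans (by omega)) (Or.inl (by norm_num))
  have e1 := congrArg (fun P => Polynomial.eval c (Polynomial.eval (Polynomial.C y0) P)) e
  simp only [Polynomial.eval_add, Polynomial.eval_mul, Polynomial.eval_C] at e1
  rw [dh_der, dh_eval, dh_eval, h0, h1, zero_mul, zero_mul, add_zero, ← dh_der] at e1
  exact e1.symm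

end Pool.Agent.PQ
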