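import Pool.Agent.PQ.DHO
import Pool.Agent.PQ.NSX
import Pool.Agent.PQ.DVE

/-!
# PQ / RSB

The discriminant is not zero.  Let `M` be an algebraic closure of `FractionRing k[X]`, `τ ∈ M` the image of `X`, transcendental over `k`.
If `ds F = 0`, the polynomial `f := (dh F)` with inner variable evaluated at `τ`, an element of `M[Y]` of degree exactly 4 (`dh_coeff`, `he`), has
`resultant f f' 4 3 = 0`, so `f` and `f'` have a common root `y0` (`resultant_eq_zero_iff`; not coprime; `M` algebraically closed).
`p = (τ, y0, 1)`: `F(p) = 0`, `∂₁F(p) = 0`.  `dva`: `D τ = 1`; `dve_map`: `0 = D (F(p)) = ∂₀F(p) * 1 + ∂₁F(p) D y0 + ∂₂F(p) D 1 = ∂₀F(p)`.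
Euler's formula: `∑ p i ∂ᵢF(p) = 4 F(p) = 0`, so `∂₂F(p) = 0`.  So `p` is a singular point over `M`, contradiction to `nsx`.
-/

namespace Pool.Agent.PQ

open MvPolynomial Matrix

private theorem rsb_root {M : Type*} [Field M] [IsAlgClosed M] [CharZero M] (f : Polynomial M)
    (hf : f.natDegree = 4) (h : Polynomial.resultant f (Polynomial.derivative f) 4 3 = 0) :
    ∃ y : M, f.eval y = 0 ∧ (Polynomial.derivative f).eval y = 0 := by
  have hf' : (Polynomial.derivative f).natDegree = 3 := by
    rw [Polynomial.natDegree_derivative, hf]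
  have h1 : Polynomial.resultant f (Polynomial.derivative f) = 0 := by
    rw [hf, hf', h]
  rw [Polynomial.resultant_eq_zero_iff] at h1
  have h2 := h1.2
  rw [Polynomial.isCoprime_iff_aeval_ne_zero_of_isAlgClosed M M] at h2
  push Not at h2
  obtain ⟨y, hy⟩ := h2
  exact ⟨y, by simpa using hy.1, by simpa using hy.2⟩

theorem rsb {k : Type*} [Field k] [IsAlgClosed k] [CharZero k] (F : P3 k) (hF : F.IsHomogeneous 4)
    (hNS : NS F) (he : eval (Pi.single 1 1) F ≠ 0) : ds F ≠ 0 := by
  intro h
  let M := AlgebraicClosure (FractionRing (Polynomial k))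
  have hinj : Function.Injective (algebraMap (Polynomial k) M) := by
    rw [IsScalarTower.algebraMap_eq (Polynomial k) (FractionRing (Polynomial k)) M]
    exact (algebraMap (FractionRing (Polynomial k)) M).injective.comp
      (IsFractionRing.injective _ _)
  have : CharZero M := charZero_of_injective_algebraMap (algebraMap k M).injective
  let τ : M := algebraMap (Polynomial k) M Polynomial.X
  have hτ : Transcendental k τ := by
    rw [transcendental_algebraMap_iff hinj]
    exact Polynomial.transcendental_X k
  obtain ⟨D, hD⟩ := dva τ hτ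
  set G : P3 M := map (algebraMap k M) F with hG
  have hGh : G.IsHomogeneous 4 := map_hom _ hF
  have hds : ds G = 0 := by
    rw [hG, ds_map, h, Polynomial.map_zero]
  let f : Polynomial M := Polynomial.map (Polynomial.evalRingHom τ) (dh G)
  have hc : f.coeff 4 ≠ 0 := by
    rw [Polynomial.coeff_map, dh_coeff G hGh]
    change Polynomial.eval τ (Polynomial.C (eval (Pi.single 1 1) G)) ≠ 0
    rw [Polynomial.eval_C, hG]
    have : (Pi.single 1 1 : Fin 3 → M) = fun i => algebraMap k M ((Pi.single 1 1 : Fin 3 → k) i) := by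
      funext i
      fin_cases i <;> simp
    have h5 : eval (fun i => algebraMap k M ((Pi.single 1 1 : Fin 3 → k) i)) (map (algebraMap k M) F) =
        algebraMap k M (eval (Pi.single 1 1) F) := by
      rw [eval_map]
      exact (eval₂_comp (algebraMap k M) (Pi.single 1 1 : Fin 3 → k) F).symm
    rw [this, h5]
    intro h0
    exact he ((map_eq_zero _).1 h0)
  have hd : f.natDegree = 4 := by
    apply le_antisymm
    · exact (Polynomial.natDegree_map_le).trans (dh_deg G hGh)
    · exact Polynomial.le_natDegree_of_ne_zero hc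
  have hr : Polynomial.resultant f (Polynomial.derivative f) 4 3 = 0 := by
    rw [Polynomial.derivative_map, Polynomial.resultant_map_map]
    change Polynomial.evalRingHom τ (ds G) = 0
    rw [hds, map_zero]
  obtain ⟨y, hy, hy'⟩ := rsb_root f hd hr
  rw [Polynomial.derivative_map, Polynomial.map_evalRingHom_eval] at hy'
  rw [Polynomial.map_evalRingHom_eval] at hy
  have e0 : eval ![τ, y, 1] G = 0 := by
    rw [← dh_eval]
    exact hy
  have e1 : eval ![τ, y, 1] (pderiv 1 G) = 0 := by
    rw [← dh_eval, ← dh_der]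
    exact hy'
  have e2 := dve_map D F ![τ, y, 1]
  rw [← hG, e0, map_zero, Fin.sum_univ_three, e1] at e2
  have e3 : eval ![τ, y, 1] (pderiv 0 G) = 0 := by
    simpa [hD] using e2.symm
  have e4 := congrArg (eval ![τ, y, 1]) hGh.sum_X_mul_pderiv
  rw [map_sum, Fin.sum_univ_three] at e4
  simp only [map_mul, e3, e1, eval_X] at e4
  have e5 : eval ![τ, y, 1] (pderiv 2 G) = 0 := by
    simpa [e0] using e4
  obtain ⟨i, hi⟩ := nsx (M := M) F hNS ![τ, y, 1] (fun h0 => by simpa using congrFun h0 2) e0
  fin_cases i
  · exact hi e3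
  · exact hi e1
  · exact hi e5

end Pool.Agent.PQ
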