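import Pool.Agent.PQ.LNF

/-!
# PQ / ELN

Sizes of polynomials with integer coefficients.  `l1` is subadditive and submultiplicative: `coeff (p q) = ∑` over the antidiagonal; the sum
of all `|coeff|` is at most the product (`Finset.sum` over pairs `support p × support q`).  For `Polynomial`: `L1 D = ∑ l1 (coeff D j)`.
-/

namespace Pool.Agent.PQ

open MvPolynomial Matrix

/-- sum of the absolute values of the coefficients -/
noncomputable def l1 {σ : Type*} (p : MvPolynomial σ ℤ) : ℕ := ∑ m ∈ p.support, (p.coeff m).natAbs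

private theorem ELN_ext {σ : Type*} (p : MvPolynomial σ ℤ) {s : Finset (σ →₀ ℕ)}
    (h : p.support ⊆ s) : l1 p = ∑ m ∈ s, (p.coeff m).natAbs := by
  refine Finset.sum_subset h fun m _ hm => ?_
  rw [MvPolynomial.notMem_support_iff.1 hm, Int.natAbs_zero]

theorem l1_add {σ : Type*} (p q : MvPolynomial σ ℤ) : l1 (p + q) ≤ l1 p + l1 q := by
  classical
  rw [ELN_ext (p + q) MvPolynomial.support_add,
    ELN_ext p (Finset.subset_union_left (s₂ := q.support)),
    ELN_ext q (Finset.subset_union_right (s₁ := p.support)), ← Finset.sum_add_distrib]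
  refine Finset.sum_le_sum fun m _ => ?_
  rw [MvPolynomial.coeff_add]
  exact Int.natAbs_add_le _ _

theorem l1_neg {σ : Type*} (p : MvPolynomial σ ℤ) : l1 (-p) = l1 p := by
  rw [l1, l1, MvPolynomial.support_neg]
  refine Finset.sum_congr rfl fun m _ => ?_
  rw [MvPolynomial.coeff_neg, Int.natAbs_neg]

private theorem ELN_zero {σ : Type*} : l1 (0 : MvPolynomial σ ℤ) = 0 := by
  rw [l1, MvPolynomial.support_zero, Finset.sum_empty]

private theorem ELN_sum {σ ι : Type*} (s : Finset ι) (f : ι → MvPolynomial σ ℤ) :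
    l1 (∑ i ∈ s, f i) ≤ ∑ i ∈ s, l1 (f i) := by
  classical
  induction s using Finset.induction_on with
  | empty =>
    rw [Finset.sum_empty, Finset.sum_empty, ELN_zero]
  | insert a s ha ih =>
    rw [Finset.sum_insert ha, Finset.sum_insert ha]
    exact (l1_add _ _).trans (Nat.add_le_add_left ih _)

private theorem ELN_mon {σ : Type*} (m : σ →₀ ℕ) (c : ℤ) :
    l1 (MvPolynomial.monomial m c) = c.natAbs := by
  classical
  rw [ELN_ext _ (MvPolynomial.support_monomial_subset), Finset.sum_singleton,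
    MvPolynomial.coeff_monomial, if_pos rfl]

theorem l1_mul {σ : Type*} (p q : MvPolynomial σ ℤ) : l1 (p * q) ≤ l1 p * l1 q := by
  have e : p * q = ∑ m ∈ p.support, ∑ n ∈ q.support,
      MvPolynomial.monomial (m + n) (p.coeff m * q.coeff n) := by
    conv_lhs => rw [p.as_sum, q.as_sum]
    rw [Finset.sum_mul_sum]
    simp only [MvPolynomial.monomial_mul]
  rw [e]
  change _ ≤ (∑ m ∈ p.support, (p.coeff m).natAbs) * ∑ n ∈ q.support, (q.coeff n).natAbs
  rw [Finset.sum_mul_sum]
  refine (ELN_sum _ _).trans (Finset.sum_le_sum fun m _ => ?_)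
  refine (ELN_sum _ _).trans (Finset.sum_le_sum fun n _ => ?_)
  rw [ELN_mon, Int.natAbs_mul]

theorem l1_C {σ : Type*} (c : ℤ) : l1 (MvPolynomial.C c : MvPolynomial σ ℤ) = c.natAbs :=
  ELN_mon 0 c

theorem l1_X {σ : Type*} (i : σ) : l1 (MvPolynomial.X i : MvPolynomial σ ℤ) = 1 :=
  ELN_mon (Finsupp.single i 1) 1

/-- sum of the sizes of the coefficients -/
noncomputable def L1 {σ : Type*} (D : Polynomial (MvPolynomial σ ℤ)) : ℕ := ∑ j ∈ D.support, l1 (D.coeff j)

private theorem ELN_EXT {σ : Type*} (p : Polynomial (MvPolynomial σ ℤ)) {s : Finset ℕ}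
    (h : p.support ⊆ s) : L1 p = ∑ m ∈ s, l1 (p.coeff m) := by
  refine Finset.sum_subset h fun m _ hm => ?_
  rw [Polynomial.notMem_support_iff.1 hm, ELN_zero]

theorem L1_add {σ : Type*} (p q : Polynomial (MvPolynomial σ ℤ)) : L1 (p + q) ≤ L1 p + L1 q := by
  classical
  rw [ELN_EXT (p + q) Polynomial.support_add,
    ELN_EXT p (Finset.subset_union_left (s₂ := q.support)),
    ELN_EXT q (Finset.subset_union_right (s₁ := p.support)), ← Finset.sum_add_distrib]
  refine Finset.sum_le_sum fun m _ => ?_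
  rw [Polynomial.coeff_add]
  exact l1_add _ _

private theorem ELN_Zero {σ : Type*} : L1 (0 : Polynomial (MvPolynomial σ ℤ)) = 0 := by
  rw [L1, Polynomial.support_zero, Finset.sum_empty]

private theorem ELN_Sum {σ ι : Type*} (s : Finset ι) (f : ι → Polynomial (MvPolynomial σ ℤ)) :
    L1 (∑ i ∈ s, f i) ≤ ∑ i ∈ s, L1 (f i) := by
  classical
  induction s using Finset.induction_on with
  | empty =>
    rw [Finset.sum_empty, Finset.sum_empty, ELN_Zero]
  | insert a s ha ih =>
    rw [Finset.sum_insert ha, Finset.sum_insert ha]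
    exact (L1_add _ _).trans (Nat.add_le_add_left ih _)

private theorem ELN_Mon {σ : Type*} (m : ℕ) (c : MvPolynomial σ ℤ) :
    L1 (Polynomial.monomial m c) = l1 c := by
  classical
  rw [ELN_EXT _ (Polynomial.support_monomial_subset m c), Finset.sum_singleton,
    Polynomial.coeff_monomial, if_pos rfl]

theorem L1_mul {σ : Type*} (p q : Polynomial (MvPolynomial σ ℤ)) : L1 (p * q) ≤ L1 p * L1 q := by
  have e : p * q = ∑ m ∈ p.support, ∑ n ∈ q.support,
      Polynomial.monomial (m + n) (p.coeff m * q.coeff n) := by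
    conv_lhs => rw [p.as_sum_support, q.as_sum_support]
    rw [Finset.sum_mul_sum]
    simp only [Polynomial.monomial_mul_monomial]
  rw [e]
  change _ ≤ (∑ m ∈ p.support, l1 (p.coeff m)) * ∑ n ∈ q.support, l1 (q.coeff n)
  rw [Finset.sum_mul_sum]
  refine (ELN_Sum _ _).trans (Finset.sum_le_sum fun m _ => ?_)
  refine (ELN_Sum _ _).trans (Finset.sum_le_sum fun n _ => ?_)
  rw [ELN_Mon]
  exact l1_mul _ _

theorem L1_neg {σ : Type*} (p : Polynomial (MvPolynomial σ ℤ)) : L1 (-p) = L1 p := by
  rw [L1, L1, Polynomial.support_neg]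
  refine Finset.sum_congr rfl fun m _ => ?_
  rw [Polynomial.coeff_neg, l1_neg]

theorem l1_le_L1 {σ : Type*} (D : Polynomial (MvPolynomial σ ℤ)) (j : ℕ) : l1 (D.coeff j) ≤ L1 D := by
  by_cases h : j ∈ D.support
  · exact Finset.single_le_sum (f := fun j => l1 (D.coeff j)) (fun _ _ => Nat.zero_le _) h
  · rw [Polynomial.notMem_support_iff.1 h, ELN_zero]
    exact Nat.zero_le _

end Pool.Agent.PQ
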