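import Pool.Agent.PQ.DHO
import Pool.Agent.PQ.ELN
import Pool.Agent.PQ.SPZ

/-!
# PQ / RSD

Explicit bounds for the universal discriminant `ds (RB (bg X))` over `MvPolynomial (Fin 3 × Fin 2) ℤ`.
`l1`: entries of `bg`: 1; `aa`: 1; `det` of a 3 × 3 matrix with entries of size `≤ s`: `≤ 6 s³`; `la`, `mu`: `≤ 6`; `adjugate` entries `≤ 2`;
`yy`: `≤ 3 * 2 * 6 * 216 * 1 ≤ 10^4`; the coefficients of `RB`: sum of sizes `≤ 9 * (3 * 10^4)² ≤ 10^10`; entries of the Sylvester matrix (`L1`): `≤ 4 * 10^10`;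
determinant 7 × 7: `≤ 5040 * (4 * 10^10)^7 ≤ 10^79 ≤ 2^400`.
`totalDegree`: `aa` 2, `la` 6, `mu` 3, `adjugate` 4, `yy` `≤ 4 + 3 + 18 + 1 = 26`, coefficients of `RB` `≤ 52`, `ds` `≤ 364`.
`natDegree` in `x`: entries `≤ 4`, so `≤ 28`.  (Induction-free: use subadditivity and submultiplicativity on the Leibniz formula of the
determinant, `Matrix.det_apply`.)
-/

namespace Pool.Agent.PQ

open MvPolynomial Matrix

/-! ### sizes and degrees -/

/-- submultiplicative size -/
private structure SN {A : Type*} [CommRing A] (N : A → ℕ) : Prop where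
  zero : N 0 = 0
  one : N 1 ≤ 1
  add : ∀ a b, N (a + b) ≤ N a + N b
  mul : ∀ a b, N (a * b) ≤ N a * N b
  neg : ∀ a, N (-a) = N a

/-- filtration by degree -/
private structure DF {A : Type*} [CommRing A] (Q : ℕ → A → Prop) : Prop where
  mono : ∀ {d e a}, d ≤ e → Q d a → Q e a
  zero : Q 0 0
  one : Q 0 1
  add : ∀ {d a b}, Q d a → Q d b → Q d (a + b)
  mul : ∀ {d e a b}, Q d a → Q e b → Q (d + e) (a * b)
  neg : ∀ {d a}, Q d a → Q d (-a)

section SN

variable {A : Type*} [CommRing A] {N : A → ℕ} (hN : SN N)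

include hN

private theorem SN.sum {ι : Type*} (s : Finset ι) (f : ι → A) : N (∑ i ∈ s, f i) ≤ ∑ i ∈ s, N (f i) := by
  classical
  induction s using Finset.induction_on with
  | empty => simp [hN.zero]
  | insert i s hi ih =>
    rw [Finset.sum_insert hi, Finset.sum_insert hi]
    exact (hN.add _ _).trans (Nat.add_le_add_left ih _)

private theorem SN.prod {ι : Type*} (s : Finset ι) (f : ι → A) : N (∏ i ∈ s, f i) ≤ ∏ i ∈ s, N (f i) := by
  classical
  induction s using Finset.induction_on with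
  | empty => simpa using hN.one
  | insert i s hi ih =>
    rw [Finset.prod_insert hi, Finset.prod_insert hi]
    exact (hN.mul _ _).trans (Nat.mul_le_mul_left _ ih)

private theorem SN.sum_le {ι : Type*} (s : Finset ι) (f : ι → A) (B : ℕ) (h : ∀ i ∈ s, N (f i) ≤ B) :
    N (∑ i ∈ s, f i) ≤ s.card * B := by
  refine (hN.sum s f).trans ((Finset.sum_le_sum h).trans ?_)
  rw [Finset.sum_const, smul_eq_mul]

private theorem SN.prod_le {ι : Type*} (s : Finset ι) (f : ι → A) (B : ℕ) (h : ∀ i ∈ s, N (f i) ≤ B) :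
    N (∏ i ∈ s, f i) ≤ B ^ s.card :=
  (hN.prod s f).trans (Finset.prod_le_pow_card _ _ _ h)

private theorem SN.det {n : ℕ} (M : Matrix (Fin n) (Fin n) A) (B : ℕ) (h : ∀ i j, N (M i j) ≤ B) :
    N M.det ≤ n.factorial * B ^ n := by
  rw [Matrix.det_apply]
  refine (hN.sum_le _ _ (B ^ n) fun σ _ => ?_).trans ?_
  · have h1 : N (∏ i, M (σ i) i) ≤ B ^ n := by
      have := hN.prod_le Finset.univ (fun i => M (σ i) i) B fun i _ => h _ _
      rwa [Finset.card_univ, Fintype.card_fin] at this
    rcases Int.units_eq_one_or (Equiv.Perm.sign σ) with h2 | h2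
    · rw [h2, one_smul]
      exact h1
    · rw [h2, Units.neg_smul, one_smul, hN.neg]
      exact h1
  · rw [Finset.card_univ, Fintype.card_perm, Fintype.card_fin]

private theorem SN.cast (n : ℕ) : N (n : A) ≤ n := by
  induction n with
  | zero => simp [hN.zero]
  | succ n ih =>
    rw [Nat.cast_succ]
    exact (hN.add _ _).trans (Nat.add_le_add ih hN.one)

private theorem SN.sign (n : ℕ) (a : A) : N ((-1) ^ n * a) = N a := by
  rcases neg_one_pow_eq_or A n with h | h
  · rw [h, one_mul]
  · rw [h, neg_one_mul, hN.neg]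

private theorem SN.m3 (b : Fin 4 → Fin 3 → A) (B : ℕ) (h : ∀ i r, N (b i r) ≤ B) (i : Fin 4) :
    N (m3 b i) ≤ 6 * B ^ 3 := by
  unfold Pool.Agent.PQ.m3
  rw [hN.sign]
  exact hN.det _ B fun _ _ => h _ _

private theorem SN.adj (M : Matrix (Fin 3) (Fin 3) A) (h : ∀ i j, N (M i j) ≤ 1) (i j : Fin 3) :
    N (Matrix.adjugate M i j) ≤ 6 := by
  rw [Matrix.adjugate_apply]
  refine (hN.det _ 1 fun s t => ?_).trans (by norm_num [Nat.factorial])
  rw [Matrix.updateRow_apply]
  split_ifs
  · rw [Pi.single_apply]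
    split_ifs
    · exact hN.one
    · rw [hN.zero]
      exact Nat.zero_le _
  · exact h s t

private theorem SN.yy (b : Fin 4 → Fin 3 → A) (h : ∀ i r, N (b i r) ≤ 1) (r j : Fin 3) :
    N (yy b r j) ≤ 3 * (6 * (6 * 6 ^ 3) * 1) := by
  have ha : ∀ i r, N (aa b i r) ≤ 1 := fun i r =>
    (hN.mul _ _).trans (Nat.mul_le_mul (h _ _) (h _ _))
  unfold Pool.Agent.PQ.yy
  rw [hN.neg]
  refine hN.sum_le _ _ _ fun i _ => ?_
  refine (hN.mul _ _).trans (Nat.mul_le_mul ((hN.mul _ _).trans (Nat.mul_le_mul ?_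
    ((hN.mul _ _).trans (Nat.mul_le_mul ?_ ?_)))) (h _ _))
  · exact hN.adj _ (fun _ _ => ha _ _) _ _
  · exact (hN.m3 b 1 h _).trans (by norm_num)
  · have := hN.prod_le (Finset.univ.erase i.succ) (fun l => la b l) 6
      fun l _ => (hN.m3 (aa b) 1 ha l).trans (by norm_num)
    rwa [Finset.card_erase_of_mem (Finset.mem_univ _), Finset.card_univ, Fintype.card_fin] at this

/-- the size of the resultant -/
private theorem SN.res (P : Polynomial A) (B : ℕ) (h : ∀ j, N (P.coeff j) ≤ B) :
    N (Polynomial.resultant P (Polynomial.derivative P) 4 3) ≤ Nat.factorial 7 * (4 * B) ^ 7 := by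
  unfold Polynomial.resultant
  refine hN.det (n := 7) _ _ fun i j => ?_
  unfold Polynomial.sylvester
  rw [Matrix.of_apply]
  revert j
  change ∀ j : Fin (4 + 3), _
  intro j
  induction j using Fin.addCases with
  | left j =>
    rw [Fin.addCases_left]
    split_ifs with h1
    · rw [Polynomial.coeff_derivative]
      have h2 : N (((i : ℕ) - (j : ℕ) : ℕ) + 1 : A) ≤ 4 := by
        rw [← Nat.cast_succ]
        refine (hN.cast _).trans ?_
        have := h1.2
        omega
      rw [mul_comm]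
      exact (hN.mul _ _).trans (Nat.mul_le_mul h2 (h _))
    · rw [hN.zero]
      exact Nat.zero_le _
  | right j =>
    rw [Fin.addCases_right]
    split_ifs with h1
    · exact (h _).trans (by omega)
    · rw [hN.zero]
      exact Nat.zero_le _

end SN

section DF

variable {A : Type*} [CommRing A] {Q : ℕ → A → Prop} (hQ : DF Q)

include hQ

private theorem DF.zero' (d : ℕ) : Q d 0 := hQ.mono (Nat.zero_le _) hQ.zero

private theorem DF.one' (d : ℕ) : Q d 1 := hQ.mono (Nat.zero_le _) hQ.one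

private theorem DF.sum {ι : Type*} (s : Finset ι) (f : ι → A) (d : ℕ) (h : ∀ i ∈ s, Q d (f i)) :
    Q d (∑ i ∈ s, f i) :=
  Finset.sum_induction f (Q d) (fun _ _ => hQ.add) (hQ.zero' d) h

private theorem DF.prod {ι : Type*} (s : Finset ι) (f : ι → A) (d : ℕ) (h : ∀ i ∈ s, Q d (f i)) :
    Q (s.card * d) (∏ i ∈ s, f i) := by
  classical
  induction s using Finset.induction_on with
  | empty => simpa using hQ.one
  | insert i s hi ih =>
    rw [Finset.prod_insert hi, Finset.card_insert_of_notMem hi, Nat.succ_mul, Nat.add_comm]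
    exact hQ.mul (h i (Finset.mem_insert_self _ _)) (ih fun j hj => h j (Finset.mem_insert_of_mem hj))

private theorem DF.det {n : ℕ} (M : Matrix (Fin n) (Fin n) A) (d : ℕ) (h : ∀ i j, Q d (M i j)) :
    Q (n * d) M.det := by
  rw [Matrix.det_apply]
  refine hQ.sum _ _ _ fun σ _ => ?_
  have h1 : Q (n * d) (∏ i, M (σ i) i) := by
    have := hQ.prod Finset.univ (fun i => M (σ i) i) d fun i _ => h _ _
    rwa [Finset.card_univ, Fintype.card_fin] at this
  rcases Int.units_eq_one_or (Equiv.Perm.sign σ) with h2 | h2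
  · rw [h2, one_smul]
    exact h1
  · rw [h2, Units.neg_smul, one_smul]
    exact hQ.neg h1

private theorem DF.cast (n : ℕ) : Q 0 (n : A) := by
  induction n with
  | zero => simpa using hQ.zero
  | succ n ih =>
    rw [Nat.cast_succ]
    exact hQ.add ih hQ.one

private theorem DF.sign (n : ℕ) (d : ℕ) (a : A) (h : Q d a) : Q d ((-1) ^ n * a) := by
  rcases neg_one_pow_eq_or A n with h' | h'
  · rw [h', one_mul]
    exact h
  · rw [h', neg_one_mul]
    exact hQ.neg h

private theorem DF.m3 (b : Fin 4 → Fin 3 → A) (d : ℕ) (h : ∀ i r, Q d (b i r)) (i : Fin 4) :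
    Q (3 * d) (m3 b i) := by
  unfold Pool.Agent.PQ.m3
  exact hQ.sign _ _ _ (hQ.det _ d fun _ _ => h _ _)

private theorem DF.adj (M : Matrix (Fin 3) (Fin 3) A) (d : ℕ) (h : ∀ i j, Q d (M i j)) (i j : Fin 3) :
    Q (3 * d) (Matrix.adjugate M i j) := by
  rw [Matrix.adjugate_apply]
  refine hQ.det _ d fun s t => ?_
  rw [Matrix.updateRow_apply]
  split_ifs
  · rw [Pi.single_apply]
    split_ifs
    · exact hQ.one' _
    · exact hQ.zero' _
  · exact h s t

private theorem DF.yy (b : Fin 4 → Fin 3 → A) (h : ∀ i r, Q 1 (b i r)) (r j : Fin 3) :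
    Q 28 (yy b r j) := by
  have ha : ∀ i r, Q 2 (aa b i r) := fun i r => hQ.mul (h _ _) (h _ _)
  unfold Pool.Agent.PQ.yy
  refine hQ.neg (hQ.sum _ _ _ fun i _ => ?_)
  have h1 := hQ.adj (Matrix.of fun s : Fin 3 => aa b s.succ) 2 (fun _ _ => ha _ _) r i
  have h2 := hQ.m3 b 1 h i.succ
  have h3 := hQ.prod (Finset.univ.erase i.succ) (fun l => la b l) (3 * 2)
      fun l _ => hQ.m3 (aa b) 2 ha l
  rw [Finset.card_erase_of_mem (Finset.mem_univ _), Finset.card_univ, Fintype.card_fin] at h3
  exact hQ.mul (hQ.mul h1 (hQ.mul h2 h3)) (h i.succ j)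

private theorem DF.res (P : Polynomial A) (d : ℕ) (h : ∀ j, Q d (P.coeff j)) :
    Q (7 * d) (Polynomial.resultant P (Polynomial.derivative P) 4 3) := by
  unfold Polynomial.resultant
  refine hQ.det (n := 7) _ _ fun i j => ?_
  unfold Polynomial.sylvester
  rw [Matrix.of_apply]
  revert j
  change ∀ j : Fin (4 + 3), _
  intro j
  induction j using Fin.addCases with
  | left j =>
    rw [Fin.addCases_left]
    split_ifs with h1
    · rw [Polynomial.coeff_derivative, ← Nat.cast_succ]
      exact hQ.mul (h _) (hQ.cast _)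
    · exact hQ.zero' _
  | right j =>
    rw [Fin.addCases_right]
    split_ifs with h1
    · exact h _
    · exact hQ.zero' _

end DF

/-! ### induced sizes and degrees -/

/-- the induced size on polynomials -/
private noncomputable def ind {A : Type*} [CommRing A] (N : A → ℕ) (P : Polynomial A) : ℕ :=
  ∑ j ∈ P.support, N (P.coeff j)

private theorem ind_eq {A : Type*} [CommRing A] {N : A → ℕ} (h0 : N 0 = 0) (P : Polynomial A)
    (s : Finset ℕ) (hs : P.support ⊆ s) : ind N P = ∑ j ∈ s, N (P.coeff j) := by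
  refine Finset.sum_subset hs fun j _ hj => ?_
  rw [Polynomial.notMem_support_iff.1 hj, h0]

private theorem coeff_le_ind {A : Type*} [CommRing A] {N : A → ℕ} (h0 : N 0 = 0) (P : Polynomial A)
    (j : ℕ) : N (P.coeff j) ≤ ind N P := by
  by_cases hj : j ∈ P.support
  · exact Finset.single_le_sum (f := fun j => N (P.coeff j)) (fun _ _ => Nat.zero_le _) hj
  · rw [Polynomial.notMem_support_iff.1 hj, h0]
    exact Nat.zero_le _

private theorem ind_monomial {A : Type*} [CommRing A] {N : A → ℕ} (h0 : N 0 = 0) (j : ℕ) (a : A) :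
    ind N (Polynomial.monomial j a) = N a := by
  rw [ind_eq h0 _ {j} (Polynomial.support_monomial_subset j a), Finset.sum_singleton,
    Polynomial.coeff_monomial, if_pos rfl]

private theorem ind_add {A : Type*} [CommRing A] {N : A → ℕ} (hN : SN N) (P R : Polynomial A) :
    ind N (P + R) ≤ ind N P + ind N R := by
  classical
  rw [ind_eq hN.zero (P + R) (P.support ∪ R.support) Polynomial.support_add,
    ind_eq hN.zero P (P.support ∪ R.support) Finset.subset_union_left,
    ind_eq hN.zero R (P.support ∪ R.support) Finset.subset_union_right, ← Finset.sum_add_distrib]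
  refine Finset.sum_le_sum fun j _ => ?_
  rw [Polynomial.coeff_add]
  exact hN.add _ _

private theorem ind_zero {A : Type*} [CommRing A] (N : A → ℕ) : ind N 0 = 0 := by
  simp [ind]

private theorem ind_sum {A : Type*} [CommRing A] {N : A → ℕ} (hN : SN N) {ι : Type*} (s : Finset ι)
    (f : ι → Polynomial A) : ind N (∑ i ∈ s, f i) ≤ ∑ i ∈ s, ind N (f i) := by
  classical
  induction s using Finset.induction_on with
  | empty => simp [ind_zero]
  | insert i s hi ih =>
    rw [Finset.sum_insert hi, Finset.sum_insert hi]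
    exact (ind_add hN _ _).trans (Nat.add_le_add_left ih _)

private theorem ind_SN {A : Type*} [CommRing A] {N : A → ℕ} (hN : SN N) : SN (ind N) where
  zero := ind_zero N
  one := by
    rw [← Polynomial.monomial_zero_one, ind_monomial hN.zero]
    exact hN.one
  add := ind_add hN
  neg P := by
    unfold ind
    rw [Polynomial.support_neg]
    refine Finset.sum_congr rfl fun j _ => ?_
    rw [Polynomial.coeff_neg, hN.neg]
  mul P R := by
    have h1 : P * R = ∑ i ∈ P.support, ∑ j ∈ R.support,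
        Polynomial.monomial (i + j) (P.coeff i * R.coeff j) := by
      conv_lhs => rw [P.as_sum_support, R.as_sum_support, Finset.sum_mul_sum]
      refine Finset.sum_congr rfl fun i _ => Finset.sum_congr rfl fun j _ => ?_
      rw [Polynomial.monomial_mul_monomial]
    rw [h1]
    refine (ind_sum hN _ _).trans ?_
    unfold ind
    rw [Finset.sum_mul_sum]
    refine Finset.sum_le_sum fun i _ => ?_
    refine (ind_sum hN _ _).trans (Finset.sum_le_sum fun j _ => ?_)
    rw [ind_monomial hN.zero]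
    exact hN.mul _ _

private theorem ind_DF {A : Type*} [CommRing A] {Q : ℕ → A → Prop} (hQ : DF Q) :
    DF fun d (P : Polynomial A) => ∀ j, Q d (P.coeff j) where
  mono h hP j := hQ.mono h (hP j)
  zero j := hQ.zero
  one j := by
    rw [Polynomial.coeff_one]
    split_ifs
    · exact hQ.one
    · exact hQ.zero
  add hP hR j := by
    rw [Polynomial.coeff_add]
    exact hQ.add (hP j) (hR j)
  mul hP hR j := by
    rw [Polynomial.coeff_mul]
    exact hQ.sum _ _ _ fun x _ => hQ.mul (hP _) (hR _)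
  neg hP j := by
    rw [Polynomial.coeff_neg]
    exact hQ.neg (hP j)

private theorem l1_SN (σ : Type*) : SN (l1 : MvPolynomial σ ℤ → ℕ) where
  zero := by simp [l1]
  one := by
    rw [← C_1, l1_C]
    rfl
  add := l1_add
  mul := l1_mul
  neg := l1_neg

private theorem td_DF (σ : Type*) : DF fun d (p : MvPolynomial σ ℤ) => p.totalDegree ≤ d where
  mono h hp := hp.trans h
  zero := by simp
  one := by simp
  add hp hr := (totalDegree_add _ _).trans (max_le hp hr)
  mul hp hr := (totalDegree_mul _ _).trans (Nat.add_le_add hp hr)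
  neg hp := by
    rw [totalDegree_neg]
    exact hp

private theorem nd_DF (A : Type*) [CommRing A] : DF fun d (p : Polynomial A) => p.natDegree ≤ d where
  mono h hp := hp.trans h
  zero := by simp
  one := by simp
  add hp hr := (Polynomial.natDegree_add_le _ _).trans (max_le hp hr)
  mul hp hr := Polynomial.natDegree_mul_le.trans (Nat.add_le_add hp hr)
  neg hp := by
    rw [Polynomial.natDegree_neg]
    exact hp

/-! ### the quartic -/

private theorem dhC {R : Type*} [CommRing R] (a : R) :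
    dh (C a : P3 R) = Polynomial.C (Polynomial.C a) := by
  unfold dh
  rw [aeval_C]
  rfl

private theorem dhX {R : Type*} [CommRing R] (i : Fin 3) :
    dh (X i : P3 R) = ![Polynomial.C Polynomial.X, Polynomial.X, 1] i := by
  unfold dh
  rw [aeval_X]

private theorem SN.RQ {R : Type*} [CommRing R] {N : Polynomial (Polynomial R) → ℕ} (hN : SN N)
    (y : Fin 3 → Fin 3 → R) (B : ℕ) (hX : ∀ r, N (dh (X r : P3 R)) ≤ 1)
    (hy : ∀ r j, N (dh (C (y r j) : P3 R)) ≤ B) : N (dh (RQ y)) ≤ 9 * (3 * B) ^ 2 := by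
  have hl : ∀ r, N (dh (lin (y r))) ≤ 3 * B := by
    intro r
    unfold lin
    rw [map_sum]
    refine (hN.sum_le _ _ B fun j _ => ?_).trans (by simp)
    rw [map_mul]
    refine (hN.mul _ _).trans ?_
    exact (Nat.mul_le_mul (hy r j) (hX j)).trans (by rw [mul_one])
  have hA : ∀ r, N (dh (Ay y r)) ≤ 3 * B := by
    intro r
    unfold Ay
    rw [map_mul]
    exact (hN.mul _ _).trans ((Nat.mul_le_mul (hX r) (hl r)).trans (by rw [one_mul]))
  have hAA : ∀ r s, N (dh (Ay y r) * dh (Ay y s)) ≤ (3 * B) ^ 2 := fun r s =>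
    (hN.mul _ _).trans ((Nat.mul_le_mul (hA r) (hA s)).trans (by rw [sq]))
  have h2 : N 2 ≤ 2 := by
    have := hN.cast 2
    simpa using this
  unfold Pool.Agent.PQ.RQ
  rw [map_sub, map_add, map_add, map_mul, map_add, map_add, map_mul, map_mul, map_mul, map_pow, map_pow,
    map_pow, map_ofNat, sq, sq, sq, sub_eq_add_neg]
  refine (hN.add _ _).trans ?_
  rw [hN.neg]
  have e1 := hN.add (dh (Ay y 0) * dh (Ay y 0) + dh (Ay y 1) * dh (Ay y 1)) (dh (Ay y 2) * dh (Ay y 2))
  have e2 := hN.add (dh (Ay y 0) * dh (Ay y 0)) (dh (Ay y 1) * dh (Ay y 1))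
  have e3 := hN.add (dh (Ay y 0) * dh (Ay y 1) + dh (Ay y 1) * dh (Ay y 2)) (dh (Ay y 2) * dh (Ay y 0))
  have e4 := hN.add (dh (Ay y 0) * dh (Ay y 1)) (dh (Ay y 1) * dh (Ay y 2))
  have e5 := hN.mul 2 (dh (Ay y 0) * dh (Ay y 1) + dh (Ay y 1) * dh (Ay y 2) + dh (Ay y 2) * dh (Ay y 0))
  have e6 : N (dh (Ay y 0) * dh (Ay y 1) + dh (Ay y 1) * dh (Ay y 2) + dh (Ay y 2) * dh (Ay y 0)) ≤
      3 * (3 * B) ^ 2 := by
    have := hAA 0 1
    have := hAA 1 2
    have := hAA 2 0
    omega
  have e7 := e5.trans (Nat.mul_le_mul h2 e6)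
  have := hAA 0 0
  have := hAA 1 1
  have := hAA 2 2
  omega

private theorem DF.RQ {R : Type*} [CommRing R] {Q : ℕ → Polynomial (Polynomial R) → Prop} (hQ : DF Q)
    (y : Fin 3 → Fin 3 → R) (d e : ℕ) (hX : ∀ r, Q e (dh (X r : P3 R)))
    (hy : ∀ r j, Q d (dh (C (y r j) : P3 R))) : Q (2 * (d + 2 * e)) (dh (RQ y)) := by
  have hl : ∀ r, Q (d + e) (dh (lin (y r))) := by
    intro r
    unfold lin
    rw [map_sum]
    refine hQ.sum _ _ _ fun j _ => ?_
    rw [map_mul]
    exact hQ.mul (hy r j) (hX j)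
  have hA : ∀ r, Q (d + 2 * e) (dh (Ay y r)) := by
    intro r
    unfold Ay
    rw [map_mul]
    exact hQ.mono (by omega) (hQ.mul (hX r) (hl r))
  have hAA : ∀ r s, Q (2 * (d + 2 * e)) (dh (Ay y r) * dh (Ay y s)) := fun r s =>
    hQ.mono (by omega) (hQ.mul (hA r) (hA s))
  have h2 : Q 0 (2 : Polynomial (Polynomial R)) := by
    have := hQ.cast 2
    simpa using this
  unfold Pool.Agent.PQ.RQ
  rw [map_sub, map_add, map_add, map_mul, map_add, map_add, map_mul, map_mul, map_mul, map_pow, map_pow,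
    map_pow, map_ofNat, sq, sq, sq, sub_eq_add_neg]
  refine hQ.add (hQ.add (hQ.add (hAA _ _) (hAA _ _)) (hAA _ _)) (hQ.neg ?_)
  exact hQ.mono (by omega) (hQ.mul h2 (hQ.add (hQ.add (hAA _ _) (hAA _ _)) (hAA _ _)))

/-- the universal discriminant -/
noncomputable def dsu : Polynomial (MvPolynomial (Fin 3 × Fin 2) ℤ) :=
  ds (RB (bg fun i r => (MvPolynomial.X (i, r) : MvPolynomial (Fin 3 × Fin 2) ℤ)))

private theorem bg_l1 (i : Fin 4) (r : Fin 3) :
    l1 (bg (fun i r => (MvPolynomial.X (i, r) : MvPolynomial (Fin 3 × Fin 2) ℤ)) i r) ≤ 1 := by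
  unfold bg
  refine Fin.cases ?_ (fun i => ?_) i
  · exact (l1_SN _).one
  · refine Fin.cases ?_ (fun r => ?_) r
    · exact (l1_SN _).one
    · exact (l1_X _).le

private theorem bg_td (i : Fin 4) (r : Fin 3) :
    (bg (fun i r => (MvPolynomial.X (i, r) : MvPolynomial (Fin 3 × Fin 2) ℤ)) i r).totalDegree ≤ 1 := by
  unfold bg
  refine Fin.cases ?_ (fun i => ?_) i
  · exact (td_DF _).one' 1
  · refine Fin.cases ?_ (fun r => ?_) r
    · exact (td_DF _).one' 1
    · exact (totalDegree_X _).le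

theorem dsu_natDegree : dsu.natDegree ≤ 100 := by
  have hQ := nd_DF (MvPolynomial (Fin 3 × Fin 2) ℤ)
  have hQ' := ind_DF hQ
  unfold dsu ds
  refine (hQ.res _ 4 ?_).trans (by norm_num)
  refine hQ'.RQ _ 0 1 (fun r => ?_) (fun r j => ?_)
  · rw [dhX]
    fin_cases r
    · intro j
      change (Polynomial.coeff (Polynomial.C Polynomial.X :
        Polynomial (Polynomial (MvPolynomial (Fin 3 × Fin 2) ℤ))) j).natDegree ≤ 1
      rw [Polynomial.coeff_C]
      split_ifs
      · exact Polynomial.natDegree_X_le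
      · exact hQ.zero' 1
    · intro j
      change (Polynomial.coeff (Polynomial.X :
        Polynomial (Polynomial (MvPolynomial (Fin 3 × Fin 2) ℤ))) j).natDegree ≤ 1
      rw [Polynomial.coeff_X]
      split_ifs
      · exact hQ.one' 1
      · exact hQ.zero' 1
    · exact hQ'.one' 1
  · intro i
    rw [dhC, Polynomial.coeff_C]
    split_ifs
    · exact (Polynomial.natDegree_C _).le
    · exact hQ.zero

theorem dsu_totalDegree (j : ℕ) : (dsu.coeff j).totalDegree ≤ 1000 := by
  have hQ := td_DF (Fin 3 × Fin 2)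
  have hQ' := ind_DF hQ
  have hQ'' := ind_DF hQ'
  unfold dsu ds
  refine (hQ'.res _ 56 ?_ j).trans (by norm_num)
  refine hQ''.RQ _ 28 0 (fun r => ?_) (fun r j => ?_)
  · rw [dhX]
    fin_cases r
    · intro j i
      change ((Polynomial.coeff (Polynomial.C Polynomial.X :
        Polynomial (Polynomial (MvPolynomial (Fin 3 × Fin 2) ℤ))) j).coeff i).totalDegree ≤ 0
      rw [Polynomial.coeff_C]
      split_ifs
      · rw [Polynomial.coeff_X]
        split_ifs
        · exact hQ.one
        · exact hQ.zero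
      · exact hQ.zero
    · intro j i
      change ((Polynomial.coeff (Polynomial.X :
        Polynomial (Polynomial (MvPolynomial (Fin 3 × Fin 2) ℤ))) j).coeff i).totalDegree ≤ 0
      rw [Polynomial.coeff_X]
      split_ifs
      · exact hQ'.one i
      · exact hQ.zero
    · exact hQ''.one
  · intro i k
    rw [dhC, Polynomial.coeff_C]
    split_ifs
    · rw [Polynomial.coeff_C]
      split_ifs
      · exact hQ.yy _ bg_td r j
      · exact hQ.zero' _
    · exact hQ.zero' _

theorem dsu_l1 (j : ℕ) : l1 (dsu.coeff j) ≤ 2 ^ 400 := by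
  have hN := l1_SN (Fin 3 × Fin 2)
  have hN' := ind_SN hN
  have hN'' := ind_SN hN'
  refine (coeff_le_ind hN.zero dsu j).trans ?_
  unfold dsu ds
  refine (hN'.res _ (9 * (3 * 23328) ^ 2) fun i => ?_).trans (by
    rw [show (2 : ℕ) ^ 400 = 2 ^ 200 * 2 ^ 200 from by rw [← pow_add]]
    norm_num [Nat.factorial])
  refine (coeff_le_ind hN'.zero _ i).trans ?_
  refine hN''.RQ _ 23328 (fun r => ?_) (fun r j => ?_)
  · rw [dhX]
    fin_cases r
    · change ind (ind l1) (Polynomial.C Polynomial.X) ≤ 1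
      rw [← Polynomial.monomial_zero_left, ind_monomial hN'.zero, ← Polynomial.monomial_one_one_eq_X,
        ind_monomial hN.zero]
      exact hN.one
    · change ind (ind l1) Polynomial.X ≤ 1
      rw [← Polynomial.monomial_one_one_eq_X, ind_monomial hN'.zero]
      exact hN'.one
    · exact hN''.one
  · rw [dhC, ← Polynomial.monomial_zero_left, ind_monomial hN'.zero, ← Polynomial.monomial_zero_left,
      ind_monomial hN.zero]
    exact (hN.yy _ bg_l1 r j).trans (by norm_num)

end Pool.Agent.PQ
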