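import Pool.Agent.PQ.EXI
import Pool.Agent.PQ.HTB
import Pool.Agent.PQ.RSA
import Pool.Agent.PQ.RSB
import Pool.Agent.PQ.RSD
import Pool.Agent.PQ.ELM
import Pool.Agent.PQ.BRL
import Pool.Agent.PQ.GNR
import Pool.Agent.PQ.PRX
import Pool.Agent.ESH.BLP

/-!
# PQ / FIN: the final theorem
-/

namespace Pool.Agent.PQ

open MvPolynomial NumberField IsDedekindDomain ESH

private theorem fin_bg {k : Type*} [Field k] (b : Fin 4 → Fin 3 → k) (hb : ND b) :
    b = bg fun i r => b i.succ r.succ := by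
  funext i r
  refine Fin.cases ?_ (fun i => ?_) i
  · exact hb.zero r
  · refine Fin.cases ?_ (fun r => ?_) r
    · exact hb.col _
    · rfl

private theorem fin_map {C : Type*} [Field C] (b : Fin 4 → Fin 3 → C) (hb : ND b) :
    dsu.map (aeval (fun x : Fin 3 × Fin 2 => b x.1.succ x.2.succ) :
      MvPolynomial (Fin 3 × Fin 2) ℤ →ₐ[ℤ] C).toRingHom = ds (RB b) := by
  rw [dsu, ← ds_map, map_RB, map_bg]
  congr 2
  conv_rhs => rw [fin_bg b hb]
  congr 1
  funext i r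
  simp

private theorem fin_two (m : ℕ) (hm : 10 ≤ m) : m * m + m ≤ 2 ^ m := by
  induction m, hm using Nat.le_induction with
  | base => norm_num
  | succ m hm ih =>
    rw [pow_succ]
    nlinarith

private theorem fin_one {s : ℕ} (hs : 16 ≤ s) : 65536 ≤ tw 1 s := by
  have h3 : tw 1 16 ≤ tw 1 s := tw_mono le_rfl hs
  refine le_trans ?_ h3
  rw [show (1 : ℕ) = 0 + 1 from rfl, tw_succ, tw_zero]
  norm_num

private theorem fin_num (s m : ℕ) (h1 : s ≤ m) (h2 : 65536 ≤ m) : s + 2 + 42 ^ 5 ≤ 2 ^ m := by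
  have h3 := fin_two m (by omega)
  have h4 : 2 + 42 ^ 5 ≤ m * m := by nlinarith
  omega

private theorem fin_big {s c : ℕ} (hs : 16 ≤ s) (hc : 2 ≤ c) : 2 ^ 400 ≤ tw c s := by
  have h1 : tw 2 s ≤ tw c s := tw_mono hc le_rfl
  refine le_trans ?_ h1
  rw [show (2 : ℕ) = 1 + 1 from rfl, tw_succ]
  have h2 := fin_one hs
  generalize tw 1 s = m at h2
  exact Nat.pow_le_pow_right (by decide) (by omega)

private theorem fin_s {s : ℕ} (hs : 16 ≤ s) : s + 2 + 42 ^ 5 ≤ tw 2 s := by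
  have h1 := le_tw 1 s
  have h2 := fin_one hs
  rw [show tw 2 s = 2 ^ tw 1 s from tw_succ 1 s]
  generalize tw 1 s = m at h1 h2 ⊢
  exact fin_num s m h1 h2

private theorem fin_small {n X : ℕ} (h : 2 ^ 400 ≤ X) (hn : n ≤ 1000) : n ≤ X := by
  refine hn.trans (le_trans ?_ h)
  exact le_trans (by norm_num : 1000 ≤ 2 ^ 10) (Nat.pow_le_pow_right (by norm_num) (by norm_num))

private theorem fin_tw (a b s D : ℕ) (h : D ≤ tw b s) : tw a D ≤ tw (a + b) s := by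
  rw [← tw_comp]
  exact tw_mono le_rfl h

theorem fin {K C Φ : Type*} [Field K] [NumberField K] [Field C] [Algebra K C] [Algebra.IsAlgebraic K C]
    [IsAlgClosed C] [Field Φ] [Algebra C Φ] [Helper11.FunField C Φ]
    (T : Finset (HeightOneSpectrum (𝓞 K))) (F : MvPolynomial (Fin 3) K) (hF : F.IsHomogeneous 4)
    (hS : SF F) (hT : GoodOut T F) (ξ : Fin 3 → Φ) (hξ : ξ ≠ 0)
    (h0 : eval₂ ((algebraMap C Φ).comp (algebraMap K C)) ξ F = 0)
    (hgen : IntermediateField.adjoin C {z : Φ | ∃ i j, z = ξ i / ξ j} = ⊤) :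
    ∃ β : Φ, IsBelyi C β ∧
      Module.finrank (IntermediateField.adjoin C {β}) Φ ≤ tw 130 (szK K T) := by
  have hcz : CharZero C := charZero_of_injective_algebraMap (algebraMap K C).injective
  obtain ⟨h, c, b, hh, hc, hb, hE⟩ := exi (map (algebraMap K C) F) (hF.map _) (hS.map _)
  set s : ℕ := szK K T with hsdef
  have hs : 16 ≤ s := by
    rw [hsdef, szK]
    omega
  have hs' : s + 2 + 42 ^ 5 ≤ tw 2 s := fin_s hs
  have hP : ∀ x : Fin 3 × Fin 2, ∃ P : Polynomial ℤ, P ≠ 0 ∧ P.natDegree ≤ tw 92 s ∧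
      Polynomial.aeval (b x.1.succ x.2.succ) P = 0 ∧ ∀ j, |P.coeff j| ≤ (tw 92 s : ℤ) := by
    intro x
    obtain ⟨P, h1, h2, h3, h4⟩ := htb T F hF hS hT h hh c hc b hb hE x.1.succ x.2.succ
      (Fin.succ_ne_zero _) (Fin.succ_ne_zero _)
    refine ⟨P, h1, ?_, h3, fun j => ?_⟩
    · exact h2.trans ((fin_tw 5 2 s _ hs').trans (tw_mono (by norm_num) le_rfl))
    · exact (h4 j).trans (Int.ofNat_le.2 (fin_tw 90 2 s _ hs'))
  choose P hP1 hP2 hP3 hP4 using hP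
  have hNSC : NS (map (algebraMap K C) F) := (hS.map _).ns
  have hNS : NS (RB b) := by
    have h1 := ns_sb hh hNSC
    rw [hE] at h1
    intro p hp hp0
    obtain ⟨i, hi⟩ := h1 p hp (by rw [map_mul, hp0, mul_zero])
    refine ⟨i, fun h2 => hi ?_⟩
    rw [pderiv_C_mul, map_mul, h2, mul_zero]
  have hRh : (RB b).IsHomogeneous 4 := RQ_hom _
  have he : eval (Pi.single 1 1) (RB b) ≠ 0 := by
    rw [RB, eval_RQ_single]
    exact pow_ne_zero _ (prx_diag _ hNS 1)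
  have h2400 := fin_big (c := 92) hs (by norm_num)
  obtain ⟨N, hN0, hNd, hNc, hNr⟩ := elm (fun x : Fin 3 × Fin 2 => b x.1.succ x.2.succ) P s 92
    (tw 92 s) (tw 92 s) 100 1000 (2 ^ 400) hs le_rfl le_rfl
    (fin_small h2400 (by norm_num)) (fin_small h2400 (by norm_num)) h2400
    (fin_small h2400 (by simp)) hP1 hP2 hP4 hP3 dsu dsu_natDegree dsu_totalDegree dsu_l1
    (by rw [fin_map b hb]; exact rsb _ hRh hNS he)
  rw [fin_map b hb] at hNr
  obtain ⟨ζ, hζ, hζ0, hζg⟩ := gnr_sb (map (algebraMap K C) F) h hh ξ hξ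
    (by rw [eval₂_map]; exact h0) hgen
  have hζ1 : eval₂ (algebraMap C Φ) ζ (RB b) = 0 := by
    rw [hE, eval₂_mul, eval₂_C] at hζ0
    rcases mul_eq_zero.1 hζ0 with h3 | h3
    · exact absurd ((map_eq_zero _).1 h3) hc
    · exact h3
  obtain ⟨-, hxy, hxg, hxt, hxf⟩ := gnr (RB b) hRh he ζ hζ hζ1 hζg
  obtain ⟨β, hβ, hβd⟩ := blp (ζ 0 / ζ 2) hxt N hN0 (tw 102 s) (tw 102 s) hNd hNc (fun c' hc' => by
    obtain ⟨y0, hy1, hy2⟩ := brl (RB b) hRh he _ _ hxy hxg c' hc'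
    exact hNr c' (rsa (RB b) hRh c' y0 hy1 hy2))
  refine ⟨β, hβ, hβd.trans ?_⟩
  have h4 : tw 102 s + tw 102 s + 16 ≤ tw 104 s := by
    have h5 := tw_add hs (le_refl (tw 102 s)) (le_refl (tw 102 s))
    have h6 : 16 ≤ tw 103 s := hs.trans (le_tw 103 s)
    exact tw_add hs h5 h6
  have h7 : tw 20 (tw 102 s + tw 102 s + 16) ≤ tw 124 s := fin_tw 20 104 s _ h4
  have h8 : (4 : ℕ) ≤ tw 124 s := le_trans (by omega) (le_tw 124 s)
  have h9 := tw_mul hs (hxf.trans h8) h7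
  exact h9.trans (tw_mono (by norm_num) le_rfl)

end Pool.Agent.PQ
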