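import Pool.Agent.PQ.LNF
import Pool.Agent.PQ.DVL

/-!
# PQ / QFP

Ternary quadratic forms.  `dq` is `1/2` of the determinant of the matrix with entries `2 q_ii`, `q_ij`.
`dq_mul`: `cf (lin m * lin m')`: `m i * m' i` and `m i * m' j + m j * m' i`; `ring`.
`qfp`: the symmetric matrix `B` with `B i i = 2 q_ii`, `B i j = q_ij` has `det B = 2 * dq q = 0`, so there is `p ≠ 0` with `B *ᵥ p = 0`, i.e.
`q (x + t p) = q x` for all `x`, `t`.  Choose an invertible matrix `g` with last column `p`; `sb g q` is homogeneous of degree 2 and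
independent of `X 2`, i.e. `= α X0² + β X0 X1 + γ X1²`, a product of two linear forms (`α ≠ 0`: roots of `α T² + β T + γ`; `α = 0`:
`X1 (β X0 + γ X1)`).  Apply `sb g⁻¹`.
`two_lines`: if no `w ≠ 0` has `lin w ∣ q`, trivial.  Otherwise `q = lin w1 * lin w2` (`dvl_hom`, the quotient is homogeneous of degree 1, so
it is `lin w2`).  If `lin w ∣ lin w1 * lin w2`, then on the plane `{p | w ⬝ p = 0}` (dimension 2, field infinite) the product
`(w1 ⬝ p)(w2 ⬝ p)` vanishes, so one of `w1, w2` vanishes on it (a plane is not the union of two lines), hence is a multiple of `w`;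
`w1, w2 ≠ 0` since `q ≠ 0`.
-/

namespace Pool.Agent.PQ

open MvPolynomial Matrix

/-- coefficient of `X i * X j` -/
noncomputable def cf {R : Type*} [CommRing R] (q : P3 R) (i j : Fin 3) : R :=
  coeff (Finsupp.single i 1 + Finsupp.single j 1) q

/-- discriminant of a ternary quadratic form -/
noncomputable def dq {R : Type*} [CommRing R] (q : P3 R) : R :=
  4 * cf q 0 0 * cf q 1 1 * cf q 2 2 + cf q 0 1 * cf q 0 2 * cf q 1 2 - cf q 0 0 * cf q 1 2 ^ 2 -
    cf q 1 1 * cf q 0 2 ^ 2 - cf q 2 2 * cf q 0 1 ^ 2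

private theorem QFP_coeff {R : Type*} [CommRing R] (c : Fin 3 → Fin 3 → R) (i j : Fin 3) :
    cf (∑ a, ∑ b, C (c a b) * (X a * X b)) i j = if i = j then c i i else c i j + c j i := by
  have h : ∀ a b : Fin 3, coeff (Finsupp.single i 1 + Finsupp.single j 1) (C (c a b) * (X a * X b) : P3 R) =
      if (a = i ∧ b = j) ∨ (a = j ∧ b = i) then c a b else 0 := by
    intro a b
    have h1 : (X a * X b : P3 R) = monomial (Finsupp.single a 1 + Finsupp.single b 1) 1 := by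
      rw [X, X, monomial_mul, one_mul]
    have h0 := Finsupp.single_add_single_eq_single_add_single (k := a) (l := b) (m := i) (n := j)
      (one_ne_zero : (1 : ℕ) ≠ 0) (one_ne_zero : (1 : ℕ) ≠ 0)
    rw [h1, coeff_C_mul, coeff_monomial]
    by_cases h2 : (a = i ∧ b = j) ∨ (a = j ∧ b = i)
    · rw [if_pos h2, if_pos, mul_one]
      rw [h0]
      rcases h2 with h2 | h2
      · exact Or.inl h2
      · exact Or.inr (Or.inl ⟨rfl, h2⟩)
    · rw [if_neg h2, if_neg, mul_zero]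
      rw [h0]
      rintro (h3 | h3 | h3)
      · exact h2 (Or.inl h3)
      · exact h2 (Or.inr h3.2)
      · exact absurd h3.1 (by norm_num)
  rw [cf, coeff_sum]
  simp only [coeff_sum, h]
  fin_cases i <;> fin_cases j <;> simp [Fin.sum_univ_three] <;> ring

private theorem QFP_lin_mul {R : Type*} [CommRing R] (m m' : Fin 3 → R) :
    lin m * lin m' = ∑ a, ∑ b, C (m a * m' b) * (X a * X b) := by
  rw [lin, lin, Finset.sum_mul]
  refine Finset.sum_congr rfl fun a _ => ?_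
  rw [Finset.mul_sum]
  refine Finset.sum_congr rfl fun b _ => ?_
  rw [map_mul]
  ring

theorem dq_mul {R : Type*} [CommRing R] (m m' : Fin 3 → R) : dq (lin m * lin m') = 0 := by
  rw [QFP_lin_mul, dq]
  simp only [QFP_coeff]
  simp
  ring

theorem hom_one {R : Type*} [CommRing R] (P : P3 R) (hP : P.IsHomogeneous 1) : ∃ w : Fin 3 → R, P = lin w := by
  have h1 : P ∈ homogeneousSubmodule (Fin 3) R 1 := hP
  rw [homogeneousSubmodule_one_eq_span_X, Submodule.mem_span_range_iff_exists_fun] at h1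
  obtain ⟨c, hc⟩ := h1
  refine ⟨c, ?_⟩
  rw [← hc, lin]
  exact Finset.sum_congr rfl fun i _ => by rw [smul_eq_C_mul]

open scoped Pointwise in
private theorem QFP_exp {R : Type*} [CommRing R] (q : P3 R) (hq : q.IsHomogeneous 2) :
    ∃ c : Fin 3 → Fin 3 → R, q = ∑ a, ∑ b, C (c a b) * (X a * X b) := by
  have h1 : q ∈ homogeneousSubmodule (Fin 3) R 2 := hq
  rw [← homogeneousSubmodule_one_pow, pow_two, homogeneousSubmodule_one_eq_span_X, Submodule.span_mul_span] at h1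
  have h2 : Set.range (X : Fin 3 → P3 R) * Set.range (X : Fin 3 → P3 R) =
      Set.range (fun ab : Fin 3 × Fin 3 => (X ab.1 * X ab.2 : P3 R)) := by
    ext p
    rw [Set.mem_mul]
    constructor
    · rintro ⟨_, ⟨a, rfl⟩, _, ⟨b, rfl⟩, rfl⟩
      exact ⟨(a, b), rfl⟩
    · rintro ⟨ab, rfl⟩
      exact ⟨_, ⟨ab.1, rfl⟩, _, ⟨ab.2, rfl⟩, rfl⟩
  rw [h2, Submodule.mem_span_range_iff_exists_fun] at h1
  obtain ⟨c, hc⟩ := h1
  refine ⟨fun a b => c (a, b), ?_⟩
  rw [← hc, Fintype.sum_prod_type]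
  refine Finset.sum_congr rfl fun a _ => Finset.sum_congr rfl fun b _ => ?_
  rw [smul_eq_C_mul]

private theorem QFP_eval {R : Type*} [CommRing R] (q : P3 R) (hq : q.IsHomogeneous 2) (x : Fin 3 → R) :
    eval x q = cf q 0 0 * x 0 ^ 2 + cf q 1 1 * x 1 ^ 2 + cf q 2 2 * x 2 ^ 2 + cf q 0 1 * (x 0 * x 1) +
      cf q 0 2 * (x 0 * x 2) + cf q 1 2 * (x 1 * x 2) := by
  obtain ⟨c, rfl⟩ := QFP_exp q hq
  simp only [QFP_coeff]
  simp only [map_sum, map_mul, eval_C, eval_X, Fin.sum_univ_three]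
  simp
  ring

private theorem QFP_bin {k : Type*} [Field k] [IsAlgClosed k] (h2 : (2 : k) ≠ 0) (a d b : k) :
    ∃ α β γ δ : k, a = α * γ ∧ d = α * δ + β * γ ∧ b = β * δ := by
  by_cases ha : a = 0
  · refine ⟨0, 1, d, b, by rw [ha, zero_mul], by ring, by ring⟩
  · obtain ⟨s, hs⟩ := IsAlgClosed.exists_pow_nat_eq (d ^ 2 - 4 * a * b) (n := 2) (by norm_num)
    obtain ⟨r, hr⟩ : ∃ r, r = (-d + s) / (2 * a) := ⟨_, rfl⟩
    have hr' : 2 * a * r = -d + s := by
      rw [hr]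
      field_simp
    have h0 : a * r ^ 2 + d * r + b = 0 := by
      have h3 : (4 * a) * (a * r ^ 2 + d * r + b) = 0 := by
        linear_combination (2 * a * r + d + s) * hr' + hs
      have h4 : (4 * a : k) ≠ 0 := by
        have : (4 : k) = 2 * 2 := by norm_num
        rw [this]
        exact mul_ne_zero (mul_ne_zero h2 h2) ha
      exact (mul_eq_zero.1 h3).resolve_left h4
    refine ⟨1, -r, a, a * r + d, by ring, by ring, ?_⟩
    linear_combination h0

private theorem QFP_num {k : Type*} [Field k] [IsAlgClosed k] (h2 : (2 : k) ≠ 0) (a b c d e f p0 p1 p2 : k)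
    (e0 : 2 * a * p0 + d * p1 + e * p2 = 0) (e1 : d * p0 + 2 * b * p1 + f * p2 = 0)
    (e2 : e * p0 + f * p1 + 2 * c * p2 = 0) (hp : p2 ≠ 0) :
    ∃ m0 m1 m2 n0 n1 n2 : k, ∀ x0 x1 x2 : k,
      a * x0 ^ 2 + b * x1 ^ 2 + c * x2 ^ 2 + d * (x0 * x1) + e * (x0 * x2) + f * (x1 * x2) =
        (m0 * x0 + m1 * x1 + m2 * x2) * (n0 * x0 + n1 * x1 + n2 * x2) := by
  obtain ⟨α, β, γ, δ, g1, g2, g3⟩ := QFP_bin h2 a d b
  obtain ⟨u, hu⟩ : ∃ u, u = p0 / p2 := ⟨_, rfl⟩
  obtain ⟨v, hv⟩ : ∃ v, v = p1 / p2 := ⟨_, rfl⟩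
  have hu' : p0 = u * p2 := by rw [hu]; field_simp
  have hv' : p1 = v * p2 := by rw [hv]; field_simp
  have e0' : 2 * a * u + d * v + e = 0 := by
    have : (2 * a * u + d * v + e) * p2 = 0 := by rw [← e0, hu', hv']; ring
    exact (mul_eq_zero.1 this).resolve_right hp
  have e1' : d * u + 2 * b * v + f = 0 := by
    have : (d * u + 2 * b * v + f) * p2 = 0 := by rw [← e1, hu', hv']; ring
    exact (mul_eq_zero.1 this).resolve_right hp
  have e2' : e * u + f * v + 2 * c = 0 := by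
    have : (e * u + f * v + 2 * c) * p2 = 0 := by rw [← e2, hu', hv']; ring
    exact (mul_eq_zero.1 this).resolve_right hp
  refine ⟨α, β, -(α * u + β * v), γ, δ, -(γ * u + δ * v), fun x0 x1 x2 => ?_⟩
  have h3 : 2 * (a * x0 ^ 2 + b * x1 ^ 2 + c * x2 ^ 2 + d * (x0 * x1) + e * (x0 * x2) + f * (x1 * x2)) =
        2 * ((α * x0 + β * x1 + -(α * u + β * v) * x2) * (γ * x0 + δ * x1 + -(γ * u + δ * v) * x2)) := by
    have h4 : (α * x0 + β * x1 + -(α * u + β * v) * x2) * (γ * x0 + δ * x1 + -(γ * u + δ * v) * x2) =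
      a * (x0 - u * x2) ^ 2 + d * ((x0 - u * x2) * (x1 - v * x2)) + b * (x1 - v * x2) ^ 2 := by
      rw [g1, g2, g3]
      ring
    rw [h4]
    linear_combination (2 * x0 * x2 - u * x2 ^ 2) * e0' + (2 * x1 * x2 - v * x2 ^ 2) * e1' + x2 ^ 2 * e2'
  exact mul_left_cancel₀ h2 h3

theorem qfp {k : Type*} [Field k] [IsAlgClosed k] (h2 : (2 : k) ≠ 0) (q : P3 k) (hq : q.IsHomogeneous 2)
    (hd : dq q = 0) : ∃ m m' : Fin 3 → k, q = lin m * lin m' := by
  obtain ⟨a, ha⟩ : ∃ a, a = cf q 0 0 := ⟨_, rfl⟩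
  obtain ⟨b, hb⟩ : ∃ a, a = cf q 1 1 := ⟨_, rfl⟩
  obtain ⟨c, hc⟩ : ∃ a, a = cf q 2 2 := ⟨_, rfl⟩
  obtain ⟨d, hd'⟩ : ∃ a, a = cf q 0 1 := ⟨_, rfl⟩
  obtain ⟨e, he⟩ : ∃ a, a = cf q 0 2 := ⟨_, rfl⟩
  obtain ⟨f, hf⟩ : ∃ a, a = cf q 1 2 := ⟨_, rfl⟩
  have hev := QFP_eval q hq
  rw [dq] at hd
  rw [← ha, ← hb, ← hc, ← hd', ← he, ← hf] at hd hev
  have hdet : (!![2 * a, d, e; d, 2 * b, f; e, f, 2 * c] : Matrix (Fin 3) (Fin 3) k).det = 0 := by
    rw [Matrix.det_fin_three]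
    simp
    linear_combination 2 * hd
  obtain ⟨p, hp, hBp⟩ := Matrix.exists_mulVec_eq_zero_iff.2 hdet
  have e0 : 2 * a * p 0 + d * p 1 + e * p 2 = 0 := by
    have := congrFun hBp 0
    simpa [Matrix.mulVec, dotProduct, Fin.sum_univ_three] using this
  have e1 : d * p 0 + 2 * b * p 1 + f * p 2 = 0 := by
    have := congrFun hBp 1
    simpa [Matrix.mulVec, dotProduct, Fin.sum_univ_three] using this
  have e2 : e * p 0 + f * p 1 + 2 * c * p 2 = 0 := by
    have := congrFun hBp 2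
    simpa [Matrix.mulVec, dotProduct, Fin.sum_univ_three] using this
  have key : ∃ m0 m1 m2 n0 n1 n2 : k, ∀ x0 x1 x2 : k,
      a * x0 ^ 2 + b * x1 ^ 2 + c * x2 ^ 2 + d * (x0 * x1) + e * (x0 * x2) + f * (x1 * x2) =
        (m0 * x0 + m1 * x1 + m2 * x2) * (n0 * x0 + n1 * x1 + n2 * x2) := by
    by_cases h : p 2 = 0
    · by_cases h' : p 1 = 0
      · have h'' : p 0 ≠ 0 := by
          intro h0
          apply hp
          ext i
          fin_cases i
          · exact h0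
          · exact h'
          · exact h
        obtain ⟨m2, m1, m0, n2, n1, n0, H⟩ := QFP_num h2 c b a f e d (p 2) (p 1) (p 0)
          (by linear_combination e2) (by linear_combination e1) (by linear_combination e0) h''
        refine ⟨m0, m1, m2, n0, n1, n2, fun x0 x1 x2 => ?_⟩
        linear_combination H x2 x1 x0
      · obtain ⟨m0, m2, m1, n0, n2, n1, H⟩ := QFP_num h2 a c b e d f (p 0) (p 2) (p 1)
          (by linear_combination e0) (by linear_combination e2) (by linear_combination e1) h'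
        refine ⟨m0, m1, m2, n0, n1, n2, fun x0 x1 x2 => ?_⟩
        linear_combination H x0 x2 x1
    · exact QFP_num h2 a b c d e f (p 0) (p 1) (p 2) e0 e1 e2 h
  obtain ⟨m0, m1, m2, n0, n1, n2, H⟩ := key
  refine ⟨![m0, m1, m2], ![n0, n1, n2], ?_⟩
  have : Infinite k := IsAlgClosed.instInfinite
  apply MvPolynomial.funext
  intro x
  rw [hev, H, map_mul, eval_lin, eval_lin]
  simp [dotProduct, Fin.sum_univ_three]

/-- a vector vanishing on a plane -/
private theorem QFP_plane {k : Type*} [Field k] (w w' : Fin 3 → k) (hw : w ≠ 0) (hw' : w' ≠ 0)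
    (h : ∀ p, w ⬝ᵥ p = 0 → w' ⬝ᵥ p = 0) : ∃ c : k, c ≠ 0 ∧ w = c • w' := by
  obtain ⟨j, hj⟩ : ∃ j, w j ≠ 0 := by
    by_contra hc
    push Not at hc
    exact hw (_root_.funext hc)
  have h1 : ∀ l, w j * w' l = w l * w' j := by
    intro l
    have h2 := h (w j • Pi.single l 1 - w l • Pi.single j 1) (by
      rw [dotProduct_sub, dotProduct_smul, dotProduct_smul, dotProduct_single_one, dotProduct_single_one,
        smul_eq_mul, smul_eq_mul]
      ring)
    rw [dotProduct_sub, dotProduct_smul, dotProduct_smul, dotProduct_single_one, dotProduct_single_one,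
        smul_eq_mul, smul_eq_mul] at h2
    linear_combination h2
  have h3 : w' j ≠ 0 := by
    intro h0
    apply hw'
    ext l
    have := h1 l
    rw [h0, mul_zero] at this
    exact (mul_eq_zero.1 this).resolve_left hj
  refine ⟨w j / w' j, div_ne_zero hj h3, ?_⟩
  ext l
  rw [Pi.smul_apply, smul_eq_mul, div_mul_eq_mul_div, h1 l, mul_div_assoc, div_self h3, mul_one]

theorem two_lines {k : Type*} [Field k] [Infinite k] (q : P3 k) (hq : q.IsHomogeneous 2) (h0 : q ≠ 0) :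
    ∃ w1 w2 : Fin 3 → k, ∀ w : Fin 3 → k, w ≠ 0 → lin w ∣ q →
      (∃ c : k, c ≠ 0 ∧ w = c • w1) ∨ ∃ c : k, c ≠ 0 ∧ w = c • w2 := by
  by_cases hex : ∃ w1 : Fin 3 → k, lin w1 ∣ q
  · obtain ⟨w1, hw1⟩ := hex
    obtain ⟨T, hT, hqT⟩ := dvl_hom w1 q 1 hq hw1
    obtain ⟨w2, rfl⟩ := hom_one T hT
    have hw10 : w1 ≠ 0 := by
      rintro rfl
      rw [lin_zero, zero_mul] at hqT
      exact h0 hqT
    have hw20 : w2 ≠ 0 := by
      rintro rfl
      rw [lin_zero, mul_zero] at hqT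
      exact h0 hqT
    refine ⟨w1, w2, fun w hw hd => ?_⟩
    obtain ⟨S, hS⟩ := hd
    have h1 : ∀ p, w ⬝ᵥ p = 0 → (w1 ⬝ᵥ p) * (w2 ⬝ᵥ p) = 0 := by
      intro p hp
      have h2 := congrArg (eval p) hS
      rw [hqT, map_mul, map_mul, eval_lin, eval_lin, eval_lin, hp, zero_mul] at h2
      exact h2
    by_cases h2 : ∀ p, w ⬝ᵥ p = 0 → w1 ⬝ᵥ p = 0
    · exact Or.inl (QFP_plane w w1 hw hw10 h2)
    by_cases h3 : ∀ p, w ⬝ᵥ p = 0 → w2 ⬝ᵥ p = 0
    · exact Or.inr (QFP_plane w w2 hw hw20 h3)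
    exfalso
    push Not at h2 h3
    obtain ⟨p1, a1, a2⟩ := h2
    obtain ⟨p2, b1, b2⟩ := h3
    have a3 := (mul_eq_zero.1 (h1 p1 a1)).resolve_left a2
    have b3 := (mul_eq_zero.1 (h1 p2 b1)).resolve_right b2
    have h4 := h1 (p1 + p2) (by rw [dotProduct_add, a1, b1, add_zero])
    rw [dotProduct_add, dotProduct_add, a3, b3, add_zero, zero_add] at h4
    exact (mul_ne_zero a2 b2) h4
  · push Not at hex
    exact ⟨0, 0, fun w _ hd => absurd hd (hex w)⟩

end Pool.Agent.PQ
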