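import Pool.Agent.PQ.LNF
import Pool.Agent.PQ.MPB

/-!
# PQ / DHO

Dehomogenisation `X 0 ↦ x` (inner variable), `X 1 ↦ y` (outer variable), `X 2 ↦ 1`.  All by `MvPolynomial` induction / expansion in
monomials (`eval` of `aeval`).  `dh_deg`: monomials of `F` have degree at most 4 in `X 1`; `dh_coeff`: only the monomial `X 1 ^ 4` contributes.
`dh_der`: both sides are derivations, check on the variables.
-/

namespace Pool.Agent.PQ

open MvPolynomial Matrix

/-- dehomogenisation, as a polynomial in `y` with coefficients polynomials in `x` -/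
noncomputable def dh {R : Type*} [CommRing R] : P3 R →ₐ[R] Polynomial (Polynomial R) :=
  aeval ![Polynomial.C Polynomial.X, Polynomial.X, 1]

/-- discriminant of the projection -/
noncomputable def ds {R : Type*} [CommRing R] (F : P3 R) : Polynomial R :=
  Polynomial.resultant (dh F) (Polynomial.derivative (dh F)) 4 3

private theorem dh_C {R : Type*} [CommRing R] (a : R) :
    dh (C a : P3 R) = Polynomial.C (Polynomial.C a) := by
  unfold dh
  rw [aeval_C]
  rfl

private theorem dh_X {R : Type*} [CommRing R] (i : Fin 3) :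
    dh (X i : P3 R) = ![Polynomial.C Polynomial.X, Polynomial.X, 1] i := by
  unfold dh
  rw [aeval_X]

theorem dh_eval {R : Type*} [CommRing R] (F : P3 R) (x y : R) :
    Polynomial.eval x (Polynomial.eval (Polynomial.C y) (dh F)) = eval ![x, y, 1] F := by
  have : ((Polynomial.evalRingHom x).comp (Polynomial.evalRingHom (Polynomial.C y))).comp
      (dh : P3 R →ₐ[R] Polynomial (Polynomial R)).toRingHom = eval ![x, y, 1] := by
    refine ringHom_ext (fun r => ?_) fun i => ?_
    · rw [eval_C, RingHom.comp_apply, RingHom.comp_apply]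
      change Polynomial.eval x (Polynomial.eval (Polynomial.C y) (dh (C r))) = r
      rw [dh_C, Polynomial.eval_C, Polynomial.eval_C]
    · rw [eval_X, RingHom.comp_apply, RingHom.comp_apply]
      change Polynomial.eval x (Polynomial.eval (Polynomial.C y) (dh (X i))) = _
      rw [dh_X]
      fin_cases i <;> simp
  exact congrArg (fun f => f F) this

theorem dh_map {R S : Type*} [CommRing R] [CommRing S] (φ : R →+* S) (F : P3 R) :
    dh (map φ F) = Polynomial.map (Polynomial.mapRingHom φ) (dh F) := by
  have : (dh : P3 S →ₐ[S] Polynomial (Polynomial S)).toRingHom.comp (map φ) =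
      (Polynomial.mapRingHom (Polynomial.mapRingHom φ)).comp
        (dh : P3 R →ₐ[R] Polynomial (Polynomial R)).toRingHom := by
    refine ringHom_ext (fun r => ?_) fun i => ?_
    · change dh (map φ (C r)) = Polynomial.map (Polynomial.mapRingHom φ) (dh (C r))
      rw [map_C, dh_C, dh_C]
      simp
    · change dh (map φ (X i)) = Polynomial.map (Polynomial.mapRingHom φ) (dh (X i))
      rw [map_X, dh_X, dh_X]
      fin_cases i <;> simp
  exact congrArg (fun f => f F) this

theorem dh_der {R : Type*} [CommRing R] (F : P3 R) :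
    Polynomial.derivative (dh F) = dh (pderiv 1 F) := by
  induction F using MvPolynomial.induction_on with
  | C a => rw [dh_C, Polynomial.derivative_C, pderiv_C, map_zero]
  | add p q hp hq => rw [map_add, map_add, hp, hq, map_add, map_add]
  | mul_X p i hp =>
    rw [map_mul, Polynomial.derivative_mul, hp, Derivation.leibniz, smul_eq_mul, smul_eq_mul, map_add,
      map_mul, map_mul, pderiv_X, dh_X]
    fin_cases i <;> simp [mul_comm, add_comm]

private theorem dh_monomial {R : Type*} [CommRing R] (d : Fin 3 →₀ ℕ) (a : R) :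
    dh (monomial d a : P3 R) = Polynomial.monomial (d 1) (Polynomial.monomial (d 0) a) := by
  rw [monomial_eq, map_mul, dh_C, Finsupp.prod_fintype _ _ (fun _ => pow_zero _), map_prod,
    Fin.prod_univ_three, map_pow, map_pow, map_pow, dh_X, dh_X, dh_X]
  change Polynomial.C (Polynomial.C a) * (Polynomial.C Polynomial.X ^ d 0 * Polynomial.X ^ d 1 *
    1 ^ d 2) = _
  rw [one_pow, mul_one, ← Polynomial.C_pow, ← mul_assoc, ← Polynomial.C_mul,
    Polynomial.C_mul_X_pow_eq_monomial, Polynomial.C_mul_X_pow_eq_monomial]

private theorem dh_sum {R : Type*} [CommRing R] (F : P3 R) :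
    dh F = ∑ d ∈ F.support, Polynomial.monomial (d 1) (Polynomial.monomial (d 0) (coeff d F)) := by
  conv_lhs => rw [F.as_sum]
  rw [map_sum]
  exact Finset.sum_congr rfl fun d _ => dh_monomial d _

private theorem hom_deg {R : Type*} [CommRing R] {F : P3 R} (hF : F.IsHomogeneous 4)
    {d : Fin 3 →₀ ℕ} (hd : d ∈ F.support) : d 0 + d 1 + d 2 = 4 := by
  have := hF (mem_support_iff.1 hd)
  rw [Finsupp.weight_apply, Finsupp.sum_fintype _ _ (fun _ => by simp), Fin.sum_univ_three] at this
  simpa using this

theorem dh_deg {R : Type*} [CommRing R] (F : P3 R) (hF : F.IsHomogeneous 4) : (dh F).natDegree ≤ 4 := by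
  rw [dh_sum]
  refine Polynomial.natDegree_sum_le_of_forall_le _ _ fun d hd => ?_
  have := hom_deg hF hd
  exact (Polynomial.natDegree_monomial_le _).trans (by omega)

theorem dh_coeff {R : Type*} [CommRing R] (F : P3 R) (hF : F.IsHomogeneous 4) :
    (dh F).coeff 4 = Polynomial.C (eval (Pi.single 1 1) F) := by
  rw [dh_sum, Polynomial.finsetSum_coeff, eval_eq', map_sum]
  refine Finset.sum_congr rfl fun d hd => ?_
  have hd' := hom_deg hF hd
  rw [Polynomial.coeff_monomial, Fin.prod_univ_three]
  split_ifs with h
  · have h0 : d 0 = 0 := by omega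
    have h2 : d 2 = 0 := by omega
    rw [h0, h2]
    simp
  · have : d 0 ≠ 0 ∨ d 2 ≠ 0 := by omega
    rcases this with h0 | h0
    · simp [h0]
    · simp [h0]

theorem ds_map {R S : Type*} [CommRing R] [CommRing S] (φ : R →+* S) (F : P3 R) :
    ds (map φ F) = Polynomial.map φ (ds F) := by
  unfold ds
  rw [dh_map, Polynomial.derivative_map, Polynomial.resultant_map_map]
  rfl

end Pool.Agent.PQ
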