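import Pool.Agent.PQ.DVE
import Pool.Agent.PQ.BIN

/-!
# PQ / ALB

Bitangents are algebraic.  Suppose `v i` is not in the image of `k`; as `k` is algebraically closed it is transcendental over `k`
(`IsAlgClosed.algebraMap_bijective_of_isIntegral`-like / an algebraic element lies in `k`).  `dva`: `D (v i) = 1`.
Let `p` be on the line (`v ⬝ p = 0`).  Apply `D` to `eval p F = (eval p Q)² + (v ⬝ p) (eval p S)` for ALL `p` (identity valid for all `p`),
at a point of the line: by `dve_map` the left side is `∑ i, ∂ᵢF(p) D(p i)`, with `∂ᵢF(p) = 2 Q(p) ∂ᵢQ(p) + v i S(p)` (product rule);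
the right side is `2 Q(p) D(Q(p)) + D(v ⬝ p) S(p)`, `D (v ⬝ p) = (D v) ⬝ p + v ⬝ D p`, `D(Q(p)) = (cfd D Q)(p) + ∑ ∂ᵢQ(p) D(p i)` (`dve`).
All together: `2 Q(p) (cfd D Q)(p) + ((D v) ⬝ p) S(p) = 0`.  BIN with `Q`, `E := - 2 cfd D Q`, `a := D v` (componentwise): `D v = c • v`;
coordinate `j`: `c = D 1 = 0`.  So `D (v i) = 0`, contradiction.
-/

namespace Pool.Agent.PQ

open MvPolynomial Matrix

private theorem ALB_alg {k M : Type*} [Field k] [Field M] [Algebra k M] [IsAlgClosed k] {x : M}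
    (hx : IsAlgebraic k x) : ∃ c : k, x = algebraMap k M c := by
  have h1 := IsAlgClosed.splits (minpoly k x)
  have h2 := minpoly.irreducible hx.isIntegral
  have h3 : (minpoly k x).degree = 1 := IsAlgClosed.degree_eq_one_of_irreducible k h2
  obtain ⟨c, hc⟩ := minpoly.mem_range_of_degree_eq_one k x h3
  exact ⟨c, hc.symm⟩

private theorem ALB_grad {M : Type*} [Field M] {F Q S : P3 M} {v : Fin 3 → M} (h : F = Q ^ 2 + lin v * S)
    (p : Fin 3 → M) (hp : v ⬝ᵥ p = 0) (i : Fin 3) :
    eval p (pderiv i F) = 2 * eval p Q * eval p (pderiv i Q) + v i * eval p S := by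
  have h1 : pderiv i (lin v) = C (v i) := by
    simp [lin, pderiv_X, Pi.single_apply]
  rw [h, map_add, Derivation.leibniz, Derivation.leibniz_pow, h1]
  simp [eval_lin, hp]
  ring

theorem alb {k M : Type*} [Field k] [CharZero k] [IsAlgClosed k] [Field M] [IsAlgClosed M] [Algebra k M]
    (F : P3 k) (hNS : NS (map (algebraMap k M) F)) (v : Fin 3 → M) (Q : P3 M)
    (hb : Bit (map (algebraMap k M) F) v Q) (j : Fin 3) (hj : v j = 1) (i : Fin 3) :
    ∃ c : k, v i = algebraMap k M c := by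
  by_contra hcon
  have htr : Transcendental k (v i) := fun h => hcon (ALB_alg h)
  obtain ⟨D, hD⟩ := dva (v i) htr
  obtain ⟨hQ, S, hS, hF⟩ := hb
  have key : ∀ p, v ⬝ᵥ p = 0 → eval p Q * eval p (C (-2) * cfd D Q) = ((fun i => D (v i)) ⬝ᵥ p) * eval p S := by
    intro p hp
    have h1 := dve_map D F p
    have h2 : eval p (map (algebraMap k M) F) = eval p Q ^ 2 := Bit.eval hF p hp
    rw [h2, pow_two, Derivation.leibniz, dve] at h1
    simp only [ALB_grad hF p hp] at h1
    have h3 : ∑ i, (D (v i) * p i + v i * D (p i)) = 0 := by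
      have h4 := congrArg D hp
      rw [dotProduct, map_sum, map_zero] at h4
      rw [← h4]
      refine Finset.sum_congr rfl fun i _ => ?_
      rw [Derivation.leibniz, smul_eq_mul, smul_eq_mul]
      ring
    rw [map_mul, eval_C, dotProduct]
    simp only [Fin.sum_univ_three, smul_eq_mul] at h1 h3 ⊢
    linear_combination (-1) * h1 - eval p S * h3
  obtain ⟨c, hc⟩ := bin v (fun i => D (v i)) (by
    intro h
    rw [h] at hj
    exact zero_ne_one hj) Q (C (-2) * cfd D Q) S hQ (by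
      have := (cfd_hom D hQ).C_mul (-2)
      exact this) hS key (fun p hp0 hp hQ0 => bns hNS hF p hp0 hp hQ0)
  have h5 := congrFun hc j
  have h6 := congrFun hc i
  simp only [Pi.smul_apply, smul_eq_mul] at h5 h6
  rw [hj, Derivation.map_one_eq_zero, mul_one] at h5
  rw [hD, ← h5, zero_mul] at h6
  exact one_ne_zero h6

/-- projective version -/
theorem alb' {k M : Type*} [Field k] [CharZero k] [IsAlgClosed k] [Field M] [IsAlgClosed M] [Algebra k M]
    (F : P3 k) (hNS : NS (map (algebraMap k M) F)) (v : Fin 3 → M) (hv : v ≠ 0) (Q : P3 M)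
    (hb : Bit (map (algebraMap k M) F) v Q) :
    ∃ (c : M) (w : Fin 3 → k), c ≠ 0 ∧ w ≠ 0 ∧ v = c • fun i => algebraMap k M (w i) := by
  obtain ⟨j, hj⟩ : ∃ j, v j ≠ 0 := by
    by_contra hc
    push Not at hc
    exact hv (_root_.funext hc)
  obtain ⟨hQ, S, hS, hF⟩ := hb
  have hb' : Bit (map (algebraMap k M) F) ((v j)⁻¹ • v) Q := by
    refine ⟨hQ, C (v j) * S, ?_, ?_⟩
    · exact hS.C_mul _
    · rw [hF, lin_smul]
      have : (C (v j)⁻¹ : P3 M) * C (v j) = 1 := by
        rw [← C_mul, inv_mul_cancel₀ hj, C_1]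
      linear_combination (-(lin v * S)) * this
  have h1 : ∀ i, ∃ c : k, (v j)⁻¹ * v i = algebraMap k M c := fun i =>
    alb F hNS _ Q hb' j (by rw [Pi.smul_apply, smul_eq_mul, inv_mul_cancel₀ hj]) i
  choose w hw using h1
  refine ⟨v j, w, hj, ?_, ?_⟩
  · intro h
    have h2 := hw j
    rw [inv_mul_cancel₀ hj, h, Pi.zero_apply, map_zero] at h2
    exact one_ne_zero h2
  · ext i
    rw [Pi.smul_apply, smul_eq_mul, ← hw, mul_inv_cancel_left₀ hj]

end Pool.Agent.PQ
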