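import Pool.Agent.PQ.LNF

/-!
# PQ / BOF

`bof`: bitangents meet off the curve.  Let `p = v × v'`, `v ⬝ p = v' ⬝ p = 0`, `p ≠ 0`.  If `Q p = 0` then `F p = 0`, so
`Q' p = 0` (`Bit.eval`), and by `Bit.grad` `v i * S p = v' i * S' p` for all `i`; as `v, v'` are independent (`v × v' ≠ 0`:
`(S p) • (v × v') = (S' p) • (v' × v') = 0`) `S p = 0`, contradiction to `bns`.
`ncf`: three bitangents with pairwise opposite values are not concurrent.  Let `O = v 0 × v 1 ≠ 0`; if the determinant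
(`= v 2 ⬝ O`) is `0`, `O` is orthogonal to all `v i`; `v 1 × v 2` and `v 2 × v 0` are then multiples `c O`, `c' O` of `O`, `c, c' ≠ 0`.
`Opp` (and homogeneity, `eval_smul_hom`) give `Q 0 O = - Q 1 O = Q 2 O = - Q 0 O`, so `2 * Q 0 O = 0`, contradiction to `bof`.
(`w` orthogonal to independent `v i, v j` is a multiple of `v i × v j`: `(v i × v j) × w = (v i ⬝ w) v j - (v j ⬝ w) v i = 0`.)
-/

namespace Pool.Agent.PQ

open MvPolynomial Matrix

private theorem bof_aux {k : Type*} [Field k] {F : P3 k} (hNS : NS F) {v v' : Fin 3 → k} {Q Q' : P3 k}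
    (hb : Bit F v Q) (hb' : Bit F v' Q') (hx : crossProduct v v' ≠ 0) :
    eval (crossProduct v v') Q ≠ 0 := by
  obtain ⟨-, S, -, hS⟩ := hb
  obtain ⟨-, S', -, hS'⟩ := hb'
  intro h0
  have hp := dot_self_cross v v'
  have hp' := dot_cross_self v v'
  have h1 := Bit.eval hS _ hp
  rw [h0, Bit.eval hS' _ hp', zero_pow two_ne_zero] at h1
  have h2 := eq_zero_of_pow_eq_zero h1
  have h3 : (eval (crossProduct v v') S) • v = (eval (crossProduct v v') S') • v' := by
    ext i
    have := (Bit.grad hS _ hp h0 i).symm.trans (Bit.grad hS' _ hp' h2 i)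
    simp only [Pi.smul_apply, smul_eq_mul]
    rw [mul_comm, this, mul_comm]
  have h4 : (eval (crossProduct v v') S) • crossProduct v v' = 0 := by
    rw [← LinearMap.map_smul₂, h3, LinearMap.map_smul₂, cross_self, smul_zero]
  rcases smul_eq_zero.1 h4 with h | h
  · exact bns hNS hS _ hx hp h0 h
  · exact hx h

theorem bof {k : Type*} [Field k] {F : P3 k} (hNS : NS F) {v v' : Fin 3 → k} {Q Q' : P3 k}
    (hb : Bit F v Q) (hb' : Bit F v' Q') (hx : crossProduct v v' ≠ 0) :
    eval (crossProduct v v') Q ≠ 0 ∧ eval (crossProduct v v') Q' ≠ 0 := by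
  refine ⟨bof_aux hNS hb hb' hx, ?_⟩
  have h1 := bof_aux hNS hb hb' hx
  obtain ⟨-, S, -, hS⟩ := hb
  obtain ⟨-, S', -, hS'⟩ := hb'
  intro h0
  have h2 := Bit.eval hS' _ (dot_cross_self v v')
  rw [h0, Bit.eval hS _ (dot_self_cross v v'), zero_pow two_ne_zero] at h2
  exact h1 (eq_zero_of_pow_eq_zero h2)

private theorem par' {k : Type*} [Field k] {v w : Fin 3 → k} (hv : v ≠ 0) (hw : w ≠ 0)
    (h : crossProduct v w = 0) : ∃ c : k, c ≠ 0 ∧ w = c • v := by
  obtain ⟨i, hi⟩ : ∃ i, v i ≠ 0 := by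
    by_contra hc
    push Not at hc
    exact hv (funext hc)
  rw [cross_apply] at h
  have h0 : v 1 * w 2 - v 2 * w 1 = 0 := congrFun h 0
  have h1 : v 2 * w 0 - v 0 * w 2 = 0 := congrFun h 1
  have h2 : v 0 * w 1 - v 1 * w 0 = 0 := congrFun h 2
  have hij : ∀ j, w j * v i = w i * v j := by
    intro j
    fin_cases i <;> fin_cases j <;> simp only [Fin.zero_eta, Fin.mk_one, Fin.reduceFinMk] <;>
      first
      | ring1
      | linear_combination h0
      | linear_combination h1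
      | linear_combination h2
      | linear_combination -h0
      | linear_combination -h1
      | linear_combination -h2
  have key : w = (w i / v i) • v := by
    ext j
    simp only [Pi.smul_apply, smul_eq_mul]
    rw [div_mul_eq_mul_div, eq_div_iff hi, hij j]
  refine ⟨w i / v i, fun hc => hw ?_, key⟩
  rw [key, hc, zero_smul]

/-- a vector orthogonal to two vectors is parallel to their cross product -/
private theorem orth {k : Type*} [Field k] {v v' O : Fin 3 → k} (hx : crossProduct v v' ≠ 0) (hO : O ≠ 0)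
    (h : v ⬝ᵥ O = 0) (h' : v' ⬝ᵥ O = 0) : ∃ c : k, c ≠ 0 ∧ O = c • crossProduct v v' := by
  refine par' hx hO ?_
  simp only [dotProduct, Fin.sum_univ_three] at h h'
  rw [cross_apply, cross_apply]
  ext i
  fin_cases i
  · change (v 2 * v' 0 - v 0 * v' 2) * O 2 - (v 0 * v' 1 - v 1 * v' 0) * O 1 = 0
    linear_combination v' 0 * h - v 0 * h'
  · change (v 0 * v' 1 - v 1 * v' 0) * O 0 - (v 1 * v' 2 - v 2 * v' 1) * O 2 = 0
    linear_combination v' 1 * h - v 1 * h'
  · change (v 1 * v' 2 - v 2 * v' 1) * O 1 - (v 2 * v' 0 - v 0 * v' 2) * O 0 = 0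
    linear_combination v' 2 * h - v 2 * h'

theorem ncf {k : Type*} [Field k] (h2 : (2 : k) ≠ 0) {F : P3 k} (hNS : NS F)
    (v : Fin 3 → Fin 3 → k) (Q : Fin 3 → P3 k) (hb : ∀ i, Bit F (v i) (Q i))
    (hx : ∀ i j, i ≠ j → crossProduct (v i) (v j) ≠ 0)
    (ho : ∀ i j, i ≠ j → Opp (v i) (Q i) (v j) (Q j)) : Matrix.det (Matrix.of v) ≠ 0 := by
  intro hdet
  have hO := hx 0 1 (by decide)
  have e0 : v 0 ⬝ᵥ crossProduct (v 0) (v 1) = 0 := dot_self_cross _ _
  have e1 : v 1 ⬝ᵥ crossProduct (v 0) (v 1) = 0 := dot_cross_self _ _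
  have e2 : v 2 ⬝ᵥ crossProduct (v 0) (v 1) = 0 := by
    rw [Matrix.det_fin_three] at hdet
    simp only [Matrix.of_apply] at hdet
    rw [cross_apply, dotProduct, Fin.sum_univ_three]
    change v 2 0 * (v 0 1 * v 1 2 - v 0 2 * v 1 1) + v 2 1 * (v 0 2 * v 1 0 - v 0 0 * v 1 2) +
      v 2 2 * (v 0 0 * v 1 1 - v 0 1 * v 1 0) = 0
    linear_combination hdet
  have e : ∀ i, v i ⬝ᵥ crossProduct (v 0) (v 1) = 0 := by
    intro i
    fin_cases i
    · exact e0
    · exact e1
    · exact e2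
  have key : ∀ i j, i ≠ j →
      eval (crossProduct (v 0) (v 1)) (Q i) = -eval (crossProduct (v 0) (v 1)) (Q j) := by
    intro i j hij
    obtain ⟨c, -, hc⟩ := orth (hx i j hij) hO (e i) (e j)
    rw [hc, eval_smul_hom (hb i).hom, eval_smul_hom (hb j).hom, ho i j hij, mul_neg]
  have k1 := key 0 1 (by decide)
  have k2 := key 1 2 (by decide)
  have k3 := key 0 2 (by decide)
  have h3 : (2 : k) * eval (crossProduct (v 0) (v 1)) (Q 0) = 0 := by
    linear_combination k1 - k2 + k3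
  exact (bof hNS (hb 0) (hb 1) hO).1 ((mul_eq_zero.1 h3).resolve_left h2)

end Pool.Agent.PQ
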