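import Pool.Agent.PQ.PRM
import Pool.Agent.PQ.DVL

/-!
# PQ / BTV

Integral equations of bitangents.  Let `v j` be a unit (`V.valuation = 1`), `u ∈ V` its inverse, `E = prj v j u` over `V`, `E'` its image
over `M`.  `sb E' (map G) = (sb E' Q)²` (`sb E' (lin v) = lin (v ᵥ* E') = 0`), so by `sqv` `sb E' Q = map Q'`, `Q' : P3 V`; on the line
`eval p (map Q') = eval (E' p) Q = eval p Q` (`prj_fix`, `eval_sb`).  `Q'` is homogeneous of degree 2 (its image is, `map` injective).
`G - Q'²`: `sb E G = Q'²` (injectivity of `map`) and `sb E Q' = Q'` (`E * E = E`, or via evaluation), so `sb E (G - Q'²) = 0` and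
`lin v ∣ G - Q'²` (`dvl_unit`), quotient homogeneous of degree 3 (`dvl_hom`).
-/

namespace Pool.Agent.PQ

open MvPolynomial Matrix

private theorem BTV_ext {R : Type*} [CommRing R] {A B : Matrix (Fin 3) (Fin 3) R}
    (h : ∀ p, A *ᵥ p = B *ᵥ p) : A = B := by
  ext i j
  have h1 := congrFun (h (Pi.single j 1)) i
  simpa using h1

private theorem BTV_vec {R : Type*} [CommRing R] (v : Fin 3 → R) (j : Fin 3) (u : R) (hu : u * v j = 1) :
    v ᵥ* prj v j u = 0 := by
  ext i
  have h1 := prj_line v j u hu (Pi.single i 1)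
  rw [dotProduct_mulVec] at h1
  simpa using h1

private theorem BTV_idem {R : Type*} [CommRing R] (v : Fin 3 → R) (j : Fin 3) (u : R) (hu : u * v j = 1) :
    prj v j u * prj v j u = prj v j u := by
  apply BTV_ext
  intro p
  rw [← mulVec_mulVec]
  exact prj_fix v j u hu _ (prj_line v j u hu p)

private theorem BTV_map {R S : Type*} [CommRing R] [CommRing S] (φ : R →+* S) (v : Fin 3 → R) (j : Fin 3)
    (u : R) : (prj v j u).map φ = prj (fun i => φ (v i)) j (φ u) := by
  ext i l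
  rw [Matrix.map_apply, prj, prj, Matrix.of_apply, Matrix.of_apply]
  split_ifs with h1
  · show φ (if l = j then 0 else -(u * v l)) = if l = j then 0 else -(φ u * φ (v l))
    split_ifs
    · exact map_zero φ
    · rw [map_neg, map_mul]
  · by_cases h2 : l = i
    · subst h2
      rw [Pi.single_eq_same, Pi.single_eq_same, map_one]
    · rw [Pi.single_eq_of_ne h2, Pi.single_eq_of_ne h2, map_zero]

theorem btv {M : Type*} [Field M] (V : ValuationSubring M) (G : P3 V) (hG : G.IsHomogeneous 4)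
    (v : Fin 3 → V) (hv : ∃ i, V.valuation (v i : M) = 1) (Q : P3 M)
    (hb : Bit (map (algebraMap V M) G) (fun i => (v i : M)) Q) :
    ∃ Q' : P3 V, Bit G v Q' ∧ ∀ p : Fin 3 → M, (fun i => (v i : M)) ⬝ᵥ p = 0 →
      eval p (map (algebraMap V M) Q') = eval p Q := by
  obtain ⟨j, hj⟩ := hv
  obtain ⟨hQ, S, hS, hGS⟩ := hb
  have hunit : IsUnit (v j) := (V.valuation_eq_one_iff _).2 hj
  obtain ⟨u, hu⟩ := hunit.exists_left_inv
  have hinj : Function.Injective (map (σ := Fin 3) (algebraMap V M)) :=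
    map_injective _ (FaithfulSMul.algebraMap_injective V M)
  obtain ⟨E', hE'⟩ : ∃ E' : Matrix (Fin 3) (Fin 3) M, E' = prj (fun i => (v i : M)) j (u : M) := ⟨_, rfl⟩
  have hu' : (u : M) * (v j : M) = 1 := by exact_mod_cast congrArg (algebraMap V M) hu
  have hmap : (prj v j u).map (algebraMap V M) = E' := by
    rw [BTV_map, hE']
    rfl
  have h1 : (sb E' Q) ^ 2 = map (algebraMap V M) (sb (prj v j u) G) := by
    rw [map_sb, hmap, hGS, map_add, map_mul, map_pow, sb_lin, hE', BTV_vec _ _ _ hu', lin_zero, zero_mul,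
      add_zero]
  obtain ⟨Q', hQ'⟩ := sqv V (sb E' Q) (sb (prj v j u) G) h1
  have h2 : Q'.IsHomogeneous 2 := by
    apply IsHomogeneous.of_map (f := algebraMap V M) (FaithfulSMul.algebraMap_injective V M)
    rw [← hQ']
    exact sb_hom E' hQ
  have h3 : sb (prj v j u) G = Q' ^ 2 := by
    apply hinj
    rw [← h1, hQ', map_pow]
  have h4 : sb (prj v j u) Q' = Q' := by
    apply hinj
    rw [map_sb, hmap, ← hQ', sb_sb, hE', BTV_idem _ _ _ hu']
  have h5 : lin v ∣ G - Q' ^ 2 := by
    have h6 := dvl_unit v j u hu (G - Q' ^ 2)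
    rwa [map_sub, map_pow, h3, h4, sub_self, sub_zero] at h6
  obtain ⟨T, hT, hT'⟩ := dvl_hom v (G - Q' ^ 2) 3 (hG.sub (h2.pow 2)) h5
  refine ⟨Q', ⟨h2, T, hT, ?_⟩, ?_⟩
  · rw [← hT']
    ring
  · intro p hp
    rw [← hQ', eval_sb, hE', prj_fix _ _ _ hu' p hp]

end Pool.Agent.PQ
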