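import Pool.Agent.PQ.SPZ

/-!
# PQ / CER

The member `b0 = (1,1,1), (1,2,3), (1,3,8), (1,4,5)` is smooth in characteristic 11.  Compute `yy (bg t0)` modulo 11 (rows `(6,8,7)`,
`(2,2,3)`, `(5,3,3)` modulo 11), hence the quartic `F0` with coefficients modulo 11:
`3x⁴ + 6x³y + 2x³z + x²y² + x²z² + 9xy³ + 10xy²z + 4y⁴ + 10y²z² + 10xyz² + 10xz³ + 9z⁴`.
`x⁷, y⁷, z⁷` are combinations of the three derivatives with cofactors of degree 4 modulo 11 (linear algebra modulo 11; certificate in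
`/team-store/PQ_cert.txt`).  So a common zero `p` of the derivatives has `p = 0`.
-/

namespace Pool.Agent.PQ

open MvPolynomial Matrix

/-- the parameters of the special member -/
def t0 {R : Type*} [CommRing R] : Fin 3 → Fin 2 → R := ![![2, 3], ![3, 8], ![4, 5]]

private theorem yyZ (r j : Fin 3) : yy (bg (t0 : Fin 3 → Fin 2 → ℤ)) r j =
    (![![-1486424, -5509848, -6915088], ![6125264, 23372736, 30147472],
      ![-4151736, -17375784, -22745280]] : Fin 3 → Fin 3 → ℤ) r j := by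
  revert r j
  decide +kernel

private theorem gradRQ {k : Type*} [Field k] (y : Fin 3 → Fin 3 → k) (p : Fin 3 → k) (j : Fin 3) :
    eval p (pderiv j (RQ y)) =
      let a : Fin 3 → k := fun r => p r * (y r ⬝ᵥ p)
      let a' : Fin 3 → k := fun r => (if j = r then 1 else 0) * (y r ⬝ᵥ p) + p r * y r j
      2 * (a 0 * a' 0 + a 1 * a' 1 + a 2 * a' 2) - 2 * (a' 0 * a 1 + a 0 * a' 1 + a' 1 * a 2 +
        a 1 * a' 2 + a' 2 * a 0 + a 2 * a' 0) := by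
  have hl : ∀ r, pderiv j (lin (y r)) = C (y r j) := fun r => by
    simp [lin, pderiv_X, Pi.single_apply]
  have hx : ∀ r, pderiv j (X r : P3 k) = C (if j = r then 1 else 0) := fun r => by
    rw [pderiv_X, Pi.single_apply]
    by_cases h : j = r
    · subst h
      simp
    · rw [if_neg (Ne.symm h), if_neg h, map_zero]
  have h2 : (2 : P3 k) = C 2 := (map_ofNat C 2).symm
  unfold RQ Ay
  rw [h2]
  simp only [map_add, map_sub, Derivation.leibniz, Derivation.leibniz_pow, hl, hx, pderiv_C,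
    smul_eq_mul, map_mul, eval_C, eval_X, eval_lin, nsmul_eq_mul, map_natCast, map_pow, mul_zero,
    add_zero]
  push_cast
  ring

theorem cer {k : Type*} [Field k] [CharP k 11] : NS (RB (bg (t0 : Fin 3 → Fin 2 → k))) := by
  have hch : ∀ a b : ℤ, a % 11 = b % 11 → (a : k) = (b : k) := fun a b h =>
    (CharP.intCast_eq_intCast k 11).2 h
  have h11 : (11 : k) = 0 := by
    have := hch 11 0 (by norm_num)
    simpa using this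
  have hyy : yy (bg (t0 : Fin 3 → Fin 2 → k)) = ![![6, 8, 7], ![2, 2, 3], ![5, 3, 3]] := by
    funext r j
    have h1 := map_yy (Int.castRingHom k) (bg (t0 : Fin 3 → Fin 2 → ℤ)) r j
    have h2 : (fun i r => Int.castRingHom k ((t0 : Fin 3 → Fin 2 → ℤ) i r)) =
        (t0 : Fin 3 → Fin 2 → k) := by
      funext i r
      fin_cases i <;> fin_cases r <;> simp [t0]
    rw [yyZ, map_bg, h2] at h1
    rw [← h1, Int.coe_castRingHom]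
    fin_cases r <;> fin_cases j
    · simpa using hch (-1486424) 6 (by norm_num)
    · simpa using hch (-5509848) 8 (by norm_num)
    · simpa using hch (-6915088) 7 (by norm_num)
    · simpa using hch 6125264 2 (by norm_num)
    · simpa using hch 23372736 2 (by norm_num)
    · simpa using hch 30147472 3 (by norm_num)
    · simpa using hch (-4151736) 5 (by norm_num)
    · simpa using hch (-17375784) 3 (by norm_num)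
    · simpa using hch (-22745280) 3 (by norm_num)
  intro p hp _
  by_contra hc
  push Not at hc
  unfold RB at hc
  rw [hyy] at hc
  apply hp
  obtain ⟨x, hx⟩ : ∃ x, x = p 0 := ⟨_, rfl⟩
  obtain ⟨y, hy⟩ : ∃ y, y = p 1 := ⟨_, rfl⟩
  obtain ⟨z, hz⟩ : ∃ z, z = p 2 := ⟨_, rfl⟩
  have d0 : x ^ 3 - 4 * x ^ 2 * y - 5 * x ^ 2 * z + 2 * x * y ^ 2 + 2 * x * z ^ 2 - 2 * y ^ 3 - y ^ 2 *
      z - y * z ^ 2 - z ^ 3 = 0 := by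
    have h := hc 0
    rw [gradRQ] at h
    simp only [← hx, ← hy, ← hz] at h
    simp [dotProduct, Fin.sum_univ_three, ← hx, ← hy, ← hz] at h
    linear_combination h - (13 * x ^ 3 + 20 * x ^ 2 * y + 7 * x ^ 2 * z + 2 * x * y ^ 2 - 16 * x * y * z - 6 * x * z ^ 2
      - 2 * y ^ 3 - 13 * y ^ 2 * z - 13 * y * z ^ 2 - z ^ 3) * h11
  have d1 : -5 * x ^ 3 + 2 * x ^ 2 * y + 5 * x * y ^ 2 - 2 * x * y * z - x * z ^ 2 + 5 * y ^ 3 - 2 * y *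
      z ^ 2 = 0 := by
    have h := hc 1
    rw [gradRQ] at h
    simp only [← hx, ← hy, ← hz] at h
    simp [dotProduct, Fin.sum_univ_three, ← hx, ← hy, ← hz] at h
    linear_combination h - (7 * x ^ 3 + 2 * x ^ 2 * y - 8 * x ^ 2 * z - 7 * x * y ^ 2 - 26 * x * y * z - 13 * x * z ^ 2
      + y ^ 3 - 2 * y * z ^ 2) * h11
  have d2 : 2 * x ^ 3 + 2 * x ^ 2 * z - x * y ^ 2 - 2 * x * y * z - 3 * x * z ^ 2 - 2 * y ^ 2 * z + 3 *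
      z ^ 3 = 0 := by
    have h := hc 2
    rw [gradRQ] at h
    simp only [← hx, ← hy, ← hz] at h
    simp [dotProduct, Fin.sum_univ_three, ← hx, ← hy, ← hz] at h
    linear_combination h - (2 * x ^ 3 - 8 * x ^ 2 * y - 6 * x ^ 2 * z - 13 * x * y ^ 2 - 26 * x * y * z - 3 * x * z ^ 2
      - 2 * y ^ 2 * z + 3 * z ^ 3) * h11
  have e0 : x ^ 7 = 0 := by
    linear_combination (-3 * x ^ 4 - 5 * x ^ 3 * y + 2 * x ^ 3 * z + 3 * x ^ 2 * y * z + 4 * x ^ 2 * z ^ 2 + 2 * x *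
      y ^ 2 * z) * d0 +
      (-5 * x ^ 4 + 3 * x ^ 3 * z + x ^ 2 * y ^ 2 - 4 * x ^ 2 * y * z + 3 * x ^ 2 * z ^ 2 - 4 * x *
      y ^ 3 - 3 * x * y ^ 2 * z - x * y * z ^ 2 + 3 * y ^ 3 * z) * d1 +
      (-5 * x ^ 4 - 4 * x ^ 3 * y + 4 * x ^ 3 * z + 4 * x ^ 2 * y * z + 5 * x ^ 2 * z ^ 2 - 4 * x *
      y ^ 3 + 2 * y ^ 4) * d2 +
      (-x ^ 7 + x ^ 6 * y + x ^ 5 * y ^ 2 - 6 * x ^ 5 * y * z - x ^ 5 * z ^ 2 + x ^ 4 * y ^ 3 - 3 *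
      x ^ 4 * y ^ 2 * z + x ^ 4 * y * z ^ 2 + 3 * x ^ 4 * z ^ 3 - x ^ 3 * y ^ 4 + 3 * x ^ 3 * y ^
      3 * z + 3 * x ^ 3 * y * z ^ 3 + x ^ 2 * y ^ 5 + x ^ 2 * y ^ 4 * z - x ^ 2 * y ^ 3 * z ^ 2 -
      x ^ 2 * z ^ 5 + 2 * x * y ^ 6 + x * y ^ 4 * z ^ 2 + x * y ^ 3 * z ^ 3 - y ^ 6 * z) * h11
  have e1 : y ^ 7 = 0 := by
    linear_combination (-2 * x ^ 4 + 4 * x ^ 3 * y - x ^ 3 * z - 4 * x ^ 2 * y ^ 2 + 3 * x ^ 2 * y * z - 5 * x ^ 2 *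
      z ^ 2 - 4 * x * y ^ 3 + 5 * x * y ^ 2 * z - 5 * y ^ 4 - y ^ 3 * z) * d0 +
      (4 * x ^ 4 - x ^ 3 * y + 5 * x ^ 3 * z + 4 * x ^ 2 * y ^ 2 + 2 * x ^ 2 * y * z - 2 * x ^ 2 *
      z ^ 2 + 5 * x * y ^ 3 - 2 * x * y * z ^ 2 - 4 * y ^ 4 + 2 * y ^ 3 * z - 5 * y ^ 2 * z ^ 2) * d1 +
      (4 * x ^ 3 * y - 3 * x ^ 3 * z + 2 * x ^ 2 * y ^ 2 + x ^ 2 * y * z + 2 * x ^ 2 * z ^ 2 + 2 *
      x * y ^ 3 - 5 * x * y ^ 2 * z + 3 * y ^ 4) * d2 +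
      (2 * x ^ 7 - 3 * x ^ 6 * y + 2 * x ^ 6 * z + 2 * x ^ 5 * y ^ 2 + x ^ 5 * y * z - 2 * x ^ 4 *
      y ^ 3 - 3 * x ^ 4 * y ^ 2 * z - 3 * x ^ 4 * z ^ 3 - 4 * x ^ 3 * y ^ 4 - x ^ 3 * y ^ 3 * z +
      5 * x ^ 3 * y ^ 2 * z ^ 2 + 2 * x ^ 3 * z ^ 4 - 5 * x ^ 2 * y ^ 5 - 4 * x ^ 2 * y ^ 4 * z +
      3 * x ^ 2 * y ^ 3 * z ^ 2 - 3 * x ^ 2 * y ^ 2 * z ^ 3 - x ^ 2 * y * z ^ 4 - x ^ 2 * z ^ 5 +
      5 * x * y ^ 4 * z ^ 2 - x * y ^ 3 * z ^ 3 + x * y ^ 2 * z ^ 4 + y ^ 7 - y ^ 6 * z + y ^ 5 *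
      z ^ 2 - y ^ 4 * z ^ 3 - y ^ 3 * z ^ 4) * h11
  have e2 : z ^ 7 = 0 := by
    linear_combination (-x ^ 4 - 4 * x ^ 3 * z - 2 * x ^ 2 * y ^ 2 - 4 * x ^ 2 * y * z - 5 * x ^ 2 * z ^ 2 - 2 * x *
      y ^ 3 - 4 * x * y ^ 2 * z + 4 * x * y * z ^ 2 - 2 * x * z ^ 3 + 5 * y ^ 4 - 5 * y ^ 3 * z +
      y * z ^ 3 - z ^ 4) * d0 +
      (3 * x ^ 4 - x ^ 3 * y + 4 * x ^ 3 * z + 2 * x ^ 2 * y ^ 2 - 2 * x ^ 2 * y * z - 3 * x ^ 2 *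
      z ^ 2 + 2 * x * y ^ 3 - x * y ^ 2 * z + 5 * x * y * z ^ 2 + 2 * y ^ 4 - 5 * y ^ 3 * z + 3 *
      y ^ 2 * z ^ 2) * d1 +
      (-3 * x ^ 4 - 2 * x ^ 3 * y - 4 * x ^ 3 * z - x ^ 2 * y ^ 2 - 2 * x ^ 2 * y * z - 2 * x ^ 2 *
      z ^ 2 + 4 * x * y ^ 3 - 3 * x * y ^ 2 * z + y ^ 4) * d2 +
      (2 * x ^ 7 - x ^ 6 * y + 3 * x ^ 6 * z - 2 * x ^ 5 * y * z - 2 * x ^ 5 * z ^ 2 - 2 * x ^ 4 *
      y ^ 3 - 4 * x ^ 4 * y ^ 2 * z - x ^ 4 * y * z ^ 2 - x ^ 4 * z ^ 3 - x ^ 3 * y ^ 4 - 6 * x ^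
      3 * y ^ 3 * z + x ^ 3 * y ^ 2 * z ^ 2 + x ^ 3 * y * z ^ 3 + 3 * x ^ 2 * y ^ 4 * z - 5 * x ^
      2 * y ^ 3 * z ^ 2 - x ^ 2 * y * z ^ 4 - 3 * x * y ^ 6 + 4 * x * y ^ 5 * z - 5 * x * y ^ 4 *
      z ^ 2 - x * y ^ 3 * z ^ 3 + 2 * x * y ^ 2 * z ^ 4 + 2 * y ^ 6 * z - y ^ 5 * z ^ 2 - y ^ 4 *
      z ^ 3) * h11
  funext i
  fin_cases i
  · exact hx ▸ eq_zero_of_pow_eq_zero e0
  · exact hy ▸ eq_zero_of_pow_eq_zero e1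
  · exact hz ▸ eq_zero_of_pow_eq_zero e2

end Pool.Agent.PQ
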