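import Pool.Agent.PQ.STC
import Pool.Agent.PQ.TRF

/-!
# PQ / CNT

`stp`: `glu` gives `q, C'`; `T` from `std`; for `t ∈ T` the form `Ct t` is not `0` (else `F` is a square, not `NS`), `two_lines` gives two vectors;
`S` = these at most 12 vectors and `v1, v2`.  Let `(w, Q)` be as stated.  If `v1 × w = 0` or `v2 × w = 0` then `w` is a non-zero multiple of
`v1` or `v2`.  Otherwise `sta`: `lin w ∣ Ct t`, so `Ct t = lin w * lin w'` (`dvl_hom`, `hom_one`), `dq (Ct t) = 0` (`dq_mul`), `t ∈ T`.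
`cnt`: `S` = union of the three sets of `stp` for the pairs.  Given `(w, Q)`; if `w` is proportional to some `v i` done (the sets contain the
`v i`).  Otherwise at `p_i = v i × w`: `(Q i p_i)² = F p_i = (Q p_i)²` (`Bit.eval`), so `Q i p_i = ε_i Q p_i`, `ε_i = ± 1`; two of the three signs agree,
`ε_i = ε_j = ε`: use `stp` for the pair with `ε Q`.
-/

namespace Pool.Agent.PQ

open MvPolynomial Matrix

/-- a vector parallel to `v` -/
private theorem par {k : Type*} [Field k] {v w : Fin 3 → k} (hv : v ≠ 0) (hw : w ≠ 0)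
    (h : crossProduct v w = 0) : ∃ c : k, c ≠ 0 ∧ w = c • v := by
  obtain ⟨i, hi⟩ : ∃ i, v i ≠ 0 := by
    by_contra hc
    push Not at hc
    exact hv (funext hc)
  rw [cross_apply] at h
  have h0 : v 1 * w 2 - v 2 * w 1 = 0 := congrFun h 0
  have h1 : v 2 * w 0 - v 0 * w 2 = 0 := congrFun h 1
  have h2 : v 0 * w 1 - v 1 * w 0 = 0 := congrFun h 2
  have hij : ∀ j, w j * v i = w i * v j := by
    intro j
    fin_cases i <;> fin_cases j <;> simp only [Fin.zero_eta, Fin.mk_one, Fin.reduceFinMk] <;>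
      first
      | ring1
      | linear_combination h0
      | linear_combination h1
      | linear_combination h2
      | linear_combination -h0
      | linear_combination -h1
      | linear_combination -h2
  have key : w = (w i / v i) • v := by
    ext j
    simp only [Pi.smul_apply, smul_eq_mul]
    rw [div_mul_eq_mul_div, eq_div_iff hi, hij j]
  refine ⟨w i / v i, fun hc => hw ?_, key⟩
  rw [key, hc, zero_smul]

private theorem ne_left {k : Type*} [Field k] {v w : Fin 3 → k} (h : crossProduct v w ≠ 0) : v ≠ 0 := by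
  rintro rfl
  exact h (by simp)

private theorem ne_right {k : Type*} [Field k] {v w : Fin 3 → k} (h : crossProduct v w ≠ 0) : w ≠ 0 := by
  rintro rfl
  exact h (by simp)

/-- a smooth quartic is not a square -/
private theorem not_sq {k : Type*} [Field k] [IsAlgClosed k] {F : P3 k} (hNS : NS F) (R : P3 k)
    (hR : R.IsHomogeneous 2) (h : F = R ^ 2) : False := by
  obtain ⟨p, hp, -, h0⟩ := bin_zero 0 R 2 (by norm_num) hR
  obtain ⟨i, hi⟩ := hNS p hp (by rw [h, map_pow, h0, zero_pow two_ne_zero])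
  apply hi
  rw [h, Derivation.leibniz_pow]
  simp [h0]

private theorem lin_mul_hom {R : Type*} [CommRing R] (v w : Fin 3 → R) :
    (lin v * lin w).IsHomogeneous 2 := (lin_hom v).mul (lin_hom w)

private theorem ct_hom {R : Type*} [CommRing R] (v1 v2 : Fin 3 → R) (q C' : P3 R)
    (hq : q.IsHomogeneous 2) (hC : C'.IsHomogeneous 2) (t : R) : (Ct v1 v2 q C' t).IsHomogeneous 2 := by
  have h1 : (C (2 * t) * q).IsHomogeneous (0 + 2) := (isHomogeneous_C (Fin 3) (2 * t)).mul hq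
  have h2 : (C (t ^ 2) * (lin v1 * lin v2)).IsHomogeneous (0 + 2) :=
    (isHomogeneous_C (Fin 3) (t ^ 2)).mul (lin_mul_hom v1 v2)
  rw [zero_add] at h1 h2
  exact (hC.sub h1).sub h2

theorem stp {k : Type*} [Field k] [IsAlgClosed k] [CharZero k] (F : P3 k) (hF : F.IsHomogeneous 4)
    (hNS : NS F) (v1 v2 : Fin 3 → k) (hx : crossProduct v1 v2 ≠ 0) (Q1 Q2 : P3 k) (hb1 : Bit F v1 Q1)
    (hb2 : Bit F v2 Q2) (hs : Sam v1 Q1 v2 Q2) :
    ∃ S : Finset (Fin 3 → k), S.card ≤ 14 ∧ v1 ∈ S ∧ v2 ∈ S ∧ ∀ (w : Fin 3 → k) (Q : P3 k), w ≠ 0 → Bit F w Q →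
      Sam v1 Q1 w Q → Sam v2 Q2 w Q → ∃ s ∈ S, ∃ c : k, c ≠ 0 ∧ w = c • s := by
  classical
  have hv1 := ne_left hx
  have hv2 := ne_right hx
  obtain ⟨q, C', hq, hC, hE, hq1, hq2⟩ := glu F hF v1 v2 hx Q1 Q2 hb1 hb2 hs
  obtain ⟨T, hT6, hT⟩ := std F hF hNS v1 v2 hv1 hv2 q C' hq hC hE
  have h0 : ∀ t, Ct v1 v2 q C' t ≠ 0 := by
    intro t ht
    refine not_sq hNS (q + C t * (lin v1 * lin v2)) ?_ ?_
    · refine hq.add ?_
      have h2 := (isHomogeneous_C (Fin 3) t).mul (lin_mul_hom v1 v2)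
      rwa [zero_add] at h2
    · rw [hE, ct_eq v1 v2 q C' t, ht, mul_zero, add_zero]
  choose w1 w2 hw using fun t => two_lines (Ct v1 v2 q C' t) (ct_hom v1 v2 q C' hq hC t) (h0 t)
  refine ⟨(T.biUnion fun t => {w1 t, w2 t}) ∪ {v1, v2}, ?_, ?_, ?_, ?_⟩
  · have ha : (T.biUnion fun t => ({w1 t, w2 t} : Finset (Fin 3 → k))).card ≤ T.card * 2 :=
      Finset.card_biUnion_le_card_mul _ _ _ fun t _ => Finset.card_le_two
    have hb : ({v1, v2} : Finset (Fin 3 → k)).card ≤ 2 := Finset.card_le_two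
    have hc := Finset.card_union_le (T.biUnion fun t => ({w1 t, w2 t} : Finset (Fin 3 → k))) {v1, v2}
    omega
  · simp
  · simp
  · intro w Q hw0 hb hs1 hs2
    by_cases hx1 : crossProduct v1 w = 0
    · obtain ⟨c, hc, h⟩ := par hv1 hw0 hx1
      exact ⟨v1, by simp, c, hc, h⟩
    by_cases hx2 : crossProduct v2 w = 0
    · obtain ⟨c, hc, h⟩ := par hv2 hw0 hx2
      exact ⟨v2, by simp, c, hc, h⟩
    obtain ⟨t, ht⟩ := sta two_ne_zero F hF hNS v1 v2 w hv1 hv2 hx1 hx2 q C' Q hq hC hE hb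
      (by rw [hq1 _ (dot_self_cross v1 w)]; exact hs1)
      (by rw [hq2 _ (dot_self_cross v2 w)]; exact hs2)
    obtain ⟨S, hS, hCS⟩ := dvl_hom w _ 1 (ct_hom v1 v2 q C' hq hC t) ht
    obtain ⟨w', rfl⟩ := hom_one S hS
    have hdq : dq (Ct v1 v2 q C' t) = 0 := by rw [hCS, dq_mul]
    have htT := hT t hdq
    rcases hw t w hw0 ht with ⟨c, hc, h⟩ | ⟨c, hc, h⟩
    · exact ⟨w1 t, Finset.mem_union_left _ (Finset.mem_biUnion.2 ⟨t, htT, by simp⟩), c, hc, h⟩
    · exact ⟨w2 t, Finset.mem_union_left _ (Finset.mem_biUnion.2 ⟨t, htT, by simp⟩), c, hc, h⟩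

private theorem sgn {k : Type*} [Field k] {F : P3 k} {v w : Fin 3 → k} {Q Q' : P3 k} (hb : Bit F v Q)
    (hb' : Bit F w Q') : Sam v Q w Q' ∨ Sam v Q w (-Q') := by
  obtain ⟨-, S, -, hS⟩ := hb
  obtain ⟨-, S', -, hS'⟩ := hb'
  have h1 := Bit.eval hS (crossProduct v w) (dot_self_cross v w)
  have h2 := Bit.eval hS' (crossProduct v w) (dot_cross_self v w)
  rw [h1] at h2
  rcases sq_eq_sq_iff_eq_or_eq_neg.1 h2 with h | h
  · exact Or.inl h
  · right
    rw [Sam, map_neg]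
    exact h

/-- a smooth quartic has at most 42 bitangents -/
theorem cnt {k : Type*} [Field k] [IsAlgClosed k] [CharZero k] (F : P3 k) (hF : F.IsHomogeneous 4)
    (hNS : NS F) (v : Fin 3 → Fin 3 → k) (Q : Fin 3 → P3 k) (hb : ∀ i, Bit F (v i) (Q i))
    (hx : ∀ i j, i ≠ j → crossProduct (v i) (v j) ≠ 0)
    (hs : ∀ i j, i ≠ j → Sam (v i) (Q i) (v j) (Q j)) :
    ∃ S : Finset (Fin 3 → k), S.card ≤ 42 ∧ ∀ (w : Fin 3 → k) (Q : P3 k), w ≠ 0 → Bit F w Q →
      ∃ s ∈ S, ∃ c : k, c ≠ 0 ∧ w = c • s := by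
  classical
  obtain ⟨S0, h0c, h01, h02, h0⟩ := stp F hF hNS (v 0) (v 1) (hx 0 1 (by decide)) (Q 0) (Q 1) (hb 0)
    (hb 1) (hs 0 1 (by decide))
  obtain ⟨S1, h1c, h11, h12, h1⟩ := stp F hF hNS (v 1) (v 2) (hx 1 2 (by decide)) (Q 1) (Q 2) (hb 1)
    (hb 2) (hs 1 2 (by decide))
  obtain ⟨S2, h2c, h21, h22, h2⟩ := stp F hF hNS (v 0) (v 2) (hx 0 2 (by decide)) (Q 0) (Q 2) (hb 0)
    (hb 2) (hs 0 2 (by decide))
  refine ⟨S0 ∪ S1 ∪ S2, ?_, ?_⟩
  · have ha := Finset.card_union_le (S0 ∪ S1) S2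
    have hb := Finset.card_union_le S0 S1
    omega
  · intro w Q' hw0 hb'
    have hbn : Bit F w (-Q') := bit_neg hb'
    have key : (∃ s ∈ S0, ∃ c : k, c ≠ 0 ∧ w = c • s) ∨ (∃ s ∈ S1, ∃ c : k, c ≠ 0 ∧ w = c • s) ∨
        (∃ s ∈ S2, ∃ c : k, c ≠ 0 ∧ w = c • s) := by
      rcases sgn (hb 0) hb' with ha | ha <;> rcases sgn (hb 1) hb' with hc | hc
      · exact Or.inl (h0 w Q' hw0 hb' ha hc)
      · rcases sgn (hb 2) hb' with hd | hd
        · exact Or.inr (Or.inr (h2 w Q' hw0 hb' ha hd))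
        · exact Or.inr (Or.inl (h1 w (-Q') hw0 hbn hc hd))
      · rcases sgn (hb 2) hb' with hd | hd
        · exact Or.inr (Or.inl (h1 w Q' hw0 hb' hc hd))
        · exact Or.inr (Or.inr (h2 w (-Q') hw0 hbn ha hd))
      · exact Or.inl (h0 w (-Q') hw0 hbn ha hc)
    rcases key with ⟨s, h, h'⟩ | ⟨s, h, h'⟩ | ⟨s, h, h'⟩
    · exact ⟨s, Finset.mem_union_left _ (Finset.mem_union_left _ h), h'⟩
    · exact ⟨s, Finset.mem_union_left _ (Finset.mem_union_right _ h), h'⟩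
    · exact ⟨s, Finset.mem_union_right _ h, h'⟩

end Pool.Agent.PQ
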