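import Pool.Agent.PQ.PRM
import Pool.Agent.PQ.DVL
import Pool.Agent.PQ.BIN
import Pool.Agent.PQ.BOF

/-!
# PQ / DIV

Distinct bitangents have distinct reductions.

Suppose `v × v' ≠ 0`.  Some `v j` is a unit; the reductions are proportional and non-zero, so `v' j` is a unit; dividing (a unit
multiple of `v` is again a bitangent with the same `Q`) assume `v j = v' j = 1`; then the reductions are equal.  `a := v' - v ≠ 0`,
`a j = 0`; `prv`: `a = π a'`, `a'` primitive (in `V`), `a' j = 0`, `π` in `V`, not a unit, `π ≠ 0`.  `κ` = residue field, algebraically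
closed (`ST.isAlgClosed_residueField`), `2 ≠ 0` in `κ`.  `ρ := sb (prj v j 1)` over `V`: `ρ (lin v) = 0`, `ρ (lin v') = lin a = π lin a'`.
`G = Q² + lin v S = Q'² + lin v' S'` gives `(ρQ - ρQ')(ρQ + ρQ') = π lin a' ρS'`.  Modulo `V.nonunits` the left side is `0`, so (domain)
`ρQ' = ± ρQ` modulo; replace `Q'` by `-Q'`: `ρQ = ρQ'` modulo.
The reductions of `ρQ` and of `ρS'` are not `0`: if `ρQ` is `0` modulo, the reduction of `G` vanishes on the line `v`, and at a zero
of `S` on this line (`bin_zero`, degree 3) `bns` fails;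
if `ρS' = 0` modulo take a zero of `Q'` on the line (`bin_zero`) and use `bns` for `v', Q', S'` (same reduction of the line).
`D₀ := ρQ - ρQ'`: if `D₀ = 0` then `lin a' ρS' = 0`, impossible.  `prp`: `D₀ = ρ₀ D`, `D` primitive.  Then `ρ₀ D (2 ρQ - D₀) = π lin a' ρS'`
with `D (2ρQ - D₀)` and `lin a' ρS'` both primitive (non-zero modulo), so `π = u ρ₀`, `u` a unit, and
`D (2 ρQ - D₀) = u lin a' ρS'`; modulo: `2 D Q = u a' S'` on the line `v`.  By BIN (`Q := ` reduction of `Q`, `E := 2 D/u`, `a := a'`, `S := S'`,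
`h2` by `bns` for `v'`): the reduction of `a'` is `c` times the reduction of `v`; coordinate `j`: `c = 0`, so `a'` is not
primitive, contradiction.
-/

namespace Pool.Agent.PQ

open MvPolynomial Matrix

private theorem div_mem_unit {M : Type*} [Field M] (V : ValuationSubring M) (x η : M) (y : V)
    (hx : x ∈ V) (hy : V.valuation (y : M) = 1) (h : x = η * y) : η ∈ V := by
  have h1 : V.valuation x ≤ 1 := (V.valuation_le_one_iff x).2 hx
  rw [h, map_mul, hy, mul_one] at h1
  exact (V.valuation_le_one_iff η).1 h1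

private theorem div_unit_iff {M : Type*} [Field M] (V : ValuationSubring M) (x : V) :
    V.valuation (x : M) = 1 ↔ IsLocalRing.residue V x ≠ 0 := by
  rw [← V.valuation_eq_one_iff x]
  rw [Ne, IsLocalRing.residue_eq_zero_iff, IsLocalRing.mem_maximalIdeal, mem_nonunits_iff, not_not]

private theorem div_sb_eval {k : Type*} [CommRing k] (v : Fin 3 → k) (j : Fin 3) (hj : v j = 1) (P : P3 k)
    (p : Fin 3 → k) (hp : v ⬝ᵥ p = 0) : eval p (sb (prj v j 1) P) = eval p P := by
  rw [eval_sb, prj_fix v j 1 (by rw [hj, one_mul]) p hp]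

private theorem div_vecMul {k : Type*} [CommRing k] (v u : Fin 3 → k) (j : Fin 3) (huj : u j = 1) :
    u ᵥ* prj v j 1 = fun l => if l = j then 0 else u l - v l := by
  ext l
  simp only [vecMul, dotProduct, prj, Matrix.of_apply]
  rw [← Finset.add_sum_erase Finset.univ _ (Finset.mem_univ j)]
  rw [if_pos rfl]
  have h1 : ∑ x ∈ Finset.univ.erase j, u x * (if x = j then (fun l => if l = j then 0 else -(1 * v l)) else
      Pi.single x 1) l = ∑ x ∈ Finset.univ.erase j, u x * (Pi.single x (1 : k) : Fin 3 → k) l := by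
    refine Finset.sum_congr rfl fun x hx => ?_
    rw [if_neg (Finset.ne_of_mem_erase hx)]
  rw [h1, huj]
  by_cases hl : l = j
  · subst hl
    rw [if_pos rfl, if_pos rfl, mul_zero, zero_add]
    refine Finset.sum_eq_zero fun x hx => ?_
    rw [Pi.single_eq_of_ne (Ne.symm (Finset.ne_of_mem_erase hx)), mul_zero]
  · rw [if_neg hl, if_neg hl]
    rw [Finset.sum_eq_single l]
    · rw [Pi.single_eq_same]
      ring
    · intro x _ hx
      rw [Pi.single_eq_of_ne (Ne.symm hx), mul_zero]
    · intro h
      exact absurd (Finset.mem_erase.2 ⟨hl, Finset.mem_univ _⟩) h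

private theorem div_map_prj {R S : Type*} [CommRing R] [CommRing S] (φ : R →+* S) (v : Fin 3 → R) (j : Fin 3) :
    (prj v j 1).map φ = prj (fun i => φ (v i)) j 1 := by
  ext i l
  simp only [prj, Matrix.map_apply, Matrix.of_apply]
  by_cases h1 : i = j
  · rw [if_pos h1, if_pos h1]
    by_cases h3 : l = j
    · simp only [if_pos h3, map_zero]
    · simp only [if_neg h3, one_mul, map_neg]
  · rw [if_neg h1, if_neg h1]
    by_cases h3 : l = i
    · subst h3; simp
    · rw [Pi.single_eq_of_ne h3, Pi.single_eq_of_ne h3, map_zero]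

/-- normalised version -/
private theorem div_core {M : Type*} [Field M] [IsAlgClosed M] (V : ValuationSubring M)
    (h2 : V.valuation (2 : M) = 1)
    (G : P3 V) (hNS : NS (map (IsLocalRing.residue V) G))
    (v v' : Fin 3 → V) (j : Fin 3) (hvj : v j = 1) (hvj' : v' j = 1)
    (Q Q' : P3 V) (hb : Bit G v Q) (hb' : Bit G v' Q')
    (hx : ∀ i, IsLocalRing.residue V (v i) = IsLocalRing.residue V (v' i))
    (hD : map (IsLocalRing.residue V) (sb (prj v j 1) Q - sb (prj v j 1) Q') = 0) :
    v = v' := by
  classical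
  have hκ : IsAlgClosed (IsLocalRing.ResidueField V) := ST.isAlgClosed_residueField V
  by_contra hne
  obtain ⟨hQ, S, hS, hGe⟩ := hb
  obtain ⟨hQ', S', hS', hGe'⟩ := hb'
  set res := IsLocalRing.residue V with hres
  -- the primitive difference
  have ha : (fun i => ((v' i - v i : V) : M)) ≠ 0 := by
    intro h0
    apply hne
    ext i
    have := congrFun h0 i
    simp only [Pi.zero_apply] at this
    have h1 : v' i - v i = 0 := Subtype.ext this
    rw [sub_eq_zero] at h1
    rw [h1]
  obtain ⟨η, w, hη, hw, i₀, hi₀⟩ := prv V _ ha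
  have hηV : η ∈ V := div_mem_unit V _ η (w i₀) (v' i₀ - v i₀).2 hi₀ (hw i₀)
  set π : V := ⟨η, hηV⟩ with hπ
  have hπ0 : π ≠ 0 := fun h => hη (congrArg Subtype.val h)
  have haw : ∀ i, v' i - v i = π * w i := fun i => Subtype.ext (hw i)
  have hwj : w j = 0 := by
    have := haw j
    rw [hvj, hvj', sub_self] at this
    rcases mul_eq_zero.1 this.symm with h | h
    · exact absurd h hπ0
    · exact h
  set E := prj v j (1 : V) with hE
  have hEu : (1 : V) * v j = 1 := by rw [hvj, one_mul]
  have hρv : sb E (lin v) = 0 := by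
    rw [sb_lin, hE, div_vecMul v v j hvj]
    have : (fun l => if l = j then (0 : V) else v l - v l) = 0 := by
      ext l
      split_ifs
      · rfl
      · rw [sub_self]; rfl
    rw [this, lin_zero]
  have hρv' : sb E (lin v') = C π * lin w := by
    rw [sb_lin, hE, div_vecMul v v' j hvj', ← lin_smul]
    congr 1
    ext l
    by_cases hl : l = j
    · subst hl
      rw [if_pos rfl, Pi.smul_apply, hwj, smul_zero]
    · rw [if_neg hl, haw l, Pi.smul_apply, smul_eq_mul]
  have hkey : (sb E Q - sb E Q') * (sb E Q + sb E Q') = C π * lin w * sb E S' := by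
    have h1 : sb E G = sb E Q ^ 2 := by
      rw [hGe, map_add, map_mul, map_pow, hρv, zero_mul, add_zero]
    have h3 : sb E G = sb E Q' ^ 2 + C π * lin w * sb E S' := by
      rw [hGe', map_add, map_mul, map_pow, hρv']
    linear_combination h3 - h1
  -- reductions
  set rv : Fin 3 → IsLocalRing.ResidueField V := fun i => res (v i) with hrv
  have hrvj : rv j = 1 := by rw [hrv]; simp [hvj]
  have hrv' : (fun i => res (v' i)) = rv := funext fun i => (hx i).symm
  have hmapsb : ∀ P : P3 V, map res (sb E P) = sb (prj rv j 1) (map res P) := by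
    intro P
    rw [map_sb, hE, div_map_prj]
  have heval : ∀ (P : P3 V) (p : Fin 3 → IsLocalRing.ResidueField V), rv ⬝ᵥ p = 0 →
      eval p (map res (sb E P)) = eval p (map res P) := by
    intro P p hp
    rw [hmapsb, div_sb_eval rv j hrvj _ p hp]
  have hGr : map res G = map res Q ^ 2 + lin rv * map res S := by
    rw [hGe, map_add, map_mul, map_pow, map_lin]
  have hGr' : map res G = map res Q' ^ 2 + lin rv * map res S' := by
    rw [hGe', map_add, map_mul, map_pow, map_lin, hrv']
  have hQne : map res (sb E Q) ≠ 0 := by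
    intro h0
    obtain ⟨p, hp0, hp, hpS⟩ := bin_zero rv (map res S) 3 (by norm_num) (hS.map res)
    refine bns hNS hGr p hp0 hp ?_ hpS
    rw [← heval Q p hp, h0, map_zero]
  have hSne : map res (sb E S') ≠ 0 := by
    intro h0
    obtain ⟨p, hp0, hp, hpQ⟩ := bin_zero rv (map res Q') 2 (by norm_num) (hQ'.map res)
    refine bns hNS hGr' p hp0 hp hpQ ?_
    rw [← heval S' p hp, h0, map_zero]
  have hw0 : res (w i₀) ≠ 0 := (div_unit_iff V (w i₀)).1 hi₀
  have hlw : map res (lin w) ≠ 0 := by
    rw [map_lin]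
    intro h0
    apply hw0
    have h1 := congrArg (eval (Pi.single i₀ (1 : IsLocalRing.ResidueField V))) h0
    rw [eval_lin, map_zero, dotProduct_single, mul_one] at h1
    exact h1
  have hT2 : map res (lin w * sb E S') ≠ 0 := by
    rw [map_mul]
    exact mul_ne_zero hlw hSne
  set D₀ := sb E Q - sb E Q' with hD₀
  have hD₀0 : D₀ ≠ 0 := by
    intro h0
    rw [h0, zero_mul, mul_assoc] at hkey
    rcases mul_eq_zero.1 hkey.symm with h | h
    · exact hπ0 (C_eq_zero.1 h)
    · rw [h, map_zero] at hT2
      exact hT2 rfl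
  have hD₀M : map (algebraMap V M) D₀ ≠ 0 := by
    rw [Ne, map_eq_zero_iff _ (map_injective _ (IsFractionRing.injective V M))]
    exact hD₀0
  obtain ⟨η', D, hη', hDe, hDr⟩ := prp V _ hD₀M
  have hη'V : η' ∈ V := by
    obtain ⟨m, hm⟩ := MvPolynomial.ne_zero_iff.1 hDr
    rw [coeff_map] at hm
    have h1 := congrArg (coeff m) hDe
    rw [coeff_map, coeff_C_mul, coeff_map] at h1
    exact div_mem_unit V _ η' (coeff m D) (coeff m D₀).2 ((div_unit_iff V _).2 hm) h1
  set r : V := ⟨η', hη'V⟩ with hr
  have hr0 : r ≠ 0 := fun h => hη' (congrArg Subtype.val h)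
  have hDD : D₀ = C r * D := by
    apply map_injective _ (IsFractionRing.injective V M)
    rw [hDe, map_mul, map_C]
    rfl
  set T1 := D * (2 * sb E Q - D₀) with hT1
  have hk2 : C r * T1 = C π * (lin w * sb E S') := by
    rw [hT1, ← mul_assoc, ← hDD, ← mul_assoc, ← hkey, hD₀]
    ring
  have h2κ : (2 : IsLocalRing.ResidueField V) ≠ 0 := by
    have h3 := (div_unit_iff V (2 : V)).1 (by exact h2)
    rwa [map_ofNat] at h3
  have hT1r : map res T1 = map res D * (2 * map res (sb E Q)) := by
    rw [hT1, map_mul, map_sub, hD, sub_zero, map_mul, map_ofNat]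
  have hT10 : map res T1 ≠ 0 := by
    rw [hT1r]
    refine mul_ne_zero hDr (mul_ne_zero ?_ hQne)
    rw [← map_ofNat (C (σ := Fin 3) (R := IsLocalRing.ResidueField V)) 2]
    exact fun h => h2κ (C_eq_zero.1 h)
  -- comparison of the contents
  have hcomp : ∃ c : IsLocalRing.ResidueField V, c ≠ 0 ∧ map res T1 = C c * map res (lin w * sb E S') := by
    rcases V.mem_or_inv_mem (η / η') with h | h
    · set u : V := ⟨η / η', h⟩ with hu
      have h1 : π = r * u := Subtype.ext (by
        change η = η' * (η / η')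
        field_simp)
      rw [h1, C_mul, mul_assoc] at hk2
      have h3 : T1 = C u * (lin w * sb E S') :=
        mul_left_cancel₀ (fun h => hr0 (C_eq_zero.1 h)) hk2
      have h4 : map res T1 = C (res u) * map res (lin w * sb E S') := by
        rw [h3, map_mul, map_C]
      refine ⟨res u, fun h0 => hT10 ?_, h4⟩
      rw [h4, h0, C_0, zero_mul]
    · set u : V := ⟨(η / η')⁻¹, h⟩ with hu
      have h1 : r = π * u := Subtype.ext (by
        change η' = η * (η / η')⁻¹
        field_simp)
      rw [h1, C_mul, mul_assoc] at hk2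
      have h3 : C u * T1 = lin w * sb E S' :=
        mul_left_cancel₀ (fun h => hπ0 (C_eq_zero.1 h)) hk2
      have h4 : C (res u) * map res T1 = map res (lin w * sb E S') := by
        rw [← h3, map_mul (map res) (C u) T1, map_C]
      have h5 : res u ≠ 0 := fun h0 => hT2 (by rw [← h4, h0, C_0, zero_mul])
      refine ⟨(res u)⁻¹, inv_ne_zero h5, ?_⟩
      rw [← h4, ← mul_assoc, ← C_mul, inv_mul_cancel₀ h5, C_1, one_mul]
  obtain ⟨c, hc, hceq⟩ := hcomp
  have hDhom : D.IsHomogeneous 2 := by
    intro m hm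
    have h1 : coeff m D₀ ≠ 0 := by
      rw [hDD, coeff_C_mul]
      exact mul_ne_zero hr0 hm
    have h3 : D₀.IsHomogeneous 2 := (sb_hom E hQ).sub (sb_hom E hQ')
    exact h3 h1
  obtain ⟨c', hc'⟩ := bin rv (fun i => res (w i)) (by
      intro h0
      have := congrFun h0 j
      rw [hrvj] at this
      exact one_ne_zero this) (map res Q) (C (2 * c⁻¹) * map res D) (map res S') (hQ.map res)
      (by
        have := (isHomogeneous_C (Fin 3) (2 * c⁻¹)).mul (hDhom.map res)
        rwa [zero_add] at this) (hS'.map res)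
      (by
        intro p hp
        have h1 := congrArg (eval p) hceq
        rw [hT1r] at h1
        simp only [map_mul, eval_C, map_ofNat] at h1
        rw [heval Q p hp, heval S' p hp, map_lin, eval_lin] at h1
        rw [map_mul, eval_C]
        have h3 : c⁻¹ * c = 1 := inv_mul_cancel₀ hc
        linear_combination c⁻¹ * h1 + ((fun i => res (w i)) ⬝ᵥ p) * eval p (map res S') * h3)
      (by
        intro p hp0 hp hpQ
        refine bns hNS hGr' p hp0 hp ?_
        have h1 := congrArg (eval p) hD
        rw [map_sub, map_sub, map_zero, heval Q p hp, heval Q' p hp, hpQ, zero_sub, neg_eq_zero] at h1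
        exact h1)
  have h5 := congrFun hc' j
  rw [Pi.smul_apply, hrvj, smul_eq_mul, mul_one] at h5
  rw [hwj, map_zero] at h5
  have h6 := congrFun hc' i₀
  rw [← h5, Pi.smul_apply, zero_smul] at h6
  exact hw0 h6

private theorem div_core' {M : Type*} [Field M] [IsAlgClosed M] (V : ValuationSubring M)
    (h2 : V.valuation (2 : M) = 1)
    (G : P3 V) (hNS : NS (map (IsLocalRing.residue V) G))
    (v v' : Fin 3 → V) (j : Fin 3) (hvj : v j = 1) (hvj' : v' j = 1)
    (Q Q' : P3 V) (hb : Bit G v Q) (hb' : Bit G v' Q')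
    (hx : ∀ i, IsLocalRing.residue V (v i) = IsLocalRing.residue V (v' i)) :
    v = v' := by
  have hbn : Bit G v' (-Q') := by
    obtain ⟨hQ', S', hS', hGe'⟩ := hb'
    refine ⟨hQ'.neg, S', hS', ?_⟩
    rw [neg_sq]
    exact hGe'
  have h0 : map (IsLocalRing.residue V) (sb (prj v j 1) Q - sb (prj v j 1) Q') *
      map (IsLocalRing.residue V) (sb (prj v j 1) Q + sb (prj v j 1) Q') = 0 := by
    obtain ⟨hQ, S, hS, hGe⟩ := hb
    obtain ⟨hQ', S', hS', hGe'⟩ := hb'
    have h1 : sb (prj v j 1) G = sb (prj v j 1) Q ^ 2 := by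
      rw [hGe, map_add, map_mul, map_pow, sb_lin, div_vecMul v v j hvj]
      have : (fun l => if l = j then (0 : V) else v l - v l) = 0 := by
        ext l
        split_ifs
        · rfl
        · rw [sub_self]; rfl
      rw [this, lin_zero, zero_mul, add_zero]
    have h3 : sb (prj v j 1) G = sb (prj v j 1) Q' ^ 2 + sb (prj v j 1) (lin v') * sb (prj v j 1) S' := by
      rw [hGe', map_add, map_mul, map_pow]
    have h4 : map (IsLocalRing.residue V) (sb (prj v j 1) (lin v')) = 0 := by
      rw [sb_lin, div_vecMul v v' j hvj', map_lin]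
      have : (fun i => IsLocalRing.residue V (if i = j then (0 : V) else v' i - v i)) = 0 := by
        ext l
        split_ifs
        · rw [map_zero]; rfl
        · rw [map_sub, hx l, sub_self]; rfl
      rw [this, lin_zero]
    have h5 : (sb (prj v j 1) Q - sb (prj v j 1) Q') * (sb (prj v j 1) Q + sb (prj v j 1) Q') =
        sb (prj v j 1) (lin v') * sb (prj v j 1) S' := by
      linear_combination h3 - h1
    rw [← map_mul, h5, map_mul, h4, zero_mul]
  rcases mul_eq_zero.1 h0 with h | h
  · exact div_core V h2 G hNS v v' j hvj hvj' Q Q' hb hb' hx h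
  · refine div_core V h2 G hNS v v' j hvj hvj' Q (-Q') hb hbn hx ?_
    rw [map_neg, sub_neg_eq_add]
    exact h

theorem div' {M : Type*} [Field M] [IsAlgClosed M] (V : ValuationSubring M) (h2 : V.valuation (2 : M) = 1)
    (G : P3 V) (hG : G.IsHomogeneous 4) (hNS : NS (map (IsLocalRing.residue V) G))
    (v v' : Fin 3 → V) (hv : ∃ i, V.valuation (v i : M) = 1) (hv' : ∃ i, V.valuation (v' i : M) = 1)
    (Q Q' : P3 V) (hb : Bit G v Q) (hb' : Bit G v' Q')
    (hx : crossProduct (fun i => IsLocalRing.residue V (v i)) (fun i => IsLocalRing.residue V (v' i)) = 0) :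
    crossProduct v v' = 0 := by
  classical
  set res := IsLocalRing.residue V with hres
  obtain ⟨j, hj⟩ := hv
  obtain ⟨j', hj'⟩ := hv'
  have hjr : res (v j) ≠ 0 := (div_unit_iff V (v j)).1 hj
  have hjr' : res (v' j') ≠ 0 := (div_unit_iff V (v' j')).1 hj'
  have hprop : ∀ a b, res (v a) * res (v' b) = res (v b) * res (v' a) := by
    have e0 := congrFun hx 0
    have e1 := congrFun hx 1
    have e2 := congrFun hx 2
    simp only [crossProduct, LinearMap.mk₂_apply, Matrix.cons_val_zero, Matrix.cons_val_one, Matrix.cons_val,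
      Pi.zero_apply] at e0 e1 e2
    intro a b
    fin_cases a <;> fin_cases b <;> simp only [Fin.zero_eta, Fin.mk_one, Fin.reduceFinMk, Fin.isValue] <;>
      first
        | ring1
        | linear_combination e0
        | linear_combination -e0
        | linear_combination e1
        | linear_combination -e1
        | linear_combination e2
        | linear_combination -e2
  have hjj : res (v' j) ≠ 0 := by
    intro h0
    have := hprop j j'
    rw [h0, mul_zero] at this
    rcases mul_eq_zero.1 this with h | h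
    · exact hjr h
    · exact hjr' h
  have hu : IsUnit (v j) := by
    by_contra h
    exact hjr ((IsLocalRing.residue_eq_zero_iff _).2 ((IsLocalRing.mem_maximalIdeal _).2 h))
  have hu' : IsUnit (v' j) := by
    by_contra h
    exact hjj ((IsLocalRing.residue_eq_zero_iff _).2 ((IsLocalRing.mem_maximalIdeal _).2 h))
  obtain ⟨u, hu⟩ := hu
  obtain ⟨u', hu'⟩ := hu'
  have hscale : ∀ (x : Fin 3 → V) (P : P3 V) (t : Vˣ), Bit G x P → Bit G (fun i => (↑t⁻¹ : V) * x i) P := by
    intro x P t hbx
    obtain ⟨hP, S, hS, hGe⟩ := hbx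
    refine ⟨hP, C (t : V) * S, ?_, ?_⟩
    · have := (isHomogeneous_C (Fin 3) (t : V)).mul hS
      rwa [zero_add] at this
    · rw [hGe]
      have h1 : lin (fun i => (↑t⁻¹ : V) * x i) = C (↑t⁻¹ : V) * lin x := by
        rw [← lin_smul]
        rfl
      rw [h1]
      have h3 : (C (↑t⁻¹ : V) : P3 V) * C (t : V) = 1 := by
        rw [← C_mul, Units.inv_mul, C_1]
      linear_combination (-(lin x * S)) * h3
  have hmain := div_core' V h2 G hNS (fun i => (↑u⁻¹ : V) * v i) (fun i => (↑u'⁻¹ : V) * v' i) j
    (by rw [← hu, Units.inv_mul]) (by rw [← hu', Units.inv_mul]) Q Q' (hscale v Q u hb) (hscale v' Q' u' hb')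
    (by
      intro i
      have h1 := hprop i j
      have h3 : res (↑u⁻¹ : V) * res (v j) = 1 := by
        rw [← map_mul, ← hu, Units.inv_mul, map_one]
      have h4 : res (↑u'⁻¹ : V) * res (v' j) = 1 := by
        rw [← map_mul, ← hu', Units.inv_mul, map_one]
      rw [map_mul, map_mul]
      linear_combination (res (↑u⁻¹ : V) * res (↑u'⁻¹ : V)) * h1 +
        (-(res (↑u⁻¹ : V) * res (v i))) * h4 + (res (↑u'⁻¹ : V) * res (v' i)) * h3)
  have hv1 : ∀ i, v i = v j * ((↑u⁻¹ : V) * v i) := by
    intro i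
    rw [← hu, ← mul_assoc, Units.mul_inv, one_mul]
  have hv1' : ∀ i, v' i = v' j * ((↑u⁻¹ : V) * v i) := by
    intro i
    have h1 : (↑u⁻¹ : V) * v i = (↑u'⁻¹ : V) * v' i := congrFun hmain i
    rw [h1, ← hu', ← mul_assoc, Units.mul_inv, one_mul]
  have key : ∀ a b, v a * v' b = v b * v' a := by
    intro a b
    linear_combination (v' b) * hv1 a + (v j * ((↑u⁻¹ : V) * v a)) * hv1' b - (v' a) * hv1 b -
      (v j * ((↑u⁻¹ : V) * v b)) * hv1' a
  funext i
  fin_cases i
  · change v 1 * v' 2 - v 2 * v' 1 = 0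
    rw [key 1 2, sub_self]
  · change v 2 * v' 0 - v 0 * v' 2 = 0
    rw [key 2 0, sub_self]
  · change v 0 * v' 1 - v 1 * v' 0 = 0
    rw [key 0 1, sub_self]

end Pool.Agent.PQ
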