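import Pool.Agent.PQ.ALB
import Pool.Agent.PQ.TRF
import Pool.Agent.PQ.REL
import Pool.Agent.PQ.BTX

/-!
# PQ / DSC

A Riemann model of a form over `k` (algebraically closed) is defined over `k`.  `F_M := map F = sb g (RB b)`.  Bitangents of `F_M`: row `g r`
(`= e_r ᵥ* g`, from `bit_x`, `trf_bit`) and `b i ᵥ* g = ∑ r, b i r • g r` (from `bit_s`, `rel_field`).  `alb'`: `g r = ν r • N r`, `b i ᵥ* g = σ i • N' i`,
`N, N'` over `k`.  `N 0, N 1, N 2` are independent (over `M`, hence over `k`).  `∑ r, (b i r * ν r / σ i) • N r = N' i`: solving the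
linear system over `k` (Cramer; uniqueness over `M`): `b i r * ν r / σ i ∈ k`.  `i = 0`: `ν r / σ 0 ∈ k`, so `ν r / ν 0 ∈ k`.  `b i 0 = 1`:
`ν 0 / σ i ∈ k`.  Hence `b i r ∈ k`.  `g = ν 0 • g1` with `g1` over `k`; `F_M = C (ν 0 ^ 4) * map (sb g1 (RB b1))` (forms of degree 4), compare a
non-zero coefficient of `F` : `ν 0 ^ 4 ∈ k`, so `ν 0 ∈ k` (`k` algebraically closed).
-/

namespace Pool.Agent.PQ

open MvPolynomial Matrix

theorem dsc_aeval_smul {R : Type*} [CommRing R] {n : ℕ} {P : P3 R} (hP : P.IsHomogeneous n)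
    {S : Type*} [CommRing S] [Algebra R S] (a : S) (f : Fin 3 → S) :
    aeval (fun i => a * f i) P = a ^ n * aeval f P := by
  rw [aeval_def, aeval_def, eval₂_eq', eval₂_eq', Finset.mul_sum]
  refine Finset.sum_congr rfl fun d hd => ?_
  have hd' : ∑ i, d i = n := by
    have := hP (mem_support_iff.1 hd)
    rw [← this, Finsupp.weight_apply, Finsupp.sum_fintype]
    · simp
    · simp
  have h2 : ∏ i, (a * f i) ^ d i = a ^ n * ∏ i, f i ^ d i := by
    simp only [mul_pow, Finset.prod_mul_distrib]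
    rw [Finset.prod_pow_eq_pow_sum, hd']
  rw [h2]
  ring

theorem dsc_sb_smul {R : Type*} [CommRing R] {n : ℕ} {P : P3 R} (hP : P.IsHomogeneous n) (s : R)
    (G : Matrix (Fin 3) (Fin 3) R) : sb (s • G) P = C (s ^ n) * sb G P := by
  unfold sb
  have h1 : (fun i => lin ((s • G) i)) = fun i => C s * lin (G i) := by
    funext i
    rw [← lin_smul]
    rfl
  rw [h1, dsc_aeval_smul hP, C_pow]

private theorem root4 {k M : Type*} [Field k] [IsAlgClosed k] [Field M] [Algebra k M] (x : M) (u : k)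
    (h : x ^ 4 = algebraMap k M u) : ∃ c : k, x = algebraMap k M c := by
  have hs := IsAlgClosed.splits (Polynomial.X ^ 4 - Polynomial.C u : Polynomial k)
  have h0 : (Polynomial.X ^ 4 - Polynomial.C u : Polynomial k) ≠ 0 :=
    Polynomial.X_pow_sub_C_ne_zero (by norm_num) u
  obtain ⟨c, hc⟩ := hs.mem_range_of_isRoot (i := algebraMap k M) h0 (x := x) (by
    simp [Polynomial.IsRoot, h])
  exact ⟨c, hc.symm⟩

theorem dsc {k M : Type*} [Field k] [CharZero k] [IsAlgClosed k] [Field M] [IsAlgClosed M] [Algebra k M]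
    (F : P3 k) (hNS : NS (map (algebraMap k M) F)) (g : Matrix (Fin 3) (Fin 3) M) (hg : g.det ≠ 0)
    (b : Fin 4 → Fin 3 → M) (hb : ND b) (hE : map (algebraMap k M) F = sb g (RB b)) :
    (∀ i r, ∃ c : k, b i r = algebraMap k M c) ∧ ∀ i j, ∃ c : k, g i j = algebraMap k M c := by
  have hgu : IsUnit g.det := isUnit_iff_ne_zero.2 hg
  have hvm : ∀ v : Fin 3 → M, v ≠ 0 → v ᵥ* g ≠ 0 := by
    intro v hv h0
    apply hv
    have := congrArg (fun q => q ᵥ* g⁻¹) h0
    simpa [Matrix.vecMul_vecMul, Matrix.mul_nonsing_inv _ hgu] using this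
  have hA : ∀ r : Fin 3, ∃ (c : M) (w : Fin 3 → k), c ≠ 0 ∧ w ≠ 0 ∧
      g r = c • fun i => algebraMap k M (w i) := by
    intro r
    have h1 := trf_bit g (bit_x (yy b) r)
    have h2 : (Pi.single r (1 : M)) ᵥ* g = g r := by
      rw [Matrix.single_one_vecMul]
      rfl
    have h3 := hvm (Pi.single r (1 : M)) (by simp)
    rw [h2] at h1 h3
    exact alb' F hNS (g r) h3 _ (by rw [hE]; exact h1)
  have hB : ∀ i : Fin 4, ∃ (c : M) (w : Fin 3 → k), c ≠ 0 ∧ w ≠ 0 ∧
      b i ᵥ* g = c • fun i => algebraMap k M (w i) := by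
    intro i
    have h1 := trf_bit g (bit_s (b i) (hb.ne i) (yy b) _ (rel_field b i (hb.ne i)))
    have h3 := hvm (b i) (fun h0 => hb.ne i 0 (by rw [h0]; rfl))
    exact alb' F hNS _ h3 _ (by rw [hE]; exact h1)
  choose ν N hν hN hgN using hA
  choose σ N' hσ hN' hgN' using hB
  let Nm : Matrix (Fin 3) (Fin 3) k := Matrix.of N
  have hg1 : g = Matrix.diagonal ν * Nm.map (algebraMap k M) := by
    ext i j
    rw [Matrix.diagonal_mul, hgN i]
    rfl
  have hdet : Nm.det ≠ 0 := by
    intro h0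
    apply hg
    rw [hg1, Matrix.det_mul]
    have : (Nm.map (algebraMap k M)).det = algebraMap k M Nm.det := by
      rw [RingHom.map_det]
      rfl
    rw [this, h0, map_zero, mul_zero]
  have hNu : IsUnit Nm.det := isUnit_iff_ne_zero.2 hdet
  let c : Fin 4 → Fin 3 → k := fun i => N' i ᵥ* Nm⁻¹
  have hc : ∀ i r, b i r * ν r = σ i * algebraMap k M (c i r) := by
    intro i r
    have h1 : (fun s => b i s * ν s) ᵥ* (Nm.map (algebraMap k M)) =
        σ i • fun j => algebraMap k M (N' i j) := by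
      rw [← hgN' i, hg1, ← Matrix.vecMul_vecMul]
      congr 1
      ext s
      rw [Matrix.vecMul_diagonal]
    have h2 := congrArg (fun q => q ᵥ* (Nm⁻¹.map (algebraMap k M))) h1
    simp only [Matrix.vecMul_vecMul] at h2
    rw [← Matrix.map_mul, Matrix.mul_nonsing_inv _ hNu, Matrix.map_one _ (map_zero _) (map_one _),
      Matrix.vecMul_one] at h2
    have h3 := congrFun h2 r
    simp only [Matrix.smul_vecMul, Pi.smul_apply, smul_eq_mul] at h3
    rw [h3]
    congr 1
    simp only [c, Matrix.vecMul, dotProduct, Matrix.map_apply, map_sum, map_mul]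
  have hν0 : ∀ r, ν r = σ 0 * algebraMap k M (c 0 r) := by
    intro r
    have := hc 0 r
    rwa [hb.zero, one_mul] at this
  have hc0 : ∀ r, c 0 r ≠ 0 := by
    intro r h0
    apply hν r
    rw [hν0, h0, map_zero, mul_zero]
  have hci : ∀ i, c i 0 ≠ 0 := by
    intro i h0
    apply hν 0
    have := hc i 0
    rwa [hb.col, one_mul, h0, map_zero, mul_zero] at this
  have inj : ∀ x : k, x ≠ 0 → algebraMap k M x ≠ 0 := fun x hx => by
    rwa [Ne, map_eq_zero]
  have hbk : ∀ i r, b i r = algebraMap k M (c i r * c 0 0 / (c i 0 * c 0 r)) := by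
    intro i r
    have e1 := hc i r
    have e2 := hc i 0
    rw [hb.col, one_mul] at e2
    rw [hν0] at e1 e2
    have i1 := inj _ (hc0 r)
    have i2 := inj _ (hci i)
    have i3 := inj _ (hc0 0)
    have i4 := hσ 0
    rw [map_div₀, map_mul, map_mul, eq_div_iff (mul_ne_zero i2 i1)]
    apply mul_left_cancel₀ i4
    have e3 : σ 0 * (b i r * (algebraMap k M (c i 0) * algebraMap k M (c 0 r))) =
        (b i r * (σ 0 * algebraMap k M (c 0 r))) * algebraMap k M (c i 0) := by ring
    rw [e3, e1]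
    have e4 : σ i * algebraMap k M (c i r) * algebraMap k M (c i 0) =
        (σ i * algebraMap k M (c i 0)) * algebraMap k M (c i r) := by ring
    rw [e4, ← e2]
    ring
  let G : Matrix (Fin 3) (Fin 3) k := Matrix.of fun r j => c 0 r * N r j
  have hgG : g = σ 0 • G.map (algebraMap k M) := by
    ext r j
    rw [hgN r]
    simp only [Pi.smul_apply, smul_eq_mul, Matrix.smul_apply, Matrix.map_apply, G, Matrix.of_apply,
      map_mul, hν0 r]
    ring
  let b1 : Fin 4 → Fin 3 → k := fun i r => c i r * c 0 0 / (c i 0 * c 0 r)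
  have hb1 : b = fun i r => algebraMap k M (b1 i r) := by
    funext i r
    exact hbk i r
  have hE2 : map (algebraMap k M) F = C (σ 0 ^ 4) * map (algebraMap k M) (sb G (RB b1)) := by
    have hRB : (RB b).IsHomogeneous 4 := RQ_hom (yy b)
    rw [hE, hgG, dsc_sb_smul hRB, map_sb, map_RB, hb1]
  have hF0 : F ≠ 0 := by
    intro h0
    rw [h0, map_zero] at hNS
    obtain ⟨i, hi⟩ := hNS (Pi.single 0 1) (by simp) (by simp)
    simp at hi
  obtain ⟨e, he⟩ := (MvPolynomial.ne_zero_iff).1 hF0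
  have h5 : algebraMap k M (coeff e F) = σ 0 ^ 4 * algebraMap k M (coeff e (sb G (RB b1))) := by
    have := congrArg (coeff e) hE2
    rwa [coeff_map, coeff_C_mul, coeff_map] at this
  have h6 : coeff e (sb G (RB b1)) ≠ 0 := by
    intro h0
    rw [h0, map_zero, mul_zero, map_eq_zero] at h5
    exact he h5
  obtain ⟨s, hs⟩ := root4 (k := k) (σ 0) (coeff e F / coeff e (sb G (RB b1))) (by
    rw [map_div₀, eq_div_iff (inj _ h6)]
    exact h5.symm)
  refine ⟨fun i r => ⟨_, hbk i r⟩, fun i j => ⟨s * G i j, ?_⟩⟩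
  rw [hgG, map_mul, ← hs]
  rfl

end Pool.Agent.PQ
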