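import Mathlib

/-!
# PQ: plane quartics, bitangents, the Riemann model

Ternary forms are elements of `MvPolynomial (Fin 3) R`.
-/

namespace Pool.Agent.PQ

open MvPolynomial

/-- ternary polynomials -/
abbrev P3 (R : Type*) [CommSemiring R] := MvPolynomial (Fin 3) R

section

variable {R : Type*} [CommRing R]

/-- the linear form with coefficient vector `v` -/
noncomputable def lin (v : Fin 3 → R) : P3 R := ∑ i, C (v i) * X i

/-- linear substitution `F ↦ F ∘ g`, i.e. `X i ↦ ∑ j, g i j * X j` -/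
noncomputable def sb (g : Matrix (Fin 3) (Fin 3) R) : P3 R →ₐ[R] P3 R := aeval (fun i => lin (g i))

/-- the form `F` over the ring `R` is smooth: `F` and its derivatives have no common zero, i.e. they generate an
ideal containing powers of all coordinates -/
def SF (F : P3 R) : Prop :=
  ∃ N : ℕ, ∀ i : Fin 3, (X i : P3 R) ^ N ∈ Ideal.span ({F} ∪ Set.range fun j : Fin 3 => pderiv j F)

/-- no singular point with coordinates in the field `k` -/
def NS {k : Type*} [Field k] (F : P3 k) : Prop :=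
  ∀ p : Fin 3 → k, p ≠ 0 → eval p F = 0 → ∃ i, eval p (pderiv i F) ≠ 0

/-- `F` is the square of `Q` on the line `v`: bitangent -/
structure Bit (F : P3 R) (v : Fin 3 → R) (Q : P3 R) : Prop where
  hom : Q.IsHomogeneous 2
  eq : ∃ S : P3 R, S.IsHomogeneous 3 ∧ F = Q ^ 2 + lin v * S

/-- `Q` and `Q'` have opposite values at the intersection of the lines `v` and `v'` -/
def Opp (v : Fin 3 → R) (Q : P3 R) (v' : Fin 3 → R) (Q' : P3 R) : Prop :=
  eval (crossProduct v v') Q = -eval (crossProduct v v') Q'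

/-- `Q` and `Q'` have the same value at the intersection of the lines `v` and `v'` -/
def Sam (v : Fin 3 → R) (Q : P3 R) (v' : Fin 3 → R) (Q' : P3 R) : Prop :=
  eval (crossProduct v v') Q = eval (crossProduct v v') Q'

/-! ### The Riemann model -/

/-- `X r * (y r)(X)` -/
noncomputable def Ay (y : Fin 3 → Fin 3 → R) (r : Fin 3) : P3 R := X r * lin (y r)

/-- the quartic `A² + B² + C² - 2AB - 2BC - 2CA`, `A = X₀y₀`, `B = X₁y₁`, `C = X₂y₂` -/
noncomputable def RQ (y : Fin 3 → Fin 3 → R) : P3 R :=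
  Ay y 0 ^ 2 + Ay y 1 ^ 2 + Ay y 2 ^ 2 - 2 * (Ay y 0 * Ay y 1 + Ay y 1 * Ay y 2 + Ay y 2 * Ay y 0)

/-- products of the two other entries -/
def aa (b : Fin 4 → Fin 3 → R) (i : Fin 4) (r : Fin 3) : R := b i (r + 1) * b i (r + 2)

/-- signed `3 × 3` minors (row `i` is deleted) -/
def m3 (b : Fin 4 → Fin 3 → R) (i : Fin 4) : R :=
  (-1) ^ (i : ℕ) * Matrix.det (Matrix.of fun j : Fin 3 => b (i.succAbove j))

/-- the minors of `b` -/
def mu (b : Fin 4 → Fin 3 → R) (i : Fin 4) : R := m3 b i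

/-- the minors of `aa b` -/
def la (b : Fin 4 → Fin 3 → R) (i : Fin 4) : R := m3 (aa b) i

/-- the coefficients of the relations -/
def ka (b : Fin 4 → Fin 3 → R) (i : Fin 4) : R := la b 0 * (mu b i * ∏ j ∈ Finset.univ.erase i, la b j)

/-- the linear forms `y`, solutions of `∑ r, aa b i r * y r = - ka b i * b i` -/
def yy (b : Fin 4 → Fin 3 → R) (r j : Fin 3) : R :=
  -∑ i : Fin 3, (Matrix.adjugate (Matrix.of fun s : Fin 3 => aa b s.succ)) r i *
    (mu b i.succ * ∏ l ∈ Finset.univ.erase i.succ, la b l) * b i.succ j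

/-- the quartic with parameters `b` -/
noncomputable def RB (b : Fin 4 → Fin 3 → R) : P3 R := RQ (yy b)

end

section

variable {k : Type*} [Field k]

/-- the parameters `b` are non-degenerate -/
structure ND (b : Fin 4 → Fin 3 → k) : Prop where
  zero : ∀ r, b 0 r = 1
  col : ∀ i, b i 0 = 1
  ne : ∀ i r, b i r ≠ 0
  one : ∀ i r, i ≠ 0 → r ≠ 0 → b i r ≠ 1
  mu : ∀ i, mu b i ≠ 0
  la : ∀ i, la b i ≠ 0

/-- relation between the linear forms: `∑ r, y r / β r = - κ * β` -/
def Rel (β : Fin 3 → k) (y : Fin 3 → Fin 3 → k) (κ : k) : Prop :=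
  ∀ j, ∑ r, (β r)⁻¹ * y r j = -κ * β j

/-- the quadratic form attached to the bitangents `X r` and `y r` -/
noncomputable def QX {R : Type*} [CommRing R] (y : Fin 3 → Fin 3 → R) (r : Fin 3) : P3 R :=
  Ay y (r + 1) - Ay y (r + 2)

/-- the quadratic form attached to the bitangent `β` -/
noncomputable def QS (β : Fin 3 → k) (y : Fin 3 → Fin 3 → k) : P3 k :=
  C (β 0 * (β 1)⁻¹) * (X 0 * lin (y 1)) - C (β 1 * (β 0)⁻¹) * (X 1 * lin (y 0))

end

end Pool.Agent.PQ
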