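import Pool.Agent.PQ.LNF
import Pool.Agent.ESH.Defs2

/-!
# PQ: plane quartics over a number field with good reduction
-/

namespace Pool.Agent.PQ

open NumberField IsDedekindDomain

/-- the plane quartic `F = 0` over the number field `K` has good reduction at the finite place `v` as a plane quartic:
after a linear substitution `g ∈ GL₃(K)` and multiplication with a constant `c` it becomes a form `G` over the local
ring of `K` at `v` which is smooth (also modulo the maximal ideal) -/
def GoodQ {K : Type*} [Field K] [NumberField K] (F : MvPolynomial (Fin 3) K)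
    (v : HeightOneSpectrum (𝓞 K)) : Prop :=
  ∃ (g : Matrix (Fin 3) (Fin 3) K) (c : K) (G : MvPolynomial (Fin 3) (v.valuation K).valuationSubring),
    g.det ≠ 0 ∧ c ≠ 0 ∧
      MvPolynomial.map (algebraMap (v.valuation K).valuationSubring K) G = MvPolynomial.C c * sb g F ∧ SF G

/-- places of good reduction outside `T` and outside the places over `2` -/
def GoodOut {K : Type*} [Field K] [NumberField K] (T : Finset (HeightOneSpectrum (𝓞 K)))
    (F : MvPolynomial (Fin 3) K) : Prop :=
  ∀ v : HeightOneSpectrum (𝓞 K), v ∉ T → (2 : 𝓞 K) ∉ v.asIdeal → GoodQ F v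

end Pool.Agent.PQ
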