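import Pool.Agent.PQ.FIN
import Pool.Agent.HFB.HBE

/-!
# PQ / FAL: plane quartics, the stable Faltings height
-/

namespace Pool.Agent.PQ

open NumberField IsDedekindDomain Pool.Agent.ESH Pool.Agent.Helper11 Pool.Agent.HFB IntermediateField
open scoped KaehlerDifferential

private theorem fal_gen {K F C Φ : Type*} [Field K] [Field F] [Algebra K F] [Field C] [Algebra K C]
    [Field Φ] [Algebra C Φ] [Algebra F Φ] (hc : Cmps K F C Φ) (ξ : Fin 3 → F)
    (hgen : IntermediateField.adjoin K {z : F | ∃ i j, z = ξ i / ξ j} = ⊤) :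
    IntermediateField.adjoin C {z : Φ | ∃ i j, z = algebraMap F Φ (ξ i) / algebraMap F Φ (ξ j)} = ⊤ := by
  obtain ⟨L, hL⟩ : ∃ L, L = IntermediateField.adjoin C
    {z : Φ | ∃ i j, z = algebraMap F Φ (ξ i) / algebraMap F Φ (ξ j)} := ⟨_, rfl⟩
  rw [← hL]
  have h1 : ∀ f : F, algebraMap F Φ f ∈ L := by
    intro f
    have hf : f ∈ IntermediateField.adjoin K {z : F | ∃ i j, z = ξ i / ξ j} := by
      rw [hgen]; exact IntermediateField.mem_top
    induction hf using IntermediateField.adjoin_induction with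
    | mem x hx =>
      obtain ⟨i, j, rfl⟩ := hx
      rw [map_div₀, hL]
      exact IntermediateField.subset_adjoin C _ ⟨i, j, rfl⟩
    | algebraMap x =>
      rw [hc.comm]
      exact L.algebraMap_mem _
    | add x y _ _ hx hy => rw [map_add]; exact L.add_mem hx hy
    | inv x _ hx => rw [map_inv₀]; exact L.inv_mem hx
    | mul x y _ _ hx hy => rw [map_mul]; exact L.mul_mem hx hy
  have h2 : ∀ a ∈ Submodule.span C (Set.range (algebraMap F Φ)), a ∈ L := by
    intro a ha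
    induction ha using Submodule.span_induction with
    | mem x hx => obtain ⟨f, rfl⟩ := hx; exact h1 f
    | zero => exact L.zero_mem
    | add x y _ _ hx hy => exact L.add_mem hx hy
    | smul c x _ hx => exact L.smul_mem hx
  rw [eq_top_iff]
  intro f _
  obtain ⟨a, ha, b, hb, hb0, hfb⟩ := hc.gen f
  have : f = a / b := by field_simp; exact hfb
  rw [this]
  exact L.div_mem (h2 a ha) (h2 b hb)

theorem fal {K F C Φ : Type*} [Field K] [NumberField K] [Field F] [Algebra K F] [FunField K F]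
    [Field C] [Algebra K C] [Algebra.IsAlgebraic K C] [IsAlgClosed C] [Field Φ] [Algebra C Φ] [Algebra F Φ]
    (hc : Cmps K F C Φ)
    (T : Finset (HeightOneSpectrum (𝓞 K))) (Q : MvPolynomial (Fin 3) K) (hQ : Q.IsHomogeneous 4)
    (hS : SF Q)
    (hT : ∀ v : HeightOneSpectrum (𝓞 K), v ∉ T → (2 : 𝓞 K) ∉ v.asIdeal → GoodQ Q v)
    (ξ : Fin 3 → F) (hξ : ξ ≠ 0) (h0 : MvPolynomial.eval₂ (algebraMap K F) ξ Q = 0)
    (hgen : IntermediateField.adjoin K {z : F | ∃ i j, z = ξ i / ξ j} = ⊤)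
    (a : FinitePlace K → AbsoluteValue C ℝ)
    (ha : ∀ v, IsNonarchimedean (a v) ∧ ∀ y : K, a v (algebraMap K C y) = v y)
    {Ψ : (K →+* ℂ) → Type*} [∀ σ, Field (Ψ σ)] [∀ σ, Algebra ℂ (Ψ σ)] (j : ∀ σ, F →+* Ψ σ)
    (hj : ∀ σ, CmpE σ (j σ)) (x₀ : F) (f₀ : Fin 3 → F)
    (hr : ∀ i, ∀ R : Place C Φ,
      0 ≤ R.ordDiff (algebraMap F Φ (f₀ i) • KaehlerDifferential.D C Φ (algebraMap F Φ x₀)))
    (hli : LinearIndependent C
      (fun i => algebraMap F Φ (f₀ i) • KaehlerDifferential.D C Φ (algebraMap F Φ x₀)))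
    (hsp : ∀ η : Ω[Φ⁄C], (∀ R : Place C Φ, 0 ≤ R.ordDiff η) → η ∈ Submodule.span C
      (Set.range (fun i => algebraMap F Φ (f₀ i) • KaehlerDifferential.D C Φ (algebraMap F Φ x₀)))) :
    hFal (C := C) (Φ := Φ) a j x₀ f₀ ≤ tw 151 (szK K T) := by
  have : CharZero C := charZero_of_injective_algebraMap (algebraMap K C).injective
  have : FunField C Φ := ffc hc
  have h0' : MvPolynomial.eval₂ ((algebraMap C Φ).comp (algebraMap K C))
      (fun i => algebraMap F Φ (ξ i)) Q = 0 := by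
    have h1 : (algebraMap C Φ).comp (algebraMap K C) = (algebraMap F Φ).comp (algebraMap K F) := by
      ext x
      exact (hc.comm x).symm
    rw [h1]
    have h2 := congrArg (algebraMap F Φ) h0
    rw [map_zero, MvPolynomial.hom_eval₂] at h2
    exact h2
  have hξ' : (fun i => algebraMap F Φ (ξ i)) ≠ 0 := by
    intro h
    apply hξ
    funext i
    exact (map_eq_zero _).mp (congrFun h i)
  obtain ⟨β, hβ, hd⟩ := fin T Q hQ hS hT (fun i => algebraMap F Φ (ξ i)) hξ' h0' (fal_gen hc ξ hgen)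
  refine (hbe hc a ha j hj x₀ f₀ hr hli hsp β hβ).trans ?_
  have h16 : 16 ≤ szK K T := by unfold szK; omega
  obtain ⟨S, hS⟩ : ∃ S, S = szK K T := ⟨_, rfl⟩
  rw [← hS] at hd h16 ⊢
  have h1 : 3 + 16 ≤ tw 130 S := by
    have h2 : tw 1 S ≤ tw 130 S := tw_mono (by norm_num) le_rfl
    have h3 : 2 ^ S = tw 1 S := by rw [show (1 : ℕ) = 0 + 1 from rfl, tw_succ, tw_zero]
    have h4 : 2 ^ 16 ≤ 2 ^ S := Nat.pow_le_pow_right (by norm_num) h16
    omega
  have h2 := tw_add h16 hd h1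
  have h3 : tw 20 (Module.finrank C⟮β⟯ Φ + 3 + 16) ≤ tw 151 S := by
    have h4 : tw 20 (tw 131 S) = tw 151 S := tw_comp 20 131 S
    rw [← h4]
    exact tw_mono le_rfl (by rw [add_assoc]; exact h2)
  exact_mod_cast h3

end Pool.Agent.PQ
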