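import Pool.Agent.PQ.BOF
import Pool.Agent.PQ.DVL
import Pool.Agent.PQ.BIN
import Pool.Agent.PQ.QFP

/-!
# PQ / GLU

`glu`: `Q1 - Q2` vanishes at the point `p = v1 × v2`, hence lies in the ideal of the point: `Q1 - Q2 = lin v1 * A + lin v2 * B`, `A, B` linear
forms (on the line `v1` the binary quadratic form `Q1 - Q2` vanishes at `p`, so it is there a multiple of `lin v2`: subtract, use
`dvl_line`; or change coordinates so that `v1, v2` are coordinates).  `q := Q1 - lin v1 * A = Q2 + lin v2 * B`.  `F - q²` vanishes on both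
lines, so `lin v1 ∣ F - q²` (`dvl_line`), `F - q² = lin v1 * T`, `T` vanishes on the line `v2` outside the point `p`, hence everywhere on it;
`T = lin v2 * C` (`dvl_hom`).
`sta`: put `ℓi = lin vi`.  On the line `w`: `(q - Q)(q + Q) = - ℓ1 ℓ2 C`.  `p1 = v1 × w`: `q p1 = Q p1 ≠ 0` (`bof`), so `(q + Q) p1 ≠ 0`; same for
`p2 = v2 × w`.  Let `e = p1`, `f` a second basis vector of the line; `ℓ1 (s e + t f) = α t` (`α ≠ 0`), so `t` divides the binary form `q - Q`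
(value `0` at `e`): `q - Q = t A'`, `A' (q + Q) = - α ℓ2 C` (also at `t = 0`, by continuity in `t`: polynomials); at `p2`: `A' p2 = 0`, so the
binary linear form `A'` is a multiple of `ℓ2` on the line.  Hence `q - Q = - t₀ ℓ1 ℓ2` on the line for some constant `t₀`, and
`(q + t₀ ℓ1 ℓ2)² = Q² = F` on the line, so `ℓ1 ℓ2 (C - 2 t₀ q - t₀² ℓ1 ℓ2) = 0` on the line; as `ℓ1, ℓ2` vanish there only at one point each the
last factor vanishes on the line (polynomials on the line; infinite field), `dvl_line`.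
-/

namespace Pool.Agent.PQ

open MvPolynomial Matrix

private theorem glu_cross_left {k : Type*} [Field k] (v w : Fin 3 → k) :
    v ⬝ᵥ crossProduct v w = 0 := by
  simp [dotProduct, Fin.sum_univ_three, crossProduct]
  ring

private theorem glu_cross_right {k : Type*} [Field k] (v w : Fin 3 → k) :
    w ⬝ᵥ crossProduct v w = 0 := by
  simp [dotProduct, Fin.sum_univ_three, crossProduct]
  ring

private theorem glu_cross_smul {k : Type*} [Field k] (c : k) (w : Fin 3 → k) :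
    crossProduct (c • w) w = 0 := by
  rw [map_smul, LinearMap.smul_apply, cross_self, smul_zero]

private theorem glu_cross_smul' {k : Type*} [Field k] (c : k) (w : Fin 3 → k) :
    crossProduct w (c • w) = 0 := by
  rw [map_smul, cross_self, smul_zero]

theorem glu {k : Type*} [Field k] [IsAlgClosed k] (F : P3 k) (hF : F.IsHomogeneous 4) (v1 v2 : Fin 3 → k)
    (hx : crossProduct v1 v2 ≠ 0) (Q1 Q2 : P3 k) (hb1 : Bit F v1 Q1) (hb2 : Bit F v2 Q2)
    (hs : Sam v1 Q1 v2 Q2) : ∃ q C' : P3 k, q.IsHomogeneous 2 ∧ C'.IsHomogeneous 2 ∧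
      F = q ^ 2 + lin v1 * lin v2 * C' ∧ (∀ p, v1 ⬝ᵥ p = 0 → eval p q = eval p Q1) ∧
      ∀ p, v2 ⬝ᵥ p = 0 → eval p q = eval p Q2 := by
  have hinf : Infinite k := IsAlgClosed.instInfinite
  have hv1 : v1 ≠ 0 := fun h => hx (by rw [h, map_zero, LinearMap.zero_apply])
  have hv2 : v2 ≠ 0 := fun h => hx (by rw [h, map_zero])
  obtain ⟨p, hp⟩ : ∃ p, p = crossProduct v1 v2 := ⟨_, rfl⟩
  have hp0 : p ≠ 0 := by rw [hp]; exact hx
  have hp1 : v1 ⬝ᵥ p = 0 := by rw [hp]; exact glu_cross_left v1 v2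
  have hp2 : v2 ⬝ᵥ p = 0 := by rw [hp]; exact glu_cross_right v1 v2
  have hsp : eval p Q1 = eval p Q2 := by rw [hp]; exact hs
  obtain ⟨f, hf, hind, hspan⟩ := bin_ext v1 p hv1 hp0 hp1
  have hv2f : v2 ⬝ᵥ f ≠ 0 := by
    intro h0
    obtain ⟨c, hc⟩ := bin_mult v1 v2 hv1 (fun x hx' => by
      obtain ⟨s, t, rfl⟩ := hspan x hx'
      rw [dotProduct_add, dotProduct_smul, dotProduct_smul, hp2, h0, smul_zero, smul_zero,
        add_zero])
    exact hx (by rw [hc]; exact glu_cross_smul' c v1)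
  obtain ⟨D, hD⟩ : ∃ D, D = Q1 - Q2 := ⟨_, rfl⟩
  have hDh : D.IsHomogeneous 2 := by rw [hD]; exact hb1.hom.sub hb2.hom
  have hDp : eval p D = 0 := by rw [hD, map_sub, hsp, sub_self]
  obtain ⟨α, hα⟩ : ∃ α, α = eval (p + f) D - eval p D - eval f D := ⟨_, rfl⟩
  obtain ⟨β, hβ⟩ : ∃ β, β = eval f D := ⟨_, rfl⟩
  have hquad : ∀ s t : k, eval (s • p + t • f) D = t * (s * α + t * β) := by
    intro s t
    rw [bin_quad D hDh p f s t, hα, hβ, hDp]
    ring
  -- dual vectors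
  obtain ⟨j, hj⟩ := Function.ne_iff.1 hp0
  rw [Pi.zero_apply] at hj
  obtain ⟨g2, hg2⟩ : ∃ g2, g2 = (v2 ⬝ᵥ f)⁻¹ • v2 := ⟨_, rfl⟩
  have hg2p : g2 ⬝ᵥ p = 0 := by rw [hg2, smul_dotProduct, hp2, smul_zero]
  have hg2f : g2 ⬝ᵥ f = 1 := by rw [hg2, smul_dotProduct, smul_eq_mul, inv_mul_cancel₀ hv2f]
  obtain ⟨u, hu⟩ : ∃ u : Fin 3 → k, u ⬝ᵥ p = 1 :=
    ⟨Pi.single j (p j)⁻¹, by rw [single_dotProduct, inv_mul_cancel₀ hj]⟩
  obtain ⟨g1, hg1⟩ : ∃ g1, g1 = u - (u ⬝ᵥ f) • g2 := ⟨_, rfl⟩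
  have hg1p : g1 ⬝ᵥ p = 1 := by
    rw [hg1, sub_dotProduct, smul_dotProduct, hg2p, hu, smul_zero, sub_zero]
  have hg1f : g1 ⬝ᵥ f = 0 := by
    rw [hg1, sub_dotProduct, smul_dotProduct, hg2f, smul_eq_mul, mul_one, sub_self]
  obtain ⟨w, hw⟩ : ∃ w, w = (α / (v2 ⬝ᵥ f)) • g1 + (β / (v2 ⬝ᵥ f)) • g2 := ⟨_, rfl⟩
  have hwp : w ⬝ᵥ p = α / (v2 ⬝ᵥ f) := by
    rw [hw, add_dotProduct, smul_dotProduct, smul_dotProduct, hg1p, hg2p, smul_zero, add_zero,
      smul_eq_mul, mul_one]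
  have hwf : w ⬝ᵥ f = β / (v2 ⬝ᵥ f) := by
    rw [hw, add_dotProduct, smul_dotProduct, smul_dotProduct, hg1f, hg2f, smul_zero, zero_add,
      smul_eq_mul, mul_one]
  have hdv : lin v1 ∣ D - lin v2 * lin w := by
    refine dvl_line v1 hv1 _ fun x hx' => ?_
    obtain ⟨s, t, rfl⟩ := hspan x hx'
    rw [map_sub, map_mul, eval_lin, eval_lin, hquad]
    simp only [dotProduct_add, dotProduct_smul, hp2, hwp, hwf, smul_eq_mul]
    field_simp
    ring
  obtain ⟨A, hA, hAe⟩ := dvl_hom v1 (D - lin v2 * lin w) 1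
    (hDh.sub ((lin_hom v2).mul (lin_hom w))) hdv
  obtain ⟨q, hq⟩ : ∃ q, q = Q1 - lin v1 * A := ⟨_, rfl⟩
  have hq2 : q = Q2 + lin v2 * lin w := by
    rw [hq]
    linear_combination hAe - hD
  have hqh : q.IsHomogeneous 2 := by
    rw [hq]
    exact hb1.hom.sub ((lin_hom v1).mul hA)
  have hq1e : ∀ x, v1 ⬝ᵥ x = 0 → eval x q = eval x Q1 := by
    intro x hx'
    rw [hq, map_sub, map_mul, eval_lin, hx', zero_mul, sub_zero]
  have hq2e : ∀ x, v2 ⬝ᵥ x = 0 → eval x q = eval x Q2 := by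
    intro x hx'
    rw [hq2, map_add, map_mul, eval_lin, hx', zero_mul, add_zero]
  obtain ⟨S1, -, hS1⟩ := hb1.eq
  obtain ⟨S2, -, hS2⟩ := hb2.eq
  have hFq : (F - q ^ 2).IsHomogeneous 4 := hF.sub (by simpa using hqh.pow 2)
  have hd1 : lin v1 ∣ F - q ^ 2 := by
    refine dvl_line v1 hv1 _ fun x hx' => ?_
    rw [map_sub, map_pow, Bit.eval hS1 x hx', hq1e x hx', sub_self]
  obtain ⟨T, hT, hTe⟩ := dvl_hom v1 (F - q ^ 2) 3 hFq hd1
  obtain ⟨f', hf', hind', hspan'⟩ := bin_ext v2 p hv2 hp0 hp2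
  have hv1f : v1 ⬝ᵥ f' ≠ 0 := by
    intro h0
    obtain ⟨c, hc⟩ := bin_mult v2 v1 hv2 (fun x hx' => by
      obtain ⟨s, t, rfl⟩ := hspan' x hx'
      rw [dotProduct_add, dotProduct_smul, dotProduct_smul, hp1, h0, smul_zero, smul_zero,
        add_zero])
    exact hx (by rw [hc]; exact glu_cross_smul c v2)
  have hd2 : lin v2 ∣ T := by
    refine dvl_line v2 hv2 _ fun x hx' => ?_
    refine bin_cancel v1 x f' T hv1f fun t => ?_
    have h1 : v2 ⬝ᵥ (x + t • f') = 0 := by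
      rw [dotProduct_add, dotProduct_smul, hx', hf', smul_zero, add_zero]
    have h2 := congrArg (eval (x + t • f')) hTe
    rw [map_sub, map_pow, map_mul, eval_lin, Bit.eval hS2 _ h1, hq2e _ h1, sub_self] at h2
    exact h2.symm
  obtain ⟨C', hC', hCe⟩ := dvl_hom v2 T 2 hT hd2
  refine ⟨q, C', hqh, hC', ?_, hq1e, hq2e⟩
  rw [hCe] at hTe
  linear_combination hTe

/-- the conics of the pencil -/
noncomputable def Ct {R : Type*} [CommRing R] (v1 v2 : Fin 3 → R) (q C' : P3 R) (t : R) : P3 R :=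
  C' - C (2 * t) * q - C (t ^ 2) * (lin v1 * lin v2)

theorem ct_eq {R : Type*} [CommRing R] (v1 v2 : Fin 3 → R) (q C' : P3 R) (t : R) :
    q ^ 2 + lin v1 * lin v2 * C' =
      (q + C t * (lin v1 * lin v2)) ^ 2 + lin v1 * lin v2 * Ct v1 v2 q C' t := by
  have h2 : (C (2 : R) : P3 R) = 2 := map_ofNat C 2
  rw [Ct, map_mul, map_pow, h2]
  ring

theorem sta {k : Type*} [Field k] [IsAlgClosed k] (h2 : (2 : k) ≠ 0) (F : P3 k) (hF : F.IsHomogeneous 4)
    (hNS : NS F) (v1 v2 w : Fin 3 → k) (hv1 : v1 ≠ 0) (hv2 : v2 ≠ 0) (hx1 : crossProduct v1 w ≠ 0)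
    (hx2 : crossProduct v2 w ≠ 0) (q C' Q : P3 k) (hq : q.IsHomogeneous 2) (hC : C'.IsHomogeneous 2)
    (hE : F = q ^ 2 + lin v1 * lin v2 * C') (hb : Bit F w Q)
    (h1 : eval (crossProduct v1 w) q = eval (crossProduct v1 w) Q)
    (h3 : eval (crossProduct v2 w) q = eval (crossProduct v2 w) Q) :
    ∃ t : k, lin w ∣ Ct v1 v2 q C' t := by
  have hinf : Infinite k := IsAlgClosed.instInfinite
  have hw : w ≠ 0 := fun h => hx1 (by rw [h, map_zero])
  obtain ⟨S, -, hS⟩ := hb.eq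
  -- the bitangents `v1`, `v2` with the form `q`
  have hbit2 : Bit F v2 q := ⟨hq, lin v1 * C', by simpa using (lin_hom v1).mul hC, by
    rw [hE]; ring⟩
  obtain ⟨-, hQ2⟩ := bof hNS hbit2 hb hx2
  obtain ⟨e, he⟩ : ∃ e, e = crossProduct v1 w := ⟨_, rfl⟩
  obtain ⟨p, hp⟩ : ∃ p, p = crossProduct v2 w := ⟨_, rfl⟩
  rw [← he] at h1
  rw [← hp] at h3 hQ2
  have he0 : e ≠ 0 := by rw [he]; exact hx1
  have hp0 : p ≠ 0 := by rw [hp]; exact hx2
  have hwe : w ⬝ᵥ e = 0 := by rw [he]; exact glu_cross_right v1 w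
  have hwp : w ⬝ᵥ p = 0 := by rw [hp]; exact glu_cross_right v2 w
  have hv1e : v1 ⬝ᵥ e = 0 := by rw [he]; exact glu_cross_left v1 w
  have hv2p : v2 ⬝ᵥ p = 0 := by rw [hp]; exact glu_cross_left v2 w
  obtain ⟨f, hf, hind, hspan⟩ := bin_ext w e hw he0 hwe
  have hα : v1 ⬝ᵥ f ≠ 0 := by
    intro h0
    obtain ⟨c, hc⟩ := bin_mult w v1 hw (fun x hx' => by
      obtain ⟨s, t, rfl⟩ := hspan x hx'
      rw [dotProduct_add, dotProduct_smul, dotProduct_smul, hv1e, h0, smul_zero, smul_zero,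
        add_zero])
    exact hx1 (by rw [hc]; exact glu_cross_smul c w)
  -- a direction on the line along which `v2` is not constant
  obtain ⟨g, hg, hv2g⟩ : ∃ g, w ⬝ᵥ g = 0 ∧ v2 ⬝ᵥ g ≠ 0 := by
    by_contra hc
    push Not at hc
    obtain ⟨c, hc'⟩ := bin_mult w v2 hw hc
    exact hx2 (by rw [hc']; exact glu_cross_smul c w)
  obtain ⟨D, hD⟩ : ∃ D, D = q - Q := ⟨_, rfl⟩
  have hDh : D.IsHomogeneous 2 := by rw [hD]; exact hq.sub hb.hom
  have hDe : eval e D = 0 := by rw [hD, map_sub, h1, sub_self]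
  have hDp : eval p D = 0 := by rw [hD, map_sub, h3, sub_self]
  obtain ⟨δ, hδ⟩ : ∃ δ, δ = eval (e + f) D - eval e D - eval f D := ⟨_, rfl⟩
  obtain ⟨ε, hε⟩ : ∃ ε, ε = eval f D := ⟨_, rfl⟩
  have hquad : ∀ s t : k, eval (s • e + t • f) D = t * (s * δ + t * ε) := by
    intro s t
    rw [bin_quad D hDh e f s t, hδ, hε, hDe]
    ring
  -- the relation on the line
  have hrel : ∀ x, w ⬝ᵥ x = 0 →
      eval x D * (eval x q + eval x Q) = -(v1 ⬝ᵥ x) * (v2 ⬝ᵥ x) * eval x C' := by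
    intro x hx'
    have h4 := Bit.eval hS x hx'
    have h5 := congrArg (eval x) hE
    rw [map_add, map_mul, map_mul, map_pow, eval_lin, eval_lin] at h5
    rw [hD, map_sub]
    linear_combination h4 - h5
  -- value of the linear factor at `p`
  obtain ⟨s2, t2, hst⟩ := hspan p hwp
  have hAp : s2 * δ + t2 * ε = 0 := by
    by_cases ht2 : t2 = 0
    · have hs2 : s2 ≠ 0 := by
        intro h0
        apply hp0
        rw [hst, h0, ht2, zero_smul, zero_smul, add_zero]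
      have hpe : p = s2 • e := by rw [hst, ht2, zero_smul, add_zero]
      have hv2e : v2 ⬝ᵥ e = 0 := by
        rw [hpe, dotProduct_smul, smul_eq_mul] at hv2p
        exact (mul_eq_zero.1 hv2p).resolve_left hs2
      have hQe : eval e Q ≠ 0 := by
        intro h0
        apply hQ2
        rw [hpe, eval_smul_hom hb.hom, h0, mul_zero]
      obtain ⟨u, hue, huf⟩ : ∃ u : Fin 3 → k, u ⬝ᵥ e = 0 ∧ u ⬝ᵥ f = 1 :=
        ⟨(v1 ⬝ᵥ f)⁻¹ • v1, by rw [smul_dotProduct, hv1e, smul_zero], by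
          rw [smul_dotProduct, smul_eq_mul, inv_mul_cancel₀ hα]⟩
      have h6 : eval e ((C δ + C ε * lin u) * (q + Q)) =
          eval e (-(C (v1 ⬝ᵥ f)) * lin v2 * C') := by
        refine bin_cont e f _ _ fun t ht => ?_
        have h7 := hquad 1 t
        rw [one_smul] at h7
        have h8 := hrel (e + t • f) (by
          rw [dotProduct_add, dotProduct_smul, hwe, hf, smul_zero, add_zero])
        rw [h7] at h8
        simp only [map_mul, map_add, map_neg, eval_C, eval_lin, dotProduct_add, dotProduct_smul,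
          hue, huf, hv1e, smul_eq_mul] at h8 ⊢
        apply mul_left_cancel₀ ht
        linear_combination h8
      simp only [map_mul, map_add, map_neg, eval_C, eval_lin, hue, hv2e, h1, mul_zero, add_zero,
        zero_mul] at h6
      have h9 : δ = 0 := by
        refine (mul_eq_zero.1 h6).resolve_right ?_
        rw [← two_mul]
        exact mul_ne_zero h2 hQe
      rw [h9, ht2, mul_zero, zero_mul, add_zero]
    · have h7 := hquad s2 t2
      rw [← hst, hDp] at h7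
      exact (mul_eq_zero.1 h7.symm).resolve_left ht2
  -- the linear factor is a multiple of `v2` on the line
  have hv2st : s2 * (v2 ⬝ᵥ e) + t2 * (v2 ⬝ᵥ f) = 0 := by
    rw [hst, dotProduct_add, dotProduct_smul, dotProduct_smul, smul_eq_mul, smul_eq_mul] at hv2p
    exact hv2p
  have hst0 : s2 ≠ 0 ∨ t2 ≠ 0 := by
    by_contra hc
    push Not at hc
    apply hp0
    rw [hst, hc.1, hc.2, zero_smul, zero_smul, add_zero]
  have hvv : v2 ⬝ᵥ e ≠ 0 ∨ v2 ⬝ᵥ f ≠ 0 := by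
    by_contra hc
    push Not at hc
    apply hv2g
    obtain ⟨s, t, rfl⟩ := hspan g hg
    rw [dotProduct_add, dotProduct_smul, dotProduct_smul, hc.1, hc.2, smul_zero, smul_zero,
      add_zero]
  obtain ⟨c, hc1, hc2⟩ : ∃ c : k, δ = c * (v2 ⬝ᵥ e) ∧ ε = c * (v2 ⬝ᵥ f) := by
    have hdet : δ * (v2 ⬝ᵥ f) = ε * (v2 ⬝ᵥ e) := by
      rcases hst0 with h | h
      · apply mul_left_cancel₀ h
        linear_combination (v2 ⬝ᵥ f) * hAp - ε * hv2st
      · apply mul_left_cancel₀ h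
        linear_combination δ * hv2st - (v2 ⬝ᵥ e) * hAp
    rcases hvv with h | h
    · refine ⟨δ / (v2 ⬝ᵥ e), (div_mul_cancel₀ _ h).symm, ?_⟩
      rw [div_mul_eq_mul_div, eq_div_iff h]
      exact hdet.symm
    · refine ⟨ε / (v2 ⬝ᵥ f), ?_, (div_mul_cancel₀ _ h).symm⟩
      rw [div_mul_eq_mul_div, eq_div_iff h]
      exact hdet
  have hDl : ∀ x, w ⬝ᵥ x = 0 → eval x D = (c / (v1 ⬝ᵥ f)) * ((v1 ⬝ᵥ x) * (v2 ⬝ᵥ x)) := by
    intro x hx'
    obtain ⟨s, t, rfl⟩ := hspan x hx'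
    rw [hquad, hc1, hc2]
    simp only [dotProduct_add, dotProduct_smul, smul_eq_mul, hv1e]
    field_simp
    ring
  refine ⟨-(c / (v1 ⬝ᵥ f)), ?_⟩
  obtain ⟨τ, hτ⟩ : ∃ τ, τ = -(c / (v1 ⬝ᵥ f)) := ⟨_, rfl⟩
  rw [← hτ]
  have hprod : ∀ x, w ⬝ᵥ x = 0 →
      (v1 ⬝ᵥ x) * ((v2 ⬝ᵥ x) * eval x (Ct v1 v2 q C' τ)) = 0 := by
    intro x hx'
    have h4 := hDl x hx'
    have h5 := hrel x hx'
    have h6 : eval x D = eval x q - eval x Q := by rw [hD, map_sub]
    have h7 : eval x (Ct v1 v2 q C' τ) = eval x C' - 2 * τ * eval x q -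
        τ ^ 2 * ((v1 ⬝ᵥ x) * (v2 ⬝ᵥ x)) := by
      simp only [Ct, map_sub, map_mul, eval_C, eval_lin]
    have h8 : eval x D = -τ * ((v1 ⬝ᵥ x) * (v2 ⬝ᵥ x)) := by
      rw [h4, hτ]
      ring
    have h9 : eval x Q = eval x q + τ * ((v1 ⬝ᵥ x) * (v2 ⬝ᵥ x)) := by
      linear_combination h6 - h8
    rw [h8, h9] at h5
    rw [h7]
    linear_combination h5
  refine dvl_line w hw _ fun x hx' => ?_
  have hprod2 : ∀ y, w ⬝ᵥ y = 0 → (v2 ⬝ᵥ y) * eval y (Ct v1 v2 q C' τ) = 0 := by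
    intro y hy
    have h10 := bin_cancel v1 y f (lin v2 * Ct v1 v2 q C' τ) hα (fun t => by
      rw [map_mul, eval_lin]
      exact hprod _ (by rw [dotProduct_add, dotProduct_smul, hy, hf, smul_zero, add_zero]))
    rwa [map_mul, eval_lin] at h10
  exact bin_cancel v2 x g (Ct v1 v2 q C' τ) hv2g fun t =>
    hprod2 _ (by rw [dotProduct_add, dotProduct_smul, hx', hg, smul_zero, add_zero])

end Pool.Agent.PQ
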