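import Pool.Agent.PQ.CER

/-!
# PQ / GND

Generic parameters are non-degenerate: each entry, `entry - 1`, `mu`, `la` is the value at `t` of a polynomial over `ℤ` (`bg` of the
variables, `map_bg`, `map_mu`, `map_la`) which is not zero, because its value at `t0` over `ℤ` is not zero (`decide`/`norm_num`; `mu` and `la` of
`bg t0` over `ℤ`; `simp [mu, m3, Matrix.det_fin_three]`).  `ht` injective.
-/

namespace Pool.Agent.PQ

open MvPolynomial Matrix

private theorem muz : ∀ i, mu (bg (t0 : Fin 3 → Fin 2 → ℤ)) i ≠ 0 := by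
  decide +kernel

private theorem laz : ∀ i, la (bg (t0 : Fin 3 → Fin 2 → ℤ)) i ≠ 0 := by
  decide +kernel

theorem gnd {M : Type*} [Field M] (t : Fin 3 → Fin 2 → M)
    (ht : AlgebraicIndependent ℤ fun x : Fin 3 × Fin 2 => t x.1 x.2) : ND (bg t) := by
  let tX : Fin 3 → Fin 2 → MvPolynomial (Fin 3 × Fin 2) ℤ := fun i j => X (i, j)
  let φ : MvPolynomial (Fin 3 × Fin 2) ℤ →+* M :=
    (aeval (fun x : Fin 3 × Fin 2 => t x.1 x.2) : MvPolynomial (Fin 3 × Fin 2) ℤ →ₐ[ℤ] M).toRingHom
  let ev : MvPolynomial (Fin 3 × Fin 2) ℤ →+* ℤ :=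
    eval (fun x : Fin 3 × Fin 2 => (t0 : Fin 3 → Fin 2 → ℤ) x.1 x.2)
  have key : ∀ q, ev q ≠ 0 → φ q ≠ 0 := by
    intro q hq h0
    apply hq
    have : q = 0 := ht (by rw [map_zero]; exact h0)
    rw [this, map_zero]
  have b1 : ∀ i r, φ (bg tX i r) = bg t i r := by
    intro i r
    have h1 := congrFun (congrFun (map_bg φ tX) i) r
    have h2 : (fun i r => φ (tX i r)) = t := by
      funext i r
      exact aeval_X _ _
    rw [h2] at h1
    exact h1
  have b2 : ∀ i r, ev (bg tX i r) = bg t0 i r := by
    intro i r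
    have h1 := congrFun (congrFun (map_bg ev tX) i) r
    have h2 : (fun i r => ev (tX i r)) = t0 := by
      funext i r
      exact eval_X _
    rw [h2] at h1
    exact h1
  refine ⟨fun r => rfl, fun i => ?_, fun i r => ?_, fun i r hi hr => ?_, fun i => ?_, fun i => ?_⟩
  · refine Fin.cases rfl (fun i => rfl) i
  · rw [← b1]
    apply key
    rw [b2]
    revert i r
    decide
  · rw [← b1, ← sub_ne_zero, ← map_one φ, ← map_sub]
    apply key
    rw [map_sub, b2, map_one]
    revert i r
    decide
  · have h1 : mu (bg t) i = φ (mu (bg tX) i) := by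
      rw [map_mu]
      congr 1
      funext i r
      exact (b1 i r).symm
    rw [h1]
    apply key
    rw [map_mu]
    have h2 : (fun i r => ev (bg tX i r)) = bg t0 := by funext i r; exact b2 i r
    rw [h2]
    exact muz i
  · have h1 : la (bg t) i = φ (la (bg tX) i) := by
      rw [map_la]
      congr 1
      funext i r
      exact (b1 i r).symm
    rw [h1]
    apply key
    rw [map_la]
    have h2 : (fun i r => ev (bg tX i r)) = bg t0 := by funext i r; exact b2 i r
    rw [h2]
    exact laz i

end Pool.Agent.PQ
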