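import Pool.Agent.PQ.LNF
import Pool.Agent.ST.Gauss

/-!
# PQ / PRM

Primitive multiples.  `prv`: choose the coordinate with the largest `V.valuation` and divide.  `prp`: same with the
coefficients of the polynomial (finitely many, `P.support`); see `gauss_content` in `ST/Gauss.lean` for one variable.
`sqv`: `P = C η * map P'` with `map (residue V) P' ≠ 0` (`prp`; `P = 0` trivial); `P² = C (η²) * map (P'²)` has coefficients in `V` and
`map (residue V) (P'²) ≠ 0` (domain), so some coefficient of `P'²` is a unit, hence `η² ∈ V`, `η ∈ V` (valuation ring).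
-/

namespace Pool.Agent.PQ

open MvPolynomial Matrix

private theorem inv_mul_mem {M : Type*} [Field M] (V : ValuationSubring M) {a b : M} (ha : a ≠ 0)
    (h : V.valuation b ≤ V.valuation a) : a⁻¹ * b ∈ V := by
  rw [← V.valuation_le_one_iff, map_mul, map_inv₀]
  have h2 : V.valuation a ≠ 0 := (Valuation.ne_zero_iff _).2 ha
  calc (V.valuation a)⁻¹ * V.valuation b ≤ (V.valuation a)⁻¹ * V.valuation a := by gcongr
    _ = 1 := inv_mul_cancel₀ h2

theorem prv {M : Type*} [Field M] (V : ValuationSubring M) (v : Fin 3 → M) (hv : v ≠ 0) :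
    ∃ (η : M) (w : Fin 3 → V), η ≠ 0 ∧ (∀ i, v i = η * w i) ∧ ∃ i, V.valuation (w i : M) = 1 := by
  obtain ⟨n, -, hmax⟩ := Finset.exists_max_image (Finset.univ : Finset (Fin 3))
    (fun i => V.valuation (v i)) ⟨0, Finset.mem_univ _⟩
  have hn : v n ≠ 0 := by
    intro h0
    apply hv
    funext i
    have h1 := hmax i (Finset.mem_univ _)
    rw [h0, map_zero, le_zero_iff, map_eq_zero] at h1
    exact h1
  refine ⟨v n, fun i => ⟨(v n)⁻¹ * v i, inv_mul_mem V hn (hmax i (Finset.mem_univ _))⟩, hn,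
    fun i => ?_, n, ?_⟩
  · rw [mul_inv_cancel_left₀ hn]
  · simp only
    rw [inv_mul_cancel₀ hn, map_one]

theorem prp {M : Type*} [Field M] (V : ValuationSubring M) (P : P3 M) (hP : P ≠ 0) :
    ∃ (η : M) (P' : P3 V), η ≠ 0 ∧ P = C η * map (algebraMap V M) P' ∧
      map (IsLocalRing.residue V) P' ≠ 0 := by
  obtain ⟨d, hd, hmax⟩ := Finset.exists_max_image P.support (fun m => V.valuation (P.coeff m))
    (MvPolynomial.support_nonempty.2 hP)
  have ha : P.coeff d ≠ 0 := MvPolynomial.mem_support_iff.1 hd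
  have hV : ∀ m, (P.coeff d)⁻¹ * P.coeff m ∈ V := by
    intro m
    by_cases hm : m ∈ P.support
    · exact inv_mul_mem V ha (hmax m hm)
    · rw [MvPolynomial.notMem_support_iff.1 hm, mul_zero]
      exact V.zero_mem
  set P' : P3 V := ∑ m ∈ P.support, monomial m ⟨(P.coeff d)⁻¹ * P.coeff m, hV m⟩ with hP'
  have hmap : map (algebraMap V M) P' = C (P.coeff d)⁻¹ * P := by
    have h0 : C (P.coeff d)⁻¹ * P = ∑ m ∈ P.support,
        C (P.coeff d)⁻¹ * monomial m (P.coeff m) := by
      rw [← Finset.mul_sum, MvPolynomial.support_sum_monomial_coeff P]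
    rw [hP', map_sum, h0]
    refine Finset.sum_congr rfl fun m _ => ?_
    rw [map_monomial, C_mul_monomial]
    rfl
  refine ⟨P.coeff d, P', ha, ?_, ?_⟩
  · rw [hmap, ← mul_assoc, ← C_mul, mul_inv_cancel₀ ha, C_1, one_mul]
  · intro h0
    have h1 : algebraMap V M (P'.coeff d) = 1 := by
      rw [← coeff_map, hmap, coeff_C_mul, inv_mul_cancel₀ ha]
    have h2 : P'.coeff d = 1 := by
      apply FaithfulSMul.algebraMap_injective V M
      rw [h1, map_one]
    have h3 := congrArg (coeff d) h0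
    rw [coeff_map, h2, map_one, coeff_zero] at h3
    exact one_ne_zero h3

theorem sqv {M : Type*} [Field M] (V : ValuationSubring M) (P : P3 M) (W : P3 V)
    (h : P ^ 2 = map (algebraMap V M) W) : ∃ P' : P3 V, P = map (algebraMap V M) P' := by
  by_cases hP : P = 0
  · exact ⟨0, by rw [hP, map_zero]⟩
  · obtain ⟨η, P', hη, hPP, hres⟩ := prp V P hP
    have h1 : map (IsLocalRing.residue V) (P' ^ 2) ≠ 0 := by
      rw [map_pow]
      exact pow_ne_zero 2 hres
    obtain ⟨m, hm⟩ := MvPolynomial.ne_zero_iff.1 h1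
    rw [coeff_map] at hm
    have hu : IsUnit (coeff m (P' ^ 2)) := IsLocalRing.residue_ne_zero_iff_isUnit _ |>.1 hm
    have h2 : η ^ 2 * algebraMap V M (coeff m (P' ^ 2)) = algebraMap V M (coeff m W) := by
      rw [← coeff_map, ← coeff_map, ← h, hPP, mul_pow, ← C_pow, coeff_C_mul, map_pow]
    obtain ⟨u, hu⟩ := hu
    have h3 : η ^ 2 = algebraMap V M (coeff m W * (↑u⁻¹ : V)) := by
      rw [map_mul, ← h2, ← hu, mul_assoc, ← map_mul, Units.mul_inv, map_one, mul_one]
    have h4 : η ^ 2 ∈ V := by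
      rw [h3]
      exact (coeff m W * (↑u⁻¹ : V)).2
    have h5 : η ∈ V := by
      rw [← V.valuation_le_one_iff] at h4 ⊢
      rw [map_pow] at h4
      exact (pow_le_one_iff_of_nonneg zero_le two_ne_zero).1 h4
    refine ⟨C ⟨η, h5⟩ * P', ?_⟩
    rw [map_mul, map_C]
    exact hPP

end Pool.Agent.PQ
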