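import Pool.Agent.PQ.LNF
import Pool.Agent.PQ.PRM

/-!
# PQ / NSU

A form with smooth reduction is smooth: a singular point `p ≠ 0` over `M`, `prv`: `p = η • w`, `w` primitive in `V`; `F` and its derivatives vanish at
`w` (homogeneous: `eval_smul_hom`; `pderiv` is homogeneous of degree `n - 1`, `IsHomogeneous.pderiv`), reduce: singular point of the reduction.
-/

namespace Pool.Agent.PQ

open MvPolynomial Matrix

theorem nsu {M : Type*} [Field M] (V : ValuationSubring M) (G : P3 V) (n : ℕ) (hG : G.IsHomogeneous n)
    (hNS : NS (map (IsLocalRing.residue V) G)) : NS (map (algebraMap V M) G) := by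
  intro p hp hF
  by_contra hc
  push Not at hc
  obtain ⟨η, w, hη, hpw, i0, hi0⟩ := prv V p hp
  have hp' : p = η • fun i => algebraMap V M (w i) := by
    funext i
    rw [hpw i]
    rfl
  have hev : ∀ (F : P3 V) (m : ℕ), F.IsHomogeneous m → eval p (map (algebraMap V M) F) = 0 →
      eval w F = 0 := by
    intro F m hFm h0
    rw [hp', eval_smul_hom (hFm.map _)] at h0
    have h1 : eval (fun i => algebraMap V M (w i)) (map (algebraMap V M) F) = 0 :=
      (mul_eq_zero.mp h0).resolve_left (pow_ne_zero _ hη)
    have h2 : eval (fun i => algebraMap V M (w i)) (map (algebraMap V M) F) =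
        algebraMap V M (eval w F) := by
      rw [eval_map]
      exact (eval₂_comp (algebraMap V M) w F).symm
    rw [h2] at h1
    exact (map_eq_zero_iff _ (FaithfulSMul.algebraMap_injective V M)).mp h1
  have hres : ∀ F : P3 V, eval w F = 0 →
      eval (fun i => IsLocalRing.residue V (w i)) (map (IsLocalRing.residue V) F) = 0 := by
    intro F h0
    have h2 : eval (fun i => IsLocalRing.residue V (w i)) (map (IsLocalRing.residue V) F) =
        IsLocalRing.residue V (eval w F) := by
      rw [eval_map]
      exact (eval₂_comp (IsLocalRing.residue V) w F).symm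
    rw [h2, h0, map_zero]
  have hw : (fun i => IsLocalRing.residue V (w i)) ≠ 0 := by
    intro h0
    have h1 := congrFun h0 i0
    have h2 : IsUnit (w i0) := (V.valuation_eq_one_iff (w i0)).mpr hi0
    exact ((IsLocalRing.residue_ne_zero_iff_isUnit (w i0)).mpr h2) h1
  obtain ⟨i, hi⟩ := hNS _ hw (hres G (hev G n hG hF))
  apply hi
  rw [pderiv_map']
  apply hres
  apply hev _ (n - 1) hG.pderiv
  rw [← pderiv_map']
  exact hc i

end Pool.Agent.PQ
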