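import Pool.Agent.PQ.CER
import Pool.Agent.PQ.NSU

/-!
# PQ / GSM

The generic member is smooth.  `spz` with `R = ℤ`, `ι = Fin 3 × Fin 2`, `k = ZMod 11`, `φ = eval₂Hom (Int.castRingHom _) (fun x => t0 x.1 x.2)`.
In the residue field `κ` of `V`: `11 = 0` (`φ 11 = 0`), so `CharP κ 11`; `residue (t i r) = t0 i r` (`φ (X - C (t0)) = 0`).  The form
`G = RB (bg t')`, `t' : Fin 3 → Fin 2 → V` the lift of `t`, has `map (algebraMap V M) G = RB (bg t)` and `map (residue V) G = RB (bg t0)` (`map_RB`, `map_bg`).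
`cer` and `nsu`.
-/

namespace Pool.Agent.PQ

open MvPolynomial Matrix

private theorem gsmP : Nat.Prime 11 := by norm_num

private instance gsmF : Fact (Nat.Prime 11) := ⟨gsmP⟩

private theorem gsm1 : (Int.castRingHom (ZMod 11)) 11 = 0 := by decide

private theorem gsm2 : ∀ (i : Fin 3) (j : Fin 2), (t0 : Fin 3 → Fin 2 → ZMod 11) i j -
    (Int.castRingHom (ZMod 11)) ((t0 : Fin 3 → Fin 2 → ℤ) i j) = 0 := by decide

theorem gsm {M : Type*} [Field M] (t : Fin 3 → Fin 2 → M)
    (ht : AlgebraicIndependent ℤ fun x : Fin 3 × Fin 2 => t x.1 x.2) : NS (RB (bg t)) := by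
  obtain ⟨V, h1, h2⟩ := spz (fun x : Fin 3 × Fin 2 => t x.1 x.2) ht
    (eval₂Hom (Int.castRingHom (ZMod 11)) (fun x => (t0 : Fin 3 → Fin 2 → ZMod 11) x.1 x.2))
  have hres : ∀ (p : MvPolynomial (Fin 3 × Fin 2) ℤ),
      eval₂Hom (Int.castRingHom (ZMod 11)) (fun x => (t0 : Fin 3 → Fin 2 → ZMod 11) x.1 x.2) p = 0 →
      ∀ a : V, (a : M) = aeval (fun x : Fin 3 × Fin 2 => t x.1 x.2) p →
      IsLocalRing.residue V a = 0 := by
    intro p hp a ha
    have h3 := h2 p hp
    rw [← ha, ValuationSubring.mem_nonunits_iff_exists_mem_maximalIdeal] at h3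
    obtain ⟨_, h4⟩ := h3
    exact (IsLocalRing.residue_eq_zero_iff a).2 h4
  have hch : CharP (IsLocalRing.ResidueField V) 11 := by
    rw [CharP.charP_iff_prime_eq_zero (by norm_num : Nat.Prime 11)]
    have h3 := hres (C 11) (by
      rw [eval₂Hom_C]
      exact gsm1) ((11 : ℕ) : V) (by
      rw [aeval_C]
      exact (map_natCast V.subtype 11).trans (by simp))
    rw [map_natCast] at h3
    exact h3
  let t' : Fin 3 → Fin 2 → V := fun i j => ⟨t i j, by
    have := h1 (X (i, j))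
    rwa [aeval_X] at this⟩
  have ht' : ∀ i j, IsLocalRing.residue V (t' i j) = t0 i j := by
    intro i j
    have h3 := hres (X (i, j) - C ((t0 : Fin 3 → Fin 2 → ℤ) i j)) (by
      rw [map_sub, eval₂Hom_X', eval₂Hom_C]
      exact gsm2 i j) (t' i j - (((t0 : Fin 3 → Fin 2 → ℤ) i j : ℤ) : V)) (by
      rw [map_sub, aeval_X, aeval_C]
      simp [t'])
    rw [map_sub, sub_eq_zero, map_intCast] at h3
    rw [h3]
    fin_cases i <;> fin_cases j <;> simp [t0]
  have e1 : map (algebraMap V M) (RB (bg t')) = RB (bg t) := by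
    rw [map_RB, map_bg]
    rfl
  have e2 : map (IsLocalRing.residue V) (RB (bg t')) = RB (bg t0) := by
    rw [map_RB, map_bg]
    congr 2
    funext i j
    exact ht' i j
  rw [← e1]
  refine nsu V _ 4 (RQ_hom _) ?_
  rw [e2]
  exact cer

end Pool.Agent.PQ
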