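import Pool.Agent.PQ.DSC
import Pool.Agent.PQ.GSM
import Pool.Agent.PQ.GND

/-!
# PQ / IND

The fifteen coefficients of the generic quartic are algebraically independent.  Index type `{e : Fin 3 →₀ ℕ // e.degree = 4}` has 15
elements; `Algebra.trdeg C M = 15` (basis indexed by `Fin 3 × Fin 2 ⊕ Fin 3 × Fin 3`); by `isTranscendenceBasis_of_le_trdeg_of_finite` it suffices that
`M` is algebraic over `adjoin C (range coefficients)`.  Let `k` = algebraic closure in `M` of the field `C(coefficients)`
(`algebraicClosure`, an intermediate field, algebraically closed since `M` is).  `F := sb g (RB (bg t))` has coefficients in `k`: it is homogeneous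
of degree 4 (`RQ_hom`, `sb_hom`), so its non-zero coefficients have exponents of degree 4; lift it to `k`.  It is `NS` over `M` (`gsm`, `ns_sb`;
`t` is algebraically independent over `ℤ` since it is over `C`, characteristic zero; `det g ≠ 0`: a non-zero polynomial in the `g i j`).  `ND (bg t)` by `gnd`.
`dsc`: all `t i r` and `g i j` are in `k`, hence `C(t, g) ⊆ k`, and `M` is algebraic over `k`.
-/

namespace Pool.Agent.PQ

open MvPolynomial Matrix
open scoped IntermediateField.algebraAdjoinAdjoin

private def S15 : Finset (ℕ × ℕ) := (Finset.range 5 ×ˢ Finset.range 5).filter fun p => p.1 + p.2 ≤ 4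

private theorem S15_card : S15.card = 15 := by decide +kernel

private theorem emb15 : Function.Injective
    (fun e : {e : Fin 3 →₀ ℕ // e.degree = 4} => ((e.1 0, e.1 1) : ℕ × ℕ)) := by
  intro e e' h
  simp only [Prod.mk.injEq] at h
  have h1 := e.2
  have h2 := e'.2
  rw [Finsupp.degree_eq_sum, Fin.sum_univ_three] at h1 h2
  apply Subtype.ext
  ext i
  fin_cases i
  · exact h.1
  · exact h.2
  · change e.1 2 = e'.1 2
    omega

private theorem mem15 (e : {e : Fin 3 →₀ ℕ // e.degree = 4}) : ((e.1 0, e.1 1) : ℕ × ℕ) ∈ S15 := by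
  have h1 := e.2
  rw [Finsupp.degree_eq_sum, Fin.sum_univ_three] at h1
  simp only [S15, Finset.mem_filter, Finset.mem_product, Finset.mem_range]
  omega

private instance fin15 : Finite {e : Fin 3 →₀ ℕ // e.degree = 4} :=
  Finite.of_injective (fun e => (⟨(e.1 0, e.1 1), mem15 e⟩ : S15))
    (fun e e' h => emb15 (by simpa using h))

private theorem card15 : Cardinal.mk {e : Fin 3 →₀ ℕ // e.degree = 4} ≤
    Cardinal.mk (Fin 3 × Fin 2 ⊕ Fin 3 × Fin 3) := by
  have h1 : Cardinal.mk {e : Fin 3 →₀ ℕ // e.degree = 4} ≤ Cardinal.mk S15 :=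
    Cardinal.mk_le_of_injective (f := fun e => (⟨(e.1 0, e.1 1), mem15 e⟩ : S15))
      (fun e e' h => emb15 (by simpa using h))
  refine h1.trans ?_
  have e1 : Cardinal.mk S15 = (15 : ℕ) := by
    rw [Cardinal.mk_coe_finset, S15_card]
  have e2 : Cardinal.mk (Fin 3 × Fin 2 ⊕ Fin 3 × Fin 3) = (15 : ℕ) := by
    rw [Cardinal.mk_fintype]
    congr 1
  rw [e1, e2]

theorem ind {C M : Type*} [Field C] [CharZero C] [Field M] [IsAlgClosed M] [Algebra C M]
    (t : Fin 3 → Fin 2 → M) (g : Fin 3 → Fin 3 → M)
    (h : IsTranscendenceBasis C (Sum.elim (fun x : Fin 3 × Fin 2 => t x.1 x.2)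
      fun x : Fin 3 × Fin 3 => g x.1 x.2)) :
    AlgebraicIndependent C fun e : {e : Fin 3 →₀ ℕ // e.degree = 4} =>
      coeff e.1 (sb (Matrix.of g) (RB (bg t))) := by
  set x : {e : Fin 3 →₀ ℕ // e.degree = 4} → M := fun e => coeff e.1 (sb (Matrix.of g) (RB (bg t)))
    with hx
  -- independence of the parts
  have htC : AlgebraicIndependent C fun x : Fin 3 × Fin 2 => t x.1 x.2 :=
    h.1.comp Sum.inl Sum.inl_injective
  have hgC : AlgebraicIndependent C fun x : Fin 3 × Fin 3 => g x.1 x.2 :=
    h.1.comp Sum.inr Sum.inr_injective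
  have htZ : AlgebraicIndependent ℤ fun x : Fin 3 × Fin 2 => t x.1 x.2 :=
    htC.restrictScalars (by
      intro a b hab
      simpa using hab)
  have hdet : (Matrix.of g).det ≠ 0 := by
    intro h0
    apply Matrix.det_mvPolynomialX_ne_zero (Fin 3) C
    apply hgC
    rw [map_zero]
    have h1 := Matrix.mvPolynomialX_mapMatrix_aeval C (Matrix.of g)
    have h2 := congrArg Matrix.det h1
    rw [← AlgHom.map_det] at h2
    rw [h0] at h2
    exact h2
  let L := IntermediateField.adjoin C (Set.range x)
  let k := algebraicClosure L M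
  have hkc : IsAlgClosed k := IsAlgClosure.isAlgClosed L
  have : CharZero M := charZero_of_injective_algebraMap (algebraMap C M).injective
  have : CharZero k := charZero_of_injective_algebraMap (algebraMap C k).injective
  have hLk : ∀ y : M, y ∈ L → y ∈ k := fun y hy => (algebraMap L k ⟨y, hy⟩).2
  have hhom : (sb (Matrix.of g) (RB (bg t))).IsHomogeneous 4 := sb_hom _ (RQ_hom (yy (bg t)))
  have hcoef : ∀ e : Fin 3 →₀ ℕ, coeff e (sb (Matrix.of g) (RB (bg t))) ∈ k := by
    intro e
    by_cases he : e.degree = 4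
    · exact hLk _ (IntermediateField.subset_adjoin C _ ⟨⟨e, he⟩, rfl⟩)
    · have h0 : coeff e (sb (Matrix.of g) (RB (bg t))) = 0 := by
        by_contra hne
        apply he
        have := hhom hne
        rw [Finsupp.degree_eq_weight_one]
        exact this
      rw [h0]
      exact zero_mem _
  obtain ⟨F, hF⟩ : sb (Matrix.of g) (RB (bg t)) ∈ Set.range (MvPolynomial.map (algebraMap k M)) := by
    rw [mem_range_map_iff_coeffs_subset]
    intro y hy
    obtain ⟨e, -, he⟩ := mem_coeffs_iff.1 hy
    rw [he]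
    exact ⟨⟨_, hcoef e⟩, rfl⟩
  have hNS : NS (MvPolynomial.map (algebraMap k M) F) := by
    rw [hF]
    exact ns_sb hdet (gsm t htZ)
  obtain ⟨hb, hg⟩ := dsc F hNS (Matrix.of g) hdet (bg t) (gnd t htZ) hF
  have hmem : ∀ i, Sum.elim (fun x : Fin 3 × Fin 2 => t x.1 x.2)
      (fun x : Fin 3 × Fin 3 => g x.1 x.2) i ∈ k := by
    rintro (⟨i, j⟩ | ⟨i, j⟩)
    · obtain ⟨c, hc⟩ := hb i.succ j.succ
      have : t i j = algebraMap k M c := hc
      change t i j ∈ k
      rw [this]
      exact c.2
    · obtain ⟨c, hc⟩ := hg i j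
      have : g i j = algebraMap k M c := hc
      change g i j ∈ k
      rw [this]
      exact c.2
  let L' := IntermediateField.adjoin C (Set.range (Sum.elim (fun x : Fin 3 × Fin 2 => t x.1 x.2)
      (fun x : Fin 3 × Fin 3 => g x.1 x.2)))
  have hL' : L' ≤ k.restrictScalars C := by
    rw [IntermediateField.adjoin_le_iff]
    rintro _ ⟨i, rfl⟩
    exact hmem i
  have halgL' : Algebra.IsAlgebraic L' M := h.isAlgebraic_field
  have halgk : Algebra.IsAlgebraic k M := by
    let f : L' →+* k := (algebraMap L' M).codRestrict k (fun y => hL' y.2)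
    refine Algebra.IsAlgebraic.ringHom_of_comp_eq (R := L') (A := M) f (RingHom.id M)
      f.injective Function.surjective_id ?_
    ext y
    rfl
  have halgL : Algebra.IsAlgebraic L M := Algebra.IsAlgebraic.trans L k M
  have halg : Algebra.IsAlgebraic (Algebra.adjoin C (Set.range x)) M :=
    (IsFractionRing.comap_isAlgebraic_iff (A := Algebra.adjoin C (Set.range x))
      (K := IntermediateField.adjoin C (Set.range x))).2 halgL
  have hle : Cardinal.lift.{_, 0} (Cardinal.mk {e : Fin 3 →₀ ℕ // e.degree = 4}) ≤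
      Cardinal.lift.{0, _} (Algebra.trdeg C M) := by
    rw [← h.lift_cardinalMk_eq_trdeg]
    exact Cardinal.lift_le.2 card15
  exact (Algebra.IsAlgebraic.isTranscendenceBasis_of_lift_le_trdeg_of_finite C x hle).1

end Pool.Agent.PQ
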