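import Pool.Agent.PQ.BTV
import Pool.Agent.PQ.DIV
import Pool.Agent.PQ.DefsK

/-!
# PQ / INE

Inertia fixes the bitangents.  `σ z - z ∈ V.nonunits ⊆ V` for `z ∈ V`, so `σ V ⊆ V`.  `v' i := σ (v i)`, an element of `V` with the same reduction,
so `v'` is primitive and the cross product of the reductions is `0`.  Apply `σ` (coefficientwise, `MvPolynomial.map`) to
`Bit (map G) v Q`: the coefficients of `map G` lie in `K` (`hK`), so `Bit (map G) v' (map σ Q)`.  `btv` for both, then `div'`.
-/

namespace Pool.Agent.PQ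

open MvPolynomial Matrix

theorem ine {K C : Type*} [Field K] [Field C] [Algebra K C] [IsAlgClosed C] (V : ValuationSubring C)
    (h2 : V.valuation (2 : C) = 1) (G : P3 V) (hG : G.IsHomogeneous 4)
    (hNS : NS (map (IsLocalRing.residue V) G))
    (hK : ∃ G0 : P3 K, map (algebraMap K C) G0 = map (algebraMap V C) G)
    (v : Fin 3 → V) (hv : ∃ i, V.valuation (v i : C) = 1) (Q : P3 C)
    (hb : Bit (map (algebraMap V C) G) (fun i => (v i : C)) Q) (σ : C ≃ₐ[K] C) (hσ : ESH.Inert V σ) :
    crossProduct (fun i => (v i : C)) (fun i => σ (v i : C)) = 0 := by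
  have hmem : ∀ z ∈ V, σ z ∈ V := by
    intro z hz
    have h1 := V.add_mem _ _ (V.nonunits_subset (hσ z hz)) hz
    rwa [sub_add_cancel] at h1
  have hval : ∀ z : C, V.valuation z = 1 → V.valuation (σ z) = 1 := by
    intro z hz
    have hzV : z ∈ V := (V.valuation_le_one_iff z).1 hz.le
    have h1 : V.valuation (σ z - z) < 1 := (ValuationSubring.mem_nonunits_iff V).1 (hσ z hzV)
    have h2 : V.valuation (σ z - z) < V.valuation z := by rwa [hz]
    have h3 := Valuation.map_add_eq_of_lt_left V.valuation h2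
    rw [add_sub_cancel] at h3
    rw [h3, hz]
  set v' : Fin 3 → V := fun i => ⟨σ (v i : C), hmem _ (v i).2⟩ with hv'
  have hvp : ∃ i, V.valuation (v' i : C) = 1 := by
    obtain ⟨i, hi⟩ := hv
    exact ⟨i, hval _ hi⟩
  obtain ⟨G0, hG0⟩ := hK
  have hGσ : map (σ : C →+* C) (map (algebraMap V C) G) = map (algebraMap V C) G := by
    have h1 : (σ : C →+* C).comp (algebraMap K C) = algebraMap K C :=
      RingHom.ext fun x => σ.commutes x
    rw [← hG0, MvPolynomial.map_map, h1]
  have hb' : Bit (map (algebraMap V C) G) (fun i => (v' i : C)) (map (σ : C →+* C) Q) := by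
    have h1 := hb.map (σ : C →+* C)
    rw [hGσ] at h1
    exact h1
  obtain ⟨Q1, hQ1, _⟩ := btv V G hG v hv Q hb
  obtain ⟨Q2, hQ2, _⟩ := btv V G hG v' hvp _ hb'
  have hres : ∀ i, IsLocalRing.residue V (v' i) = IsLocalRing.residue V (v i) := by
    intro i
    have h1 := hσ (v i : C) (v i).2
    obtain ⟨h2, h3⟩ := (ValuationSubring.mem_nonunits_iff_exists_mem_maximalIdeal).1 h1
    have h4 : v' i - v i ∈ IsLocalRing.maximalIdeal V := h3
    rw [← sub_eq_zero, ← map_sub]
    exact (IsLocalRing.residue_eq_zero_iff _).2 h4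
  have hx : crossProduct (fun i => IsLocalRing.residue V (v i))
      (fun i => IsLocalRing.residue V (v' i)) = 0 := by
    rw [show (fun i => IsLocalRing.residue V (v' i)) = fun i => IsLocalRing.residue V (v i) from
      funext hres]
    exact cross_self _
  have h1 := div' V h2 G hG hNS v v' hv hvp Q1 Q2 hQ1 hQ2 hx
  have h3 := map_cross (algebraMap V C) v v'
  rw [h1] at h3
  refine h3.trans ?_
  ext i
  simp

end Pool.Agent.PQ
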