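import Pool.Agent.PQ.DefsK
import Pool.Agent.PQ.MPB
import Pool.Agent.ESH.CVU
import Pool.Agent.ST.Gauss

/-!
# PQ / MDV

Good models over the valuation rings of `C`.  `cvu_under`: `V` lies over a place `v` of `K`, `v ∉ T` (`not_over`), `2 ∉ v` (`res_char` for `p = 2`,
`cvu_prime`).  `GoodQ F v` gives `g, c, G0` over `(v.valuation K).valuationSubring`; this ring maps to `V` (`VOver`), let `G` be the image of `G0`.
`SF.map`, `SF.ns`.  Homogeneous: `map G` is, and `algebraMap V C` is injective.
-/

namespace Pool.Agent.PQ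

open MvPolynomial Matrix NumberField IsDedekindDomain

theorem mdv {K C : Type*} [Field K] [NumberField K] [Field C] [Algebra K C] [Algebra.IsAlgebraic K C]
    [IsAlgClosed C] (T : Finset (HeightOneSpectrum (𝓞 K))) (F : MvPolynomial (Fin 3) K)
    (hF : F.IsHomogeneous 4) (hT : GoodOut T F) (V : ValuationSubring C) (hV : ESH.GoodV T 2 V) :
    ∃ (g : Matrix (Fin 3) (Fin 3) K) (c : K) (G : P3 V), g.det ≠ 0 ∧ c ≠ 0 ∧ G.IsHomogeneous 4 ∧
      NS (map (IsLocalRing.residue V) G) ∧
      map (algebraMap V C) G = map (algebraMap K C) (MvPolynomial.C c * sb g F) := by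
  obtain ⟨v, hv⟩ := ESH.cvu_under (K := K) V hV.ne_top
  have hvT : v ∉ T := fun h => hV.not_over v h hv
  have hv2 : (2 : 𝓞 K) ∉ v.asIdeal := by
    intro h
    rw [ESH.cvu_prime V v hv 2] at h
    have h1 : V.valuation (algebraMap K C ((2 : 𝓞 K) : K)) < 1 :=
      (ValuationSubring.mem_nonunits_iff V).mp h
    have h2 := hV.res_char 2 Nat.prime_two le_rfl
    have h3 : algebraMap K C ((2 : 𝓞 K) : K) = ((2 : ℕ) : C) := by
      have h4 : ((2 : 𝓞 K) : K) = ((2 : ℕ) : K) := by
        rw [Nat.cast_ofNat]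
        exact map_ofNat (algebraMap (𝓞 K) K) 2
      rw [h4, map_natCast]
    rw [h3, h2] at h1
    exact lt_irrefl _ h1
  obtain ⟨g, c, G0, hg, hc, hG, hS⟩ := hT v hvT hv2
  let φ : (v.valuation K).valuationSubring →+* V :=
    ((algebraMap K C).comp (v.valuation K).valuationSubring.subtype).codRestrict V.toSubring
      fun x => (hv x).mpr x.2
  have hφ : (algebraMap V C).comp φ =
      (algebraMap K C).comp (algebraMap (v.valuation K).valuationSubring K) := RingHom.ext fun x => rfl
  have hm : map (algebraMap V C) (map φ G0) = map (algebraMap K C) (MvPolynomial.C c * sb g F) := by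
    rw [MvPolynomial.map_map, hφ, ← MvPolynomial.map_map, hG]
  refine ⟨g, c, map φ G0, hg, hc, ?_, ?_, hm⟩
  · have hinj : Function.Injective (algebraMap V C) := Subtype.val_injective
    refine MvPolynomial.IsHomogeneous.of_map hinj ?_
    rw [hm]
    refine MvPolynomial.IsHomogeneous.map ?_ _
    have h5 := (MvPolynomial.isHomogeneous_C (Fin 3) c).mul (sb_hom g hF)
    rwa [zero_add] at h5
  · exact ((hS.map φ).map (IsLocalRing.residue V)).ns

end Pool.Agent.PQ
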