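import Pool.Agent.PQ.BTV
import Pool.Agent.PQ.DIV
import Pool.Agent.PQ.BOF

/-!
# PQ / NCV

Three bitangents with pairwise opposite values have unit determinant.  `btv`: `Q' i : P3 V` with `Bit G (v i) (Q' i)` and the same
values on the lines, so `Opp (v i) (Q' i) (v j) (Q' j)` over `V` (the cross product lies on both lines; `algebraMap V M` injective).
Reduce modulo the maximal ideal: `Bit.map`, `Opp.map`; the reductions are pairwise independent by `div'`; `ncf` (`2 ≠ 0` in the residue
field since `V.valuation 2 = 1`): the reduction of the determinant is not `0`.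
-/

namespace Pool.Agent.PQ

open MvPolynomial Matrix

private theorem ncv_unit_iff {M : Type*} [Field M] (V : ValuationSubring M) (x : V) :
    V.valuation (x : M) = 1 ↔ IsLocalRing.residue V x ≠ 0 := by
  rw [← V.valuation_eq_one_iff x]
  rw [Ne, IsLocalRing.residue_eq_zero_iff, IsLocalRing.mem_maximalIdeal, mem_nonunits_iff, not_not]

theorem ncv {M : Type*} [Field M] [IsAlgClosed M] (V : ValuationSubring M) (h2 : V.valuation (2 : M) = 1)
    (G : P3 V) (hG : G.IsHomogeneous 4) (hNS : NS (map (IsLocalRing.residue V) G))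
    (v : Fin 3 → Fin 3 → V) (hv : ∀ i, ∃ j, V.valuation (v i j : M) = 1) (Q : Fin 3 → P3 M)
    (hb : ∀ i, Bit (map (algebraMap V M) G) (fun j => (v i j : M)) (Q i))
    (hx : ∀ i j, i ≠ j → crossProduct (fun l => (v i l : M)) (fun l => (v j l : M)) ≠ 0)
    (ho : ∀ i j, i ≠ j → Opp (fun l => (v i l : M)) (Q i) (fun l => (v j l : M)) (Q j)) :
    V.valuation (Matrix.det (Matrix.of fun i j => (v i j : M))) = 1 := by
  choose Q' hbQ heQ using fun i => btv V G hG (v i) (hv i) (Q i) (hb i)
  have hcross : ∀ i j, (fun l => ((crossProduct (v i) (v j) l : V) : M)) =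
      crossProduct (fun l => (v i l : M)) (fun l => (v j l : M)) := fun i j =>
    (map_cross (algebraMap V M) (v i) (v j)).symm
  have heval : ∀ (P : P3 V) (p : Fin 3 → V), ((eval p P : V) : M) =
      eval (fun l => (p l : M)) (map (algebraMap V M) P) := by
    intro P p
    rw [eval_map]
    exact eval₂_comp (algebraMap V M) p P
  have hopp : ∀ i j, i ≠ j → Opp (v i) (Q' i) (v j) (Q' j) := by
    intro i j hij
    unfold Opp
    apply Subtype.ext
    have e1 : ((eval (crossProduct (v i) (v j)) (Q' i) : V) : M) =
        eval (crossProduct (fun l => (v i l : M)) (fun l => (v j l : M))) (Q i) := by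
      rw [heval, hcross]
      exact heQ i _ (dot_self_cross _ _)
    have e2 : ((eval (crossProduct (v i) (v j)) (Q' j) : V) : M) =
        eval (crossProduct (fun l => (v i l : M)) (fun l => (v j l : M))) (Q j) := by
      rw [heval, hcross]
      exact heQ j _ (dot_cross_self _ _)
    have e3 := ho i j hij
    unfold Opp at e3
    rw [← e1, ← e2] at e3
    rw [e3]
    rfl
  have h2κ : (2 : IsLocalRing.ResidueField V) ≠ 0 := by
    have h3 := (ncv_unit_iff V (2 : V)).1 (by exact h2)
    rwa [map_ofNat] at h3
  have hdet := ncf h2κ hNS (fun i l => IsLocalRing.residue V (v i l))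
    (fun i => map (IsLocalRing.residue V) (Q' i)) (fun i => (hbQ i).map _)
    (by
      intro i j hij h0
      have h1 := div' V h2 G hG hNS (v i) (v j) (hv i) (hv j) (Q' i) (Q' j) (hbQ i) (hbQ j) h0
      apply hx i j hij
      rw [← hcross i j, h1]
      funext l
      rfl)
    (fun i j hij => (hopp i j hij).map _)
  have e4 : Matrix.det (Matrix.of fun i j => (v i j : M)) =
      ((Matrix.det (Matrix.of v) : V) : M) := by
    change _ = algebraMap V M (Matrix.det (Matrix.of v))
    rw [RingHom.map_det]
    rfl
  rw [e4, ncv_unit_iff]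
  intro h0
  apply hdet
  rw [RingHom.map_det] at h0
  exact h0

end Pool.Agent.PQ
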