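import Pool.Agent.PQ.ALB
import Pool.Agent.PQ.NSX
import Pool.Agent.PQ.QFP
import Pool.Agent.PQ.GLU

/-!
# PQ / STC

Not all conics of the pencil are degenerate.  Suppose `dq (Ct t) = 0` for all `t : k`.  `t ↦ dq (Ct t)` is a polynomial in `t` (the
coefficients `cf (Ct t)` are polynomials of degree 2 in `t`), so it is the zero polynomial.  Let `M` be an algebraic closure of
`FractionRing k[X]` (or `RatFunc k`), `τ ∈ M` the variable, transcendental over `k`.  Then `dq (Ct τ) = 0` for the forms mapped to `M`, and by `qfp`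
`Ct τ = lin m * lin m'`.  `F_M = map F` is `NS` (`nsx`).  `Ct τ ≠ 0` (otherwise `F_M` is a square, `ct_eq`; a square is not `NS`: it
has a zero by `bin_zero`).  So `m, m' ≠ 0`, and by `ct_eq` both are bitangents of `F_M` with `q + τ ℓ1 ℓ2`; `alb'`: `m = μ • m0`, `m' = μ' • m0'`,
`m0, m0' : Fin 3 → k`.  So `Ct τ = C γ * map n`, `n = lin m0 * lin m0' ≠ 0`, `γ = μ μ'`.  Comparing coefficients: for every exponent `e`,
`(C'_e - 2 τ q_e - τ² p_e) n_{e0} = (C'_{e0} - 2 τ q_{e0} - τ² p_{e0}) n_e`, `p = ℓ1 ℓ2`, `n_{e0} ≠ 0`; `1, τ, τ²` are linearly independent over `k`, so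
`C', q, p` are constant multiples of `n`; `p ≠ 0`, so `q = c1 p`, `C' = c2 p` and `F = (c1² + c2) p²` is not `NS` (any `x ≠ 0` with `v1 ⬝ x = 0`).
-/

namespace Pool.Agent.PQ

open MvPolynomial Matrix

private theorem STC_lin_ne {k : Type*} [Field k] {v : Fin 3 → k} (hv : v ≠ 0) : lin v ≠ 0 := by
  intro h
  apply hv
  funext i
  have h1 := congrArg (eval (Pi.single i (1 : k))) h
  rw [eval_lin, map_zero, dotProduct_single, mul_one] at h1
  exact h1

/-- the coefficients of the conics of the pencil as polynomials -/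
private noncomputable def STC_A {k : Type*} [Field k] (v1 v2 : Fin 3 → k) (q C' : P3 k) (i j : Fin 3) :
    Polynomial k := Polynomial.C (cf C' i j) + Polynomial.C (-2 * cf q i j) * Polynomial.X +
    Polynomial.C (-cf (lin v1 * lin v2) i j) * Polynomial.X ^ 2

/-- the discriminant of the conics of the pencil as a polynomial -/
private noncomputable def STC_D {k : Type*} [Field k] (v1 v2 : Fin 3 → k) (q C' : P3 k) : Polynomial k :=
  Polynomial.C 4 * STC_A v1 v2 q C' 0 0 * STC_A v1 v2 q C' 1 1 * STC_A v1 v2 q C' 2 2 +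
    STC_A v1 v2 q C' 0 1 * STC_A v1 v2 q C' 0 2 * STC_A v1 v2 q C' 1 2 -
    STC_A v1 v2 q C' 0 0 * STC_A v1 v2 q C' 1 2 ^ 2 - STC_A v1 v2 q C' 1 1 * STC_A v1 v2 q C' 0 2 ^ 2 -
    STC_A v1 v2 q C' 2 2 * STC_A v1 v2 q C' 0 1 ^ 2

private theorem STC_cf {k M : Type*} [Field k] [Field M] [Algebra k M] (v1 v2 : Fin 3 → k) (q C' : P3 k)
    (τ : M) (i j : Fin 3) :
    cf (Ct (fun i => algebraMap k M (v1 i)) (fun i => algebraMap k M (v2 i)) (map (algebraMap k M) q)
      (map (algebraMap k M) C') τ) i j = Polynomial.aeval τ (STC_A v1 v2 q C' i j) := by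
  unfold cf Ct STC_A
  rw [coeff_sub, coeff_sub, coeff_C_mul, coeff_C_mul, ← map_lin, ← map_lin, ← map_mul, coeff_map, coeff_map,
    coeff_map]
  simp only [map_add, map_mul, map_pow, Polynomial.aeval_C, Polynomial.aeval_X, map_neg, map_ofNat]
  unfold cf
  ring

private theorem STC_dq {k M : Type*} [Field k] [Field M] [Algebra k M] (v1 v2 : Fin 3 → k) (q C' : P3 k)
    (τ : M) : Polynomial.aeval τ (STC_D v1 v2 q C') =
    dq (Ct (fun i => algebraMap k M (v1 i)) (fun i => algebraMap k M (v2 i)) (map (algebraMap k M) q)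
      (map (algebraMap k M) C') τ) := by
  unfold dq STC_D
  simp only [STC_cf, map_add, map_sub, map_mul, map_pow, map_ofNat]

private theorem STC_eval {k : Type*} [Field k] (v1 v2 : Fin 3 → k) (q C' : P3 k)
    (t : k) : (STC_D v1 v2 q C').eval t = dq (Ct v1 v2 q C' t) := by
  have h := STC_dq (M := k) v1 v2 q C' t
  rw [Polynomial.coe_aeval_eq_eval] at h
  rw [h, Algebra.algebraMap_self, MvPolynomial.map_id, MvPolynomial.map_id]
  rfl

private theorem STC_deg {k : Type*} [Field k] (v1 v2 : Fin 3 → k) (q C' : P3 k) :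
    (STC_D v1 v2 q C').natDegree ≤ 6 := by
  have h2 : ∀ i j, (STC_A v1 v2 q C' i j).natDegree ≤ 2 := by
    intro i j
    unfold STC_A
    compute_degree
  have h3 : ∀ a b c : Polynomial k, a.natDegree ≤ 2 → b.natDegree ≤ 2 → c.natDegree ≤ 2 →
      (a * b * c).natDegree ≤ 6 := fun a b c ha hb hc =>
    Polynomial.natDegree_mul_le_of_le (m := 4) (n := 2) (Polynomial.natDegree_mul_le_of_le (m := 2) (n := 2) ha hb) hc
  have h4 : ∀ a b : Polynomial k, a.natDegree ≤ 2 → b.natDegree ≤ 2 → (a * b ^ 2).natDegree ≤ 6 :=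
    fun a b ha hb => by
      have := h3 a b b ha hb hb
      rwa [mul_assoc, ← sq] at this
  have h5 : (Polynomial.C 4 * STC_A v1 v2 q C' 0 0).natDegree ≤ 2 :=
    (Polynomial.natDegree_C_mul_le _ _).trans (h2 0 0)
  have hs : ∀ a b : Polynomial k, a.natDegree ≤ 6 → b.natDegree ≤ 6 → (a - b).natDegree ≤ 6 :=
    fun a b ha hb => (Polynomial.natDegree_sub_le _ _).trans (max_le ha hb)
  have ht : ∀ a b : Polynomial k, a.natDegree ≤ 6 → b.natDegree ≤ 6 → (a + b).natDegree ≤ 6 :=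
    fun a b ha hb => (Polynomial.natDegree_add_le _ _).trans (max_le ha hb)
  unfold STC_D
  exact hs _ _ (hs _ _ (hs _ _ (ht _ _ (h3 _ _ _ h5 (h2 1 1) (h2 2 2)) (h3 _ _ _ (h2 0 1) (h2 0 2) (h2 1 2)))
    (h4 _ _ (h2 0 0) (h2 1 2))) (h4 _ _ (h2 1 1) (h2 0 2))) (h4 _ _ (h2 2 2) (h2 0 1))

/-- a multiple of a square is singular -/
private theorem STC_sq {k : Type*} [Field k] [IsAlgClosed k] (R : P3 k) (n : ℕ) (hn : 0 < n)
    (hR : R.IsHomogeneous n) (c : k) (hNS : NS (C c * R ^ 2)) : False := by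
  obtain ⟨p, hp0, -, hp⟩ := bin_zero (0 : Fin 3 → k) R n hn hR
  obtain ⟨i, hi⟩ := hNS p hp0 (by rw [map_mul, map_pow, hp, zero_pow two_ne_zero, mul_zero])
  apply hi
  rw [Derivation.leibniz, Derivation.leibniz_pow, pderiv_C]
  simp [hp]

/-- comparison of coefficients -/
private theorem STC_cmp {k M : Type*} [Field k] [CharZero k] [Field M] [Algebra k M] {τ : M}
    (hτ : Transcendental k τ) (a b c : k)
    (h : algebraMap k M a - 2 * τ * algebraMap k M b - τ ^ 2 * algebraMap k M c = 0) :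
    a = 0 ∧ b = 0 ∧ c = 0 := by
  have h1 := (transcendental_iff.1 hτ) (Polynomial.C a + Polynomial.C (-2 * b) * Polynomial.X +
    Polynomial.C (-c) * Polynomial.X ^ 2) (by
      simp only [map_add, map_mul, map_pow, Polynomial.aeval_C, Polynomial.aeval_X, map_neg, map_ofNat]
      rw [← h]
      ring)
  have e0 := congrArg (fun p => Polynomial.coeff p 0) h1
  have e1 := congrArg (fun p => Polynomial.coeff p 1) h1
  have e2 := congrArg (fun p => Polynomial.coeff p 2) h1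
  simp [Polynomial.coeff_X, Polynomial.coeff_C] at e0 e1 e2
  exact ⟨e0, e1, e2⟩

theorem stc {k : Type*} [Field k] [IsAlgClosed k] [CharZero k] (F : P3 k) (hF : F.IsHomogeneous 4)
    (hNS : NS F) (v1 v2 : Fin 3 → k) (hv1 : v1 ≠ 0) (hv2 : v2 ≠ 0) (q C' : P3 k)
    (hq : q.IsHomogeneous 2) (hC : C'.IsHomogeneous 2) (hE : F = q ^ 2 + lin v1 * lin v2 * C') :
    ∃ t : k, dq (Ct v1 v2 q C' t) ≠ 0 := by
  by_contra hcon
  push Not at hcon
  -- the polynomial vanishes
  have hD : STC_D v1 v2 q C' = 0 := by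
    refine Polynomial.funext fun t => ?_
    rw [STC_eval, hcon t, Polynomial.eval_zero]
  obtain ⟨M, iM, iA, iC, τ, hτ⟩ : ∃ (M : Type _) (_ : Field M) (_ : Algebra k M) (_ : IsAlgClosed M) (τ : M),
      Transcendental k τ := by
    refine ⟨AlgebraicClosure (RatFunc k), inferInstance, inferInstance, inferInstance,
      algebraMap (RatFunc k) _ RatFunc.X, ?_⟩
    rw [transcendental_algebraMap_iff (algebraMap (RatFunc k) (AlgebraicClosure (RatFunc k))).injective]
    exact RatFunc.transcendental_X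
  have hcm : CharZero M := charZero_of_injective_algebraMap (algebraMap k M).injective
  obtain ⟨V1, hV1⟩ : ∃ V1 : Fin 3 → M, V1 = fun i => algebraMap k M (v1 i) := ⟨_, rfl⟩
  obtain ⟨V2, hV2⟩ : ∃ V2 : Fin 3 → M, V2 = fun i => algebraMap k M (v2 i) := ⟨_, rfl⟩
  obtain ⟨qM, hqM⟩ : ∃ qM, qM = map (algebraMap k M) q := ⟨_, rfl⟩
  obtain ⟨CM, hCM⟩ : ∃ CM, CM = map (algebraMap k M) C' := ⟨_, rfl⟩
  have hqh : qM.IsHomogeneous 2 := by rw [hqM]; exact map_hom _ hq
  have hCh : CM.IsHomogeneous 2 := by rw [hCM]; exact map_hom _ hC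
  have hLh : (lin V1 * lin V2).IsHomogeneous 2 := (lin_hom V1).mul (lin_hom V2)
  have hKh : ∀ c : M, (C c * (lin V1 * lin V2)).IsHomogeneous 2 := fun c => by
    have := (isHomogeneous_C (Fin 3) c).mul hLh
    rwa [zero_add] at this
  have hCt : (Ct V1 V2 qM CM τ).IsHomogeneous 2 := by
    unfold Ct
    refine (hCh.sub ?_).sub (hKh _)
    have := (isHomogeneous_C (Fin 3) (2 * τ)).mul hqh
    rwa [zero_add] at this
  have hd : dq (Ct V1 V2 qM CM τ) = 0 := by
    rw [hV1, hV2, hqM, hCM, ← STC_dq, hD, map_zero]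
  obtain ⟨m, m', hm⟩ := qfp (two_ne_zero) _ hCt hd
  have hNM : NS (map (algebraMap k M) F) := nsx F hNS
  have hFM : map (algebraMap k M) F = (qM + C τ * (lin V1 * lin V2)) ^ 2 +
      lin V1 * lin V2 * (lin m * lin m') := by
    rw [← hm, ← ct_eq, hE, map_add, map_mul, map_mul, map_pow, map_lin, map_lin, hqM, hCM, hV1, hV2]
  obtain ⟨R, hR⟩ : ∃ R, R = qM + C τ * (lin V1 * lin V2) := ⟨_, rfl⟩
  have hRh : R.IsHomogeneous 2 := by rw [hR]; exact hqh.add (hKh _)
  rw [← hR] at hFM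
  have hmm : lin m * lin m' ≠ 0 := by
    intro h0
    rw [h0, mul_zero, add_zero] at hFM
    rw [hFM] at hNM
    refine STC_sq R 2 two_pos hRh 1 ?_
    rwa [C_1, one_mul]
  have hm0 : m ≠ 0 := by
    rintro rfl
    exact hmm (by rw [lin_zero, zero_mul])
  have hm0' : m' ≠ 0 := by
    rintro rfl
    exact hmm (by rw [lin_zero, mul_zero])
  obtain ⟨c, w, hc, hw, hmw⟩ := alb' F hNM m hm0 R ⟨hRh, lin m' * (lin V1 * lin V2),
    (lin_hom m').mul hLh, by rw [hFM]; ring⟩
  obtain ⟨c', w', hc', hw', hmw'⟩ := alb' F hNM m' hm0' R ⟨hRh, lin m * (lin V1 * lin V2),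
    (lin_hom m).mul hLh, by rw [hFM]; ring⟩
  obtain ⟨n, hn⟩ : ∃ n, n = lin w * lin w' := ⟨_, rfl⟩
  have hn0 : n ≠ 0 := by
    rw [hn]
    exact mul_ne_zero (STC_lin_ne hw) (STC_lin_ne hw')
  have hCn : Ct V1 V2 qM CM τ = C (c * c') * map (algebraMap k M) n := by
    rw [hm, hmw, hmw', lin_smul, lin_smul, hn, C_mul, map_mul (map (algebraMap k M)), map_lin, map_lin]
    ring
  obtain ⟨e0, he0⟩ := MvPolynomial.ne_zero_iff.1 hn0
  have hcoef : ∀ e, algebraMap k M (coeff e C') - 2 * τ * algebraMap k M (coeff e q) -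
      τ ^ 2 * algebraMap k M (coeff e (lin v1 * lin v2)) = c * c' * algebraMap k M (coeff e n) := by
    intro e
    have h1 := congrArg (coeff e) hCn
    unfold Ct at h1
    rw [coeff_sub, coeff_sub, coeff_C_mul, coeff_C_mul, coeff_C_mul, hqM, hCM, hV1, hV2, ← map_lin, ← map_lin,
      ← map_mul, coeff_map, coeff_map, coeff_map, coeff_map] at h1
    exact h1
  have hcmp : ∀ e, coeff e C' * coeff e0 n - coeff e0 C' * coeff e n = 0 ∧
      coeff e q * coeff e0 n - coeff e0 q * coeff e n = 0 ∧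
      coeff e (lin v1 * lin v2) * coeff e0 n - coeff e0 (lin v1 * lin v2) * coeff e n = 0 := by
    intro e
    refine STC_cmp hτ _ _ _ ?_
    have h1 := hcoef e
    have h2 := hcoef e0
    simp only [map_sub, map_mul]
    linear_combination (algebraMap k M (coeff e0 n)) * h1 - (algebraMap k M (coeff e n)) * h2
  have hp0 : lin v1 * lin v2 ≠ 0 := mul_ne_zero (STC_lin_ne hv1) (STC_lin_ne hv2)
  have hpe : coeff e0 (lin v1 * lin v2) ≠ 0 := by
    intro h0
    apply hp0
    ext e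
    have h1 := (hcmp e).2.2
    rw [h0, zero_mul, sub_zero] at h1
    rw [coeff_zero]
    exact (mul_eq_zero.1 h1).resolve_right he0
  have hqp : q = C (coeff e0 q / coeff e0 (lin v1 * lin v2)) * (lin v1 * lin v2) := by
    ext e
    rw [coeff_C_mul]
    obtain ⟨-, h2, h3⟩ := hcmp e
    have h4 : (coeff e q * coeff e0 (lin v1 * lin v2) - coeff e0 q * coeff e (lin v1 * lin v2)) *
        coeff e0 n = 0 := by
      linear_combination (coeff e0 (lin v1 * lin v2)) * h2 - (coeff e0 q) * h3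
    have h5 := (mul_eq_zero.1 h4).resolve_right he0
    field_simp
    linear_combination h5
  have hCp : C' = C (coeff e0 C' / coeff e0 (lin v1 * lin v2)) * (lin v1 * lin v2) := by
    ext e
    rw [coeff_C_mul]
    obtain ⟨h2, -, h3⟩ := hcmp e
    have h4 : (coeff e C' * coeff e0 (lin v1 * lin v2) - coeff e0 C' * coeff e (lin v1 * lin v2)) *
        coeff e0 n = 0 := by
      linear_combination (coeff e0 (lin v1 * lin v2)) * h2 - (coeff e0 C') * h3
    have h5 := (mul_eq_zero.1 h4).resolve_right he0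
    field_simp
    linear_combination h5
  obtain ⟨c1, hc1⟩ : ∃ c1, c1 = coeff e0 q / coeff e0 (lin v1 * lin v2) := ⟨_, rfl⟩
  obtain ⟨c2, hc2⟩ : ∃ c2, c2 = coeff e0 C' / coeff e0 (lin v1 * lin v2) := ⟨_, rfl⟩
  rw [← hc1] at hqp
  rw [← hc2] at hCp
  have hFp : F = C (c1 ^ 2 + c2) * (lin v1 * lin v2) ^ 2 := by
    rw [hE, hqp, hCp, C_add, C_pow]
    ring
  rw [hFp] at hNS
  exact STC_sq _ 2 two_pos ((lin_hom v1).mul (lin_hom v2)) _ hNS

/-- at most six degenerate conics -/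
theorem std {k : Type*} [Field k] [IsAlgClosed k] [CharZero k] (F : P3 k) (hF : F.IsHomogeneous 4)
    (hNS : NS F) (v1 v2 : Fin 3 → k) (hv1 : v1 ≠ 0) (hv2 : v2 ≠ 0) (q C' : P3 k)
    (hq : q.IsHomogeneous 2) (hC : C'.IsHomogeneous 2) (hE : F = q ^ 2 + lin v1 * lin v2 * C') :
    ∃ T : Finset k, T.card ≤ 6 ∧ ∀ t : k, dq (Ct v1 v2 q C' t) = 0 → t ∈ T := by
  classical
  obtain ⟨t0, ht0⟩ := stc F hF hNS v1 v2 hv1 hv2 q C' hq hC hE
  have hD : STC_D v1 v2 q C' ≠ 0 := by
    intro h0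
    rw [← STC_eval, h0, Polynomial.eval_zero] at ht0
    exact ht0 rfl
  refine ⟨(STC_D v1 v2 q C').roots.toFinset, ?_, fun t ht => ?_⟩
  · exact ((STC_D v1 v2 q C').roots.toFinset_card_le).trans
      (((STC_D v1 v2 q C').card_roots').trans (STC_deg v1 v2 q C'))
  · rw [Multiset.mem_toFinset, Polynomial.mem_roots hD, Polynomial.IsRoot, STC_eval, ht]

end Pool.Agent.PQ
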