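import Pool.Agent.PQ.NCV
import Pool.Agent.PQ.TRF

/-!
# PQ / SYS

Let `L' i = (L i : M)`.  `map G = C c * sb h⁻¹ R` (`sb_inv`).  `e² = c` (`M` algebraically closed), `e ≠ 0`.  By `trf_bit` and `scl_bit`
`Bit (map G) (η i ⁻¹ • (w i ᵥ* h⁻¹)) (C e * sb h⁻¹ (Q i))`, and `η i ⁻¹ • (w i ᵥ* h⁻¹) = L' i`; `Opp` by `trf_opp`, `scl_opp`; cross
products non-zero by `cross_ne` (`det h⁻¹ ≠ 0`) and scaling.  `ncv`: `V.valuation (det L') = 1`.  `det w = (∏ η i) * det L' * det h`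
(rows `w i = η i • (L' i ᵥ* h)`).
-/

namespace Pool.Agent.PQ

open MvPolynomial Matrix

theorem sys {M : Type*} [Field M] [IsAlgClosed M] (V : ValuationSubring M) (h2 : V.valuation (2 : M) = 1)
    (G : P3 V) (hG : G.IsHomogeneous 4) (hNS : NS (map (IsLocalRing.residue V) G)) (R : P3 M)
    (h : Matrix (Fin 3) (Fin 3) M) (hh : h.det ≠ 0) (c : M) (hc : c ≠ 0)
    (hE : sb h (map (algebraMap V M) G) = C c * R) (w : Fin 3 → Fin 3 → M) (Q : Fin 3 → P3 M)
    (hb : ∀ i, Bit R (w i) (Q i)) (hx : ∀ i j, i ≠ j → crossProduct (w i) (w j) ≠ 0)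
    (ho : ∀ i j, i ≠ j → Opp (w i) (Q i) (w j) (Q j)) (η : Fin 3 → M) (hη : ∀ i, η i ≠ 0)
    (L : Fin 3 → Fin 3 → V) (hL : ∀ i, ∃ j, V.valuation (L i j : M) = 1)
    (hwL : ∀ i, w i = η i • ((fun j => (L i j : M)) ᵥ* h)) :
    V.valuation (Matrix.det (Matrix.of w)) = V.valuation h.det * ∏ i, V.valuation (η i) := by
  obtain ⟨e, he⟩ := IsAlgClosed.exists_pow_nat_eq c two_pos
  have hu : IsUnit h.det := isUnit_iff_ne_zero.2 hh
  have hh' : h⁻¹.det ≠ 0 := by
    rw [Matrix.det_nonsing_inv, Ring.inverse_eq_inv']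
    exact inv_ne_zero hh
  have hF : map (algebraMap V M) G = C (e ^ 2) * sb h⁻¹ R := by
    rw [← sb_inv h hh (map (algebraMap V M) G), hE, map_mul, sb_C, he]
  have hLw : ∀ i, (fun j => (L i j : M)) = (η i)⁻¹ • (w i ᵥ* h⁻¹) := by
    intro i
    rw [hwL i, Matrix.smul_vecMul, smul_smul, inv_mul_cancel₀ (hη i), one_smul,
      Matrix.vecMul_vecMul, Matrix.mul_nonsing_inv _ hu, Matrix.vecMul_one]
  have hdet : V.valuation (Matrix.det (Matrix.of fun i j => (L i j : M))) = 1 := by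
    refine ncv V h2 G hG hNS L hL (fun i => C e * sb h⁻¹ (Q i)) ?_ ?_ ?_
    · intro i
      rw [hF, hLw i]
      exact scl_bit (trf_bit h⁻¹ (hb i)) _ e (inv_ne_zero (hη i))
    · intro i j hij
      rw [hLw i, hLw j, LinearMap.map_smul₂, map_smul, smul_smul]
      exact smul_ne_zero (mul_ne_zero (inv_ne_zero (hη i)) (inv_ne_zero (hη j)))
        (cross_ne hh' (hx i j hij))
    · intro i j hij
      rw [hLw i, hLw j]
      exact scl_opp (sb_hom _ (hb i).hom) (sb_hom _ (hb j).hom)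
        (trf_opp h⁻¹ (hb i).hom (hb j).hom (ho i j hij)) _ _ e
  have hw : Matrix.of w = Matrix.diagonal η * (Matrix.of (fun i j => (L i j : M)) * h) := by
    ext i j
    rw [Matrix.diagonal_mul]
    have h1 := congrFun (hwL i) j
    simp only [Pi.smul_apply, smul_eq_mul, Matrix.vecMul, dotProduct] at h1
    rw [Matrix.of_apply, h1, Matrix.mul_apply]
    rfl
  rw [hw, Matrix.det_mul, Matrix.det_diagonal, Matrix.det_mul, map_mul, map_mul, hdet, one_mul,
    map_prod, mul_comm]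

end Pool.Agent.PQ
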