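import Pool.Agent.PQ.MDV
import Pool.Agent.PQ.UNA
import Pool.Agent.PQ.INE
import Pool.Agent.PQ.CRO

/-!
# PQ / UNK

`mdv`: `g, c0, G`.  `map G = C c0 * sb g F_C`, so `sb (g⁻¹ * h) (map G) = C (c0 c) * RB b` (`sb_sb`; `g` mapped to `C`).  `una`: the valuations.
Inertia: let `h1 = g⁻¹ * h`.  For the lines `w = e_r, b 0, b i`: `prv` for `w ᵥ* h1⁻¹`: `w = η • (L ᵥ* h1)`, `L` primitive in `V`, and `Bit (map G) L _` (`bit_x`,
`bit_s`, `rel_field`, `trf_bit`, `scl_bit` with a square root of the constant).  `ine`: `L × σ L = 0`, so `σ L = ζ • L`, `ζ ≠ 0`.  `cro`: `b i r` is the cross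
ratio of the `L`s; `cro_map`, `cro_smul`: `σ (b i r) = b i r`.
-/

namespace Pool.Agent.PQ

open MvPolynomial Matrix NumberField IsDedekindDomain

private theorem unk_par {k : Type*} [Field k] (L L' : Fin 3 → k) (hL : L ≠ 0) (hL' : L' ≠ 0)
    (hx : crossProduct L L' = 0) : ∃ ζ : k, ζ ≠ 0 ∧ L' = ζ • L := by
  have h0 := congrFun hx 0
  have h1 := congrFun hx 1
  have h2 := congrFun hx 2
  simp only [crossProduct, LinearMap.mk₂_apply, Matrix.cons_val_zero, Matrix.cons_val_one,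
    Matrix.cons_val_two, Matrix.head_cons, Matrix.tail_cons, Pi.zero_apply,
    Matrix.cons_val] at h0 h1 h2
  have key : ∀ i j, L i * L' j = L j * L' i := by
    intro i j
    fin_cases i <;> fin_cases j
    · rfl
    · show L 0 * L' 1 = L 1 * L' 0
      linear_combination h2
    · show L 0 * L' 2 = L 2 * L' 0
      linear_combination -h1
    · show L 1 * L' 0 = L 0 * L' 1
      linear_combination -h2
    · rfl
    · show L 1 * L' 2 = L 2 * L' 1
      linear_combination h0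
    · show L 2 * L' 0 = L 0 * L' 2
      linear_combination h1
    · show L 2 * L' 1 = L 1 * L' 2
      linear_combination -h0
    · rfl
  obtain ⟨i, hi⟩ := Function.ne_iff.1 hL
  have hi' : L i ≠ 0 := hi
  have hL2 : L' = (L' i / L i) • L := by
    ext j
    rw [Pi.smul_apply, smul_eq_mul, div_mul_eq_mul_div, eq_div_iff hi', mul_comm, key i j, mul_comm]
  refine ⟨L' i / L i, ?_, hL2⟩
  intro h
  apply hL'
  rw [hL2, h, zero_smul]

theorem unk {K C : Type*} [Field K] [NumberField K] [Field C] [Algebra K C] [Algebra.IsAlgebraic K C]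
    [IsAlgClosed C] (T : Finset (HeightOneSpectrum (𝓞 K))) (F : MvPolynomial (Fin 3) K)
    (hF : F.IsHomogeneous 4) (hT : GoodOut T F) (h : Matrix (Fin 3) (Fin 3) C) (hh : h.det ≠ 0) (c : C)
    (hc : c ≠ 0) (b : Fin 4 → Fin 3 → C) (hb : ND b)
    (hE : sb h (map (algebraMap K C) F) = MvPolynomial.C c * RB b) (V : ValuationSubring C)
    (hV : ESH.GoodV T 2 V) :
    (∀ i r, V.valuation (b i r) = 1) ∧ (∀ i r, i ≠ 0 → r ≠ 0 → V.valuation (1 - b i r) = 1) ∧
      ∀ σ : C ≃ₐ[K] C, ESH.Inert V σ → ∀ i r, σ (b i r) = b i r := by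
  obtain ⟨g0, c0, G, hg0, hc0, hG, hNS, hGe⟩ := mdv T F hF hT V hV
  have h2 : V.valuation (2 : C) = 1 := by
    have := hV.res_char 2 Nat.prime_two le_rfl
    simpa using this
  set gC : Matrix (Fin 3) (Fin 3) C := g0.map (algebraMap K C) with hgC
  have hgd : gC.det ≠ 0 := by
    have e1 := (algebraMap K C).map_det g0
    rw [RingHom.mapMatrix_apply] at e1
    rw [hgC, ← e1]
    exact (map_ne_zero _).2 hg0
  set h1 : Matrix (Fin 3) (Fin 3) C := gC⁻¹ * h with hh1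
  have e0 : gC * h1 = h := by
    rw [hh1, ← mul_assoc, Matrix.mul_nonsing_inv _ (isUnit_iff_ne_zero.2 hgd), one_mul]
  have hd1 : h1.det ≠ 0 := by
    intro h0
    apply hh
    rw [← e0, Matrix.det_mul, h0, mul_zero]
  set c1 : C := algebraMap K C c0 * c with hc1
  have hc1' : c1 ≠ 0 := mul_ne_zero ((map_ne_zero _).2 hc0) hc
  have hE1 : sb h1 (map (algebraMap V C) G) = MvPolynomial.C c1 * RB b := by
    rw [hGe, map_mul, map_C, map_sb, map_mul, sb_C, sb_sb, e0, hE, hc1, map_mul]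
    ring
  obtain ⟨u1, u2, _, _⟩ := una V h2 G hG hNS h1 hd1 c1 hc1' b hb hE1
  refine ⟨u1, u2, ?_⟩
  intro σ hσ i r
  have hGe2 : map (algebraMap V C) G = MvPolynomial.C c1 * sb h1⁻¹ (RB b) := by
    rw [← sb_inv h1 hd1 (map (algebraMap V C) G), hE1, map_mul, sb_C]
  obtain ⟨e, he⟩ := IsAlgClosed.exists_pow_nat_eq c1 (n := 2) (by norm_num)
  have line : ∀ (w : Fin 3 → C) (Q : P3 C), w ≠ 0 → Bit (RB b) w Q →
      ∃ (η : C) (L : Fin 3 → C) (ζ : C), η ≠ 0 ∧ w = η • (L ᵥ* h1) ∧ ζ ≠ 0 ∧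
        (fun j => σ (L j)) = ζ • L := by
    intro w Q hw hQ
    have hw1 : w ᵥ* h1⁻¹ ≠ 0 := by
      intro h0
      apply hw
      have e1 := congrArg (fun q => q ᵥ* h1) h0
      simpa [Matrix.vecMul_vecMul, Matrix.nonsing_inv_mul _ (isUnit_iff_ne_zero.2 hd1)] using e1
    obtain ⟨η, L, hη, hL, hLp⟩ := prv V (w ᵥ* h1⁻¹) hw1
    have hL' : w ᵥ* h1⁻¹ = η • fun j => (L j : C) := by
      ext j
      rw [hL j]
      rfl
    have hLw : (fun j => (L j : C)) = η⁻¹ • (w ᵥ* h1⁻¹) := by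
      rw [hL', smul_smul, inv_mul_cancel₀ hη, one_smul]
    have b1 := trf_bit h1⁻¹ hQ
    have b2 := scl_bit b1 η⁻¹ e (inv_ne_zero hη)
    rw [he, ← hGe2, ← hLw] at b2
    have hcr := ine V h2 G hG hNS ⟨MvPolynomial.C c0 * sb g0 F, hGe.symm⟩ L hLp _ b2 σ hσ
    have hL0 : (fun j => (L j : C)) ≠ 0 := by
      obtain ⟨j, hj⟩ := hLp
      intro h0
      have := congrFun h0 j
      have e1 : (L j : C) = 0 := this
      rw [e1, map_zero] at hj
      exact zero_ne_one hj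
    have hL1 : (fun j => σ (L j : C)) ≠ 0 := by
      intro h0
      apply hL0
      ext j
      have e1 : σ (L j : C) = 0 := congrFun h0 j
      exact (map_eq_zero σ).1 e1
    obtain ⟨ζ, hζ, hζL⟩ := unk_par _ _ hL0 hL1 hcr
    refine ⟨η, fun j => (L j : C), ζ, hη, ?_, hζ, hζL⟩
    rw [← Matrix.smul_vecMul, ← hL', Matrix.vecMul_vecMul,
      Matrix.nonsing_inv_mul _ (isUnit_iff_ne_zero.2 hd1), Matrix.vecMul_one]
  have lx : ∀ r : Fin 3, ∃ (η : C) (L : Fin 3 → C) (ζ : C), η ≠ 0 ∧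
      (Pi.single r 1 : Fin 3 → C) = η • (L ᵥ* h1) ∧ ζ ≠ 0 ∧ (fun j => σ (L j)) = ζ • L := by
    intro r
    refine line _ (QX (yy b) r) ?_ (bit_x (yy b) r)
    intro h0
    have := congrFun h0 r
    simp at this
  have lb : ∀ i : Fin 4, ∃ (η : C) (L : Fin 3 → C) (ζ : C), η ≠ 0 ∧
      b i = η • (L ᵥ* h1) ∧ ζ ≠ 0 ∧ (fun j => σ (L j)) = ζ • L := by
    intro i
    refine line _ (QS (b i) (yy b)) ?_ (bit_s (b i) (hb.ne i) (yy b) _ (rel_field b i (hb.ne i)))
    intro h0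
    exact hb.ne i 0 (congrFun h0 0)
  choose η L ζ hη hL hζ hζL using lx
  obtain ⟨η', s, ζ', hη', hs, hζ', hζs⟩ := lb 0
  obtain ⟨η'', t, ζ'', hη'', ht, hζ'', hζt⟩ := lb i
  have hb0 : (fun _ => (1 : C)) = b 0 := by
    ext r
    exact (hb.zero r).symm
  have k1 := cro h1 hd1 L s t (b i) (hb.col i) η hη η' η'' hη' hη'' hL (hb0.trans hs) ht r
  have k2 := cro_map (σ : C →+* C) L s t r
  have k3 := cro_smul L s t ζ hζ ζ' ζ'' hζ' hζ'' r
  have f1 : (fun (i : Fin 3) (j : Fin 3) => (σ : C →+* C) (L i j)) = fun i => ζ i • L i := by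
    funext i
    exact hζL i
  have f2 : (fun (j : Fin 3) => (σ : C →+* C) (s j)) = ζ' • s := hζs
  have f3 : (fun (j : Fin 3) => (σ : C →+* C) (t j)) = ζ'' • t := hζt
  rw [f1, f2, f3, k3, k1] at k2
  exact k2

end Pool.Agent.PQ
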